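import Pool.Agent.FlatN.DefsM
import Pool.Agent.Lib_helper54.Flat.Repr

/-!
# Conditions at the ends of a chain
-/

set_option autoImplicit false

namespace Pool.Agent.FlatN

open Real Pool.Agent.Lib_helper54.Flat Pool.Agent.FlatW

/-- The number `c` is `0`; or `1`, and the first link is not longer than the second one; or `2`,
and the lengths of the first three links do not decrease and the first joint angle is at most 90
degrees; or the lengths of the first `c + 1` links do not decrease and all alternating sums of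
consecutive ones of the first `c + 1` joint angles are at most 90 degrees in absolute value (180
degrees if the first joint angle is in the sum). -/
def LeftEnd {n : ℕ} (P : Fin (n + 1) → E3) (c : ℕ) : Prop :=
  c = 0 ∨ (c = 1 ∧ len P 0 ≤ len P 1) ∨
  (c = 2 ∧ len P 0 ≤ len P 1 ∧ len P 1 ≤ len P 2 ∧ jointAngle P 0 ≤ π / 2) ∨
  ((∀ i, i < c → i + 2 ≤ n → len P i ≤ len P (i + 1)) ∧
    ∀ a b, a ≤ b → b ≤ c → b + 2 ≤ n →
      |∑ r ∈ Finset.Icc a b, (-1 : ℝ) ^ r * jointAngle P r| ≤ if a = 0 then π else π / 2)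

/-- The same at the other end. -/
def RightEnd {n : ℕ} (P : Fin (n + 1) → E3) (d : ℕ) : Prop :=
  d = 0 ∨ (d = 1 ∧ len P (n - 1) ≤ len P (n - 2)) ∨
  (d = 2 ∧ len P (n - 1) ≤ len P (n - 2) ∧ len P (n - 2) ≤ len P (n - 3) ∧
    jointAngle P (n - 2) ≤ π / 2) ∨
  ((∀ i, i < d → i + 2 ≤ n → len P (n - 1 - i) ≤ len P (n - 2 - i)) ∧
    ∀ a b, a ≤ b → n ≤ a + 2 + d → b + 2 ≤ n →
      |∑ r ∈ Finset.Icc a b, (-1 : ℝ) ^ r * jointAngle P r| ≤
        if b + 2 = n then π else π / 2)

/-- The path components of the free space that contain a flat configuration. -/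
def flatComponents {n : ℕ} (P : Fin (n + 1) → E3) : Set (Set (Fin (n + 1) → E3)) :=
  {C | ∃ Q ∈ freeSpace P, Coplanar ℝ (Set.range Q) ∧ C = pathComponentIn (freeSpace P) Q}

end Pool.Agent.FlatN
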