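import Pool.Agent.FlatN.Count
import Pool.Agent.FlatN.DefsE

/-!
# The path components with flat configurations
-/

set_option autoImplicit false

namespace Pool.Agent.FlatN

open Real Pool.Agent.Lib_helper54.Flat Pool.Agent.FlatW

section

variable {n : ℕ} {P : Fin (n + 1) → E3}

/-- A list of representatives bounds the number of components. -/
theorem encard_le_of_rep {N : ℕ} (R : Fin N → Fin (n + 1) → E3)
    (hR : ∀ Q ∈ freeSpace P, Coplanar ℝ (Set.range Q) → ∃ r, JoinedIn (freeSpace P) (R r) Q) :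
    (flatComponents P).encard ≤ N := by
  have h1 : flatComponents P ⊆ (fun r => pathComponentIn (freeSpace P) (R r)) '' Set.univ := by
    rintro C ⟨Q, hQ, cQ, rfl⟩
    obtain ⟨r, hr⟩ := hR Q hQ cQ
    refine ⟨r, Set.mem_univ _, ?_⟩
    ext S
    exact ⟨fun h => hr.symm.trans h, fun h => hr.trans h⟩
  refine (Set.encard_le_encard h1).trans ((Set.encard_image_le _ _).trans ?_)
  rw [Set.encard_univ]
  simp

/-- **The number of components with flat configurations.** -/
theorem comp3 (hP : IsSimple P) (cP : Coplanar ℝ (Set.range P)) {c d : ℕ}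
    (hc : LeftEnd P c) (hd : RightEnd P d) {T : Finset ℕ}
    (hT : ∀ i, i ∈ T ↔ 1 + c ≤ i ∧ i + 3 + d ≤ n ∧ ¬ WeaklyLoose n (jointAngle P) i) :
    T.card - 1 ≤ (n - 4 - c - d) / 2 ∧ (flatComponents P).encard ≤ 2 ^ (T.card - 1) := by
  obtain ⟨h1, R, h2⟩ := count3 hP cP hc hd hT
  refine ⟨h1, ?_⟩
  have := encard_le_of_rep R h2
  exact_mod_cast this

/-- The bound for every chain. -/
theorem comp_all (hP : IsSimple P) (cP : Coplanar ℝ (Set.range P)) :
    (flatComponents P).encard ≤ 2 ^ ((n - 4) / 2) := by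
  classical
  obtain ⟨h1, h2⟩ := comp3 hP cP (c := 0) (d := 0) (Or.inl rfl) (Or.inl rfl)
    (T := (Finset.range n).filter fun i =>
      1 + 0 ≤ i ∧ i + 3 + 0 ≤ n ∧ ¬ WeaklyLoose n (jointAngle P) i) (by
      intro i
      simp only [Finset.mem_filter, Finset.mem_range]
      constructor
      · exact fun h => h.2
      · exact fun h => ⟨by omega, h⟩)
  refine h2.trans ?_
  have h3 : (2 : ℕ) ^ (((Finset.range n).filter fun i =>
      1 + 0 ≤ i ∧ i + 3 + 0 ≤ n ∧ ¬ WeaklyLoose n (jointAngle P) i).card - 1) ≤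
      2 ^ ((n - 4) / 2) := by
    apply Nat.pow_le_pow_right (by norm_num)
    simpa using h1
  exact_mod_cast h3

end

end Pool.Agent.FlatN
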