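import Pool.Agent.FlatN.Defs

/-!
# Module P2L: two links before link `2` on one side of its line
-/

set_option autoImplicit false

namespace Pool.Agent.FlatN

open Real Pool.Agent.Lib_helper54.Flat Pool.Agent.FlatW

noncomputable def P2L_pt (x y : ℝ) : E3 :=
  x • (EuclideanSpace.single 0 1 : E3) + y • (EuclideanSpace.single 1 1 : E3)

theorem P2L_inner (x y x' y' : ℝ) :
    (inner ℝ (P2L_pt x y) (P2L_pt x' y') : ℝ) = x * x' + y * y' := by
  simp only [P2L_pt, inner_add_left, inner_add_right, inner_smul_left, inner_smul_right,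
    EuclideanSpace.inner_single_left, RCLike.conj_to_real]
  simp
  ring

theorem P2L_sub (x y x' y' : ℝ) : P2L_pt x y - P2L_pt x' y' = P2L_pt (x - x') (y - y') := by
  simp only [P2L_pt, sub_smul]; abel

theorem P2L_norm {x y r : ℝ} (hr : 0 ≤ r) (h : x * x + y * y = r * r) : ‖P2L_pt x y‖ = r := by
  rw [norm_eq_sqrt_real_inner, P2L_inner, h, Real.sqrt_mul_self hr]

theorem P2L_seg {x1 y1 x2 y2 : ℝ} {z : E3} (hz : z ∈ segment ℝ (P2L_pt x1 y1) (P2L_pt x2 y2)) :
    ∃ t, 0 ≤ t ∧ t ≤ 1 ∧ z = P2L_pt (x1 + t * (x2 - x1)) (y1 + t * (y2 - y1)) := by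
  obtain ⟨α, β, hα, hβ, hαβ, rfl⟩ := hz
  refine ⟨β, hβ, by linarith, ?_⟩
  have e : α = 1 - β := by linarith
  subst e
  simp only [P2L_pt]
  module

theorem P2L_inj {x y x' y' : ℝ} (h : P2L_pt x y = P2L_pt x' y') : x = x' ∧ y = y' := by
  have h1 := congrArg (fun z : E3 => (inner ℝ (P2L_pt 1 0) z : ℝ)) h
  have h2 := congrArg (fun z : E3 => (inner ℝ (P2L_pt 0 1) z : ℝ)) h
  simp only [P2L_inner] at h1 h2
  constructor <;> linarith

theorem P2L_cop (f : Fin 4 → ℝ × ℝ) :
    Coplanar ℝ (Set.range fun i => P2L_pt (f i).1 (f i).2) := by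
  have hle : vectorSpan ℝ (Set.range fun i => P2L_pt (f i).1 (f i).2) ≤
      Submodule.span ℝ {(EuclideanSpace.single 0 1 : E3), (EuclideanSpace.single 1 1 : E3)} := by
    rw [vectorSpan, Submodule.span_le]
    rintro _ ⟨_, ⟨i, rfl⟩, _, ⟨j, rfl⟩, rfl⟩
    rw [SetLike.mem_coe, Submodule.mem_span_pair]
    refine ⟨(f i).1 - (f j).1, (f i).2 - (f j).2, ?_⟩
    exact (P2L_sub _ _ _ _).symm
  unfold Coplanar
  refine (Submodule.rank_mono hle).trans ?_
  refine (rank_span_le _).trans ?_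
  refine (Cardinal.mk_insert_le).trans ?_
  rw [Cardinal.mk_singleton]
  norm_num

theorem P2L_main {l θ : ℕ → ℝ} (hl : ∀ m, 0 < l m)
    (hx : 0 < θ 1) (hx' : θ 1 < π) (hy : 0 < θ 0) (hy' : θ 0 ≤ π)
    (hle : l 0 ≤ l 1) (x : ℝ) (hc : cos (x - θ 1) = cos (θ 0)) (hs : sin x < sin (θ 1)) :
    LeftSide l θ 2 := by
  have hs1 : 0 < sin (θ 1) := sin_pos_of_pos_of_lt_pi hx hx'
  have h0 := hl 0
  have h1 := hl 1
  have h2 := hl 2
  have hb : 0 < l 1 * sin (θ 1) - l 0 * sin x := by
    rcases le_or_gt (sin x) 0 with h | h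
    · have : l 0 * sin x ≤ 0 := mul_nonpos_of_nonneg_of_nonpos h0.le h
      have := mul_pos h1 hs1
      linarith
    · have e1 : l 0 * sin x ≤ l 1 * sin x := mul_le_mul_of_nonneg_right hle h.le
      have e2 : l 1 * sin x < l 1 * sin (θ 1) := mul_lt_mul_of_pos_left hs h1
      linarith
  have hcc : cos (θ 0) < 1 := by
    have := Real.cos_lt_cos_of_nonneg_of_le_pi le_rfl hy' hy
    rwa [cos_zero] at this
  have hc' : cos x * cos (θ 1) + sin x * sin (θ 1) = cos (θ 0) := by rw [← cos_sub, hc]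
  have q1 := sin_sq_add_cos_sq (θ 1)
  have q2 := sin_sq_add_cos_sq x
  set f : Fin 4 → ℝ × ℝ := ![(l 1 * cos (θ 1) - l 0 * cos x, l 1 * sin (θ 1) - l 0 * sin x),
    (l 1 * cos (θ 1), l 1 * sin (θ 1)), (0, 0), (l 2, 0)] with hf
  set R : Fin (2 + 2) → E3 := fun i => P2L_pt (f i).1 (f i).2 with hR
  have v0 : vx R 0 = P2L_pt (l 1 * cos (θ 1) - l 0 * cos x) (l 1 * sin (θ 1) - l 0 * sin x) := rfl
  have v1 : vx R 1 = P2L_pt (l 1 * cos (θ 1)) (l 1 * sin (θ 1)) := rfl
  have v2 : vx R 2 = P2L_pt 0 0 := rfl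
  have v3 : vx R 3 = P2L_pt (l 2) 0 := rfl
  have r0 : R 0 = vx R 0 := rfl
  have r1 : R 1 = vx R 1 := rfl
  have r2 : R 2 = vx R 2 := rfl
  have r3 : R 3 = vx R 3 := rfl
  have d0 : dist (vx R 0) (vx R 1) = l 0 := by
    rw [v0, v1, dist_eq_norm, P2L_sub]
    exact P2L_norm h0.le (by linear_combination (l 0) ^ 2 * q2)
  have d1 : dist (vx R 1) (vx R 2) = l 1 := by
    rw [v1, v2, dist_eq_norm, P2L_sub]
    exact P2L_norm h1.le (by linear_combination (l 1) ^ 2 * q1)
  have d2 : dist (vx R 2) (vx R 3) = l 2 := by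
    rw [v2, v3, dist_eq_norm, P2L_sub]
    exact P2L_norm h2.le (by ring)
  refine ⟨R, ⟨?_, ?_, ?_⟩, P2L_cop f, ?_, ?_, P2L_pt 0 1, ?_, ?_⟩
  · intro i heq
    have hd : dist (R i.castSucc) (R i.succ) = 0 := by rw [heq, dist_self]
    fin_cases i
    · have : dist (vx R 0) (vx R 1) = 0 := hd
      linarith
    · have : dist (vx R 1) (vx R 2) = 0 := hd
      linarith
    · have : dist (vx R 2) (vx R 3) = 0 := hd
      linarith
  · intro i j hij
    have hi : i = 0 := by
      apply Fin.ext; have := j.isLt; have := i.isLt; simp; omega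
    have hj : j = 2 := by
      apply Fin.ext; have := j.isLt; have := i.isLt
      rw [hi] at hij
      simp at hij ⊢; omega
    subst hi; subst hj
    change Disjoint (segment ℝ (vx R 0) (vx R 1)) (segment ℝ (vx R 2) (vx R 3))
    rw [v0, v1, v2, v3, Set.disjoint_left]
    intro z hz hz'
    obtain ⟨t, ht0, ht1, e1⟩ := P2L_seg hz
    obtain ⟨t', -, -, e2⟩ := P2L_seg hz'
    rw [e1] at e2
    have h3 := (P2L_inj e2).2
    have h4 : (1 - t) * (l 1 * sin (θ 1) - l 0 * sin x) + t * (l 1 * sin (θ 1)) = 0 := by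
      linear_combination h3
    have h5 := mul_pos h1 hs1
    have h6 : 0 ≤ (1 - t) * (l 1 * sin (θ 1) - l 0 * sin x) := mul_nonneg (by linarith) hb.le
    have h7 : 0 ≤ t * (l 1 * sin (θ 1)) := mul_nonneg ht0 h5.le
    have h8 : t = 0 := by
      have : t * (l 1 * sin (θ 1)) = 0 := by linarith
      rcases mul_eq_zero.1 this with h | h
      · exact h
      · exact absurd h h5.ne'
    rw [h8] at h4
    linarith
  · intro i j hij
    have hi : i = 0 ∨ i = 1 := by
      have := j.isLt; have := i.isLt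
      have h : i.val = 0 ∨ i.val = 1 := by omega
      rcases h with h | h
      · left; exact Fin.ext h
      · right; exact Fin.ext h
    rcases hi with hi | hi
    · subst hi
      have hj : j = 1 := by apply Fin.ext; simpa using hij
      subst hj
      change segment ℝ (vx R 0) (vx R 1) ∩ segment ℝ (vx R 1) (vx R 2) ⊆ {vx R 1}
      rw [v0, v1, v2]
      rintro z ⟨hz, hz'⟩
      obtain ⟨t, ht0, ht1, e1⟩ := P2L_seg hz
      obtain ⟨t', ht0', ht1', e2⟩ := P2L_seg hz'
      rw [e1] at e2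
      obtain ⟨h3, h4⟩ := P2L_inj e2
      set u := 1 - t with hu
      have hu0 : 0 ≤ u := by linarith
      have h5 : u * l 0 * cos x = t' * l 1 * cos (θ 1) := by linear_combination (-1 : ℝ) * h3
      have h6 : u * l 0 * sin x = t' * l 1 * sin (θ 1) := by linear_combination (-1 : ℝ) * h4
      have h7 : (u * l 0) ^ 2 = (t' * l 1) ^ 2 := by
        linear_combination (-(u * l 0) ^ 2) * q2 + (t' * l 1) ^ 2 * q1 +
          (u * l 0 * cos x + t' * l 1 * cos (θ 1)) * h5 +
          (u * l 0 * sin x + t' * l 1 * sin (θ 1)) * h6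
      have h8 : u * l 0 = t' * l 1 := by
        have p1 : 0 ≤ u * l 0 := mul_nonneg hu0 h0.le
        have p2 : 0 ≤ t' * l 1 := mul_nonneg ht0' h1.le
        exact (pow_left_inj₀ p1 p2 two_ne_zero).1 h7
      have h9 : u * l 0 * (1 - cos (θ 0)) = 0 := by
        have : u * l 0 * cos (θ 0) = t' * l 1 := by
          rw [← hc']
          linear_combination cos (θ 1) * h5 + sin (θ 1) * h6 + (t' * l 1) * q1
        linarith
      have h10 : u = 0 := by
        rcases mul_eq_zero.1 h9 with h | h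
        · rcases mul_eq_zero.1 h with h | h
          · exact h
          · exact absurd h h0.ne'
        · exact absurd h (by linarith)
      have ht : t = 1 := by linarith
      rw [e1, ht, Set.mem_singleton_iff]
      congr 1 <;> ring
    · subst hi
      have hj : j = 2 := by apply Fin.ext; simpa using hij
      subst hj
      change segment ℝ (vx R 1) (vx R 2) ∩ segment ℝ (vx R 2) (vx R 3) ⊆ {vx R 2}
      rw [v1, v2, v3]
      rintro z ⟨hz, hz'⟩
      obtain ⟨t, ht0, ht1, e1⟩ := P2L_seg hz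
      obtain ⟨t', ht0', ht1', e2⟩ := P2L_seg hz'
      have e3 := e2
      rw [e1] at e2
      obtain ⟨h3, h4⟩ := P2L_inj e2
      have h5 : (1 - t) * (l 1 * sin (θ 1)) = 0 := by linear_combination h4
      have h6 : t = 1 := by
        rcases mul_eq_zero.1 h5 with h | h
        · linarith
        · exact absurd h (mul_pos h1 hs1).ne'
      rw [e1, h6, Set.mem_singleton_iff]
      congr 1 <;> ring
  · intro i hi
    interval_cases i
    · exact d0
    · exact d1
    · exact d2
  · intro i hi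
    interval_cases i
    · change EuclideanGeometry.angle (vx R 0) (vx R 1) (vx R 2) = θ 0
      unfold EuclideanGeometry.angle InnerProductGeometry.angle
      rw [vsub_eq_sub, vsub_eq_sub, v0, v1, v2, P2L_sub, P2L_sub, P2L_inner,
        P2L_norm (r := l 0) h0.le (by linear_combination (l 0) ^ 2 * q2),
        P2L_norm (r := l 1) h1.le (by linear_combination (l 1) ^ 2 * q1)]
      have e : ((l 1 * cos (θ 1) - l 0 * cos x - l 1 * cos (θ 1)) * (0 - l 1 * cos (θ 1)) +
          (l 1 * sin (θ 1) - l 0 * sin x - l 1 * sin (θ 1)) * (0 - l 1 * sin (θ 1))) /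
            (l 0 * l 1) = cos (θ 0) := by
        rw [div_eq_iff (mul_pos h0 h1).ne', ← hc']; ring
      rw [e, arccos_cos hy.le hy']
    · change EuclideanGeometry.angle (vx R 1) (vx R 2) (vx R 3) = θ 1
      unfold EuclideanGeometry.angle InnerProductGeometry.angle
      rw [vsub_eq_sub, vsub_eq_sub, v1, v2, v3, P2L_sub, P2L_sub, P2L_inner,
        P2L_norm (r := l 1) h1.le (by linear_combination (l 1) ^ 2 * q1),
        P2L_norm (r := l 2) h2.le (by ring)]
      have e : ((l 1 * cos (θ 1) - 0) * (l 2 - 0) + (l 1 * sin (θ 1) - 0) * (0 - 0)) /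
            (l 1 * l 2) = cos (θ 1) := by
        rw [div_eq_iff (mul_pos h1 h2).ne']; ring
      rw [e, arccos_cos hx.le hx'.le]
  · change (inner ℝ (P2L_pt 0 1) (vx R 3 - vx R 2) : ℝ) = 0
    rw [v3, v2, P2L_sub, P2L_inner]; ring
  · intro j hj
    interval_cases j
    · rw [v0, v2, P2L_sub, P2L_inner]; linarith
    · rw [v1, v2, P2L_sub, P2L_inner]
      have := mul_pos h1 hs1
      linarith

/-- P2L. Links `0, 1` before link `2`, `l 0 ≤ l 1`: they can be placed on one side of the line of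
link `2`. -/
theorem t_P2L {l θ : ℕ → ℝ} (hl : ∀ m, 0 < l m)
    (hx : 0 < θ 1) (hx' : θ 1 < π) (hy : 0 < θ 0) (hy' : θ 0 ≤ π)
    (hle : l 0 ≤ l 1) : LeftSide l θ 2 := by
  have hs1 : 0 < sin (θ 1) := sin_pos_of_pos_of_lt_pi hx hx'
  have hcc : cos (θ 0) < 1 := by
    have := Real.cos_lt_cos_of_nonneg_of_le_pi le_rfl hy' hy
    rwa [cos_zero] at this
  have hsum : sin (θ 1 + θ 0) + sin (θ 1 - θ 0) < 2 * sin (θ 1) := by
    rw [sin_add, sin_sub]
    have := mul_lt_mul_of_pos_left hcc hs1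
    linarith
  rcases lt_or_ge (sin (θ 1 + θ 0)) (sin (θ 1)) with h | h
  · exact P2L_main hl hx hx' hy hy' hle (θ 1 + θ 0) (by rw [add_sub_cancel_left]) h
  · refine P2L_main hl hx hx' hy hy' hle (θ 1 - θ 0) ?_ (by linarith)
    rw [sub_sub_cancel_left, cos_neg]

end Pool.Agent.FlatN
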