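import Pool.Agent.FlatN.MP2L

/-!
# Module P2R: two links after link `k` on one side of its line
-/

set_option autoImplicit false

namespace Pool.Agent.FlatN

open Real Pool.Agent.Lib_helper54.Flat Pool.Agent.FlatW

/-- P2R. Two links after link `k`, the last one not longer than the other: they can be placed on
one side (the chain of P2L, reversed). -/
theorem t_P2R {n k : ℕ} (hk : k + 3 = n) {l θ : ℕ → ℝ} (hl : ∀ m, 0 < l m)
    (hx : 0 < θ k) (hx' : θ k < π) (hy : 0 < θ (k + 1)) (hy' : θ (k + 1) ≤ π)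
    (hle : l (k + 2) ≤ l (k + 1)) : RightSide n l θ k := by
  obtain ⟨R, hS, hC, hd, ha, u, hu, hj⟩ := t_P2L
    (l := fun m => if m = 0 then l (k + 2) else if m = 1 then l (k + 1) else l k)
    (θ := fun m => if m = 0 then θ (k + 1) else θ k)
    (by
      intro m
      split_ifs
      · exact hl _
      · exact hl _
      · exact hl _)
    (by simpa using hx) (by simpa using hx') (by simpa using hy) (by simpa using hy')
    (by simpa using hle)
  have d0 : dist (R 0) (R 1) = l (k + 2) := hd 0 (by norm_num)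
  have d1 : dist (R 1) (R 2) = l (k + 1) := hd 1 (by norm_num)
  have d2 : dist (R 2) (R 3) = l k := hd 2 (by norm_num)
  have a0 : EuclideanGeometry.angle (R 0) (R 1) (R 2) = θ (k + 1) := ha 0 (by norm_num)
  have a1 : EuclideanGeometry.angle (R 1) (R 2) (R 3) = θ k := ha 1 (by norm_num)
  have hu' : (inner ℝ u (R 3 - R 2) : ℝ) = 0 := hu
  have j0 : 0 < (inner ℝ u (R 0 - R 2) : ℝ) := hj 0 (by norm_num)
  have j1 : 0 < (inner ℝ u (R 1 - R 2) : ℝ) := hj 1 (by norm_num)
  obtain ⟨s1, s2, s3⟩ := hS
  have s02 : Disjoint (segment ℝ (R 0) (R 1)) (segment ℝ (R 2) (R 3)) :=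
    s2 (0 : Fin 3) (2 : Fin 3) (by decide)
  have s01 : segment ℝ (R 0) (R 1) ∩ segment ℝ (R 1) (R 2) ⊆ {R 1} :=
    s3 (0 : Fin 3) (1 : Fin 3) (by decide)
  have s12 : segment ℝ (R 1) (R 2) ∩ segment ℝ (R 2) (R 3) ⊆ {R 2} :=
    s3 (1 : Fin 3) (2 : Fin 3) (by decide)
  set W : Fin (3 + 1) → E3 := ![R 3, R 2, R 1, R 0] with hW
  have w0 : vx W 0 = R 3 := rfl
  have w1 : vx W 1 = R 2 := rfl
  have w2 : vx W 2 = R 1 := rfl
  have w3 : vx W 3 = R 0 := rfl
  refine ⟨3, hk, W, ⟨?_, ?_, ?_⟩, ?_, ?_, ?_, u, ?_, ?_⟩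
  · intro i heq
    have e : dist (W i.castSucc) (W i.succ) = 0 := by rw [heq, dist_self]
    fin_cases i
    · have e' : dist (R 3) (R 2) = 0 := e
      rw [dist_comm, d2] at e'
      exact (hl _).ne' e'
    · have e' : dist (R 2) (R 1) = 0 := e
      rw [dist_comm, d1] at e'
      exact (hl _).ne' e'
    · have e' : dist (R 1) (R 0) = 0 := e
      rw [dist_comm, d0] at e'
      exact (hl _).ne' e'
  · intro i j hij
    have hi : i = 0 := by
      apply Fin.ext; have := j.isLt; have := i.isLt; simp; omega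
    have hj : j = 2 := by
      apply Fin.ext; have := j.isLt; have := i.isLt
      rw [hi] at hij
      simp at hij ⊢; omega
    subst hi; subst hj
    change Disjoint (segment ℝ (R 3) (R 2)) (segment ℝ (R 1) (R 0))
    rw [segment_symm ℝ (R 3), segment_symm ℝ (R 1)]
    exact s02.symm
  · intro i j hij
    have hi : i = 0 ∨ i = 1 := by
      have := j.isLt; have := i.isLt
      have h : i.val = 0 ∨ i.val = 1 := by omega
      rcases h with h | h
      · left; exact Fin.ext h
      · right; exact Fin.ext h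
    rcases hi with hi | hi
    · subst hi
      have hj : j = 1 := by apply Fin.ext; simpa using hij
      subst hj
      change segment ℝ (R 3) (R 2) ∩ segment ℝ (R 2) (R 1) ⊆ {R 2}
      rw [segment_symm ℝ (R 3), segment_symm ℝ (R 2) (R 1), Set.inter_comm]
      exact s12
    · subst hi
      have hj : j = 2 := by apply Fin.ext; simpa using hij
      subst hj
      change segment ℝ (R 2) (R 1) ∩ segment ℝ (R 1) (R 0) ⊆ {R 1}
      rw [segment_symm ℝ (R 2), segment_symm ℝ (R 1) (R 0), Set.inter_comm]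
      exact s01
  · refine hC.subset ?_
    rintro _ ⟨i, rfl⟩
    fin_cases i
    · exact ⟨3, rfl⟩
    · exact ⟨2, rfl⟩
    · exact ⟨1, rfl⟩
    · exact ⟨0, rfl⟩
  · intro i hi
    interval_cases i
    · rw [w0, w1, dist_comm]; exact d2
    · rw [w1, w2, dist_comm]; exact d1
    · rw [w2, w3, dist_comm]; exact d0
  · intro i hi
    have hi' : i < 2 := by omega
    interval_cases i
    · change EuclideanGeometry.angle (R 3) (R 2) (R 1) = θ k
      rw [EuclideanGeometry.angle_comm]; exact a1
    · change EuclideanGeometry.angle (R 2) (R 1) (R 0) = θ (k + 1)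
      rw [EuclideanGeometry.angle_comm]; exact a0
  · rw [w1, w0, ← neg_sub, inner_neg_right, hu', neg_zero]
  · intro j hj2 hj3
    interval_cases j
    · rw [w2, w0]
      have e : R 1 - R 3 = (R 1 - R 2) - (R 3 - R 2) := by abel
      rw [e, inner_sub_right, hu', sub_zero]
      exact j1
    · rw [w3, w0]
      have e : R 0 - R 3 = (R 0 - R 2) - (R 3 - R 2) := by abel
      rw [e, inner_sub_right, hu', sub_zero]
      exact j0

end Pool.Agent.FlatN
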