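import Pool.Agent.FlatN.Defs

/-! FLN, module P3R (helper8): three links can be placed on one side of a line. -/

set_option autoImplicit false

namespace Pool.Agent.FlatN

open Real Pool.Agent.Lib_helper54.Flat Pool.Agent.FlatW

namespace MP3R

/-- The unit vector orthogonal to the direction of longitude `α`. -/
noncomputable def un (a b c : E3) (α : ℝ) : E3 := (-sin α) • a + cos α • b + (0 : ℝ) • c

theorem un_dir {a b c : E3} (hON : ON a b c) (α ω : ℝ) (s θ : ℕ → ℝ) (j : ℕ) :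
    (inner ℝ (un a b c α) (dir a b c ω s (fun _ => 0) θ j) : ℝ) =
      sin (az ω s (fun _ => 0) θ j - α) := by
  unfold un dir
  rw [inner_comb hON, sin_sub, cos_zero, sin_zero]
  ring

theorem un_vtx {a b c : E3} (hON : ON a b c) (α ω : ℝ) (p : E3) (l s θ : ℕ → ℝ) (j : ℕ) :
    (inner ℝ (un a b c α) (vtx p a b c ω l s (fun _ => 0) θ (j + 1)) : ℝ) =
      inner ℝ (un a b c α) (vtx p a b c ω l s (fun _ => 0) θ j) +
        l j * sin (az ω s (fun _ => 0) θ j - α) := by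
  rw [vtx_succ, inner_add_right, inner_smul_right, un_dir hON]

theorem seg_eq (u : E3) {P Q X : E3} (t0 : ℝ) (hX : X ∈ segment ℝ P Q) :
    ∃ s t : ℝ, 0 ≤ s ∧ 0 ≤ t ∧ s + t = 1 ∧ s • P + t • Q = X ∧
      (inner ℝ u X : ℝ) - t0 = s * ((inner ℝ u P : ℝ) - t0) + t * ((inner ℝ u Q : ℝ) - t0) := by
  obtain ⟨s, t, hs, ht, hst, hX⟩ := hX
  refine ⟨s, t, hs, ht, hst, hX, ?_⟩
  rw [← hX, inner_add_right, inner_smul_right, inner_smul_right]
  linear_combination t0 * hst

/-- a segment on the line and a segment beside it -/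
theorem seg_disj (u : E3) {P Q S T : E3} (t0 : ℝ) (hP : (inner ℝ u P : ℝ) = t0)
    (hQ : (inner ℝ u Q : ℝ) = t0) (hS : t0 < (inner ℝ u S : ℝ)) (hT : t0 < (inner ℝ u T : ℝ)) :
    Disjoint (segment ℝ P Q) (segment ℝ S T) := by
  rw [Set.disjoint_left]
  intro X hX hX'
  obtain ⟨s, t, hs, ht, hst, _, h1⟩ := seg_eq u t0 hX
  obtain ⟨s', t', hs', ht', hst', _, h2⟩ := seg_eq u t0 hX'
  rw [hP, hQ, sub_self, mul_zero, mul_zero, add_zero] at h1
  rw [h1] at h2
  have h3 : 0 < (inner ℝ u S : ℝ) - t0 := sub_pos.2 hS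
  have h4 : 0 < (inner ℝ u T : ℝ) - t0 := sub_pos.2 hT
  rcases hs'.eq_or_lt with h | h
  · have : t' = 1 := by linarith
    rw [← h, this] at h2
    linarith
  · have := mul_pos h h3
    have := mul_nonneg ht' h4.le
    linarith

/-- points of two segments on different sides are the ends on the line -/
theorem seg_meet (u : E3) {P Q S T X : E3} (t0 : ℝ) (hP : (inner ℝ u P : ℝ) ≤ t0)
    (hQ : (inner ℝ u Q : ℝ) = t0) (hS : (inner ℝ u S : ℝ) = t0) (hT : t0 ≤ (inner ℝ u T : ℝ))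
    (hX : X ∈ segment ℝ P Q) (hX' : X ∈ segment ℝ S T) :
    ((inner ℝ u P : ℝ) < t0 → X = Q) ∧ (t0 < (inner ℝ u T : ℝ) → X = S) := by
  obtain ⟨s, t, hs, ht, hst, e1, h1⟩ := seg_eq u t0 hX
  obtain ⟨s', t', hs', ht', hst', e2, h2⟩ := seg_eq u t0 hX'
  rw [hQ, sub_self, mul_zero, add_zero] at h1
  rw [hS, sub_self, mul_zero, zero_add] at h2
  have k1 : s * ((inner ℝ u P : ℝ) - t0) ≤ 0 :=
    mul_nonpos_of_nonneg_of_nonpos hs (sub_nonpos.2 hP)
  have k2 : 0 ≤ t' * ((inner ℝ u T : ℝ) - t0) := mul_nonneg ht' (sub_nonneg.2 hT)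
  have k3 : s * ((inner ℝ u P : ℝ) - t0) = 0 := by linarith
  have k4 : t' * ((inner ℝ u T : ℝ) - t0) = 0 := by linarith
  constructor
  · intro h
    rcases mul_eq_zero.1 k3 with h0 | h0
    · have : t = 1 := by linarith
      rw [← e1, h0, this, zero_smul, one_smul, zero_add]
    · linarith
  · intro h
    rcases mul_eq_zero.1 k4 with h0 | h0
    · have : s' = 1 := by linarith
      rw [← e2, h0, this, zero_smul, one_smul, add_zero]
    · linarith

theorem mem_span {a b c : E3} {ω : ℝ} {l s θ : ℕ → ℝ} (j : ℕ) :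
    vtx 0 a b c ω l s (fun _ => 0) θ j ∈ Submodule.span ℝ ({a, b} : Set E3) := by
  induction j with
  | zero => exact Submodule.zero_mem _
  | succ j ih =>
    rw [vtx_succ]
    refine Submodule.add_mem _ ih (Submodule.smul_mem _ _ ?_)
    unfold dir
    rw [sin_zero, zero_smul, add_zero]
    exact Submodule.add_mem _
      (Submodule.smul_mem _ _ (Submodule.subset_span (Set.mem_insert _ _)))
      (Submodule.smul_mem _ _ (Submodule.subset_span (Set.mem_insert_of_mem _ rfl)))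

theorem coplanar_chain {n : ℕ} {a b c : E3} {ω : ℝ} {l s θ : ℕ → ℝ} :
    Coplanar ℝ (Set.range (chain n 0 a b c ω l s (fun _ => 0) θ)) := by
  rw [coplanar_iff_finrank_le_two]
  have h1 : vectorSpan ℝ (Set.range (chain n 0 a b c ω l s (fun _ => 0) θ)) ≤
      Submodule.span ℝ ({a, b} : Set E3) := by
    unfold vectorSpan
    rw [Submodule.span_le]
    rintro x ⟨y, ⟨i, rfl⟩, z, ⟨j, rfl⟩, rfl⟩
    exact Submodule.sub_mem _ (mem_span i.val) (mem_span j.val)
  refine (Submodule.finrank_mono h1).trans ?_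
  have h2 := finrank_span_finset_le_card (R := ℝ) ({a, b} : Finset E3)
  rw [Finset.coe_insert, Finset.coe_singleton] at h2
  exact h2.trans Finset.card_le_two

theorem exists_ON : ∃ a b c : E3, ON a b c := by
  refine ⟨EuclideanSpace.single 0 1, EuclideanSpace.single 1 1, EuclideanSpace.single 2 1, ?_⟩
  constructor <;> simp [EuclideanSpace.inner_single_left]

/-- the signs 1, -1, 1 -/
def sg : ℕ → ℝ := fun m => if m = 1 then -1 else 1

theorem sg_cases (m : ℕ) : sg m = 1 ∨ sg m = -1 := by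
  unfold sg
  by_cases h : m = 1
  · rw [if_pos h]; exact Or.inr rfl
  · rw [if_neg h]; exact Or.inl rfl

end MP3R

theorem t_P3R {n k : ℕ} (hk : k + 4 = n) {l θ : ℕ → ℝ} (hl : ∀ m, 0 < l m)
    (hx : 0 < θ k) (hx' : θ k ≤ π / 2) (hy : 0 < θ (k + 1)) (hy' : θ (k + 1) ≤ π / 2)
    (hz : 0 < θ (k + 2)) (hz' : θ (k + 2) ≤ π / 2)
    (h12 : l (k + 2) ≤ l (k + 1)) (h23 : l (k + 3) ≤ l (k + 2)) : RightSide n l θ k := by
  obtain ⟨a, b, c, hON⟩ := MP3R.exists_ON
  have hpi := Real.pi_pos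
  obtain ⟨l', hl'⟩ : ∃ l' : ℕ → ℝ, l' = fun i => l (k + i) := ⟨_, rfl⟩
  obtain ⟨θ', hθ'⟩ : ∃ θ' : ℕ → ℝ, θ' = fun i => θ (k + i) := ⟨_, rfl⟩
  obtain ⟨x, hxd⟩ : ∃ x, x = θ k := ⟨_, rfl⟩
  obtain ⟨y, hyd⟩ : ∃ y, y = θ (k + 1) := ⟨_, rfl⟩
  obtain ⟨z, hzd⟩ : ∃ z, z = θ (k + 2) := ⟨_, rfl⟩
  rw [← hxd] at hx hx'
  rw [← hyd] at hy hy'
  rw [← hzd] at hz hz'
  have t0 : θ' 0 = x := by rw [hθ', hxd]; rfl
  have t1 : θ' 1 = y := by rw [hθ', hyd]
  have t2 : θ' 2 = z := by rw [hθ', hzd]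
  have hlp : ∀ m, 0 < l' m := fun m => by rw [hl']; exact hl _
  have h12' : l' 2 ≤ l' 1 := by rw [hl']; exact h12
  have h23' : l' 3 ≤ l' 2 := by rw [hl']; exact h23
  -- longitudes
  have a0 : az 0 MP3R.sg (fun _ => 0) θ' 0 = 0 := rfl
  have a1 : az 0 MP3R.sg (fun _ => 0) θ' 1 = π - x := by
    rw [az_succ, a0, t0, dlt_zero hx.le (by linarith)]
    simp [MP3R.sg]
  have a2 : az 0 MP3R.sg (fun _ => 0) θ' 2 = y - x := by
    rw [az_succ, a1, t1, dlt_zero hy.le (by linarith)]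
    simp [MP3R.sg]
  have a3 : az 0 MP3R.sg (fun _ => 0) θ' 3 = y - x + (π - z) := by
    rw [az_succ, a2, t2, dlt_zero hz.le (by linarith)]
    simp [MP3R.sg]
  obtain ⟨V, hV⟩ : ∃ V : ℕ → E3, V = vtx 0 a b c 0 l' MP3R.sg (fun _ => 0) θ' := ⟨_, rfl⟩
  have hstep : ∀ α j, (inner ℝ (MP3R.un a b c α) (V (j + 1)) : ℝ) =
      inner ℝ (MP3R.un a b c α) (V j) + l' j * sin (az 0 MP3R.sg (fun _ => 0) θ' j - α) := by
    intro α j
    rw [hV]
    exact MP3R.un_vtx hON α 0 0 l' MP3R.sg θ' j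
  -- the second coordinates
  have b0 : (inner ℝ (MP3R.un a b c 0) (V 0) : ℝ) = 0 := by
    rw [hV]; exact inner_zero_right _
  have b1 : (inner ℝ (MP3R.un a b c 0) (V 1) : ℝ) = 0 := by
    rw [hstep, b0, a0, sub_zero, sin_zero, mul_zero, add_zero]
  have b2 : (inner ℝ (MP3R.un a b c 0) (V 2) : ℝ) = l' 1 * sin x := by
    rw [hstep, b1, a1, sub_zero, sin_pi_sub, zero_add]
  have b3 : (inner ℝ (MP3R.un a b c 0) (V 3) : ℝ) = l' 1 * sin x + l' 2 * sin (y - x) := by
    rw [hstep, b2, a2, sub_zero]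
  have b4 : (inner ℝ (MP3R.un a b c 0) (V 4) : ℝ) =
      l' 1 * sin x + l' 2 * sin (y - x) + l' 3 * sin (x - y + z) := by
    rw [hstep, b3, a3, sub_zero]
    have : y - x + (π - z) = π - (x - y + z) := by ring
    rw [this, sin_pi_sub]
  have sx : 0 < sin x := sin_pos_of_pos_of_lt_pi hx (by linarith)
  have sy : 0 < sin y := sin_pos_of_pos_of_lt_pi hy (by linarith)
  have sz : 0 < sin z := sin_pos_of_pos_of_lt_pi hz (by linarith)
  have p2 : 0 < l' 1 * sin x := mul_pos (hlp 1) sx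
  have p3 : 0 < l' 1 * sin x + l' 2 * sin (y - x) := by
    rcases le_or_gt x y with h | h
    · have : 0 ≤ sin (y - x) := sin_nonneg_of_nonneg_of_le_pi (by linarith) (by linarith)
      have := mul_nonneg (hlp 2).le this
      linarith
    · have e : sin (y - x) = -sin (x - y) := by rw [← sin_neg]; congr 1; ring
      have h1 : sin (x - y) < sin x :=
        sin_lt_sin_of_lt_of_le_pi_div_two (by linarith) hx' (by linarith)
      have h2 : l' 2 * sin (x - y) < l' 2 * sin x := mul_lt_mul_of_pos_left h1 (hlp 2)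
      have h3 : l' 2 * sin x ≤ l' 1 * sin x := mul_le_mul_of_nonneg_right h12' sx.le
      rw [e]
      linarith
  have p4 : 0 < l' 1 * sin x + l' 2 * sin (y - x) + l' 3 * sin (x - y + z) := by
    rcases le_or_gt 0 (x - y + z) with h | h
    · have h1 : 0 ≤ sin (x - y + z) := sin_nonneg_of_nonneg_of_le_pi h (by linarith)
      have := mul_nonneg (hlp 3).le h1
      linarith
    · have e : sin (x - y + z) = -sin (y - x - z) := by rw [← sin_neg]; congr 1; ring
      have h0 : 0 ≤ sin (y - x - z) := sin_nonneg_of_nonneg_of_le_pi (by linarith) (by linarith)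
      have h1 : sin (y - x - z) ≤ sin (y - x) :=
        sin_le_sin_of_le_of_le_pi_div_two (by linarith) (by linarith) (by linarith)
      have h2 : l' 3 * sin (y - x - z) ≤ l' 2 * sin (y - x) :=
        mul_le_mul h23' h1 h0 (hlp 2).le
      rw [e]
      linarith
  -- the coordinate orthogonal to the third link
  obtain ⟨t, ht⟩ : ∃ t : ℝ, t = (inner ℝ (MP3R.un a b c (y - x)) (V 2) : ℝ) := ⟨_, rfl⟩
  have c1 : (inner ℝ (MP3R.un a b c (y - x)) (V 1) : ℝ) < t := by
    have h := hstep (y - x) 1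
    rw [← ht, a1] at h
    have e : π - x - (y - x) = π - y := by ring
    rw [e, sin_pi_sub] at h
    have := mul_pos (hlp 1) sy
    linarith
  have c3 : (inner ℝ (MP3R.un a b c (y - x)) (V 3) : ℝ) = t := by
    have h := hstep (y - x) 2
    rw [← ht, a2, sub_self, sin_zero, mul_zero, add_zero] at h
    exact h
  have c4 : t < (inner ℝ (MP3R.un a b c (y - x)) (V 4) : ℝ) := by
    have h := hstep (y - x) 3
    rw [c3, a3] at h
    have e : y - x + (π - z) - (y - x) = π - z := by ring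
    rw [e, sin_pi_sub] at h
    have := mul_pos (hlp 3) sz
    linarith
  have hne : ∀ i, V i ≠ V (i + 1) := by
    intro i h
    have hd : dist (V i) (V (i + 1)) = l' i := by rw [hV]; exact dist_vtx hON i (hlp i)
    rw [h, dist_self] at hd
    exact absurd hd (hlp i).ne
  have hR : ∀ i, i ≤ 4 → vx (chain 4 0 a b c 0 l' MP3R.sg (fun _ => 0) θ') i = V i := by
    intro i hi
    rw [vx_chain hi, hV]
  have hdis : ∀ i j : ℕ, i + 1 < j → j < 4 →
      Disjoint (segment ℝ (V i) (V (i + 1))) (segment ℝ (V j) (V (j + 1))) := by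
    intro i j hij hj
    have hc : (i = 0 ∧ j = 2) ∨ (i = 0 ∧ j = 3) ∨ (i = 1 ∧ j = 3) := by omega
    rcases hc with ⟨rfl, rfl⟩ | ⟨rfl, rfl⟩ | ⟨rfl, rfl⟩
    · exact MP3R.seg_disj (MP3R.un a b c 0) 0 b0 b1 (by rw [b2]; exact p2) (by rw [b3]; exact p3)
    · exact MP3R.seg_disj (MP3R.un a b c 0) 0 b0 b1 (by rw [b3]; exact p3) (by rw [b4]; exact p4)
    · rw [Set.disjoint_left]
      intro X hX hX'
      have h := MP3R.seg_meet (MP3R.un a b c (y - x)) t c1.le ht.symm c3 c4.le hX hX'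
      exact hne 2 ((h.1 c1).symm.trans (h.2 c4))
  have hcon : ∀ i : ℕ, i + 1 < 4 →
      segment ℝ (V i) (V (i + 1)) ∩ segment ℝ (V (i + 1)) (V (i + 2)) ⊆ {V (i + 1)} := by
    intro i hi
    have hc : i = 0 ∨ i = 1 ∨ i = 2 := by omega
    rcases hc with rfl | rfl | rfl
    · rintro X ⟨hX, hX'⟩
      have h := MP3R.seg_meet (MP3R.un a b c 0) 0 b0.le b1 b1 (by rw [b2]; exact p2.le) hX hX'
      exact Set.mem_singleton_iff.2 (h.2 (by rw [b2]; exact p2))
    · rintro X ⟨hX, hX'⟩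
      have h := MP3R.seg_meet (MP3R.un a b c (y - x)) t c1.le ht.symm ht.symm c3.ge hX hX'
      exact Set.mem_singleton_iff.2 (h.1 c1)
    · rintro X ⟨hX, hX'⟩
      have h := MP3R.seg_meet (MP3R.un a b c (y - x)) t ht.symm.le c3 c3 c4.le hX hX'
      exact Set.mem_singleton_iff.2 (h.2 c4)
  refine ⟨4, hk, chain 4 0 a b c 0 l' MP3R.sg (fun _ => 0) θ', ⟨?_, ?_, ?_⟩, MP3R.coplanar_chain,
    ?_, ?_, MP3R.un a b c 0, ?_, ?_⟩
  · intro i
    rw [chain_castSucc, chain_succ, ← hV]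
    exact hne i.val
  · intro i j hij
    rw [chain_castSucc, chain_succ, chain_castSucc, chain_succ, ← hV]
    exact hdis i.val j.val hij j.isLt
  · intro i j hij
    rw [chain_castSucc, chain_succ, chain_castSucc, chain_succ, ← hV, hij]
    exact hcon i.val (by omega)
  · intro i hi
    rw [hR i (by omega), hR (i + 1) (by omega), hV, dist_vtx hON i (hlp i), hl']
  · intro i hi
    unfold jointAngle
    rw [hR i (by omega), hR (i + 1) (by omega), hR (i + 2) (by omega), hV]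
    have hb : 0 < θ' i ∧ θ' i ≤ π / 2 := by
      have hc : i = 0 ∨ i = 1 ∨ i = 2 := by omega
      rcases hc with rfl | rfl | rfl
      · rw [t0]; exact ⟨hx, hx'⟩
      · rw [t1]; exact ⟨hy, hy'⟩
      · rw [t2]; exact ⟨hz, hz'⟩
    have h := angle_vtx (p := 0) (ω := 0) (s := MP3R.sg) (h := fun _ => 0) (θ := θ') hON i (hlp i)
      (hlp (i + 1)) (MP3R.sg_cases i) le_rfl (by linarith) le_rfl (by linarith) hb.1.le
      (by linarith) (by linarith [hb.1]) (by rw [sub_zero, abs_zero]; linarith [hb.2])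
    rw [h, hθ']
  · rw [hR 1 (by omega), hR 0 (by omega), inner_sub_right, b1, b0, sub_zero]
  · intro j hj2 hj4
    rw [hR j hj4, hR 0 (by omega), inner_sub_right, b0, sub_zero]
    have hc : j = 2 ∨ j = 3 ∨ j = 4 := by omega
    rcases hc with rfl | rfl | rfl
    · rw [b2]; exact p2
    · rw [b3]; exact p3
    · rw [b4]; exact p4

end Pool.Agent.FlatN
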