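import Pool.Agent.FlatN.Defs

/-!
# Flips, module REV: two links can be placed on one side (reversal of a placement)
-/

set_option autoImplicit false

namespace Pool.Agent.FlatN

open Real Pool.Agent.Lib_helper54.Flat Pool.Agent.FlatW

namespace REV

/-- the vertices of the reversed chain -/
lemma vx_rev {n : ℕ} (R : Fin (n + 1) → E3) {i j : ℕ} (h : i + j = n) :
    vx (fun x => R (Fin.rev x)) i = vx R j := by
  unfold vx
  change R (Fin.rev (Fin.ofNat (n + 1) i)) = R (Fin.ofNat (n + 1) j)
  congr 1
  apply Fin.ext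
  rw [Fin.val_rev]
  simp only [Fin.val_ofNat]
  rw [Nat.mod_eq_of_lt (by omega), Nat.mod_eq_of_lt (by omega)]
  omega

lemma simple_rev {n : ℕ} {R : Fin (n + 1) → E3} (h : IsSimple R) :
    IsSimple (fun x => R (Fin.rev x)) := by
  obtain ⟨h1, h2, h3⟩ := h
  refine ⟨fun i => ?_, fun i j hij => ?_, fun i j hij => ?_⟩
  · simp only [Fin.rev_castSucc, Fin.rev_succ]
    exact (h1 i.rev).symm
  · simp only [Fin.rev_castSucc, Fin.rev_succ]
    rw [segment_symm ℝ (R i.rev.succ), segment_symm ℝ (R j.rev.succ)]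
    refine (h2 j.rev i.rev ?_).symm
    rw [Fin.val_rev, Fin.val_rev]
    omega
  · simp only [Fin.rev_castSucc, Fin.rev_succ]
    rw [segment_symm ℝ (R i.rev.succ), segment_symm ℝ (R j.rev.succ), Set.inter_comm]
    have hv : i.rev.val = j.rev.val + 1 := by
      rw [Fin.val_rev, Fin.val_rev]
      omega
    have e : i.rev.castSucc = j.rev.succ := by
      apply Fin.ext
      rw [Fin.val_castSucc, Fin.val_succ]
      exact hv
    refine (h3 j.rev i.rev hv).trans ?_
    rw [e]

end REV

theorem t_REV {k : ℕ} {l θ : ℕ → ℝ}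
    (h : RightSide (k + 1) (fun i => l (k - i)) (fun i => θ (k - 1 - i)) 0) :
    LeftSide l θ k := by
  obtain ⟨m, hm, R, hS, hC, hd, ha, u, hu, hpos⟩ := h
  obtain rfl : m = k + 1 := by omega
  refine ⟨fun x => R (Fin.rev x), REV.simple_rev hS, ?_, fun i hi => ?_, fun i hi => ?_, u, ?_,
    fun j hj => ?_⟩
  · have e : Set.range (fun x => R (Fin.rev x)) = Set.range R :=
      Fin.rev_surjective.range_comp R
    rw [e]
    exact hC
  · rw [REV.vx_rev R (show i + (k - i + 1) = k + 1 by omega),
      REV.vx_rev R (show (i + 1) + (k - i) = k + 1 by omega), dist_comm,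
      hd (k - i) (by omega)]
    change l (k - (0 + (k - i))) = l i
    congr 1
    omega
  · unfold jointAngle
    rw [REV.vx_rev R (show i + (k - 1 - i + 2) = k + 1 by omega),
      REV.vx_rev R (show (i + 1) + (k - 1 - i + 1) = k + 1 by omega),
      REV.vx_rev R (show (i + 2) + (k - 1 - i) = k + 1 by omega), EuclideanGeometry.angle_comm]
    have h1 := ha (k - 1 - i) (by omega)
    unfold jointAngle at h1
    rw [h1]
    change θ (k - 1 - (0 + (k - 1 - i))) = θ i
    congr 1
    omega
  · rw [REV.vx_rev R (show (k + 1) + 0 = k + 1 by omega),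
      REV.vx_rev R (show k + 1 = k + 1 from rfl), ← neg_sub, inner_neg_right, hu, neg_zero]
  · rw [REV.vx_rev R (show j + (k + 1 - j) = k + 1 by omega),
      REV.vx_rev R (show k + 1 = k + 1 from rfl)]
    have h1 := hpos (k + 1 - j) (by omega) (by omega)
    have e : vx R (k + 1 - j) - vx R 1 = (vx R (k + 1 - j) - vx R 0) - (vx R 1 - vx R 0) := by
      abel
    rw [e, inner_sub_right, hu, sub_zero]
    exact h1

end Pool.Agent.FlatN
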