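import Pool.Agent.FlatN.Main
import Pool.Agent.FlatN.MP2R
import Pool.Agent.FlatN.MP2L
import Pool.Agent.FlatN.MP3R
import Pool.Agent.FlatN.MREV

/-!
# Chains with at most one bad joint away from the ends
-/

set_option autoImplicit false

namespace Pool.Agent.FlatN

open Real Pool.Agent.Lib_helper54.Flat Pool.Agent.FlatW

section

variable {n : ℕ} {P Q : Fin (n + 1) → E3} {l θ : ℕ → ℝ}

theorem not_loose {i : ℕ} (h : ¬ WeaklyLoose n θ i) : ¬ Loose n θ i :=
  fun h' => h (weaklyLoose_of_loose h')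

theorem bad_range (h1 : ∀ j, θ j ≤ π) (h0 : ∀ j, j + 2 ≤ n → 0 < θ j) {i : ℕ}
    (hi : i + 2 ≤ n) (hi' : ¬ WeaklyLoose n θ i) : 1 ≤ i ∧ i + 3 ≤ n ∧ θ i < π := by
  refine ⟨?_, ?_, ?_⟩
  · by_contra hc
    have e : i = 0 := by omega
    subst e
    exact not_loose hi' (loose_first h1 h0 (by omega))
  · by_contra hc
    exact not_loose hi' (loose_last h1 h0 (by omega))
  · exact lt_of_le_of_ne (h1 i) fun he => not_loose hi' (loose_of_pi h1 h0 he)

theorem bad_gap (h1 : ∀ j, θ j ≤ π) (h0 : ∀ j, j + 2 ≤ n → 0 < θ j) {i j : ℕ}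
    (hij : i < j) (hj : j + 2 ≤ n) (hi' : ¬ WeaklyLoose n θ i) (hj' : ¬ WeaklyLoose n θ j) :
    i + 2 ≤ j := by
  by_contra hc
  have e : j = i + 1 := by omega
  subst e
  rcases loose_or_loose h1 h0 (by omega : i + 3 ≤ n) with h | h
  · exact not_loose hi' h
  · exact not_loose hj' h

/-- One of the first two links and one of the last two links. -/
theorem cor_two (hP : IsSimple P) (cP : Coplanar ℝ (Set.range P))
    (cQ : Coplanar ℝ (Set.range Q)) (hQ : Q ∈ freeSpace P) (hl1 : len P 0 ≤ len P 1)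
    (hl2 : len P (n - 1) ≤ len P (n - 2))
    (H : n ≤ 7 ∨ ((∀ m, m + 2 ≤ n → jointAngle P m < π) ∧
      ∀ i j, 2 ≤ i → i < j → j + 4 ≤ n →
        WeaklyLoose n (jointAngle P) i ∨ WeaklyLoose n (jointAngle P) j)) :
    JoinedIn (freeSpace P) P Q := by
  have hD : Data P (len P) (jointAngle P) := data_of_simple hP
  have h1 : ∀ j, jointAngle P j ≤ π := hD.ang_le
  have h0 : ∀ j, j + 2 ≤ n → 0 < jointAngle P j := fun j hj => theta_pos hD hP hj
  have hR : ∀ j, j + 3 = n → jointAngle P j < π → RightSide n (len P) (jointAngle P) j := by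
    intro j hj hjπ
    refine t_P2R hj hD.pos (h0 j (by omega)) hjπ (h0 (j + 1) (by omega)) (h1 _) ?_
    rw [(by omega : j + 2 = n - 1), (by omega : j + 1 = n - 2)]
    exact hl2
  have hL : 3 ≤ n → jointAngle P 1 < π → LeftSide (len P) (jointAngle P) 2 := by
    intro hn h1π
    exact t_P2L hD.pos (h0 1 (by omega)) h1π (h0 0 (by omega)) (h1 _) hl1
  -- which flips to use
  obtain ⟨p0, hp0⟩ : ∃ p0 : ℕ, p0 = if jointAngle P 2 < π then 2 else 1 := ⟨_, rfl⟩
  apply main_side hP cP cQ hQ p0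
  intro i j hij hj hi' hj' hm
  obtain ⟨a1, a2, a3⟩ := bad_range h1 h0 (by omega : i + 2 ≤ n) hi'
  obtain ⟨b1, b2, b3⟩ := bad_range h1 h0 hj hj'
  have hgap := bad_gap h1 h0 hij hj hi' hj'
  obtain ⟨m, m1, m2, m3⟩ := exists_between h1 h0 hij hj (not_loose hi') (not_loose hj')
  rcases H with H | ⟨H1, H2⟩
  · by_cases h2π : jointAngle P 2 < π
    · rw [if_pos h2π] at hp0
      by_cases hi1 : i = 1
      · right
        subst hi1
        exact ⟨by omega, 2, by omega, by omega, h2π, hL (by omega) a3⟩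
      · left
        have e1 : i = 2 := by omega
        have e2 : j = 4 := by omega
        have e3 : m = 3 := by omega
        subst e1 e2 e3
        exact ⟨by omega, 4, by omega, le_rfl, m3, hR 4 (by omega) b3⟩
    · rw [if_neg h2π] at hp0
      left
      refine ⟨by omega, j, hij, le_rfl, ?_, hR j ?_ b3⟩
      · have hi1 : i = 1 ∨ i = 2 := by omega
        have hm3 : m ≠ 2 := fun h => h2π (h ▸ m3)
        have hj4 : j = 4 := by omega
        have hm4 : m = 3 := by omega
        rw [hj4]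
        rw [hm4] at m3
        exact m3
      · have hm3 : m ≠ 2 := fun h => h2π (h ▸ m3)
        omega
  · rw [if_pos (H1 2 (by omega))] at hp0
    by_cases hi1 : i = 1
    · right
      subst hi1
      exact ⟨by omega, 2, by omega, by omega, H1 2 (by omega), hL (by omega) a3⟩
    · left
      have e : j + 3 = n := by
        by_contra hc
        rcases H2 i j (by omega) hij (by omega) with h | h
        · exact hi' h
        · exact hj' h
      exact ⟨by omega, j, hij, le_rfl, H1 _ (by omega), hR j e b3⟩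

/-- Six links. -/
theorem cor_six (hP : IsSimple P) (cP : Coplanar ℝ (Set.range P))
    (cQ : Coplanar ℝ (Set.range Q)) (hQ : Q ∈ freeSpace P) (hn : n = 6)
    (H : len P 0 ≤ len P 1 ∨ len P 5 ≤ len P 4) :
    JoinedIn (freeSpace P) P Q := by
  have hD : Data P (len P) (jointAngle P) := data_of_simple hP
  have h1 : ∀ j, jointAngle P j ≤ π := hD.ang_le
  have h0 : ∀ j, j + 2 ≤ n → 0 < jointAngle P j := fun j hj => theta_pos hD hP hj
  rcases H with H | H
  · apply main_side hP cP cQ hQ n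
    intro i j hij hj hi' hj' hm
    obtain ⟨a1, a2, a3⟩ := bad_range h1 h0 (by omega : i + 2 ≤ n) hi'
    obtain ⟨b1, b2, b3⟩ := bad_range h1 h0 hj hj'
    have hgap := bad_gap h1 h0 hij hj hi' hj'
    obtain ⟨m, m1, m2, m3⟩ := exists_between h1 h0 hij hj (not_loose hi') (not_loose hj')
    have e1 : i = 1 := by omega
    have e2 : m = 2 := by omega
    subst e1 e2
    right
    exact ⟨by omega, 2, by omega, by omega, m3,
      t_P2L hD.pos (h0 1 (by omega)) a3 (h0 0 (by omega)) (h1 _) H⟩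
  · apply main_side hP cP cQ hQ 0
    intro i j hij hj hi' hj' hm
    obtain ⟨a1, a2, a3⟩ := bad_range h1 h0 (by omega : i + 2 ≤ n) hi'
    obtain ⟨b1, b2, b3⟩ := bad_range h1 h0 hj hj'
    have hgap := bad_gap h1 h0 hij hj hi' hj'
    obtain ⟨m, m1, m2, m3⟩ := exists_between h1 h0 hij hj (not_loose hi') (not_loose hj')
    have e1 : j = 3 := by omega
    have e2 : m = 2 := by omega
    subst e1 e2
    left
    exact ⟨by omega, 3, by omega, by omega, m3,
      t_P2R (by omega) hD.pos (h0 3 (by omega)) b3 (h0 4 (by omega)) (h1 _) H⟩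

/-- Three links before link `3`. -/
theorem p3l (hl : ∀ m, 0 < l m) (hx : 0 < θ 2) (hx' : θ 2 ≤ π / 2) (hy : 0 < θ 1)
    (hy' : θ 1 ≤ π / 2) (hz : 0 < θ 0) (hz' : θ 0 ≤ π / 2) (h12 : l 1 ≤ l 2)
    (h01 : l 0 ≤ l 1) : LeftSide l θ 3 := by
  apply t_REV
  exact t_P3R (k := 0) (by norm_num) (fun m => hl _) hx hx' hy hy' hz hz' h12 h01

/-- Three links at both ends, with angles at most 90 degrees. -/
theorem cor_three (hP : IsSimple P) (cP : Coplanar ℝ (Set.range P))
    (cQ : Coplanar ℝ (Set.range Q)) (hQ : Q ∈ freeSpace P)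
    (hπ : ∀ m, m + 2 ≤ n → jointAngle P m < π)
    (hac : ∀ m, m + 2 ≤ n → m ≤ 2 ∨ n ≤ m + 4 → jointAngle P m ≤ π / 2)
    (hl1 : len P 0 ≤ len P 1) (hl2 : len P 1 ≤ len P 2)
    (hl3 : len P (n - 1) ≤ len P (n - 2)) (hl4 : len P (n - 2) ≤ len P (n - 3))
    (H : n ≤ 9 ∨ ∀ i j, 3 ≤ i → i < j → j + 5 ≤ n →
        WeaklyLoose n (jointAngle P) i ∨ WeaklyLoose n (jointAngle P) j) :
    JoinedIn (freeSpace P) P Q := by
  have hD : Data P (len P) (jointAngle P) := data_of_simple hP
  have h1 : ∀ j, jointAngle P j ≤ π := hD.ang_le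
  have h0 : ∀ j, j + 2 ≤ n → 0 < jointAngle P j := fun j hj => theta_pos hD hP hj
  apply main_side hP cP cQ hQ 3
  intro i j hij hj hi' hj' hm
  obtain ⟨a1, a2, a3⟩ := bad_range h1 h0 (by omega : i + 2 ≤ n) hi'
  obtain ⟨b1, b2, b3⟩ := bad_range h1 h0 hj hj'
  have hgap := bad_gap h1 h0 hij hj hi' hj'
  by_cases hi3 : i < 3
  · right
    refine ⟨hi3, 3, hi3, by omega, hπ 3 (by omega), ?_⟩
    exact p3l hD.pos (h0 2 (by omega)) (hac 2 (by omega) (by omega)) (h0 1 (by omega))
      (hac 1 (by omega) (by omega)) (h0 0 (by omega)) (hac 0 (by omega) (by omega)) hl2 hl1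
  · left
    have hj5 : n ≤ j + 4 := by
      by_contra hc
      rcases H with H | H
      · omega
      · rcases H i j (by omega) hij (by omega) with h | h
        · exact hi' h
        · exact hj' h
    refine ⟨by omega, n - 4, by omega, by omega, hπ _ (by omega), ?_⟩
    refine t_P3R (by omega) hD.pos (h0 _ (by omega)) (hac _ (by omega) (by omega))
      (h0 _ (by omega)) (hac _ (by omega) (by omega)) (h0 _ (by omega))
      (hac _ (by omega) (by omega)) ?_ ?_
    · rw [(by omega : n - 4 + 2 = n - 2), (by omega : n - 4 + 1 = n - 3)]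
      exact hl4
    · rw [(by omega : n - 4 + 3 = n - 1), (by omega : n - 4 + 2 = n - 2)]
      exact hl3

end

end Pool.Agent.FlatN
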