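import Pool.Agent.FlatN.Side3

/-!
# A bound for the number of components that contain flat configurations
-/

set_option autoImplicit false

namespace Pool.Agent.FlatN

open Real Pool.Agent.Lib_helper54.Flat Pool.Agent.FlatW

section

variable {n : ℕ} {P Q : Fin (n + 1) → E3} {l θ : ℕ → ℝ}

/-- One-sided placements at the first links. -/
theorem left_place (hP : IsSimple P) {c : ℕ}
    (hc : c = 0 ∨ (c = 1 ∧ len P 0 ≤ len P 1) ∨
      (c = 2 ∧ len P 0 ≤ len P 1 ∧ len P 1 ≤ len P 2 ∧ jointAngle P 0 ≤ π / 2) ∨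
      ((∀ i, i < c → i + 2 ≤ n → len P i ≤ len P (i + 1)) ∧
        ∀ a b, a ≤ b → b ≤ c → b + 2 ≤ n →
          |∑ r ∈ Finset.Icc a b, (-1 : ℝ) ^ r * jointAngle P r| ≤ if a = 0 then π else π / 2))
    {i j : ℕ} (hij : i < j) (hj : j + 2 ≤ n) (hi' : ¬ WeaklyLoose n (jointAngle P) i)
    (hj' : ¬ WeaklyLoose n (jointAngle P) j) (hi3 : i < 1 + c) :
    LeftSide (len P) (jointAngle P) (i + 1) := by
  have hD : Data P (len P) (jointAngle P) := data_of_simple hP
  have h1 : ∀ j, jointAngle P j ≤ π := hD.ang_le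
  have h0 : ∀ j, j + 2 ≤ n → 0 < jointAngle P j := fun j hj => theta_pos hD hP hj
  obtain ⟨a1, a2, a3⟩ := bad_range h1 h0 (by omega : i + 2 ≤ n) hi'
  obtain ⟨b1, b2, b3⟩ := bad_range h1 h0 hj hj'
  have hgap := bad_gap h1 h0 hij hj hi' hj'
  rcases hc with hc | ⟨hc, hl1⟩ | ⟨hc, hl1, hc1, hc2⟩ | ⟨hlc, hac⟩
  · omega
  · have hi1 : i = 1 := by omega
    subst hi1
    exact t_P2L hD.pos (h0 1 (by omega)) a3 (h0 0 (by omega)) (h1 _) hl1
  · by_cases hi1 : i = 1
    · subst hi1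
      exact t_P2L hD.pos (h0 1 (by omega)) a3 (h0 0 (by omega)) (h1 _) hl1
    · have hi2 : i = 2 := by omega
      subst hi2
      apply t_REV
      exact t_Q3S (k := 0) (by norm_num) (fun m => hD.pos _) (h0 2 (by omega)) a3
        (h0 1 (by omega)) (h1 1) (h0 0 (by omega)) hc2
        (left_bad h1 h0 (by omega) (not_loose hi') hc2) hc1 hl1
  · refine t_ZL hD.pos (fun m hm => h0 m (by omega)) a3 ?_ ?_ ?_
    · intro a b ha hab hb
      have h := hac a b hab (by omega) (by omega)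
      rwa [if_neg (by omega)] at h
    · intro b hb
      have h := hac 0 b (by omega) (by omega) (by omega)
      rwa [if_pos rfl] at h
    · intro m hm
      exact hlc m (by omega) (by omega)

/-- One-sided placements at the last links. -/
theorem right_place (hP : IsSimple P) {d : ℕ}
    (hd : d = 0 ∨ (d = 1 ∧ len P (n - 1) ≤ len P (n - 2)) ∨
      (d = 2 ∧ len P (n - 1) ≤ len P (n - 2) ∧ len P (n - 2) ≤ len P (n - 3) ∧
        jointAngle P (n - 2) ≤ π / 2) ∨
      ((∀ i, i < d → i + 2 ≤ n → len P (n - 1 - i) ≤ len P (n - 2 - i)) ∧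
        ∀ a b, a ≤ b → n ≤ a + 2 + d → b + 2 ≤ n →
          |∑ r ∈ Finset.Icc a b, (-1 : ℝ) ^ r * jointAngle P r| ≤
            if b + 2 = n then π else π / 2))
    {i j : ℕ} (hij : i < j) (hj : j + 2 ≤ n) (hi' : ¬ WeaklyLoose n (jointAngle P) i)
    (hj' : ¬ WeaklyLoose n (jointAngle P) j) (hj5 : n < j + 3 + d) :
    RightSide n (len P) (jointAngle P) j := by
  have hD : Data P (len P) (jointAngle P) := data_of_simple hP
  have h1 : ∀ j, jointAngle P j ≤ π := hD.ang_le
  have h0 : ∀ j, j + 2 ≤ n → 0 < jointAngle P j := fun j hj => theta_pos hD hP hj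
  obtain ⟨a1, a2, a3⟩ := bad_range h1 h0 (by omega : i + 2 ≤ n) hi'
  obtain ⟨b1, b2, b3⟩ := bad_range h1 h0 hj hj'
  have hgap := bad_gap h1 h0 hij hj hi' hj'
  rcases hd with hd | ⟨hd, hl2⟩ | ⟨hd, hl2, hd1, hd2⟩ | ⟨hld, had⟩
  · omega
  · have hj3 : j + 3 = n := by omega
    refine t_P2R hj3 hD.pos (h0 j (by omega)) b3 (h0 (j + 1) (by omega)) (h1 _) ?_
    rw [(by omega : j + 2 = n - 1), (by omega : j + 1 = n - 2)]
    exact hl2
  · by_cases hj3 : j + 3 = n
    · refine t_P2R hj3 hD.pos (h0 j (by omega)) b3 (h0 (j + 1) (by omega)) (h1 _) ?_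
      rw [(by omega : j + 2 = n - 1), (by omega : j + 1 = n - 2)]
      exact hl2
    · have hj4 : j + 4 = n := by omega
      have e2 : n - 2 = j + 2 := by omega
      rw [e2] at hd2
      refine t_Q3S hj4 hD.pos (h0 _ (by omega)) b3 (h0 _ (by omega)) (h1 _)
        (h0 _ (by omega)) hd2 (right_bad h1 h0 hj4 (not_loose hj') hd2) ?_ ?_
      · rw [(by omega : j + 2 = n - 2), (by omega : j + 1 = n - 3)]
        exact hd1
      · rw [(by omega : j + 3 = n - 1), (by omega : j + 2 = n - 2)]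
        exact hl2
  · refine t_ZR (by omega) hD.pos (fun m hm hm2 => h0 m hm2) b3 ?_ ?_ ?_
    · intro a b ha hab hb
      have h := had a b hab (by omega) (by omega)
      rwa [if_neg (by omega)] at h
    · intro a ha ha2
      have h := had a (n - 2) (by omega) (by omega) (by omega)
      rwa [if_pos (by omega)] at h
    · intro m hm1 hm2
      have h := hld (n - 2 - m) (by omega) (by omega)
      rw [(by omega : n - 1 - (n - 2 - m) = m + 1), (by omega : n - 2 - (n - 2 - m) = m)] at h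
      exact h

/-- A set of integers without adjacent elements in an interval. -/
theorem card_gap {T : Finset ℕ} {a b : ℕ} (h1 : ∀ i ∈ T, a ≤ i ∧ i ≤ b)
    (h2 : ∀ i ∈ T, ∀ j ∈ T, i < j → i + 2 ≤ j) : T.card - 1 ≤ (b - a) / 2 := by
  have h3 : T.card ≤ (Finset.range ((b - a) / 2 + 1)).card := by
    apply Finset.card_le_card_of_injOn (fun i => (i - a) / 2)
    · intro i hi
      have := h1 i hi
      simp only [Finset.coe_range, Set.mem_Iio]
      omega
    · intro i hi j hj hij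
      have hi' := h1 i hi
      have hj' := h1 j hj
      simp only at hij
      rcases lt_trichotomy i j with h | h | h
      · have := h2 i hi j hj h
        omega
      · exact h
      · have := h2 j hj i hi h
        omega
  rw [Finset.card_range] at h3
  omega

/-- **The number of components.** The joints `i` with `1 + c ≤ i ≤ n - 3 - d` that are not weakly
loose; the flat configurations lie in at most `2 ^ (t - 1)` components of the free space, if `t` is
the number of these joints. -/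
theorem count3 (hP : IsSimple P) (cP : Coplanar ℝ (Set.range P)) {c d : ℕ}
    (hc : c = 0 ∨ (c = 1 ∧ len P 0 ≤ len P 1) ∨
      (c = 2 ∧ len P 0 ≤ len P 1 ∧ len P 1 ≤ len P 2 ∧ jointAngle P 0 ≤ π / 2) ∨
      ((∀ i, i < c → i + 2 ≤ n → len P i ≤ len P (i + 1)) ∧
        ∀ a b, a ≤ b → b ≤ c → b + 2 ≤ n →
          |∑ r ∈ Finset.Icc a b, (-1 : ℝ) ^ r * jointAngle P r| ≤ if a = 0 then π else π / 2))
    (hd : d = 0 ∨ (d = 1 ∧ len P (n - 1) ≤ len P (n - 2)) ∨
      (d = 2 ∧ len P (n - 1) ≤ len P (n - 2) ∧ len P (n - 2) ≤ len P (n - 3) ∧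
        jointAngle P (n - 2) ≤ π / 2) ∨
      ((∀ i, i < d → i + 2 ≤ n → len P (n - 1 - i) ≤ len P (n - 2 - i)) ∧
        ∀ a b, a ≤ b → n ≤ a + 2 + d → b + 2 ≤ n →
          |∑ r ∈ Finset.Icc a b, (-1 : ℝ) ^ r * jointAngle P r| ≤
            if b + 2 = n then π else π / 2))
    {T : Finset ℕ}
    (hT : ∀ i, i ∈ T ↔ 1 + c ≤ i ∧ i + 3 + d ≤ n ∧ ¬ WeaklyLoose n (jointAngle P) i) :
    T.card - 1 ≤ (n - 4 - c - d) / 2 ∧
    ∃ R : Fin (2 ^ (T.card - 1)) → Fin (n + 1) → E3, ∀ Q ∈ freeSpace P,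
      Coplanar ℝ (Set.range Q) → ∃ r, JoinedIn (freeSpace P) (R r) Q := by
  classical
  have hD : Data P (len P) (jointAngle P) := data_of_simple hP
  have h1 : ∀ j, jointAngle P j ≤ π := hD.ang_le
  have h0 : ∀ j, j + 2 ≤ n → 0 < jointAngle P j := fun j hj => theta_pos hD hP hj
  constructor
  · have h2 := card_gap (T := T) (a := 1 + c) (b := n - 3 - d)
      (fun i hi => by have := (hT i).1 hi; omega)
      (fun i hi j hj hij => by
        have h3 := (hT i).1 hi
        have h4 := (hT j).1 hj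
        exact bad_gap h1 h0 hij (by omega) h3.2.2 h4.2.2)
    have e : n - 3 - d - (1 + c) = n - 4 - c - d := by omega
    rwa [e] at h2
  by_cases hne : T.Nonempty
  swap
  · refine ⟨fun _ => P, fun Q hQ cQ => ⟨⟨0, by positivity⟩, ?_⟩⟩
    refine ends4 hP cP cQ hQ hc hd (Or.inr ?_)
    intro i j hi hij hj
    by_contra hcon
    push Not at hcon
    exact hne ⟨i, (hT i).2 ⟨hi, by omega, hcon.1⟩⟩
  obtain ⟨m0, hm0, hmin⟩ : ∃ m0 ∈ T, ∀ m ∈ T, m0 ≤ m :=
    ⟨T.min' hne, T.min'_mem hne, fun m hm => T.min'_le m hm⟩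
  obtain ⟨m1, hm1, hmax⟩ : ∃ m1 ∈ T, ∀ m ∈ T, m ≤ m1 :=
    ⟨T.max' hne, T.max'_mem hne, fun m hm => T.le_max' m hm⟩
  have hcard : (T.erase m0).powerset.card = 2 ^ (T.card - 1) := by
    rw [Finset.card_powerset, Finset.card_erase_of_mem hm0]
  obtain ⟨f, hf⟩ : ∃ f : (Fin (n + 1) → E3) → Finset ℕ,
      f = fun Q => (T.erase m0).filter fun m => 0 < turnProd Q m0 m := ⟨_, rfl⟩
  let e := (T.erase m0).powerset.equivFinOfCardEq hcard
  have key : ∀ Q ∈ freeSpace P, Coplanar ℝ (Set.range Q) → ∀ Q' ∈ freeSpace P,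
      Coplanar ℝ (Set.range Q') → f Q = f Q' → JoinedIn (freeSpace P) Q Q' := by
    intro Q hQ cQ Q' hQ' cQ' hff
    have hm0' := (hT m0).1 hm0
    have hm1' := (hT m1).1 hm1
    rw [← freeSpace_eq hQ]
    refine core3 (data_of_mem hD hQ) hQ.1 cQ cQ' (by rw [freeSpace_eq hQ]; exact hQ')
      (m0 := m0) (m1 := m1) (by omega) hm0'.2.2 (by omega) hm1'.2.2 (hmin m1 hm1) ?_ ?_ ?_
    · intro m hm hm2 hm3
      by_cases hmm : m = m0
      · subst hmm
        have hself : ∀ R ∈ freeSpace P, Coplanar ℝ (Set.range R) → 0 < turnProd R m m := by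
          intro R hR cR
          obtain ⟨p, q, a, b, c, ω, ω', φ, s, s', hON, hs, hs', eP, eQ, he⟩ :=
            normal_form (data_of_mem hD hR) cR cR (⟨hR.1, fun _ => rfl, fun _ _ _ => rfl⟩ :
              R ∈ freeSpace R) m
          have := turn_iff (i := m) (j := m) (p := p) (ω := ω) (data_of_mem hD hR) hR.1 hON hs
            (by omega) (by omega) hm3 hm3
          rw [eP]
          exact this.2 rfl
        exact ⟨fun _ => hself Q' hQ' cQ', fun _ => hself Q hQ cQ⟩
      · have hmT : m ∈ T.erase m0 := Finset.mem_erase.2 ⟨hmm, (hT m).2 ⟨by omega, by omega, hm3⟩⟩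
        have e1 : m ∈ f Q ↔ m ∈ f Q' := by rw [hff]
        rw [hf] at e1
        simpa [Finset.mem_filter, hmT] using e1
    · intro i j hij hj hi' hj' hle
      refine ⟨j, hij, le_rfl, right_place hP hd hij hj hi' hj' ?_⟩
      by_contra hcon
      have := hmax j ((hT j).2 ⟨by omega, by omega, hj'⟩)
      omega
    · intro i j hij hj hi' hj' hle
      refine ⟨i + 1, by omega, by omega, left_place hP hc hij hj hi' hj' ?_⟩
      by_contra hcon
      have := hmin i ((hT i).2 ⟨by omega, by omega, hi'⟩)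
      omega
  refine ⟨fun r => if h : ∃ Q, Q ∈ freeSpace P ∧ Coplanar ℝ (Set.range Q) ∧
    f Q = (e.symm r : Finset ℕ) then h.choose else P, ?_⟩
  intro Q hQ cQ
  have hfQ : f Q ∈ (T.erase m0).powerset := by
    rw [hf, Finset.mem_powerset]
    exact Finset.filter_subset _ _
  refine ⟨e ⟨f Q, hfQ⟩, ?_⟩
  have hex : ∃ Q', Q' ∈ freeSpace P ∧ Coplanar ℝ (Set.range Q') ∧
      f Q' = (e.symm (e ⟨f Q, hfQ⟩) : Finset ℕ) := ⟨Q, hQ, cQ, by rw [Equiv.symm_apply_apply]⟩
  beta_reduce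
  rw [dif_pos hex]
  obtain ⟨g1, g2, g3⟩ := hex.choose_spec
  refine key _ g1 g2 Q hQ cQ (g3.trans ?_)
  rw [Equiv.symm_apply_apply]

end

end Pool.Agent.FlatN
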