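import Pool.Agent.FlatW.Crit

/-!
# Flips: rotating a flat end part of a chain about a link
-/

set_option autoImplicit false

namespace Pool.Agent.FlatN

open Real Pool.Agent.Lib_helper54.Flat Pool.Agent.FlatW

/-- The rotation by `φ` about the direction `e` (in an orthonormal frame `e, w, c`). -/
noncomputable def rotL (e w c : E3) (φ : ℝ) (x : E3) : E3 :=
  (inner ℝ e x : ℝ) • e + (inner ℝ w x : ℝ) • (cos φ • w + sin φ • c) +
    (inner ℝ c x : ℝ) • (-sin φ • w + cos φ • c)

/-- The rotation by `φ` about the line through `v` with direction `e`. -/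
noncomputable def rotA (v e w c : E3) (φ : ℝ) (x : E3) : E3 := v + rotL e w c φ (x - v)

/-- The signs from joint `k` on are changed. -/
def fl (k : ℕ) (s : ℕ → ℝ) : ℕ → ℝ := fun m => if k ≤ m then -s m else s m

/-- The signs before joint `k` are changed. -/
def fr (k : ℕ) (s : ℕ → ℝ) : ℕ → ℝ := fun m => if m < k then -s m else s m

/-- Latitude `η` for the links before link `k`, and `0` from link `k` on. -/
noncomputable def hb (k : ℕ) (η : ℝ) : ℕ → ℝ := fun m => if m < k then η else 0

/-- Latitude `0` for the links up to link `k`, and `η` after it. -/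
noncomputable def ha (k : ℕ) (η : ℝ) : ℕ → ℝ := fun m => if m ≤ k then 0 else η

/-- The links `a, ..., b - 1` of the chain with the vertices `u` form a chain that does not
intersect itself. -/
def SimpleOn (u : ℕ → E3) (a b : ℕ) : Prop :=
  (∀ i, a ≤ i → i < b → u i ≠ u (i + 1)) ∧
  (∀ i j, a ≤ i → i + 1 < j → j < b →
    Disjoint (segment ℝ (u i) (u (i + 1))) (segment ℝ (u j) (u (j + 1)))) ∧
  (∀ i, a ≤ i → i + 1 < b →
    segment ℝ (u i) (u (i + 1)) ∩ segment ℝ (u (i + 1)) (u (i + 2)) ⊆ {u (i + 1)})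

/-- The links `k, ..., n - 1` of the chain with `n` links of the lengths `l` and joint angles `θ`
have a flat configuration `R` that does not intersect itself and lies on one side of the line of
its first link (the link `k`). -/
def RightSide (n : ℕ) (l θ : ℕ → ℝ) (k : ℕ) : Prop :=
  ∃ m : ℕ, k + m = n ∧ ∃ R : Fin (m + 1) → E3, IsSimple R ∧ Coplanar ℝ (Set.range R) ∧
    (∀ i, i < m → dist (vx R i) (vx R (i + 1)) = l (k + i)) ∧
    (∀ i, i + 2 ≤ m → jointAngle R i = θ (k + i)) ∧
    ∃ u : E3, (inner ℝ u (vx R 1 - vx R 0) : ℝ) = 0 ∧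
      ∀ j, 2 ≤ j → j ≤ m → 0 < (inner ℝ u (vx R j - vx R 0) : ℝ)

/-- The links `0, ..., k` of a chain with the lengths `l` and joint angles `θ` have a flat
configuration `R` that does not intersect itself and lies on one side of the line of its last link
(the link `k`). -/
def LeftSide (l θ : ℕ → ℝ) (k : ℕ) : Prop :=
  ∃ R : Fin (k + 2) → E3, IsSimple R ∧ Coplanar ℝ (Set.range R) ∧
    (∀ i, i ≤ k → dist (vx R i) (vx R (i + 1)) = l i) ∧
    (∀ i, i < k → jointAngle R i = θ i) ∧
    ∃ u : E3, (inner ℝ u (vx R (k + 1) - vx R k) : ℝ) = 0 ∧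
      ∀ j, j < k → 0 < (inner ℝ u (vx R j - vx R k) : ℝ)

end Pool.Agent.FlatN
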