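import Pool.Agent.FlatN.Defs

/-!
# Plane configurations that differ by a half flip
-/

set_option autoImplicit false

namespace Pool.Agent.FlatN

open Real Pool.Agent.Lib_helper54.Flat Pool.Agent.FlatW

/-- `W` is a configuration in a plane, possibly with self-intersections, with the lengths and the
joint angles of `P`. -/
def IsPlane {n : ℕ} (P W : Fin (n + 1) → E3) : Prop :=
  Coplanar ℝ (Set.range W) ∧
  (∀ i : Fin n, dist (W i.castSucc) (W i.succ) = dist (P i.castSucc) (P i.succ)) ∧
  (∀ i j : Fin n, j.val = i.val + 1 →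
    EuclideanGeometry.angle (W i.castSucc) (W i.succ) (W j.succ) =
      EuclideanGeometry.angle (P i.castSucc) (P i.succ) (P j.succ))

/-- The image of the point `y` under the half-turn about the line of the link `k` (in the plane of
`W`: the mirror image in this line). -/
noncomputable def mir {n : ℕ} (W : Fin (n + 1) → E3) (k : ℕ) (y : E3) : E3 :=
  (2 : ℝ) • (vx W k + ((inner ℝ (y - vx W k) (vx W (k + 1) - vx W k) : ℝ) /
    (inner ℝ (vx W (k + 1) - vx W k) (vx W (k + 1) - vx W k) : ℝ)) •
      (vx W (k + 1) - vx W k)) - y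

/-- The links `k, ..., n - 1` of `W` form a simple chain, and no link after the link `k` that has
points on the side `⟪u, ·⟫ < 0` of the line of the link `k` meets, in a point with `⟪u, ·⟫ ≤ 0`, the
part of `W` before the link `k` or the mirror image of this part in the line. Here `u ≠ 0` is
perpendicular to the link `k` in the plane of `W`. -/
def TailFlip {n : ℕ} (W : Fin (n + 1) → E3) (k : ℕ) : Prop :=
  SimpleOn (vx W) k n ∧ ∃ u ∈ vectorSpan ℝ (Set.range W), u ≠ 0 ∧
    (inner ℝ u (vx W (k + 1) - vx W k) : ℝ) = 0 ∧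
    ∀ i j x y, i < k → k < j → j < n →
      ((inner ℝ u (vx W j - vx W k) : ℝ) < 0 ∨ (inner ℝ u (vx W (j + 1) - vx W k) : ℝ) < 0) →
      x ∈ segment ℝ (vx W i) (vx W (i + 1)) → y ∈ segment ℝ (vx W j) (vx W (j + 1)) →
      (inner ℝ u (y - vx W k) : ℝ) ≤ 0 → x ≠ y ∧ x ≠ mir W k y

/-- The same with the parts before and after the link `k` exchanged. -/
def HeadFlip {n : ℕ} (W : Fin (n + 1) → E3) (k : ℕ) : Prop :=
  SimpleOn (vx W) 0 (k + 1) ∧ ∃ u ∈ vectorSpan ℝ (Set.range W), u ≠ 0 ∧
    (inner ℝ u (vx W (k + 1) - vx W k) : ℝ) = 0 ∧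
    ∀ i j x y, i < k → k < j → j < n →
      ((inner ℝ u (vx W i - vx W k) : ℝ) < 0 ∨ (inner ℝ u (vx W (i + 1) - vx W k) : ℝ) < 0) →
      x ∈ segment ℝ (vx W i) (vx W (i + 1)) → y ∈ segment ℝ (vx W j) (vx W (j + 1)) →
      (inner ℝ u (x - vx W k) : ℝ) ≤ 0 → y ≠ x ∧ y ≠ mir W k x

/-- Two plane configurations that turn alike at the joints that are not weakly loose, or of which
the second turns at these joints like the first with its part after the link `k` mirrored in the
line of the link `k`, where `TailFlip` or `HeadFlip` holds for the first one (and the joint before,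
respectively after, the link `k` is not straight). -/
def FlipStep {n : ℕ} (P W W' : Fin (n + 1) → E3) : Prop :=
  IsPlane P W ∧ IsPlane P W' ∧
  ((∀ i j, i + 2 ≤ n → j + 2 ≤ n → ¬ WeaklyLoose n (jointAngle P) i →
      ¬ WeaklyLoose n (jointAngle P) j → (0 < turnProd W i j ↔ 0 < turnProd W' i j)) ∨
    ∃ k, 1 ≤ k ∧ k + 2 ≤ n ∧
      (jointAngle P (k - 1) < π ∧ TailFlip W k ∨ jointAngle P k < π ∧ HeadFlip W k) ∧
      ∀ i j, i + 2 ≤ n → j + 2 ≤ n → ¬ WeaklyLoose n (jointAngle P) i →
        ¬ WeaklyLoose n (jointAngle P) j →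
        (0 < turnProd W' i j ↔ (0 < turnProd W i j ↔ (i < k ↔ j < k))))

end Pool.Agent.FlatN
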