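import Pool.Agent.FlatN.MP3R

/-! FLN, module Q3R (helper8): three links can be placed on one side of a line, general angles. -/

set_option autoImplicit false

namespace Pool.Agent.FlatN

open Real Pool.Agent.Lib_helper54.Flat Pool.Agent.FlatW

namespace MQ3R

theorem place {n k : ℕ} (hk : k + 4 = n) {l θ : ℕ → ℝ} (hl : ∀ m, 0 < l m)
    (s : ℕ → ℝ) (hs : ∀ m, s m = 1 ∨ s m = -1)
    (hθ : ∀ i, i < 3 → 0 < θ (k + i) ∧ θ (k + i) ≤ π)
    (A : ℕ → ℝ) (hA : A = az 0 s (fun _ => 0) (fun i => θ (k + i)))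
    (p2 : 0 < l (k + 1) * sin (A 1))
    (p3 : 0 < l (k + 1) * sin (A 1) + l (k + 2) * sin (A 2))
    (p4 : 0 < l (k + 1) * sin (A 1) + l (k + 2) * sin (A 2) + l (k + 3) * sin (A 3))
    (α : ℝ) (q1 : 0 < sin (A 1 - α)) (q2 : sin (A 2 - α) = 0) (q3 : 0 < sin (A 3 - α)) :
    RightSide n l θ k := by
  obtain ⟨a, b, c, hON⟩ := MP3R.exists_ON
  have hpi := Real.pi_pos
  obtain ⟨l', hl'⟩ : ∃ l' : ℕ → ℝ, l' = fun i => l (k + i) := ⟨_, rfl⟩
  obtain ⟨θ', hθ'⟩ : ∃ θ' : ℕ → ℝ, θ' = fun i => θ (k + i) := ⟨_, rfl⟩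
  rw [← hθ'] at hA
  have e1 : l (k + 1) = l' 1 := by rw [hl']
  have e2 : l (k + 2) = l' 2 := by rw [hl']
  have e3 : l (k + 3) = l' 3 := by rw [hl']
  rw [e1] at p2
  rw [e1, e2] at p3
  rw [e1, e2, e3] at p4
  have hlp : ∀ m, 0 < l' m := fun m => by rw [hl']; exact hl _
  have hA0 : A 0 = 0 := by rw [hA]; rfl
  obtain ⟨V, hV⟩ : ∃ V : ℕ → E3, V = vtx 0 a b c 0 l' s (fun _ => 0) θ' := ⟨_, rfl⟩
  have hstep : ∀ α j, (inner ℝ (MP3R.un a b c α) (V (j + 1)) : ℝ) =
      inner ℝ (MP3R.un a b c α) (V j) + l' j * sin (A j - α) := by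
    intro α j
    rw [hV, hA]
    exact MP3R.un_vtx hON α 0 0 l' s θ' j
  have b0 : (inner ℝ (MP3R.un a b c 0) (V 0) : ℝ) = 0 := by
    rw [hV]; exact inner_zero_right _
  have b1 : (inner ℝ (MP3R.un a b c 0) (V 1) : ℝ) = 0 := by
    rw [hstep, b0, hA0, sub_zero, sin_zero, mul_zero, add_zero]
  have b2 : (inner ℝ (MP3R.un a b c 0) (V 2) : ℝ) = l' 1 * sin (A 1) := by
    rw [hstep, b1, sub_zero, zero_add]
  have b3 : (inner ℝ (MP3R.un a b c 0) (V 3) : ℝ) = l' 1 * sin (A 1) + l' 2 * sin (A 2) := by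
    rw [hstep, b2, sub_zero]
  have b4 : (inner ℝ (MP3R.un a b c 0) (V 4) : ℝ) =
      l' 1 * sin (A 1) + l' 2 * sin (A 2) + l' 3 * sin (A 3) := by
    rw [hstep, b3, sub_zero]
  obtain ⟨t, ht⟩ : ∃ t : ℝ, t = (inner ℝ (MP3R.un a b c α) (V 2) : ℝ) := ⟨_, rfl⟩
  have c1 : (inner ℝ (MP3R.un a b c α) (V 1) : ℝ) < t := by
    have h := hstep α 1
    rw [← ht] at h
    have := mul_pos (hlp 1) q1
    linarith
  have c3 : (inner ℝ (MP3R.un a b c α) (V 3) : ℝ) = t := by
    have h := hstep α 2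
    rw [← ht, q2, mul_zero, add_zero] at h
    exact h
  have c4 : t < (inner ℝ (MP3R.un a b c α) (V 4) : ℝ) := by
    have h := hstep α 3
    rw [c3] at h
    have := mul_pos (hlp 3) q3
    linarith
  have hne : ∀ i, V i ≠ V (i + 1) := by
    intro i h
    have hd : dist (V i) (V (i + 1)) = l' i := by rw [hV]; exact dist_vtx hON i (hlp i)
    rw [h, dist_self] at hd
    exact absurd hd (hlp i).ne
  have hR : ∀ i, i ≤ 4 → vx (chain 4 0 a b c 0 l' s (fun _ => 0) θ') i = V i := by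
    intro i hi
    rw [vx_chain hi, hV]
  have hdis : ∀ i j : ℕ, i + 1 < j → j < 4 →
      Disjoint (segment ℝ (V i) (V (i + 1))) (segment ℝ (V j) (V (j + 1))) := by
    intro i j hij hj
    have hc : (i = 0 ∧ j = 2) ∨ (i = 0 ∧ j = 3) ∨ (i = 1 ∧ j = 3) := by omega
    rcases hc with ⟨rfl, rfl⟩ | ⟨rfl, rfl⟩ | ⟨rfl, rfl⟩
    · exact MP3R.seg_disj (MP3R.un a b c 0) 0 b0 b1 (by rw [b2]; exact p2) (by rw [b3]; exact p3)
    · exact MP3R.seg_disj (MP3R.un a b c 0) 0 b0 b1 (by rw [b3]; exact p3) (by rw [b4]; exact p4)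
    · rw [Set.disjoint_left]
      intro X hX hX'
      have h := MP3R.seg_meet (MP3R.un a b c α) t c1.le ht.symm c3 c4.le hX hX'
      exact hne 2 ((h.1 c1).symm.trans (h.2 c4))
  have hcon : ∀ i : ℕ, i + 1 < 4 →
      segment ℝ (V i) (V (i + 1)) ∩ segment ℝ (V (i + 1)) (V (i + 2)) ⊆ {V (i + 1)} := by
    intro i hi
    have hc : i = 0 ∨ i = 1 ∨ i = 2 := by omega
    rcases hc with rfl | rfl | rfl
    · rintro X ⟨hX, hX'⟩
      have h := MP3R.seg_meet (MP3R.un a b c 0) 0 b0.le b1 b1 (by rw [b2]; exact p2.le) hX hX'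
      exact Set.mem_singleton_iff.2 (h.2 (by rw [b2]; exact p2))
    · rintro X ⟨hX, hX'⟩
      have h := MP3R.seg_meet (MP3R.un a b c α) t c1.le ht.symm ht.symm c3.ge hX hX'
      exact Set.mem_singleton_iff.2 (h.1 c1)
    · rintro X ⟨hX, hX'⟩
      have h := MP3R.seg_meet (MP3R.un a b c α) t ht.symm.le c3 c3 c4.le hX hX'
      exact Set.mem_singleton_iff.2 (h.2 c4)
  refine ⟨4, hk, chain 4 0 a b c 0 l' s (fun _ => 0) θ', ⟨?_, ?_, ?_⟩, MP3R.coplanar_chain,
    ?_, ?_, MP3R.un a b c 0, ?_, ?_⟩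
  · intro i
    rw [chain_castSucc, chain_succ, ← hV]
    exact hne i.val
  · intro i j hij
    rw [chain_castSucc, chain_succ, chain_castSucc, chain_succ, ← hV]
    exact hdis i.val j.val hij j.isLt
  · intro i j hij
    rw [chain_castSucc, chain_succ, chain_castSucc, chain_succ, ← hV, hij]
    exact hcon i.val (by omega)
  · intro i hi
    rw [hR i (by omega), hR (i + 1) (by omega), hV, dist_vtx hON i (hlp i), hl']
  · intro i hi
    unfold jointAngle
    rw [hR i (by omega), hR (i + 1) (by omega), hR (i + 2) (by omega), hV]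
    have hb : 0 < θ' i ∧ θ' i ≤ π := by rw [hθ']; exact hθ i (by omega)
    have h := angle_vtx (p := 0) (ω := 0) (s := s) (h := fun _ => 0) (θ := θ') hON i (hlp i)
      (hlp (i + 1)) (hs i) le_rfl (by linarith) le_rfl (by linarith) hb.1.le
      hb.2 (by linarith [hb.1]) (by rw [sub_zero, abs_zero]; linarith [hb.2])
    rw [h, hθ']
  · rw [hR 1 (by omega), hR 0 (by omega), inner_sub_right, b1, b0, sub_zero]
  · intro j hj2 hj4
    rw [hR j hj4, hR 0 (by omega), inner_sub_right, b0, sub_zero]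
    have hc : j = 2 ∨ j = 3 ∨ j = 4 := by omega
    rcases hc with rfl | rfl | rfl
    · rw [b2]; exact p2
    · rw [b3]; exact p3
    · rw [b4]; exact p4

/-- the heights -/
theorem heights {x y z l1 l2 l3 : ℝ} (hx : 0 < x) (hx' : x ≤ π / 2) (hy : 0 < y) (hy' : y < π)
    (hz : 0 < z) (hz' : z ≤ π / 2) (hyz : y ≤ π / 2 ∨ z ≤ x) (h3 : 0 < l3) (h23 : l3 ≤ l2)
    (h12 : l2 ≤ l1) :
    0 < l1 * sin x - l2 * sin (x - y) ∧
      0 < l1 * sin x - l2 * sin (x - y) + l3 * sin (x - y + z) := by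
  have hpi := Real.pi_pos
  have h2 : 0 < l2 := h3.trans_le h23
  have h1 : 0 < l1 := h2.trans_le h12
  have sx : 0 < sin x := sin_pos_of_pos_of_lt_pi hx (by linarith)
  have sz : 0 < sin z := sin_pos_of_pos_of_lt_pi hz (by linarith)
  have p3 : 0 < l1 * sin x - l2 * sin (x - y) := by
    rcases le_or_gt x y with h | h
    · have e : sin (x - y) = -sin (y - x) := by rw [← sin_neg]; congr 1; ring
      have : 0 ≤ sin (y - x) := sin_nonneg_of_nonneg_of_le_pi (by linarith) (by linarith)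
      have := mul_nonneg h2.le this
      have := mul_pos h1 sx
      rw [e]
      linarith
    · have h4 : sin (x - y) < sin x :=
        sin_lt_sin_of_lt_of_le_pi_div_two (by linarith) hx' (by linarith)
      have h5 : l2 * sin (x - y) < l2 * sin x := mul_lt_mul_of_pos_left h4 h2
      have h6 : l2 * sin x ≤ l1 * sin x := mul_le_mul_of_nonneg_right h12 sx.le
      linarith
  refine ⟨p3, ?_⟩
  rcases le_or_gt 0 (x - y + z) with h | h
  · have h4 : 0 ≤ sin (x - y + z) := sin_nonneg_of_nonneg_of_le_pi h (by linarith)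
    have := mul_nonneg h3.le h4
    linarith
  · have e : sin (x - y + z) = -sin (y - x - z) := by rw [← sin_neg]; congr 1; ring
    have e' : sin (x - y) = -sin (y - x) := by rw [← sin_neg]; congr 1; ring
    rw [e, e']
    have h0 : 0 ≤ sin (y - x - z) := sin_nonneg_of_nonneg_of_le_pi (by linarith) (by linarith)
    rcases le_or_gt (y - x) (π / 2) with hw | hw
    · have h4 : sin (y - x - z) ≤ sin (y - x) :=
        sin_le_sin_of_le_of_le_pi_div_two (by linarith) hw (by linarith)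
      have h5 : l3 * sin (y - x - z) ≤ l2 * sin (y - x) := mul_le_mul h23 h4 h0 h2.le
      have := mul_pos h1 sx
      linarith
    · have hzx : z ≤ x := by
        rcases hyz with h4 | h4
        · linarith
        · exact h4
      have sw : 0 < sin (y - x) := sin_pos_of_pos_of_lt_pi (by linarith) (by linarith)
      have h4 : sin (y - x - z) < sin (y - x) + sin z := by
        rw [sin_sub (y - x) z]
        have c1 : cos z < 1 := by
          have := cos_lt_cos_of_nonneg_of_le_pi_div_two le_rfl hz' hz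
          rwa [cos_zero] at this
        have c2 : -1 ≤ cos (y - x) := neg_one_le_cos _
        nlinarith
      have h5 : sin z ≤ sin x := sin_le_sin_of_le_of_le_pi_div_two (by linarith) hx' hzx
      have h6 : l3 * sin (y - x - z) < l3 * (sin (y - x) + sin x) :=
        mul_lt_mul_of_pos_left (by linarith) h3
      have h7 : l3 * sin (y - x) ≤ l2 * sin (y - x) := mul_le_mul_of_nonneg_right h23 sw.le
      have h8 : l3 * sin x ≤ l1 * sin x := mul_le_mul_of_nonneg_right (h23.trans h12) sx.le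
      linarith

end MQ3R

theorem t_Q3R {n k : ℕ} (hk : k + 4 = n) {l θ : ℕ → ℝ} (hl : ∀ m, 0 < l m)
    (hx : 0 < θ k) (hx' : θ k < π) (hy : 0 < θ (k + 1)) (hy' : θ (k + 1) < π)
    (hz : 0 < θ (k + 2)) (hz' : θ (k + 2) ≤ π / 2)
    (hyz : θ (k + 1) ≤ π / 2 ∨ (θ (k + 2) ≤ θ k ∧ θ (k + 2) ≤ π - θ k))
    (h12 : l (k + 2) ≤ l (k + 1)) (h23 : l (k + 3) ≤ l (k + 2)) : RightSide n l θ k := by
  have hpi := Real.pi_pos
  have hθ : ∀ i, i < 3 → 0 < θ (k + i) ∧ θ (k + i) ≤ π := by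
    intro i hi
    have hc : i = 0 ∨ i = 1 ∨ i = 2 := by omega
    rcases hc with rfl | rfl | rfl
    · exact ⟨hx, hx'.le⟩
    · exact ⟨hy, hy'.le⟩
    · exact ⟨hz, by linarith⟩
  have sx : 0 < sin (θ k) := sin_pos_of_pos_of_lt_pi hx hx'
  have sy : 0 < sin (θ (k + 1)) := sin_pos_of_pos_of_lt_pi hy hy'
  have sz : 0 < sin (θ (k + 2)) := sin_pos_of_pos_of_lt_pi hz (by linarith)
  rcases le_or_gt (θ k) (π / 2) with hc | hc
  · obtain ⟨p3, p4⟩ := MQ3R.heights hx hc hy hy' hz hz'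
      (hyz.imp id fun h => h.1) (hl (k + 3)) h23 h12
    obtain ⟨A, hA⟩ : ∃ A, A = az 0 MP3R.sg (fun _ => 0) (fun i => θ (k + i)) := ⟨_, rfl⟩
    have a1 : A 1 = π - θ k := by
      have : A 1 = 0 + MP3R.sg 0 * dlt (θ (k + 0)) 0 0 := by rw [hA]; rfl
      rw [this, Nat.add_zero, dlt_zero hx.le hx'.le]
      simp [MP3R.sg]
    have a2 : A 2 = θ (k + 1) - θ k := by
      have : A 2 = A 1 + MP3R.sg 1 * dlt (θ (k + 1)) 0 0 := by rw [hA]; rfl
      rw [this, a1, dlt_zero hy.le hy'.le]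
      simp [MP3R.sg]
    have a3 : A 3 = θ (k + 1) - θ k + (π - θ (k + 2)) := by
      have : A 3 = A 2 + MP3R.sg 2 * dlt (θ (k + 2)) 0 0 := by rw [hA]; rfl
      rw [this, a2, dlt_zero hz.le (by linarith)]
      simp [MP3R.sg]
    have s1 : sin (A 1) = sin (θ k) := by rw [a1, sin_pi_sub]
    have s2 : sin (A 2) = -sin (θ k - θ (k + 1)) := by
      rw [a2, ← sin_neg]; congr 1; ring
    have s3 : sin (A 3) = sin (θ k - θ (k + 1) + θ (k + 2)) := by
      rw [a3]
      have : θ (k + 1) - θ k + (π - θ (k + 2)) = π - (θ k - θ (k + 1) + θ (k + 2)) := by ring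
      rw [this, sin_pi_sub]
    refine MQ3R.place hk hl MP3R.sg MP3R.sg_cases hθ A hA ?_ ?_ ?_ (θ (k + 1) - θ k) ?_ ?_ ?_
    · rw [s1]; exact mul_pos (hl _) sx
    · rw [s1, s2]; linarith
    · rw [s1, s2, s3]; linarith
    · rw [a1]
      have : π - θ k - (θ (k + 1) - θ k) = π - θ (k + 1) := by ring
      rw [this, sin_pi_sub]; exact sy
    · rw [a2, sub_self, sin_zero]
    · rw [a3]
      have : θ (k + 1) - θ k + (π - θ (k + 2)) - (θ (k + 1) - θ k) = π - θ (k + 2) := by ring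
      rw [this, sin_pi_sub]; exact sz
  · obtain ⟨p3, p4⟩ := MQ3R.heights (x := π - θ k) (by linarith) (by linarith) hy hy' hz hz'
      (hyz.imp id fun h => h.2) (hl (k + 3)) h23 h12
    obtain ⟨s, hs⟩ : ∃ s : ℕ → ℝ, s = fun m => if m = 2 then -1 else 1 := ⟨_, rfl⟩
    have hsc : ∀ m, s m = 1 ∨ s m = -1 := by
      intro m
      rw [hs]
      by_cases h : m = 2
      · right; exact if_pos h
      · left; exact if_neg h
    obtain ⟨A, hA⟩ : ∃ A, A = az 0 s (fun _ => 0) (fun i => θ (k + i)) := ⟨_, rfl⟩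
    have a1 : A 1 = π - θ k := by
      have : A 1 = 0 + s 0 * dlt (θ (k + 0)) 0 0 := by rw [hA]; rfl
      rw [this, Nat.add_zero, dlt_zero hx.le hx'.le, hs]
      simp
    have a2 : A 2 = π - θ k + (π - θ (k + 1)) := by
      have : A 2 = A 1 + s 1 * dlt (θ (k + 1)) 0 0 := by rw [hA]; rfl
      rw [this, a1, dlt_zero hy.le hy'.le, hs]
      simp
    have a3 : A 3 = π - θ k + (π - θ (k + 1)) - (π - θ (k + 2)) := by
      have : A 3 = A 2 + s 2 * dlt (θ (k + 2)) 0 0 := by rw [hA]; rfl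
      rw [this, a2, dlt_zero hz.le (by linarith), hs]
      simp only [if_true]
      ring
    have s1 : sin (A 1) = sin (π - θ k) := by rw [a1]
    have s2 : sin (A 2) = -sin (π - θ k - θ (k + 1)) := by
      rw [a2]
      have : π - θ k + (π - θ (k + 1)) = (π - θ k - θ (k + 1)) + π := by ring
      rw [this, sin_add_pi]
    have s3 : sin (A 3) = sin (π - θ k - θ (k + 1) + θ (k + 2)) := by
      rw [a3]; congr 1; ring
    refine MQ3R.place hk hl s hsc hθ A hA ?_ ?_ ?_ (π - θ k - θ (k + 1)) ?_ ?_ ?_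
    · rw [s1, sin_pi_sub]; exact mul_pos (hl _) sx
    · rw [s1, s2]; linarith
    · rw [s1, s2, s3]; linarith
    · rw [a1]
      have : π - θ k - (π - θ k - θ (k + 1)) = θ (k + 1) := by ring
      rw [this]; exact sy
    · rw [a2]
      have : π - θ k + (π - θ (k + 1)) - (π - θ k - θ (k + 1)) = π := by ring
      rw [this, sin_pi]
    · rw [a3]
      have : π - θ k + (π - θ (k + 1)) - (π - θ (k + 2)) - (π - θ k - θ (k + 1)) =
        θ (k + 2) := by ring
      rw [this]; exact sz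

end Pool.Agent.FlatN
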