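import Pool.Agent.FlatN.Cor
import Pool.Agent.FlatN.MQ3R

/-!
# Chains of which at most one joint away from the ends is not weakly loose
-/

set_option autoImplicit false

namespace Pool.Agent.FlatN

open Real Pool.Agent.Lib_helper54.Flat Pool.Agent.FlatW

section

variable {n : ℕ} {P Q : Fin (n + 1) → E3} {l θ : ℕ → ℝ}

/-- The second joint angle and the first one, if the third joint is not loose. -/
theorem left_bad (h1 : ∀ j, θ j ≤ π) (h0 : ∀ j, j + 2 ≤ n → 0 < θ j) (hn : 4 ≤ n)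
    (hb : ¬ Loose n θ 2) (hθ : θ 0 ≤ π / 2) :
    θ 1 ≤ π / 2 ∨ (θ 0 ≤ θ 2 ∧ θ 0 ≤ π - θ 2) := by
  by_cases hy : θ 1 ≤ π / 2
  · exact Or.inl hy
  · right
    push Not at hy
    obtain ⟨a1, a2, a3⟩ := of_not_loose h1 h0 (by omega : 2 + 2 ≤ n) hb
    have hR : 0 < Lf (rv n θ) (n - 2 - 2) := Lf_pos (fun j hj => h0 _ (by omega)) fun j => h1 _
    have e1 : θ 0 ≤ Lf θ 1 := by
      rw [Lf_succ]
      refine le_min (le_min hθ le_rfl) ?_
      have : Lf θ 0 = π / 2 := rfl
      rw [this]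
      linarith [pi_pos]
    have e2 : θ 0 ≤ Lf θ 2 := by
      rw [Lf_succ]
      refine le_min (le_min hθ (by linarith)) ?_
      have := h1 1
      linarith
    exact ⟨by linarith, by linarith⟩

/-- The same at the other end. -/
theorem right_bad (h1 : ∀ j, θ j ≤ π) (h0 : ∀ j, j + 2 ≤ n → 0 < θ j) {k : ℕ} (hn : k + 4 = n)
    (hb : ¬ Loose n θ k) (hθ : θ (k + 2) ≤ π / 2) :
    θ (k + 1) ≤ π / 2 ∨ (θ (k + 2) ≤ θ k ∧ θ (k + 2) ≤ π - θ k) := by
  by_cases hy : θ (k + 1) ≤ π / 2
  · exact Or.inl hy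
  · right
    push Not at hy
    obtain ⟨a1, a2, a3⟩ := of_not_loose h1 h0 (by omega : k + 2 ≤ n) hb
    have hL : 0 < Lf θ k := Lf_pos (fun j hj => h0 _ (by omega)) h1
    have r0 : rv n θ 0 = θ (k + 2) := by
      unfold rv
      rw [(by omega : n - 2 - 0 = k + 2)]
    have r1 : rv n θ 1 = θ (k + 1) := by
      unfold rv
      rw [(by omega : n - 2 - 1 = k + 1)]
    rw [(by omega : n - 2 - k = 2)] at a1 a3
    have e1 : θ (k + 2) ≤ Lf (rv n θ) 1 := by
      rw [Lf_succ, r0]
      refine le_min (le_min hθ le_rfl) ?_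
      have : Lf (rv n θ) 0 = π / 2 := rfl
      rw [this]
      linarith [pi_pos]
    have e2 : θ (k + 2) ≤ Lf (rv n θ) 2 := by
      rw [Lf_succ, r1]
      refine le_min (le_min hθ (by linarith)) ?_
      have := h1 (k + 1)
      linarith
    exact ⟨by linarith, by linarith⟩

/-- At most one joint away from the ends is not weakly loose. -/
theorem cor_ends (hP : IsSimple P) (cP : Coplanar ℝ (Set.range P))
    (cQ : Coplanar ℝ (Set.range Q)) (hQ : Q ∈ freeSpace P)
    (hπ : ∀ m, m + 2 ≤ n → jointAngle P m < π) {c d : ℕ}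
    (hc : c = 0 ∨ c = 1 ∧ len P 1 ≤ len P 2 ∧ jointAngle P 0 ≤ π / 2)
    (hd : d = 0 ∨ d = 1 ∧ len P (n - 2) ≤ len P (n - 3) ∧ jointAngle P (n - 2) ≤ π / 2)
    (hl1 : len P 0 ≤ len P 1) (hl2 : len P (n - 1) ≤ len P (n - 2))
    (H : n ≤ 7 + c + d ∨ ∀ i j, 2 + c ≤ i → i < j → j + 4 + d ≤ n →
        WeaklyLoose n (jointAngle P) i ∨ WeaklyLoose n (jointAngle P) j) :
    JoinedIn (freeSpace P) P Q := by
  have hD : Data P (len P) (jointAngle P) := data_of_simple hP
  have h1 : ∀ j, jointAngle P j ≤ π := hD.ang_le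
  have h0 : ∀ j, j + 2 ≤ n → 0 < jointAngle P j := fun j hj => theta_pos hD hP hj
  apply main_side hP cP cQ hQ (2 + c)
  intro i j hij hj hi' hj' hm
  obtain ⟨a1, a2, a3⟩ := bad_range h1 h0 (by omega : i + 2 ≤ n) hi'
  obtain ⟨b1, b2, b3⟩ := bad_range h1 h0 hj hj'
  have hgap := bad_gap h1 h0 hij hj hi' hj'
  by_cases hi3 : i < 2 + c
  · right
    refine ⟨hi3, i + 1, by omega, by omega, hπ _ (by omega), ?_⟩
    by_cases hi1 : i = 1
    · subst hi1
      exact t_P2L hD.pos (h0 1 (by omega)) a3 (h0 0 (by omega)) (h1 _) hl1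
    · rcases hc with hc | ⟨hc, hc1, hc2⟩
      · omega
      · have hi2 : i = 2 := by omega
        subst hi2
        apply t_REV
        exact t_Q3R (k := 0) (by norm_num) (fun m => hD.pos _) (h0 2 (by omega)) a3
          (h0 1 (by omega)) (hπ 1 (by omega)) (h0 0 (by omega)) hc2
          (left_bad h1 h0 (by omega) (not_loose hi') hc2) hc1 hl1
  · left
    have hj5 : n < j + 4 + d := by
      by_contra hcon
      rcases H with H | H
      · omega
      · rcases H i j (by omega) hij (by omega) with h | h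
        · exact hi' h
        · exact hj' h
    refine ⟨by omega, j, by omega, by omega, hπ _ (by omega), ?_⟩
    by_cases hj3 : j + 3 = n
    · refine t_P2R hj3 hD.pos (h0 j (by omega)) b3 (h0 (j + 1) (by omega)) (h1 _) ?_
      rw [(by omega : j + 2 = n - 1), (by omega : j + 1 = n - 2)]
      exact hl2
    · rcases hd with hd | ⟨hd, hd1, hd2⟩
      · omega
      · have hj4 : j + 4 = n := by omega
        have e2 : n - 2 = j + 2 := by omega
        rw [e2] at hd2
        refine t_Q3R hj4 hD.pos (h0 _ (by omega)) b3 (h0 _ (by omega)) (hπ _ (by omega))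
          (h0 _ (by omega)) hd2 (right_bad h1 h0 hj4 (not_loose hj') hd2) ?_ ?_
        · rw [(by omega : j + 2 = n - 2), (by omega : j + 1 = n - 3)]
          exact hd1
        · rw [(by omega : j + 3 = n - 1), (by omega : j + 2 = n - 2)]
          exact hl2

end

end Pool.Agent.FlatN
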