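import Mathlib

/-!
# Module SSP of the FlatN project: alternating sums of sines

With `A j = T 0 - T 1 + ... ± T j` the sums
`L 0 sin A 0 - L 1 sin A 1 + ... ± L j sin A j` are positive.
-/

set_option autoImplicit false

namespace Pool.Agent.FlatN

open Real

/-- One step: if `p ∈ [-π/2, π/2]`, `|q| ≤ π` and `q` is beyond `p` in the direction `e`, then
`e * sin q` is nonnegative or larger than `e * sin p`. -/
theorem ssp_step {e p q : ℝ} (he : e = 1 ∨ e = -1) (hp : |p| ≤ π / 2) (hq : |q| ≤ π)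
    (h : 0 < e * (q - p)) : 0 ≤ e * sin q ∨ 0 < e * (sin q - sin p) := by
  obtain ⟨hp1, hp2⟩ := abs_le.1 hp
  obtain ⟨hq1, hq2⟩ := abs_le.1 hq
  rcases he with he | he
  · subst he
    rw [one_mul] at h
    by_cases hqq : q ≤ π / 2
    · right
      rw [one_mul]
      have := Real.sin_lt_sin_of_lt_of_le_pi_div_two (by linarith) hqq (by linarith : p < q)
      linarith
    · left
      rw [one_mul]
      push Not at hqq
      exact Real.sin_nonneg_of_nonneg_of_le_pi (by linarith [Real.pi_pos]) hq2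
  · subst he
    by_cases hqq : -(π / 2) ≤ q
    · right
      have := Real.sin_lt_sin_of_lt_of_le_pi_div_two (by linarith) hp2 (by linarith : q < p)
      linarith
    · left
      push Not at hqq
      have := Real.sin_nonpos_of_nonpos_of_neg_pi_le (by linarith [Real.pi_pos] : q ≤ 0) hq1
      linarith

/-- SSP: the alternating sums of sines are positive. -/
theorem t_SSP {J : ℕ} {T L : ℕ → ℝ} (hT : ∀ i, i ≤ J → 0 < T i) (hT0 : T 0 < π)
    (hA : ∀ j, j < J → |∑ i ∈ Finset.range (j + 1), (-1 : ℝ) ^ i * T i| ≤ π / 2)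
    (hA' : |∑ i ∈ Finset.range (J + 1), (-1 : ℝ) ^ i * T i| ≤ π)
    (hL : ∀ i, i ≤ J → 0 < L i) (hmono : ∀ i, i < J → L (i + 1) ≤ L i) :
    ∀ j, j ≤ J → 0 < ∑ r ∈ Finset.range (j + 1),
      (-1 : ℝ) ^ r * (L r * sin (∑ i ∈ Finset.range (r + 1), (-1 : ℝ) ^ i * T i)) := by
  obtain ⟨A, hAdef⟩ : ∃ A : ℕ → ℝ, ∀ j, A j = ∑ i ∈ Finset.range (j + 1), (-1 : ℝ) ^ i * T i :=
    ⟨_, fun _ => rfl⟩
  have hA0 : A 0 = T 0 := by rw [hAdef]; simp
  have hAs : ∀ j, A (j + 1) = A j + (-1 : ℝ) ^ (j + 1) * T (j + 1) := by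
    intro j
    rw [hAdef, hAdef, Finset.sum_range_succ]
  have hAh : ∀ j, j < J → |A j| ≤ π / 2 := fun j hj => by rw [hAdef]; exact hA j hj
  have hAp : ∀ j, j ≤ J → |A j| ≤ π := by
    intro j hj
    rcases Nat.lt_or_ge j J with h | h
    · exact (hAh j h).trans (by linarith [Real.pi_pos])
    · have : j = J := le_antisymm hj h
      subst this
      rw [hAdef]
      exact hA'
  have he : ∀ j : ℕ, (-1 : ℝ) ^ j = 1 ∨ (-1 : ℝ) ^ j = -1 := fun j => neg_one_pow_eq_or ℝ j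
  have hee : ∀ j : ℕ, (-1 : ℝ) ^ j * (-1 : ℝ) ^ j = 1 := by
    intro j
    rcases he j with h | h <;> rw [h] <;> norm_num
  -- one step
  have hstep : ∀ j, j + 1 ≤ J → 0 ≤ (-1 : ℝ) ^ (j + 1) * sin (A (j + 1)) ∨
      0 < (-1 : ℝ) ^ (j + 1) * (sin (A (j + 1)) - sin (A j)) := by
    intro j hj
    refine ssp_step (he _) (hAh j (by omega)) (hAp _ hj) ?_
    rw [hAs j]
    have h1 := hT (j + 1) hj
    have h2 := hee (j + 1)
    have : (-1 : ℝ) ^ (j + 1) * (A j + (-1 : ℝ) ^ (j + 1) * T (j + 1) - A j) =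
        ((-1 : ℝ) ^ (j + 1) * (-1 : ℝ) ^ (j + 1)) * T (j + 1) := by ring
    rw [this, h2, one_mul]
    exact h1
  -- the unweighted sums
  obtain ⟨S, hSdef⟩ : ∃ S : ℕ → ℝ, ∀ j, S j = ∑ r ∈ Finset.range (j + 1),
      (-1 : ℝ) ^ r * sin (A r) := ⟨_, fun _ => rfl⟩
  have hSs : ∀ j, S (j + 1) = S j + (-1 : ℝ) ^ (j + 1) * sin (A (j + 1)) := by
    intro j
    rw [hSdef, hSdef, Finset.sum_range_succ]
  have hS0 : S 0 = sin (A 0) := by rw [hSdef]; simp
  have hS0p : 0 < S 0 := by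
    rw [hS0, hA0]
    exact Real.sin_pos_of_pos_of_lt_pi (hT 0 (Nat.zero_le _)) hT0
  have hSp : ∀ j, (j ≤ J → 0 < S j) ∧ (j + 1 ≤ J → 0 < S (j + 1)) := by
    intro j
    induction j with
    | zero =>
      refine ⟨fun _ => hS0p, fun h => ?_⟩
      rw [hSs 0]
      rcases hstep 0 h with h1 | h1
      · linarith
      · rw [hS0]
        simp only [zero_add, pow_one] at h1 ⊢
        linarith
    | succ j ih =>
      refine ⟨ih.2, fun h => ?_⟩
      have i1 := ih.1 (by omega)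
      have i2 := ih.2 (by omega)
      rcases hstep (j + 1) h with h1 | h1
      · rw [hSs (j + 1)]
        linarith
      · rw [hSs (j + 1), hSs j]
        have hp : (-1 : ℝ) ^ (j + 1 + 1) = -(-1 : ℝ) ^ (j + 1) := by rw [pow_succ]; ring
        rw [hp] at h1 ⊢
        linarith
  -- the weighted sums
  obtain ⟨H, hHdef⟩ : ∃ H : ℕ → ℝ, ∀ j, H j = ∑ r ∈ Finset.range (j + 1),
      (-1 : ℝ) ^ r * (L r * sin (A r)) := ⟨_, fun _ => rfl⟩
  have hHs : ∀ j, H (j + 1) = H j + (-1 : ℝ) ^ (j + 1) * (L (j + 1) * sin (A (j + 1))) := by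
    intro j
    rw [hHdef, hHdef, Finset.sum_range_succ]
  have hH : ∀ j, j ≤ J → L j * S j ≤ H j := by
    intro j
    induction j with
    | zero =>
      intro _
      rw [hHdef, hS0]
      simp
    | succ j ih =>
      intro h
      have i1 := ih (by omega)
      have i2 := (hSp j).1 (by omega)
      have i3 := hmono j (by omega)
      have i4 : L (j + 1) * S j ≤ L j * S j := mul_le_mul_of_nonneg_right i3 i2.le
      rw [hHs j, hSs j, mul_add]
      have : (-1 : ℝ) ^ (j + 1) * (L (j + 1) * sin (A (j + 1))) =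
          L (j + 1) * ((-1 : ℝ) ^ (j + 1) * sin (A (j + 1))) := by ring
      rw [this]
      linarith
  intro j hj
  have hfin : 0 < H j := lt_of_lt_of_le (mul_pos (hL j hj) ((hSp j).1 hj)) (hH j hj)
  have hHe : H j = ∑ r ∈ Finset.range (j + 1),
      (-1 : ℝ) ^ r * (L r * sin (∑ i ∈ Finset.range (r + 1), (-1 : ℝ) ^ i * T i)) := by
    rw [hHdef]
    refine Finset.sum_congr rfl fun r _ => ?_
    rw [hAdef]
  rw [← hHe]
  exact hfin

end Pool.Agent.FlatN
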