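import Pool.Agent.FlatN.MP3R
import Pool.Agent.FlatN.MSSP

/-! FLN, module ZZ (helper18): zigzag placements on one side of a line. -/

set_option autoImplicit false

namespace Pool.Agent.FlatN

open Real Pool.Agent.Lib_helper54.Flat Pool.Agent.FlatW

namespace MZZ

/-- The alternating signs. -/
def zg : ℕ → ℝ := fun i => (-1) ^ i

theorem zg_cases (i : ℕ) : zg i = 1 ∨ zg i = -1 := neg_one_pow_eq_or ℝ i

/-- `r - s` consecutive alternating angles `π` add up to `0` or `π`; the sine of the difference of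
two longitudes. -/
theorem sin_alt (A : ℝ) (s q : ℕ) :
    sin ((-1 : ℝ) ^ s * ((∑ i ∈ Finset.range (q + 1), (-1 : ℝ) ^ i) * π - A)) =
      (-1 : ℝ) ^ s * ((-1 : ℝ) ^ q * sin A) := by
  have h1 : ∀ x : ℝ, sin ((-1 : ℝ) ^ s * x) = (-1 : ℝ) ^ s * sin x := by
    intro x
    rcases neg_one_pow_eq_or ℝ s with h | h
    · rw [h, one_mul, one_mul]
    · rw [h, neg_one_mul, neg_one_mul, sin_neg]
  rw [h1]
  congr 1
  rw [neg_one_geom_sum]
  rcases Nat.even_or_odd q with h | h
  · have h' : ¬ Even (q + 1) := by rw [Nat.not_even_iff_odd]; exact h.add_one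
    rw [if_neg h', one_mul, sin_pi_sub, h.neg_one_pow, one_mul]
  · have h' : Even (q + 1) := h.add_one
    rw [if_pos h', zero_mul, zero_sub, sin_neg, h.neg_one_pow, neg_one_mul]

/-- Longitudes of the zigzag. -/
theorem az_zig {m : ℕ} {θ : ℕ → ℝ} (hθ : ∀ i, i < m → 0 < θ i ∧ θ i ≤ π) (s q : ℕ)
    (h : s + q + 1 ≤ m) :
    az 0 zg (fun _ => 0) θ (s + q + 1) - az 0 zg (fun _ => 0) θ s =
      (-1 : ℝ) ^ s * ((∑ i ∈ Finset.range (q + 1), (-1 : ℝ) ^ i) * π -
        ∑ i ∈ Finset.range (q + 1), (-1 : ℝ) ^ i * θ (s + i)) := by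
  have hstep : ∀ j, j < m → az 0 zg (fun _ => 0) θ (j + 1) =
      az 0 zg (fun _ => 0) θ j + (-1 : ℝ) ^ j * (π - θ j) := by
    intro j hj
    rw [az_succ, dlt_zero (hθ j hj).1.le (hθ j hj).2]
    rfl
  induction q with
  | zero =>
    rw [add_zero, hstep s (by omega), Finset.sum_range_one, Finset.sum_range_one, pow_zero,
      add_zero]
    ring
  | succ q ih =>
    have h1 := ih (by omega)
    rw [show s + (q + 1) + 1 = (s + q + 1) + 1 by omega, hstep (s + q + 1) (by omega),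
      Finset.sum_range_succ _ (q + 1), Finset.sum_range_succ _ (q + 1),
      show s + (q + 1) = s + q + 1 by omega]
    have h2 : (-1 : ℝ) ^ (s + q + 1) = (-1 : ℝ) ^ s * (-1 : ℝ) ^ (q + 1) := by
      rw [← pow_add]; congr 1
    rw [h2]
    linear_combination h1

end MZZ

theorem t_ZZ2 {n k m : ℕ} (hk : k + m + 1 = n) (hm : 1 ≤ m) {l θ : ℕ → ℝ} (hl : ∀ i, 0 < l i)
    (hθ : ∀ i, i < m → 0 < θ (k + i)) (hx : θ k < π)
    (hA : ∀ a b, a ≤ b → b + 1 < m → |∑ i ∈ Finset.Icc a b, (-1 : ℝ) ^ i * θ (k + i)| ≤ π / 2)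
    (hA' : ∀ a, a < m → |∑ i ∈ Finset.Icc a (m - 1), (-1 : ℝ) ^ i * θ (k + i)| ≤ π)
    (hmono : ∀ i, 1 ≤ i → i < m → l (k + i + 1) ≤ l (k + i)) : RightSide n l θ k := by
  obtain ⟨a, b, c, hON⟩ := MP3R.exists_ON
  have hpi := Real.pi_pos
  obtain ⟨l', hl'⟩ : ∃ l' : ℕ → ℝ, l' = fun i => l (k + i) := ⟨_, rfl⟩
  obtain ⟨θ', hθ'⟩ : ∃ θ' : ℕ → ℝ, θ' = fun i => θ (k + i) := ⟨_, rfl⟩
  have hlp : ∀ i, 0 < l' i := fun i => by rw [hl']; exact hl _
  have habs : ∀ i, |(-1 : ℝ) ^ i * θ (k + i)| = |θ (k + i)| := by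
    intro i
    rw [abs_mul, abs_pow, abs_neg, abs_one, one_pow, one_mul]
  have hhalf : ∀ i, i + 1 < m → θ' i ≤ π / 2 := by
    intro i hi
    have h := hA i i le_rfl hi
    rw [Finset.Icc_self, Finset.sum_singleton, habs] at h
    rw [hθ']
    exact (le_abs_self _).trans h
  have hθp : ∀ i, i < m → 0 < θ' i ∧ θ' i ≤ π := by
    intro i hi
    refine ⟨by rw [hθ']; exact hθ i hi, ?_⟩
    rcases (show i + 1 < m ∨ i = m - 1 by omega) with h | h
    · have := hhalf i h
      linarith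
    · have h1 := hA' i hi
      rw [← h, Finset.Icc_self, Finset.sum_singleton, habs] at h1
      rw [hθ']
      exact (le_abs_self _).trans h1
  have hx0 : θ' 0 < π := by rw [hθ']; exact hx
  -- alternating sums
  have hsum : ∀ a b, a ≤ b → |∑ i ∈ Finset.range (b - a + 1), (-1 : ℝ) ^ i * θ' (a + i)| =
      |∑ i ∈ Finset.Icc a b, (-1 : ℝ) ^ i * θ (k + i)| := by
    intro a b hab
    have e1 : Finset.Icc a b = Finset.Ico a (b + 1) := by
      ext x
      rw [Finset.mem_Icc, Finset.mem_Ico]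
      omega
    have e2 : ∑ i ∈ Finset.Icc a b, (-1 : ℝ) ^ i * θ (k + i) =
        (-1 : ℝ) ^ a * ∑ i ∈ Finset.range (b - a + 1), (-1 : ℝ) ^ i * θ' (a + i) := by
      rw [e1, Finset.sum_Ico_eq_sum_range, show b + 1 - a = b - a + 1 by omega, Finset.mul_sum]
      refine Finset.sum_congr rfl fun i _ => ?_
      rw [hθ', pow_add, mul_assoc]
    rw [e2, abs_mul, abs_pow, abs_neg, abs_one, one_pow, one_mul]
  obtain ⟨V, hV⟩ : ∃ V : ℕ → E3, V = vtx 0 a b c 0 l' MZZ.zg (fun _ => 0) θ' := ⟨_, rfl⟩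
  obtain ⟨Z, hZ⟩ : ∃ Z : ℕ → ℝ, Z = az 0 MZZ.zg (fun _ => 0) θ' := ⟨_, rfl⟩
  have hstep : ∀ α j, (inner ℝ (MP3R.un a b c α) (V (j + 1)) : ℝ) =
      inner ℝ (MP3R.un a b c α) (V j) + l' j * sin (Z j - α) := by
    intro α j
    rw [hV, hZ]
    exact MP3R.un_vtx hON α 0 0 l' MZZ.zg θ' j
  -- the left normals, with signs
  obtain ⟨w, hw⟩ : ∃ w : ℕ → E3, w = fun s => (-1 : ℝ) ^ s • MP3R.un a b c (Z s) := ⟨_, rfl⟩
  have w1 : ∀ s, (inner ℝ (w s) (V (s + 1)) : ℝ) = inner ℝ (w s) (V s) := by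
    intro s
    rw [hw]
    simp only [inner_smul_left, RCLike.conj_to_real]
    rw [hstep, sub_self, sin_zero, mul_zero, add_zero]
  have wsum : ∀ s j, s + j + 1 ≤ m → (inner ℝ (w s) (V (s + 2 + j)) : ℝ) =
      inner ℝ (w s) (V s) + ∑ r ∈ Finset.range (j + 1),
        (-1 : ℝ) ^ r * (l' (s + 1 + r) * sin (∑ i ∈ Finset.range (r + 1),
          (-1 : ℝ) ^ i * θ' (s + i))) := by
    intro s j
    have hone : ∀ q, s + q + 1 ≤ m → (inner ℝ (w s) (V (s + 2 + q)) : ℝ) =
        inner ℝ (w s) (V (s + 1 + q)) + (-1 : ℝ) ^ q * (l' (s + 1 + q) *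
          sin (∑ i ∈ Finset.range (q + 1), (-1 : ℝ) ^ i * θ' (s + i))) := by
      intro q hq
      have e1 : s + 2 + q = (s + 1 + q) + 1 := by omega
      have e2 := MZZ.az_zig hθp s q hq
      rw [← hZ, show s + q + 1 = s + 1 + q by omega] at e2
      rw [e1, hw]
      simp only [inner_smul_left, RCLike.conj_to_real]
      rw [hstep, e2, MZZ.sin_alt]
      have e3 : (-1 : ℝ) ^ s * (-1 : ℝ) ^ s = 1 := by
        rw [← mul_pow]; norm_num
      linear_combination ((-1 : ℝ) ^ q * (l' (s + 1 + q) *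
          sin (∑ i ∈ Finset.range (q + 1), (-1 : ℝ) ^ i * θ' (s + i)))) * e3
    induction j with
    | zero =>
      intro h
      rw [Finset.sum_range_one, hone 0 h, add_zero, w1]
    | succ j ih =>
      intro h
      have e : V (s + 1 + (j + 1)) = V (s + 2 + j) := by
        rw [show s + 1 + (j + 1) = s + 2 + j by omega]
      have e' := Finset.sum_range_succ (fun r => (-1 : ℝ) ^ r * (l' (s + 1 + r) *
        sin (∑ i ∈ Finset.range (r + 1), (-1 : ℝ) ^ i * θ' (s + i)))) (j + 1)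
      rw [hone (j + 1) h, e, ih (by omega), e', add_assoc]
  have wpos : ∀ s r, s + 2 ≤ r → r ≤ m + 1 → θ' s < π →
      (inner ℝ (w s) (V s) : ℝ) < inner ℝ (w s) (V r) := by
    intro s r hsr hr hs
    obtain ⟨j, rfl⟩ : ∃ j, r = s + 2 + j := ⟨r - (s + 2), by omega⟩
    rw [wsum s j (by omega)]
    have h := t_SSP (J := m - 1 - s) (T := fun i => θ' (s + i)) (L := fun i => l' (s + 1 + i))
      (fun i hi => (hθp (s + i) (by omega)).1)
      hs
      (fun j hj => by
        have h1 := hsum s (s + j) (by omega)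
        rw [show s + j - s + 1 = j + 1 by omega] at h1
        rw [h1]
        exact hA s (s + j) (by omega) (by omega))
      (by
        have h1 := hsum s (m - 1) (by omega)
        rw [h1]
        exact hA' s (by omega))
      (fun i _ => hlp _)
      (fun i hi => by
        have h1 := hmono (s + 1 + i) (by omega) (by omega)
        rw [hl']
        exact h1)
      j (by omega)
    linarith
  have hne : ∀ i, V i ≠ V (i + 1) := by
    intro i h
    have hd : dist (V i) (V (i + 1)) = l' i := by rw [hV]; exact dist_vtx hON i (hlp i)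
    rw [h, dist_self] at hd
    exact absurd hd (hlp i).ne
  have hR : ∀ i, i ≤ m + 1 → vx (chain (m + 1) 0 a b c 0 l' MZZ.zg (fun _ => 0) θ') i = V i := by
    intro i hi
    rw [vx_chain hi, hV]
  have hdis : ∀ i j : ℕ, i + 1 < j → j < m + 1 →
      Disjoint (segment ℝ (V i) (V (i + 1))) (segment ℝ (V j) (V (j + 1))) := by
    intro i j hij hj
    have hi : θ' i < π := by
      have := hhalf i (by omega)
      linarith
    exact MP3R.seg_disj (w i) (inner ℝ (w i) (V i)) rfl (w1 i) (wpos i j (by omega) (by omega) hi)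
      (wpos i (j + 1) (by omega) (by omega) hi)
  have hcon : ∀ i : ℕ, i + 1 < m + 1 →
      segment ℝ (V i) (V (i + 1)) ∩ segment ℝ (V (i + 1)) (V (i + 2)) ⊆ {V (i + 1)} := by
    intro i hi
    rintro X ⟨hX, hX'⟩
    rcases (hθp i (by omega)).2.lt_or_eq with hlt | heq
    · have h0 := wpos i (i + 2) (by omega) (by omega) hlt
      have h := MP3R.seg_meet (w i) (inner ℝ (w i) (V i)) le_rfl (w1 i) (w1 i) h0.le hX hX'
      exact Set.mem_singleton_iff.2 (h.2 h0)
    · -- straight joint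
      have e1 : Z (i + 1) = Z i := by
        have e2 := MZZ.az_zig hθp i 0 (by omega)
        rw [← hZ, add_zero, Finset.sum_range_one, Finset.sum_range_one, pow_zero, add_zero,
          heq] at e2
        linarith
      have h1 := hstep (Z i - π / 2) i
      have h2 := hstep (Z i - π / 2) (i + 1)
      rw [e1] at h2
      rw [show Z i - (Z i - π / 2) = π / 2 by ring, sin_pi_div_two, mul_one] at h1 h2
      have l1 := hlp i
      have l2 := hlp (i + 1)
      have h := MP3R.seg_meet (MP3R.un a b c (Z i - π / 2))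
        (inner ℝ (MP3R.un a b c (Z i - π / 2)) (V (i + 1))) (by linarith) rfl rfl
        (by rw [show i + 2 = i + 1 + 1 by omega]; linarith) hX hX'
      exact Set.mem_singleton_iff.2 (h.1 (by linarith))
  refine ⟨m + 1, by omega, chain (m + 1) 0 a b c 0 l' MZZ.zg (fun _ => 0) θ', ⟨?_, ?_, ?_⟩,
    MP3R.coplanar_chain, ?_, ?_, w 0, ?_, ?_⟩
  · intro i
    rw [chain_castSucc, chain_succ, ← hV]
    exact hne i.val
  · intro i j hij
    rw [chain_castSucc, chain_succ, chain_castSucc, chain_succ, ← hV]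
    exact hdis i.val j.val hij j.isLt
  · intro i j hij
    rw [chain_castSucc, chain_succ, chain_castSucc, chain_succ, ← hV, hij]
    exact hcon i.val (by omega)
  · intro i hi
    rw [hR i (by omega), hR (i + 1) (by omega), hV, dist_vtx hON i (hlp i), hl']
  · intro i hi
    unfold jointAngle
    rw [hR i (by omega), hR (i + 1) (by omega), hR (i + 2) (by omega), hV]
    have hb := hθp i (by omega)
    have h := angle_vtx (p := 0) (ω := 0) (s := MZZ.zg) (h := fun _ => 0) (θ := θ') hON i (hlp i)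
      (hlp (i + 1)) (MZZ.zg_cases i) le_rfl (by linarith) le_rfl (by linarith) hb.1.le
      (by linarith) (by linarith [hb.1]) (by rw [sub_zero, abs_zero]; linarith [hb.2])
    rw [h, hθ']
  · rw [hR 1 (by omega), hR 0 (by omega), inner_sub_right, w1 0, sub_self]
  · intro j hj2 hj
    rw [hR j hj, hR 0 (by omega), inner_sub_right]
    have := wpos 0 j hj2 hj hx0
    linarith

theorem t_ZZ {n k m : ℕ} (hk : k + m + 1 = n) (hm : 1 ≤ m) {l θ : ℕ → ℝ} (hl : ∀ i, 0 < l i)
    (hθ : ∀ i, i < m → 0 < θ (k + i) ∧ θ (k + i) < π)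
    (hA : ∀ a b, a ≤ b → b + 1 < m → |∑ i ∈ Finset.Icc a b, (-1 : ℝ) ^ i * θ (k + i)| ≤ π / 2)
    (hA' : ∀ a, a < m → |∑ i ∈ Finset.Icc a (m - 1), (-1 : ℝ) ^ i * θ (k + i)| ≤ π)
    (hmono : ∀ i, 1 ≤ i → i < m → l (k + i + 1) ≤ l (k + i)) : RightSide n l θ k :=
  t_ZZ2 hk hm hl (fun i hi => (hθ i hi).1) (hθ 0 hm).2 hA hA' hmono

end Pool.Agent.FlatN
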