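import Pool.Agent.FlatN.MREV
import Pool.Agent.FlatN.MZZ

/-!
# Zigzag placements in terms of the joint angles (module FLN_ZR, helper73)
-/

set_option autoImplicit false

namespace Pool.Agent.FlatN

open Real Pool.Agent.Lib_helper54.Flat Pool.Agent.FlatW

namespace ZR

/-- Shift of the index of an alternating sum. -/
theorem shift (k a b : ℕ) (θ : ℕ → ℝ) :
    |∑ i ∈ Finset.Icc a b, (-1 : ℝ) ^ i * θ (k + i)| =
      |∑ r ∈ Finset.Icc (k + a) (k + b), (-1 : ℝ) ^ r * θ r| := by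
  have e1 : ∑ r ∈ Finset.Icc (k + a) (k + b), (-1 : ℝ) ^ r * θ r =
      ∑ i ∈ Finset.Icc a b, (-1 : ℝ) ^ (k + i) * θ (k + i) := by
    symm
    refine Finset.sum_nbij (fun i => k + i) ?_ ?_ ?_ ?_
    · intro i hi
      rw [Finset.mem_Icc] at hi ⊢
      omega
    · intro i _ j _ h
      have h' : k + i = k + j := h
      omega
    · intro r hr
      rw [Finset.mem_coe, Finset.mem_Icc] at hr
      refine ⟨r - k, ?_, ?_⟩
      · rw [Finset.mem_coe, Finset.mem_Icc]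
        omega
      · show k + (r - k) = r
        omega
    · intro i _
      rfl
  have e2 : ∑ i ∈ Finset.Icc a b, (-1 : ℝ) ^ (k + i) * θ (k + i) =
      (-1 : ℝ) ^ k * ∑ i ∈ Finset.Icc a b, (-1 : ℝ) ^ i * θ (k + i) := by
    rw [Finset.mul_sum]
    refine Finset.sum_congr rfl fun i _ => ?_
    rw [pow_add]
    ring
  rw [e1, e2, abs_mul, abs_neg_one_pow, one_mul]

/-- Reflection of the index of an alternating sum. -/
theorem refl (i a b : ℕ) (hb : b ≤ i) (hab : a ≤ b) (θ : ℕ → ℝ) :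
    |∑ r ∈ Finset.Icc a b, (-1 : ℝ) ^ r * θ (i - r)| =
      |∑ r ∈ Finset.Icc (i - b) (i - a), (-1 : ℝ) ^ r * θ r| := by
  have e1 : ∑ r ∈ Finset.Icc (i - b) (i - a), (-1 : ℝ) ^ r * θ r =
      ∑ r ∈ Finset.Icc a b, (-1 : ℝ) ^ (i - r) * θ (i - r) := by
    symm
    refine Finset.sum_nbij (fun r => i - r) ?_ ?_ ?_ ?_
    · intro r hr
      rw [Finset.mem_Icc] at hr ⊢
      omega
    · intro r hr s hs h
      rw [Finset.mem_coe, Finset.mem_Icc] at hr hs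
      have h' : i - r = i - s := h
      omega
    · intro r hr
      rw [Finset.mem_coe, Finset.mem_Icc] at hr
      refine ⟨i - r, ?_, ?_⟩
      · rw [Finset.mem_coe, Finset.mem_Icc]
        omega
      · show i - (i - r) = r
        omega
    · intro r _
      rfl
  have e2 : ∑ r ∈ Finset.Icc a b, (-1 : ℝ) ^ (i - r) * θ (i - r) =
      (-1 : ℝ) ^ i * ∑ r ∈ Finset.Icc a b, (-1 : ℝ) ^ r * θ (i - r) := by
    rw [Finset.mul_sum]
    refine Finset.sum_congr rfl fun r hr => ?_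
    rw [Finset.mem_Icc] at hr
    have h1 : (-1 : ℝ) ^ i = (-1 : ℝ) ^ (i - r) * (-1 : ℝ) ^ r := by
      rw [← pow_add]
      congr 1
      omega
    have h2 : (-1 : ℝ) ^ r * (-1 : ℝ) ^ r = 1 := by
      rw [← mul_pow]
      norm_num
    rw [h1]
    linear_combination (-((-1 : ℝ) ^ (i - r) * θ (i - r))) * h2
  rw [e1, e2, abs_mul, abs_neg_one_pow, one_mul]

end ZR

theorem t_ZR {n k : ℕ} (hk : k + 2 ≤ n) {l θ : ℕ → ℝ} (hl : ∀ i, 0 < l i)
    (hθ : ∀ i, k ≤ i → i + 2 ≤ n → 0 < θ i) (hx : θ k < π)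
    (hA : ∀ a b, k ≤ a → a ≤ b → b + 3 ≤ n →
      |∑ r ∈ Finset.Icc a b, (-1 : ℝ) ^ r * θ r| ≤ π / 2)
    (hA' : ∀ a, k ≤ a → a + 2 ≤ n → |∑ r ∈ Finset.Icc a (n - 2), (-1 : ℝ) ^ r * θ r| ≤ π)
    (hmono : ∀ i, k < i → i + 2 ≤ n → l (i + 1) ≤ l i) : RightSide n l θ k := by
  obtain ⟨m, hm⟩ : ∃ m, m = n - 1 - k := ⟨_, rfl⟩
  refine t_ZZ2 (m := m) (by omega) (by omega) hl ?_ hx ?_ ?_ ?_
  · intro i hi
    exact hθ (k + i) (by omega) (by omega)
  · intro a b hab hb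
    rw [ZR.shift]
    exact hA (k + a) (k + b) (by omega) (by omega) (by omega)
  · intro a ha
    rw [ZR.shift]
    have h1 := hA' (k + a) (by omega) (by omega)
    rw [(by omega : n - 2 = k + (m - 1))] at h1
    exact h1
  · intro i hi1 hi2
    exact hmono (k + i) (by omega) (by omega)

theorem t_ZL {i : ℕ} {l θ : ℕ → ℝ} (hl : ∀ i, 0 < l i)
    (hθ : ∀ m, m ≤ i → 0 < θ m) (hx : θ i < π)
    (hA : ∀ a b, 1 ≤ a → a ≤ b → b ≤ i → |∑ r ∈ Finset.Icc a b, (-1 : ℝ) ^ r * θ r| ≤ π / 2)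
    (hA' : ∀ b, b ≤ i → |∑ r ∈ Finset.Icc 0 b, (-1 : ℝ) ^ r * θ r| ≤ π)
    (hmono : ∀ m, m < i → l m ≤ l (m + 1)) : LeftSide l θ (i + 1) := by
  apply t_REV
  refine t_ZR (n := i + 1 + 1) (k := 0) (by omega) (fun m => hl _) ?_ ?_ ?_ ?_ ?_
  · intro m _ hm
    exact hθ (i + 1 - 1 - m) (by omega)
  · exact hx
  · intro a b _ hab hb
    show |∑ r ∈ Finset.Icc a b, (-1 : ℝ) ^ r * θ (i - r)| ≤ π / 2
    rw [ZR.refl i a b (by omega) hab]
    exact hA (i - b) (i - a) (by omega) (by omega) (by omega)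
  · intro a _ ha
    show |∑ r ∈ Finset.Icc a i, (-1 : ℝ) ^ r * θ (i - r)| ≤ π
    rw [ZR.refl i a i le_rfl (by omega), Nat.sub_self]
    exact hA' (i - a) (by omega)
  · intro m hm1 hm2
    show l (i + 1 - (m + 1)) ≤ l (i + 1 - m)
    have h1 := hmono (i - m) (by omega)
    rw [(by omega : i + 1 - (m + 1) = i - m), (by omega : i + 1 - m = i - m + 1)]
    exact h1

end Pool.Agent.FlatN
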