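import Pool.Agent.FlatN.Side2
import Pool.Agent.FlatN.MQ3S
import Pool.Agent.FlatN.MZR

/-!
# Chains of which at most one joint away from the ends is not weakly loose, with zigzag end parts
-/

set_option autoImplicit false

namespace Pool.Agent.FlatN

open Real Pool.Agent.Lib_helper54.Flat Pool.Agent.FlatW

section

variable {n : ℕ} {P Q : Fin (n + 1) → E3} {l θ : ℕ → ℝ}

/-- At most one joint away from the ends is not weakly loose. -/
theorem ends4 (hP : IsSimple P) (cP : Coplanar ℝ (Set.range P))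
    (cQ : Coplanar ℝ (Set.range Q)) (hQ : Q ∈ freeSpace P) {c d : ℕ}
    (hc : c = 0 ∨ (c = 1 ∧ len P 0 ≤ len P 1) ∨
      (c = 2 ∧ len P 0 ≤ len P 1 ∧ len P 1 ≤ len P 2 ∧ jointAngle P 0 ≤ π / 2) ∨
      ((∀ i, i < c → i + 2 ≤ n → len P i ≤ len P (i + 1)) ∧
        ∀ a b, a ≤ b → b ≤ c → b + 2 ≤ n →
          |∑ r ∈ Finset.Icc a b, (-1 : ℝ) ^ r * jointAngle P r| ≤ if a = 0 then π else π / 2))
    (hd : d = 0 ∨ (d = 1 ∧ len P (n - 1) ≤ len P (n - 2)) ∨
      (d = 2 ∧ len P (n - 1) ≤ len P (n - 2) ∧ len P (n - 2) ≤ len P (n - 3) ∧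
        jointAngle P (n - 2) ≤ π / 2) ∨
      ((∀ i, i < d → i + 2 ≤ n → len P (n - 1 - i) ≤ len P (n - 2 - i)) ∧
        ∀ a b, a ≤ b → n ≤ a + 2 + d → b + 2 ≤ n →
          |∑ r ∈ Finset.Icc a b, (-1 : ℝ) ^ r * jointAngle P r| ≤
            if b + 2 = n then π else π / 2))
    (H : n ≤ 5 + c + d ∨ ∀ i j, 1 + c ≤ i → i < j → j + 3 + d ≤ n →
        WeaklyLoose n (jointAngle P) i ∨ WeaklyLoose n (jointAngle P) j) :
    JoinedIn (freeSpace P) P Q := by
  have hD : Data P (len P) (jointAngle P) := data_of_simple hP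
  have h1 : ∀ j, jointAngle P j ≤ π := hD.ang_le
  have h0 : ∀ j, j + 2 ≤ n → 0 < jointAngle P j := fun j hj => theta_pos hD hP hj
  apply main_side2 hP cP cQ hQ (1 + c)
  intro i j hij hj hi' hj' hm
  obtain ⟨a1, a2, a3⟩ := bad_range h1 h0 (by omega : i + 2 ≤ n) hi'
  obtain ⟨b1, b2, b3⟩ := bad_range h1 h0 hj hj'
  have hgap := bad_gap h1 h0 hij hj hi' hj'
  by_cases hi3 : i < 1 + c
  · right
    refine ⟨hi3, i + 1, by omega, by omega, ?_⟩
    rcases hc with hc | ⟨hc, hl1⟩ | ⟨hc, hl1, hc1, hc2⟩ | ⟨hlc, hac⟩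
    · omega
    · have hi1 : i = 1 := by omega
      subst hi1
      exact t_P2L hD.pos (h0 1 (by omega)) a3 (h0 0 (by omega)) (h1 _) hl1
    · by_cases hi1 : i = 1
      · subst hi1
        exact t_P2L hD.pos (h0 1 (by omega)) a3 (h0 0 (by omega)) (h1 _) hl1
      · have hi2 : i = 2 := by omega
        subst hi2
        apply t_REV
        exact t_Q3S (k := 0) (by norm_num) (fun m => hD.pos _) (h0 2 (by omega)) a3
          (h0 1 (by omega)) (h1 1) (h0 0 (by omega)) hc2
          (left_bad h1 h0 (by omega) (not_loose hi') hc2) hc1 hl1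
    · refine t_ZL hD.pos (fun m hm => h0 m (by omega)) a3 ?_ ?_ ?_
      · intro a b ha hab hb
        have h := hac a b hab (by omega) (by omega)
        rwa [if_neg (by omega)] at h
      · intro b hb
        have h := hac 0 b (by omega) (by omega) (by omega)
        rwa [if_pos rfl] at h
      · intro m hm
        exact hlc m (by omega) (by omega)
  · left
    have hj5 : n < j + 3 + d := by
      by_contra hcon
      rcases H with H | H
      · omega
      · rcases H i j (by omega) hij (by omega) with h | h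
        · exact hi' h
        · exact hj' h
    refine ⟨by omega, j, by omega, by omega, ?_⟩
    rcases hd with hd | ⟨hd, hl2⟩ | ⟨hd, hl2, hd1, hd2⟩ | ⟨hld, had⟩
    · omega
    · have hj3 : j + 3 = n := by omega
      refine t_P2R hj3 hD.pos (h0 j (by omega)) b3 (h0 (j + 1) (by omega)) (h1 _) ?_
      rw [(by omega : j + 2 = n - 1), (by omega : j + 1 = n - 2)]
      exact hl2
    · by_cases hj3 : j + 3 = n
      · refine t_P2R hj3 hD.pos (h0 j (by omega)) b3 (h0 (j + 1) (by omega)) (h1 _) ?_
        rw [(by omega : j + 2 = n - 1), (by omega : j + 1 = n - 2)]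
        exact hl2
      · have hj4 : j + 4 = n := by omega
        have e2 : n - 2 = j + 2 := by omega
        rw [e2] at hd2
        refine t_Q3S hj4 hD.pos (h0 _ (by omega)) b3 (h0 _ (by omega)) (h1 _)
          (h0 _ (by omega)) hd2 (right_bad h1 h0 hj4 (not_loose hj') hd2) ?_ ?_
        · rw [(by omega : j + 2 = n - 2), (by omega : j + 1 = n - 3)]
          exact hd1
        · rw [(by omega : j + 3 = n - 1), (by omega : j + 2 = n - 2)]
          exact hl2
    · refine t_ZR (by omega) hD.pos (fun m hm hm2 => h0 m hm2) b3 ?_ ?_ ?_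
      · intro a b ha hab hb
        have h := had a b hab (by omega) (by omega)
        rwa [if_neg (by omega)] at h
      · intro a ha ha2
        have h := had a (n - 2) (by omega) (by omega) (by omega)
        rwa [if_pos (by omega)] at h
      · intro m hm1 hm2
        have h := hld (n - 2 - m) (by omega) (by omega)
        rw [(by omega : n - 1 - (n - 2 - m) = m + 1), (by omega : n - 2 - (n - 2 - m) = m)] at h
        exact h

end

end Pool.Agent.FlatN
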