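import Pool.Agent.FlatN.Defs

/-!
# Module CLB: a weakly climbing chain is simple
-/

set_option autoImplicit false

namespace Pool.Agent.FlatN

open Real Pool.Agent.Lib_helper54.Flat Pool.Agent.FlatW

namespace CLB

lemma ht {p q c x : E3} (hx : x ∈ segment ℝ p q) :
    ∃ s t : ℝ, 0 ≤ s ∧ 0 ≤ t ∧ s + t = 1 ∧ x = s • p + t • q ∧
      (inner ℝ c x : ℝ) = s * inner ℝ c p + t * inner ℝ c q := by
  obtain ⟨s, t, hs, ht, hst, rfl⟩ := hx
  refine ⟨s, t, hs, ht, hst, rfl, ?_⟩
  rw [inner_add_right, inner_smul_right, inner_smul_right]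

lemma bounds {p q c x : E3} (hpq : (inner ℝ c p : ℝ) ≤ inner ℝ c q) (hx : x ∈ segment ℝ p q) :
    (inner ℝ c p : ℝ) ≤ inner ℝ c x ∧ (inner ℝ c x : ℝ) ≤ inner ℝ c q := by
  obtain ⟨s, t, hs, ht, hst, -, hz⟩ := ht (c := c) hx
  rw [hz]
  have hs1 : s = 1 - t := by linarith
  subst hs1
  constructor
  · nlinarith
  · nlinarith

lemma top {p q c x : E3} (hpq : (inner ℝ c p : ℝ) < inner ℝ c q) (hx : x ∈ segment ℝ p q)
    (h : (inner ℝ c q : ℝ) ≤ inner ℝ c x) : x = q := by
  obtain ⟨s, t, hs, ht, hst, hxe, hz⟩ := ht (c := c) hx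
  rw [hz] at h
  have ht1 : t = 1 - s := by linarith
  subst ht1
  have h0 : s = 0 := by
    by_contra hne
    have hpos : 0 < s := lt_of_le_of_ne hs (Ne.symm hne)
    nlinarith
  rw [hxe, h0]
  simp

lemma bot {p q c x : E3} (hpq : (inner ℝ c p : ℝ) < inner ℝ c q) (hx : x ∈ segment ℝ p q)
    (h : (inner ℝ c x : ℝ) ≤ inner ℝ c p) : x = p := by
  obtain ⟨s, t, hs, ht, hst, hxe, hz⟩ := ht (c := c) hx
  rw [hz] at h
  have hs1 : s = 1 - t := by linarith
  subst hs1
  have h0 : t = 0 := by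
    by_contra hne
    have hpos : 0 < t := lt_of_le_of_ne ht (Ne.symm hne)
    nlinarith
  rw [hxe, h0]
  simp

lemma mono {u : ℕ → E3} {c : E3} {a b : ℕ}
    (h2 : ∀ m, a ≤ m → m < b → (inner ℝ c (u m) : ℝ) ≤ inner ℝ c (u (m + 1))) (i : ℕ)
    (hi : a ≤ i) : ∀ k, i + k ≤ b → (inner ℝ c (u i) : ℝ) ≤ inner ℝ c (u (i + k)) := by
  intro k
  induction k with
  | zero => intro _; simp
  | succ k ih =>
    intro hk
    exact (ih (by omega)).trans (h2 (i + k) (by omega) (by omega))

end CLB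

open CLB in
/-- CLB. A chain that climbs weakly, with no two consecutive horizontal links, is simple. -/
theorem t_CLB {u : ℕ → E3} {c : E3} {a b : ℕ}
    (h1 : ∀ m, a ≤ m → m < b → u m ≠ u (m + 1))
    (h2 : ∀ m, a ≤ m → m < b → (inner ℝ c (u m) : ℝ) ≤ inner ℝ c (u (m + 1)))
    (h3 : ∀ m, a ≤ m → m + 1 < b → (inner ℝ c (u m) : ℝ) < inner ℝ c (u (m + 2))) :
    SimpleOn u a b := by
  refine ⟨h1, ?_, ?_⟩
  · intro i j hi hij hj
    rw [Set.disjoint_left]
    intro x hxi hxj
    have b1 := (bounds (h2 i hi (by omega)) hxi).2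
    have b2 := (bounds (h2 j (by omega) hj) hxj).1
    obtain ⟨k, rfl⟩ : ∃ k, j = i + 2 + k := ⟨j - (i + 2), by omega⟩
    rcases Nat.eq_zero_or_pos k with hk | hk
    · subst hk
      simp only [Nat.add_zero] at *
      have c1 := h2 (i + 1) (by omega) (by omega)
      have e1 : i + 1 + 1 = i + 2 := by omega
      rw [e1] at c1
      have c2 := h3 i hi (by omega)
      have c3 := h3 (i + 1) (by omega) (by omega)
      have e2 : i + 1 + 2 = i + 2 + 1 := by omega
      rw [e2] at c3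
      have t1 : x = u (i + 1) := top (c := c) (by linarith) hxi (by linarith)
      have t2 : x = u (i + 2) := bot (c := c) (by linarith) hxj (by linarith)
      have h4 := h1 (i + 1) (by omega) (by omega)
      rw [e1] at h4
      exact h4 (t1.symm.trans t2)
    · have c1 := h3 (i + 1) (by omega) (by omega)
      have c2 := mono h2 (i + 1 + 2) (by omega) (k - 1) (by omega)
      have e1 : i + 1 + 2 + (k - 1) = i + 2 + k := by omega
      rw [e1] at c2
      linarith
  · intro i hi hib x hx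
    obtain ⟨hxi, hxj⟩ := hx
    have b1 := (bounds (h2 i hi (by omega)) hxi).2
    have b2 := h2 (i + 1) (by omega) hib
    have e1 : i + 1 + 1 = i + 2 := by omega
    rw [e1] at b2
    have b3 := (bounds b2 hxj).1
    have c2 := h3 i hi hib
    rw [Set.mem_singleton_iff]
    rcases lt_or_ge (inner ℝ c (u i) : ℝ) (inner ℝ c (u (i + 1))) with h | h
    · exact top (c := c) h hxi (by linarith)
    · exact bot (c := c) (by linarith) hxj (by linarith)

end Pool.Agent.FlatN
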