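import Pool.Agent.FlatN.Defs

set_option autoImplicit false

namespace Pool.Agent.FlatN

theorem CMB_fl_sign {k : ℕ} {s : ℕ → ℝ} (hs : ∀ m, s m = 1 ∨ s m = -1) :
    ∀ m, fl k s m = 1 ∨ fl k s m = -1 := by
  intro m
  unfold fl
  split_ifs
  · rcases hs m with h | h
    · right; rw [h]
    · left; rw [h]; norm_num
  · exact hs m

theorem CMB_fr_sign {k : ℕ} {s : ℕ → ℝ} (hs : ∀ m, s m = 1 ∨ s m = -1) :
    ∀ m, fr k s m = 1 ∨ fr k s m = -1 := by
  intro m
  unfold fr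
  split_ifs
  · rcases hs m with h | h
    · right; rw [h]
    · left; rw [h]; norm_num
  · exact hs m

theorem CMB_fl_fl (k : ℕ) (s : ℕ → ℝ) : fl k (fl k s) = s := by
  funext m
  unfold fl
  split_ifs <;> simp

theorem CMB_fr_fr (k : ℕ) (s : ℕ → ℝ) : fr k (fr k s) = s := by
  funext m
  unfold fr
  split_ifs <;> simp

theorem CMB_mul_sign {x y : ℝ} (hx : x = 1 ∨ x = -1) (hy : y = 1 ∨ y = -1) :
    x * y = 1 ∨ x * y = -1 := by
  rcases hx with h | h <;> rcases hy with h' | h' <;> rw [h, h'] <;> norm_num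

theorem CMB_neg_of_ne {x y : ℝ} (hx : x = 1 ∨ x = -1) (hy : y = 1 ∨ y = -1) (h : x ≠ y) :
    -x = y := by
  rcases hx with h1 | h1 <;> rcases hy with h2 | h2
  · exact absurd (h1.trans h2.symm) h
  · rw [h1, h2]
  · rw [h1, h2]; norm_num
  · exact absurd (h1.trans h2.symm) h

theorem CMB_mul_self {x : ℝ} (hx : x = 1 ∨ x = -1) : x * x = 1 := by
  rcases hx with h | h <;> rw [h] <;> norm_num

theorem CMB_T (N : Set ℕ) (B : ℕ) (hB : ∀ m ∈ N, m ≤ B) (E : (ℕ → ℝ) → (ℕ → ℝ) → Prop)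
    (hsymm : ∀ s s', E s s' → E s' s) (htrans : ∀ s s' s'', E s s' → E s' s'' → E s s'')
    (h1 : ∀ s s' : ℕ → ℝ, (∀ m, s m = 1 ∨ s m = -1) → (∀ m, s' m = 1 ∨ s' m = -1) →
      (∀ m ∈ N, s m = s' m) → E s s')
    (j0 : ℕ)
    (hT : ∀ i ∈ N, ∀ j ∈ N, i < j → (∀ m, i < m → m < j → m ∉ N) → j0 ≤ i →
      ∃ k, i < k ∧ k ≤ j ∧ ∃ t : ℕ → ℝ, (∀ m, t m = 1 ∨ t m = -1) ∧
        ∀ s : ℕ → ℝ, (∀ m, s m = 1 ∨ s m = -1) → (∀ m, k ≤ m → s m = t m) → E s (fl k s)) :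
    ∀ d j : ℕ, B - j = d → j ∈ N → j0 ≤ j → ∀ s s' : ℕ → ℝ, (∀ m, s m = 1 ∨ s m = -1) →
      (∀ m, s' m = 1 ∨ s' m = -1) → (∀ m ∈ N, m ≤ j → s m = s' m) → E s s' := by
  classical
  intro d
  induction d using Nat.strong_induction_on with
  | _ d ih =>
  intro j hd hj hj0 s s' hs hs' hss
  by_cases hex : ∃ m, m ∈ N ∧ j < m
  · -- the next element
    obtain ⟨hn1, hn2⟩ := Nat.find_spec hex
    have hn3 : ∀ m, m < Nat.find hex → ¬(m ∈ N ∧ j < m) := fun m hm => Nat.find_min hex hm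
    generalize Nat.find hex = n at hn1 hn2 hn3
    have hIH : ∀ s s' : ℕ → ℝ, (∀ m, s m = 1 ∨ s m = -1) →
        (∀ m, s' m = 1 ∨ s' m = -1) → (∀ m ∈ N, m ≤ n → s m = s' m) → E s s' := by
      intro u u' hu hu' huu
      have hnB := hB n hn1
      exact ih (B - n) (by omega) n rfl hn1 (by omega) u u' hu hu' huu
    have hle : ∀ m ∈ N, m ≤ n → m ≤ j ∨ m = n := by
      intro m hm hmn
      by_contra hcon
      push Not at hcon
      exact hn3 m (by omega) ⟨hm, hcon.1⟩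
    by_cases hsn : s n = s' n
    · refine hIH s s' hs hs' (fun m hm hmn => ?_)
      rcases hle m hm hmn with h | h
      · exact hss m hm h
      · rw [h]; exact hsn
    · obtain ⟨k, hk1, hk2, t, ht, hE⟩ := hT j hj n hn1 hn2
        (fun m hm1 hm2 hm3 => hn3 m hm2 ⟨hm3, hm1⟩) hj0
      have hτ : s n * t n = 1 ∨ s n * t n = -1 := CMB_mul_sign (hs n) (ht n)
      obtain ⟨τ, hτe⟩ : ∃ τ, τ = s n * t n := ⟨_, rfl⟩
      rw [← hτe] at hτ
      obtain ⟨σ, hσ⟩ : ∃ σ : ℕ → ℝ, σ = fun m => if m < k then s m else τ * t m := ⟨_, rfl⟩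
      have hσlt : ∀ m, m < k → σ m = s m := fun m hm => by rw [hσ]; simp [hm]
      have hσge : ∀ m, k ≤ m → σ m = τ * t m := fun m hm => by
        rw [hσ]; simp [not_lt.2 hm]
      have hσs : ∀ m, σ m = 1 ∨ σ m = -1 := by
        intro m
        rcases lt_or_ge m k with h | h
        · rw [hσlt m h]; exact hs m
        · rw [hσge m h]; exact CMB_mul_sign hτ (ht m)
      have hσn : σ n = s n := by
        rw [hσge n hk2, hτe, mul_assoc, CMB_mul_self (ht n), mul_one]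
      have e1 : E s σ := by
        refine hIH s σ hs hσs (fun m hm hmn => ?_)
        rcases hle m hm hmn with h | h
        · rw [hσlt m (by omega)]
        · rw [h]; exact hσn.symm
      have e2 : E σ (fl k σ) := by
        rcases hτ with h | h
        · refine hE σ hσs (fun m hm => ?_)
          rw [hσge m hm, h, one_mul]
        · have := hE (fl k σ) (CMB_fl_sign hσs) (fun m hm => by
            unfold fl
            rw [if_pos hm, hσge m hm, h]
            ring)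
          rw [CMB_fl_fl] at this
          exact hsymm _ _ this
      have e3 : E (fl k σ) s' := by
        refine hIH _ _ (CMB_fl_sign hσs) hs' (fun m hm hmn => ?_)
        unfold fl
        rcases hle m hm hmn with h | h
        · rw [if_neg (by omega), hσlt m (by omega)]
          exact hss m hm h
        · rw [h, if_pos hk2, hσn]
          exact CMB_neg_of_ne (hs n) (hs' n) hsn
      exact htrans _ _ _ e1 (htrans _ _ _ e2 e3)
  · refine h1 s s' hs hs' (fun m hm => hss m hm ?_)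
    by_contra hcon
    exact hex ⟨m, hm, by omega⟩

theorem CMB_H (N : Set ℕ) (E : (ℕ → ℝ) → (ℕ → ℝ) → Prop)
    (hsymm : ∀ s s', E s s' → E s' s) (htrans : ∀ s s' s'', E s s' → E s' s'' → E s s'')
    (h1 : ∀ s s' : ℕ → ℝ, (∀ m, s m = 1 ∨ s m = -1) → (∀ m, s' m = 1 ∨ s' m = -1) →
      (∀ m ∈ N, s m = s' m) → E s s')
    (j0 : ℕ)
    (hH : ∀ i ∈ N, ∀ j ∈ N, i < j → (∀ m, i < m → m < j → m ∉ N) → j ≤ j0 →
      ∃ k, i < k ∧ k ≤ j ∧ ∃ t : ℕ → ℝ, (∀ m, t m = 1 ∨ t m = -1) ∧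
        ∀ s : ℕ → ℝ, (∀ m, s m = 1 ∨ s m = -1) → (∀ m, m < k → s m = t m) → E s (fr k s)) :
    ∀ j : ℕ, j ∈ N → j ≤ j0 → ∀ s s' : ℕ → ℝ, (∀ m, s m = 1 ∨ s m = -1) →
      (∀ m, s' m = 1 ∨ s' m = -1) → (∀ m ∈ N, j ≤ m → s m = s' m) → E s s' := by
  classical
  intro j
  induction j using Nat.strong_induction_on with
  | _ j ih =>
  intro hj hj0 s s' hs hs' hss
  by_cases hex : ∃ m, m ∈ N ∧ m < j
  · -- the previous element
    obtain ⟨n, hn1, hn2, hn3⟩ : ∃ n, n ∈ N ∧ n < j ∧ ∀ m, n < m → m < j → m ∉ N := by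
      obtain ⟨m0, hm0, hm0j⟩ := hex
      have hP : ∃ m, (fun i => i ∈ N ∧ i < j) m := ⟨m0, hm0, hm0j⟩
      refine ⟨Nat.findGreatest (fun i => i ∈ N ∧ i < j) j, ?_⟩
      have h := Nat.findGreatest_spec (P := fun i => i ∈ N ∧ i < j) hm0j.le ⟨hm0, hm0j⟩
      refine ⟨h.1, h.2, fun m hm1 hm2 hm3 => ?_⟩
      exact Nat.findGreatest_is_greatest hm1 hm2.le ⟨hm3, hm2⟩
    have hIH : ∀ s s' : ℕ → ℝ, (∀ m, s m = 1 ∨ s m = -1) →
        (∀ m, s' m = 1 ∨ s' m = -1) → (∀ m ∈ N, n ≤ m → s m = s' m) → E s s' := by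
      intro u u' hu hu' huu
      exact ih n hn2 hn1 (by omega) u u' hu hu' huu
    have hle : ∀ m ∈ N, n ≤ m → j ≤ m ∨ m = n := by
      intro m hm hmn
      by_contra hcon
      push Not at hcon
      exact hn3 m (by omega) hcon.1 hm
    by_cases hsn : s n = s' n
    · refine hIH s s' hs hs' (fun m hm hmn => ?_)
      rcases hle m hm hmn with h | h
      · exact hss m hm h
      · rw [h]; exact hsn
    · obtain ⟨k, hk1, hk2, t, ht, hE⟩ := hH n hn1 j hj hn2 hn3 hj0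
      have hτ : s n * t n = 1 ∨ s n * t n = -1 := CMB_mul_sign (hs n) (ht n)
      obtain ⟨τ, hτe⟩ : ∃ τ, τ = s n * t n := ⟨_, rfl⟩
      rw [← hτe] at hτ
      obtain ⟨σ, hσ⟩ : ∃ σ : ℕ → ℝ, σ = fun m => if m < k then τ * t m else s m := ⟨_, rfl⟩
      have hσlt : ∀ m, m < k → σ m = τ * t m := fun m hm => by rw [hσ]; simp [hm]
      have hσge : ∀ m, k ≤ m → σ m = s m := fun m hm => by
        rw [hσ]; simp [not_lt.2 hm]
      have hσs : ∀ m, σ m = 1 ∨ σ m = -1 := by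
        intro m
        rcases lt_or_ge m k with h | h
        · rw [hσlt m h]; exact CMB_mul_sign hτ (ht m)
        · rw [hσge m h]; exact hs m
      have hσn : σ n = s n := by
        rw [hσlt n hk1, hτe, mul_assoc, CMB_mul_self (ht n), mul_one]
      have e1 : E s σ := by
        refine hIH s σ hs hσs (fun m hm hmn => ?_)
        rcases hle m hm hmn with h | h
        · rw [hσge m (by omega)]
        · rw [h]; exact hσn.symm
      have e2 : E σ (fr k σ) := by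
        rcases hτ with h | h
        · refine hE σ hσs (fun m hm => ?_)
          rw [hσlt m hm, h, one_mul]
        · have := hE (fr k σ) (CMB_fr_sign hσs) (fun m hm => by
            unfold fr
            rw [if_pos hm, hσlt m hm, h]
            ring)
          rw [CMB_fr_fr] at this
          exact hsymm _ _ this
      have e3 : E (fr k σ) s' := by
        refine hIH _ _ (CMB_fr_sign hσs) hs' (fun m hm hmn => ?_)
        unfold fr
        rcases hle m hm hmn with h | h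
        · rw [if_neg (by omega), hσge m (by omega)]
          exact hss m hm h
        · rw [h, if_pos hk1, hσn]
          exact CMB_neg_of_ne (hs n) (hs' n) hsn
      exact htrans _ _ _ e1 (htrans _ _ _ e2 e3)
  · refine h1 s s' hs hs' (fun m hm => hss m hm ?_)
    by_contra hcon
    exact hex ⟨m, hm, by omega⟩

theorem t_CMB (N : Set ℕ) (B : ℕ) (hB : ∀ m ∈ N, m ≤ B) (E : (ℕ → ℝ) → (ℕ → ℝ) → Prop)
    (hsymm : ∀ s s', E s s' → E s' s) (htrans : ∀ s s' s'', E s s' → E s' s'' → E s s'')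
    (h1 : ∀ s s' : ℕ → ℝ, (∀ m, s m = 1 ∨ s m = -1) → (∀ m, s' m = 1 ∨ s' m = -1) →
      (∀ m ∈ N, s m = s' m) → E s s')
    (j0 : ℕ) (hj0 : j0 ∈ N)
    (hT : ∀ i ∈ N, ∀ j ∈ N, i < j → (∀ m, i < m → m < j → m ∉ N) → j0 ≤ i →
      ∃ k, i < k ∧ k ≤ j ∧ ∃ t : ℕ → ℝ, (∀ m, t m = 1 ∨ t m = -1) ∧
        ∀ s : ℕ → ℝ, (∀ m, s m = 1 ∨ s m = -1) → (∀ m, k ≤ m → s m = t m) → E s (fl k s))
    (hH : ∀ i ∈ N, ∀ j ∈ N, i < j → (∀ m, i < m → m < j → m ∉ N) → j ≤ j0 →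
      ∃ k, i < k ∧ k ≤ j ∧ ∃ t : ℕ → ℝ, (∀ m, t m = 1 ∨ t m = -1) ∧
        ∀ s : ℕ → ℝ, (∀ m, s m = 1 ∨ s m = -1) → (∀ m, m < k → s m = t m) → E s (fr k s))
    (s s' : ℕ → ℝ) (hs : ∀ m, s m = 1 ∨ s m = -1) (hs' : ∀ m, s' m = 1 ∨ s' m = -1)
    (he : s j0 = s' j0) : E s s' := by
  obtain ⟨σ, hσ⟩ : ∃ σ : ℕ → ℝ, σ = fun m => if m ≤ j0 then s m else s' m := ⟨_, rfl⟩
  have hσle : ∀ m, m ≤ j0 → σ m = s m := fun m hm => by rw [hσ]; simp [hm]
  have hσgt : ∀ m, j0 < m → σ m = s' m := fun m hm => by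
    rw [hσ]; simp [not_le.2 hm]
  have hσs : ∀ m, σ m = 1 ∨ σ m = -1 := by
    intro m
    rcases le_or_gt m j0 with h | h
    · rw [hσle m h]; exact hs m
    · rw [hσgt m h]; exact hs' m
  refine htrans s σ s' ?_ ?_
  · exact CMB_T N B hB E hsymm htrans h1 j0 hT _ j0 rfl hj0 le_rfl s σ hs hσs
      (fun m _ hm => (hσle m hm).symm)
  · refine CMB_H N E hsymm htrans h1 j0 hH j0 hj0 le_rfl σ s' hσs hs' (fun m _ hm => ?_)
    rcases hm.lt_or_eq with h | h
    · exact hσgt m h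
    · rw [← h, hσle j0 le_rfl]; exact he

end Pool.Agent.FlatN
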