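import Pool.Agent.FlatN.Defs

/-! FLN, module TEN (helper34): the end of the rotation of the tail. -/

set_option autoImplicit false

namespace Pool.Agent.FlatN

open Real Pool.Agent.Lib_helper54.Flat Pool.Agent.FlatW

namespace MTEN

theorem az_lt (k : ℕ) (ω : ℝ) (s h θ : ℕ → ℝ) :
    ∀ m, m ≤ k → az ω (fl k s) h θ m = az ω s h θ m := by
  intro m
  induction m with
  | zero => intro _; rfl
  | succ m ih =>
    intro hm
    rw [az_succ, az_succ, ih (by omega)]
    have : fl k s m = s m := by
      unfold fl
      rw [if_neg (by omega)]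
    rw [this]

theorem az_ge (k : ℕ) (ω : ℝ) (s h θ : ℕ → ℝ) :
    ∀ m, k ≤ m → az ω (fl k s) h θ m = 2 * az ω s h θ k - az ω s h θ m := by
  intro m hm
  induction m, hm using Nat.le_induction with
  | base => rw [az_lt k ω s h θ k le_rfl]; ring
  | succ m hm ih =>
    rw [az_succ, az_succ, ih]
    have : fl k s m = -s m := by
      unfold fl
      rw [if_pos hm]
    rw [this]
    ring

theorem rotL_add (e w c : E3) (φ t : ℝ) (x y : E3) :
    rotL e w c φ (x + t • y) = rotL e w c φ x + t • rotL e w c φ y := by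
  unfold rotL
  simp only [inner_add_right, inner_smul_right]
  module

theorem rotL_zero (e w c : E3) (φ : ℝ) : rotL e w c φ 0 = 0 := by
  unfold rotL
  simp

theorem rotL_pi {a b c : E3} (h : ON a b c) (α β : ℝ) :
    rotL (cos α • a + sin α • b) (-sin α • a + cos α • b) c π (cos β • a + sin β • b) =
      cos (2 * α - β) • a + sin (2 * α - β) • b := by
  have ba : inner ℝ b a = (0 : ℝ) := by rw [real_inner_comm]; exact h.ab
  have ca : inner ℝ c a = (0 : ℝ) := by rw [real_inner_comm]; exact h.ac
  have cb : inner ℝ c b = (0 : ℝ) := by rw [real_inner_comm]; exact h.bc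
  have h1 : (inner ℝ (cos α • a + sin α • b) (cos β • a + sin β • b) : ℝ) = cos (α - β) := by
    simp only [inner_add_left, inner_add_right, inner_smul_left, inner_smul_right, h.aa, h.bb,
      h.ab, ba, RCLike.conj_to_real]
    rw [cos_sub]
    ring
  have h2 : (inner ℝ (-sin α • a + cos α • b) (cos β • a + sin β • b) : ℝ) = -sin (α - β) := by
    simp only [inner_add_left, inner_add_right, inner_smul_left, inner_smul_right, h.aa, h.bb,
      h.ab, ba, RCLike.conj_to_real]
    rw [sin_sub]
    ring
  have h3 : (inner ℝ c (cos β • a + sin β • b) : ℝ) = 0 := by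
    simp only [inner_add_right, inner_smul_right, ca, cb]
    ring
  unfold rotL
  rw [h1, h2, h3, show 2 * α - β = α + (α - β) by ring, cos_add α, sin_add α, cos_pi, sin_pi]
  module

end MTEN

open MTEN in
/-- TEN: the end of the rotation of the tail. -/
theorem t_TEN {k : ℕ} {p a b c : E3} {ω η : ℝ} {l s θ : ℕ → ℝ} (hON : ON a b c) (α : ℝ)
    (hα : α = az ω s (hb k η) θ k) (v : ℕ → E3) (hv : v = vtx p a b c ω l s (hb k η) θ) :
    (∀ m, m ≤ k → vtx p a b c ω l (fl k s) (hb k η) θ m = v m) ∧
    (∀ m, k ≤ m → vtx p a b c ω l (fl k s) (hb k η) θ m =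
      rotA (v k) (cos α • a + sin α • b) (-sin α • a + cos α • b) c π (v m)) := by
  subst hv
  have hlt : ∀ m, m ≤ k → vtx p a b c ω l (fl k s) (hb k η) θ m =
      vtx p a b c ω l s (hb k η) θ m := by
    intro m
    induction m with
    | zero => intro _; rfl
    | succ m ih =>
      intro hm
      rw [vtx_succ, vtx_succ, ih (by omega)]
      unfold dir
      rw [az_lt k ω s (hb k η) θ m (by omega)]
  refine ⟨hlt, ?_⟩
  intro m hm
  induction m, hm using Nat.le_induction with
  | base =>
    rw [hlt k le_rfl]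
    unfold rotA
    rw [sub_self, rotL_zero, add_zero]
  | succ m hm ih =>
    rw [vtx_succ, vtx_succ, ih]
    have hh : hb k η m = 0 := by
      unfold hb
      rw [if_neg (by omega)]
    have hd : ∀ s' : ℕ → ℝ, dir a b c ω s' (hb k η) θ m =
        cos (az ω s' (hb k η) θ m) • a + sin (az ω s' (hb k η) θ m) • b := by
      intro s'
      unfold dir
      rw [hh, cos_zero, sin_zero, one_mul, one_mul, zero_smul, add_zero]
    rw [hd, hd, az_ge k ω s (hb k η) θ m hm, ← hα, ← rotL_pi hON]
    unfold rotA
    rw [add_sub_right_comm, rotL_add _ _ _ _ (l m), add_assoc]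

end Pool.Agent.FlatN
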