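import Pool.Agent.FlatN.MEHH
import Pool.Agent.FlatN.MTEN

/-! EHF: half flip of the flat tail of a climbing chain (module FLN_EHF). -/

set_option autoImplicit false

namespace Pool.Agent.FlatN

open Real Pool.Agent.Lib_helper54.Flat Pool.Agent.FlatW

theorem t_EHF {n k : ℕ} {P : Fin (n + 1) → E3} {p a b c : E3} {ω : ℝ} {l s θ : ℕ → ℝ}
    (hD : Data P l θ) (hs : ∀ m, s m = 1 ∨ s m = -1) (hON : ON a b c) (hk1 : 1 ≤ k)
    (hk : k + 2 ≤ n) (hpos : ∀ j, j + 2 ≤ n → 0 < θ j) (hπ : θ (k - 1) < π)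
    (α : ℝ) (hα : α = az ω s (fun _ => 0) θ k)
    (v : ℕ → E3) (hv : v = vtx p a b c ω l s (fun _ => 0) θ) (hT : SimpleOn v k n)
    (σ : ℝ) (hσ : σ = 1 ∨ σ = -1)
    (hcross : ∀ i j x y, i < k → k < j → j < n →
      (σ * (inner ℝ (-sin α • a + cos α • b) (v j - v k) : ℝ) < 0 ∨
        σ * (inner ℝ (-sin α • a + cos α • b) (v (j + 1) - v k) : ℝ) < 0) →
      x ∈ segment ℝ (v i) (v (i + 1)) → y ∈ segment ℝ (v j) (v (j + 1)) →
      σ * (inner ℝ (-sin α • a + cos α • b) (y - v k) : ℝ) ≤ 0 →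
      x ≠ y ∧ x ≠ rotA (v k) (cos α • a + sin α • b) (-sin α • a + cos α • b) c π y) :
    ∃ (η : ℝ) (p' : E3) (ω' : ℝ), 0 < η ∧ Good n θ (hb k η) ∧
      JoinedIn (freeSpace P) (chain n p' a b c ω' l s (hb k η) θ)
        (chain n p' a b c ω' l (fl k s) (hb k η) θ) := by
  have hONr := hfp_ON hON α
  obtain ⟨ε, hε0, hε1, hε2⟩ := exists_eps θ (n - 1) fun j hj => hpos j (by omega)
  obtain ⟨η0, hη0⟩ : ∃ η0, η0 = min ε (π - θ (k - 1)) := ⟨_, rfl⟩
  have h0 : 0 < η0 := by rw [hη0]; exact lt_min hε0 (by linarith)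
  have hle0 : η0 ≤ ε := by rw [hη0]; exact min_le_left _ _
  have h1 : η0 < π / 2 := lt_of_le_of_lt hle0 hε1
  have h2 : ∀ j, j + 2 ≤ n → η0 + η0 ≤ θ j := fun j hj => by
    have := hε2 j (by omega); linarith
  have h3 : η0 ≤ π - θ (k - 1) := by rw [hη0]; exact min_le_right _ _
  have hG : ∀ x, 0 ≤ x → x ≤ η0 → Good n θ (hb k x) := fun x hx hx' =>
    hfp_good hk1 h1 h2 h3 hD.ang_le hx hx'
  have hG0 : Good n θ (fun _ => 0) := by
    have := hG 0 le_rfl h0.le
    rwa [hfp_hb_zero] at this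
  obtain ⟨pp, ww, f1, f2, f3, f4⟩ := hfp_family (a := a) (b := b) (c := c) (l := l) α hα v hv h0 h1
  obtain ⟨A, hA⟩ : ∃ A : ℝ → ℕ → E3, A = fun x m => vtx (pp x) a b c (ww x) l s (hb k x) θ m :=
    ⟨_, rfl⟩
  have hA' : ∀ x, A x = vtx (pp x) a b c (ww x) l s (hb k x) θ := fun x => by rw [hA]
  have g2 : ∀ x m, k ≤ m → A x m = v m := fun x m hm => by rw [hA]; exact f2 x m hm
  have g3 : ∀ m, A 0 m = v m := fun m => by rw [hA]; exact f3 m
  have g4 : ∀ m, Continuous fun x : ℝ => A (hfpcl η0 x) m := fun m => by rw [hA]; exact f4 m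
  clear f2 f3 f4
  -- heights
  have hup : ∀ x, 0 < x → x ≤ η0 → ∀ m, m < k →
      (inner ℝ c (A x m) : ℝ) < inner ℝ c (A x (m + 1)) := by
    intro x hx hx' m hm
    rw [hA', height_succ hON]
    have : hb k x m = x := by unfold hb; rw [if_pos hm]
    rw [this]
    have := mul_pos (hD.pos m) (sin_pos_of_pos_of_lt_pi hx (by linarith [pi_pos]))
    linarith
  have hflat : ∀ m, (inner ℝ c (v m) : ℝ) = inner ℝ c (v 0) := by
    intro m
    induction m with
    | zero => rfl
    | succ m ih => rw [hv, height_succ hON, ← hv, ih, sin_zero, mul_zero, add_zero]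
  have hflat' : ∀ j y, y ∈ segment ℝ (v j) (v (j + 1)) → (inner ℝ c (y - v k) : ℝ) = 0 := by
    rintro j y hy
    rw [segment_eq_image] at hy
    obtain ⟨r, hr, rfl⟩ := hy
    dsimp only
    rw [inner_sub_right, inner_add_right, inner_smul_right, inner_smul_right, hflat j,
      hflat (j + 1), hflat k]
    ring
  have hdist : ∀ x m, dist (A x m) (A x (m + 1)) = l m := fun x m => by
    rw [hA']; exact dist_vtx hON m (hD.pos m)
  have hdistv : ∀ m, dist (v m) (v (m + 1)) = l m := fun m => by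
    rw [hv]; exact dist_vtx hON m (hD.pos m)
  have hsA : ∀ x, 0 < x → x ≤ η0 → SimpleOn (A x) 0 (k + 1) := by
    intro x h hx'
    have hlev : (inner ℝ c (A x k) : ℝ) ≤ inner ℝ c (A x (k + 1)) := by
      rw [g2 x k le_rfl, g2 x (k + 1) (by omega), hflat k, hflat (k + 1)]
    have hmo : ∀ m, m < k + 1 → (inner ℝ c (A x m) : ℝ) ≤ inner ℝ c (A x (m + 1)) := by
      intro m hm
      rcases Nat.lt_succ_iff_lt_or_eq.1 hm with h4 | h4
      · exact (hup x h hx' m h4).le
      · rw [h4]; exact hlev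
    refine t_CLB (c := c) ?_ ?_ ?_
    · intro m _ _
      have := hdist x m
      intro heq
      rw [heq, dist_self] at this
      exact (hD.pos m).ne this
    · intro m _ hm
      exact hmo m hm
    · intro m _ hm
      exact lt_of_lt_of_le (hup x h hx' m (by omega)) (hmo (m + 1) hm)
  have hsn : ∀ t : ℝ, sin (σ * (π * t)) = σ * sin (π * t) := by
    intro t
    rcases hσ with h | h
    · rw [h, one_mul, one_mul]
    · rw [h, neg_one_mul, sin_neg, neg_one_mul]
  have hrotc : ∀ (t : ℝ) (Y : E3), (inner ℝ c (Y - v k) : ℝ) = 0 →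
      (inner ℝ c (rotA (v k) (cos α • a + sin α • b) (-sin α • a + cos α • b) c
        (σ * (π * t)) Y) : ℝ) = inner ℝ c (v k) +
        sin (π * t) * (σ * (inner ℝ (-sin α • a + cos α • b) (Y - v k) : ℝ)) := by
    intro t Y hY
    rw [(t_ROT (v := v k) hONr (σ * (π * t))).2.2.2.2.2.1 Y, hY, hsn]
    ring
  have hek : v (k + 1) - v k = l k • (cos α • a + sin α • b) := by
    rw [hv, vtx_succ, add_sub_cancel_left]
    unfold dir
    rw [← hα]
    simp
  have hfixk : ∀ t : ℝ, rotA (v k) (cos α • a + sin α • b) (-sin α • a + cos α • b) c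
      (σ * (π * t)) (v k) = v k := fun t =>
    hfp_rot_fix hONr _ _ (by rw [sub_self, inner_zero_right]) (by rw [sub_self, inner_zero_right])
  have hfixk1 : ∀ t : ℝ, rotA (v k) (cos α • a + sin α • b) (-sin α • a + cos α • b) c
      (σ * (π * t)) (v (k + 1)) = v (k + 1) := fun t => by
    refine hfp_rot_fix hONr _ _ ?_ ?_
    · rw [hek, inner_smul_right, real_inner_comm, hONr.ab, mul_zero]
    · rw [hek, inner_smul_right, real_inner_comm, hONr.ac, mul_zero]
  -- no bad position in the limit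
  have hbad : ∀ i j, i < k → k < j → j < n →
      (σ * (inner ℝ (-sin α • a + cos α • b) (v j - v k) : ℝ) < 0 ∨
        σ * (inner ℝ (-sin α • a + cos α • b) (v (j + 1) - v k) : ℝ) < 0) →
      ∀ (t : ℝ) (X Y : E3), 0 ≤ t → t ≤ 1 →
      X ∈ segment ℝ (v i) (v (i + 1)) → Y ∈ segment ℝ (v j) (v (j + 1)) →
      X = rotA (v k) (cos α • a + sin α • b) (-sin α • a + cos α • b) c (σ * (π * t)) Y →
      σ * (inner ℝ (-sin α • a + cos α • b) (Y - v k) : ℝ) ≤ 0 → False := by
    intro i j hi hj hj' hneg t X Y ht0 ht1 hX hY he hle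
    obtain ⟨n1, n2⟩ := hcross i j X Y hi hj hj' hneg hX hY hle
    rcases eq_or_lt_of_le ht1 with h4 | h4
    · subst h4
      rw [hfp_rot_pi hσ] at he
      exact n2 he
    · rcases eq_or_lt_of_le ht0 with h5 | h5
      · rw [← h5, mul_zero, mul_zero, hfp_rot_zero hONr] at he
        exact n1 he
      · have hcY := hflat' j Y hY
        have hcX := hflat' i X hX
        rw [inner_sub_right] at hcX
        have r6 := hrotc t Y hcY
        rw [← he] at r6
        have hst : 0 < sin (π * t) := sin_pos_of_pos_of_lt_pi (by positivity)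
          (by nlinarith [pi_pos])
        have hw0 : sin (π * t) * (σ * (inner ℝ (-sin α • a + cos α • b) (Y - v k) : ℝ)) = 0 := by
          linarith
        have hw1 := (mul_eq_zero.1 hw0).resolve_left hst.ne'
        have hσ0 : σ ≠ 0 := by
          rcases hσ with h | h
          · rw [h]; exact one_ne_zero
          · rw [h]; exact neg_ne_zero.2 one_ne_zero
        have hw2 := (mul_eq_zero.1 hw1).resolve_left hσ0
        rw [hfp_rot_fix hONr _ _ hw2 hcY] at he
        exact n1 he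
  -- the pairs of links before and after link k
  have hev : ∀ᶠ η in nhdsWithin (0 : ℝ) (Set.Ioi 0), ∀ i ∈ Finset.range k,
      ∀ j ∈ Finset.range n, k < j →
      (σ * (inner ℝ (-sin α • a + cos α • b) (v j - v k) : ℝ) < 0 ∨
        σ * (inner ℝ (-sin α • a + cos α • b) (v (j + 1) - v k) : ℝ) < 0) →
      ∀ (t : ℝ) (X Y : E3), 0 ≤ η → η ≤ η0 → 0 ≤ t →
      t ≤ 1 → X ∈ segment ℝ (A η i) (A η (i + 1)) → Y ∈ segment ℝ (v j) (v (j + 1)) →
      X = rotA (v k) (cos α • a + sin α • b) (-sin α • a + cos α • b) c (σ * (π * t)) Y →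
      σ * (inner ℝ (-sin α • a + cos α • b) (Y - v k) : ℝ) ≤ 0 → False := by
    refine (Filter.eventually_all_finset (Finset.range k)).2 fun i hi =>
      (Filter.eventually_all_finset (Finset.range n)).2 fun j hj => ?_
    rw [Finset.mem_range] at hi hj
    by_cases hkj : k < j ∧ (σ * (inner ℝ (-sin α • a + cos α • b) (v j - v k) : ℝ) < 0 ∨
        σ * (inner ℝ (-sin α • a + cos α • b) (v (j + 1) - v k) : ℝ) < 0)
    · have hcl0 : hfpcl η0 0 = 0 := hfpcl_of le_rfl h0.le
      obtain ⟨δ, hδ, hδ'⟩ := ehh_compact (g4 i) (g4 (i + 1)) (v j) (v (j + 1)) (v k)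
        (cos α • a + sin α • b) (-sin α • a + cos α • b) c σ σ η0 (by
          intro t u r ht0 ht1 hu0 hu1 hr0 hr1 he hor
          rw [hcl0, g3, g3] at he
          refine hbad i j hi hkj.1 hj hkj.2 t _ _ ht0 ht1 ?_ ?_ he hor
          · rw [segment_eq_image]; exact ⟨u, ⟨hu0, hu1⟩, rfl⟩
          · rw [segment_eq_image]; exact ⟨r, ⟨hr0, hr1⟩, rfl⟩)
      filter_upwards [Ioo_mem_nhdsGT hδ] with η hη
      intro _ _ t X Y hx hx0 ht0 ht1 hX hY he hor
      rw [segment_eq_image] at hX hY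
      obtain ⟨u, ⟨hu0, hu1⟩, hu⟩ := hX
      obtain ⟨r, ⟨hr0, hr1⟩, hr⟩ := hY
      dsimp only at hu hr
      rw [← hu, ← hr] at he
      rw [← hr] at hor
      refine hδ' η t u r hx hη.2 hx0 ht0 ht1 hu0 hu1 hr0 hr1 ?_ hor
      rw [hfpcl_of hx hx0]; exact he
    · exact Filter.Eventually.of_forall fun η h h' => absurd ⟨h, h'⟩ hkj
  obtain ⟨η, hηe, hη⟩ := (hev.and (Ioo_mem_nhdsGT h0)).exists
  have hηpos : 0 < η := hη.1
  have hηle : η ≤ η0 := hη.2.le
  clear hev
  have hcr : ∀ i j, i < k → k < j → j < n → ∀ (t : ℝ) (X Y : E3), 0 ≤ t → t ≤ 1 →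
      X ∈ segment ℝ (A η i) (A η (i + 1)) → Y ∈ segment ℝ (v j) (v (j + 1)) →
      X ≠ rotA (v k) (cos α • a + sin α • b) (-sin α • a + cos α • b) c (σ * (π * t)) Y := by
    intro i j hi hj hj' t X Y ht0 ht1 hX hY he
    have hcY := hflat' j Y hY
    by_cases hsg : 0 ≤ σ * (inner ℝ (-sin α • a + cos α • b) (Y - v k) : ℝ)
    · have r6 := hrotc t Y hcY
      rw [← he] at r6
      have hsnn : 0 ≤ sin (π * t) := sin_nonneg_of_nonneg_of_le_pi (by positivity)
        (by nlinarith [pi_pos])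
      have h8 := mul_nonneg hsnn hsg
      have h9 := hfp_mono (hup η hηpos hηle) i X hi hX
      rw [g2 η k le_rfl] at h9
      have h10 : X = v k := h9.2 (le_antisymm h9.1 (by linarith))
      have h11 : Y = v k := by
        refine (t_ROT (v := v k) hONr (σ * (π * t))).2.2.2.2.2.2 _ _ (he.symm.trans ?_)
        rw [h10, hfixk]
      rw [h11] at hY
      have h12 := hT.1 k le_rfl (by omega)
      rcases Nat.lt_or_ge (k + 1) j with h | h
      · exact Set.disjoint_left.1 (hT.2.1 k j le_rfl h hj') (left_mem_segment ℝ _ _) hY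
      · have hik : j = k + 1 := by omega
        subst hik
        have h13 := hT.2.2 k le_rfl hj' ⟨left_mem_segment ℝ _ _, hY⟩
        exact h12 (Set.mem_singleton_iff.1 h13)
    · push Not at hsg
      refine hηe i (Finset.mem_range.2 hi) j (Finset.mem_range.2 hj') hj ?_ t X Y hηpos.le hηle
        ht0 ht1 hX hY he hsg.le
      by_contra hc
      push Not at hc
      obtain ⟨c1, c2⟩ := hc
      obtain ⟨β, γ, hβ, hγ, hβγ, rfl⟩ := hY
      have e0 : β • v j + γ • v (j + 1) - v k = β • (v j - v k) + γ • (v (j + 1) - v k) := by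
        have : v k = (β + γ) • v k := by rw [hβγ, one_smul]
        conv_lhs => rw [this]
        module
      rw [e0, inner_add_right, inner_smul_right, inner_smul_right] at hsg
      have b1 := mul_nonneg hβ c1
      have b2 := mul_nonneg hγ c2
      linarith
  -- the path
  obtain ⟨g, hg⟩ : ∃ g : ℝ → ℕ → E3, g = fun t m => if m ≤ k then A η m else
    rotA (v k) (cos α • a + sin α • b) (-sin α • a + cos α • b) c (σ * (π * t)) (v m) :=
    ⟨_, rfl⟩
  have gA : ∀ (t : ℝ) m, m ≤ k + 1 → g t m = A η m := by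
    intro t m hm
    rw [hg]
    dsimp only
    split_ifs with h
    · rfl
    · have : m = k + 1 := by omega
      rw [this, hfixk1, g2 _ _ (by omega)]
  have gR : ∀ (t : ℝ) m, k ≤ m → g t m = rotA (v k) (cos α • a + sin α • b)
      (-sin α • a + cos α • b) c (σ * (π * t)) (v m) := by
    intro t m hm
    rw [hg]
    dsimp only
    split_ifs with h
    · have : m = k := by omega
      rw [this, hfixk, g2 _ _ le_rfl]
    · rfl
  have gS : ∀ t : ℝ, 0 ≤ t → t ≤ 1 → SimpleOn (g t) 0 n := by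
    intro t ht0 ht1
    refine hfp_glue (k := k) ?_ ?_ ?_
    · exact hfp_simple_congr (fun m _ hm => (gA t m hm).symm) (hsA _ hηpos hηle)
    · exact hfp_simple_congr (fun m hm _ => (gR t m hm).symm) (hfp_simple_rot hONr _ hT)
    · intro i j hi hj hj'
      rw [gA t i (by omega), gA t (i + 1) (by omega), gR t j (by omega),
        gR t (j + 1) (by omega), Set.disjoint_left]
      intro x hx hx'
      obtain ⟨y, hy, he⟩ := (t_ROT (v := v k) hONr (σ * (π * t))).2.2.2.2.1 _ _ _ hx'
      exact hcr i j hi hj hj' t x y ht0 ht1 hx hy he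
  have gF : ∀ t : ℝ, 0 ≤ t → t ≤ 1 → (fun i : Fin (n + 1) => g t i.val) ∈ freeSpace P := by
    intro t ht0 ht1
    have hG1 := hG _ hηpos.le hηle
    refine ⟨(t_SMP (g t)).2 (gS t ht0 ht1), ?_, ?_⟩
    · intro i
      rw [hD.len i]
      show dist (g t i.val) (g t (i.val + 1)) = l i.val
      by_cases h : i.val < k
      · rw [gA t _ (by omega), gA t _ (by omega), hdist]
      · rw [gR t _ (by omega), gR t _ (by omega), (t_ROT (v := v k) hONr _).2.1, hdistv]
    · intro i j hij
      rw [hD.ang i j hij]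
      have hj : j.succ.val = i.val + 2 := by simp [hij]
      show EuclideanGeometry.angle (g t i.val) (g t (i.val + 1)) (g t j.succ.val) = θ i.val
      rw [hj]
      have hi2 : i.val + 2 ≤ n := by have := j.isLt; omega
      by_cases h : i.val < k
      · rw [gA t _ (by omega), gA t _ (by omega), gA t _ (by omega), hA']
        exact angle_vtx hON i.val (hD.pos _) (hD.pos _) (hs _) (hG1.nonneg _) (hG1.lt _)
          (hG1.nonneg _) (hG1.lt _) (hD.ang_nonneg _) (hD.ang_le _) (hG1.sum _ hi2)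
          (hG1.diff _ hi2)
      · rw [gR t _ (by omega), gR t _ (by omega), gR t _ (by omega),
          (t_ROT (v := v k) hONr _).2.2.1, hv]
        exact angle_vtx hON i.val (hD.pos _) (hD.pos _) (hs _) (hG0.nonneg i.val)
          (hG0.lt i.val) (hG0.nonneg (i.val + 1)) (hG0.lt (i.val + 1)) (hD.ang_nonneg _)
          (hD.ang_le _) (hG0.sum _ hi2) (hG0.diff _ hi2)
  refine ⟨η, pp η, ww η, hηpos, hG η hηpos.le hηle, ?_⟩
  refine ⟨⟨⟨fun t : unitInterval => fun i : Fin (n + 1) => g t i.val, ?_⟩, ?_, ?_⟩, ?_⟩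
  · rw [continuous_pi_iff]
    intro i
    by_cases h : i.val ≤ k
    · have : (fun t : unitInterval => g t i.val) = fun t : unitInterval => A η i.val := by
        funext t
        rw [gA t _ (by omega)]
      rw [this]
      exact continuous_const
    · have : (fun t : unitInterval => g t i.val) = fun t : unitInterval =>
          rotA (v k) (cos α • a + sin α • b) (-sin α • a + cos α • b) c (σ * (π * t))
            (v i.val) := by
        funext t
        exact gR t _ (by omega)
      rw [this]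
      unfold rotA rotL
      fun_prop
  · funext i
    show g ((0 : unitInterval) : ℝ) i.val = vtx (pp η) a b c (ww η) l s (hb k η) θ i.val
    rw [← hA', Set.Icc.coe_zero]
    by_cases h : i.val ≤ k
    · rw [gA 0 _ (by omega)]
    · rw [gR 0 _ (by omega), mul_zero, mul_zero, hfp_rot_zero hONr, g2 η _ (by omega)]
  · funext i
    show g ((1 : unitInterval) : ℝ) i.val =
      vtx (pp η) a b c (ww η) l (fl k s) (hb k η) θ i.val
    obtain ⟨t1, t2⟩ := t_TEN (p := pp η) (ω := ww η) (l := l) hON α (f1 η) (A η) (hA' η)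
    rw [Set.Icc.coe_one]
    by_cases h : i.val ≤ k
    · rw [t1 _ h, gA 1 _ (by omega)]
    · rw [t2 _ (by omega), gR 1 _ (by omega), g2 η k le_rfl, g2 η _ (by omega),
        hfp_rot_pi hσ]
  · intro t
    exact gF t t.2.1 t.2.2

end Pool.Agent.FlatN
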