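import Pool.Agent.FlatN.Defs

/-!
# FLN, module ROT: rotation about a line (helper69, for helper9)
-/

set_option autoImplicit false

namespace Pool.Agent.FlatN

open Real Pool.Agent.Lib_helper54.Flat Pool.Agent.FlatW

namespace ROTaux

theorem rotL_eq (e w c : E3) (φ : ℝ) (x : E3) :
    rotL e w c φ x = (inner ℝ e x : ℝ) • e +
      ((inner ℝ w x : ℝ) * cos φ - (inner ℝ c x : ℝ) * sin φ) • w +
      ((inner ℝ w x : ℝ) * sin φ + (inner ℝ c x : ℝ) * cos φ) • c := by
  unfold rotL
  module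

theorem rotL_add (e w c : E3) (φ : ℝ) (x y : E3) :
    rotL e w c φ (x + y) = rotL e w c φ x + rotL e w c φ y := by
  unfold rotL
  rw [inner_add_right, inner_add_right, inner_add_right]
  module

theorem rotL_smul (e w c : E3) (φ r : ℝ) (x : E3) :
    rotL e w c φ (r • x) = r • rotL e w c φ x := by
  unfold rotL
  rw [inner_smul_right, inner_smul_right, inner_smul_right]
  module

theorem rotL_sub (e w c : E3) (φ : ℝ) (x y : E3) :
    rotL e w c φ (x - y) = rotL e w c φ x - rotL e w c φ y := by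
  unfold rotL
  rw [inner_sub_right, inner_sub_right, inner_sub_right]
  module

theorem rotA_sub (v e w c : E3) (φ : ℝ) (x y : E3) :
    rotA v e w c φ x - rotA v e w c φ y = rotL e w c φ (x - y) := by
  unfold rotA
  rw [rotL_sub, rotL_sub, rotL_sub]
  abel

theorem rotL_inner {e w c : E3} (hON : ON e w c) (φ : ℝ) (x y : E3) :
    (inner ℝ (rotL e w c φ x) (rotL e w c φ y) : ℝ) = inner ℝ x y := by
  rw [rotL_eq, rotL_eq, inner_comb hON]
  conv_rhs => rw [hON.rep x, hON.rep y, inner_comb hON]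
  have h := sin_sq_add_cos_sq φ
  linear_combination ((inner ℝ w x : ℝ) * (inner ℝ w y : ℝ) +
    (inner ℝ c x : ℝ) * (inner ℝ c y : ℝ)) * h

theorem rotL_norm {e w c : E3} (hON : ON e w c) (φ : ℝ) (x : E3) :
    ‖rotL e w c φ x‖ = ‖x‖ := by
  rw [norm_eq_sqrt_real_inner, norm_eq_sqrt_real_inner, rotL_inner hON]

theorem rotA_dist {v e w c : E3} (hON : ON e w c) (φ : ℝ) (x y : E3) :
    dist (rotA v e w c φ x) (rotA v e w c φ y) = dist x y := by
  rw [dist_eq_norm, dist_eq_norm, rotA_sub, rotL_norm hON]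

theorem rotA_seg {v e w c : E3} (φ : ℝ) (p q x : E3)
    (hx : x ∈ segment ℝ (rotA v e w c φ p) (rotA v e w c φ q)) :
    ∃ y ∈ segment ℝ p q, x = rotA v e w c φ y := by
  obtain ⟨a, b, ha, hb, hab, rfl⟩ := hx
  refine ⟨a • p + b • q, ⟨a, b, ha, hb, hab, rfl⟩, ?_⟩
  unfold rotA
  have h1 : a • p + b • q - v = a • (p - v) + b • (q - v) := by
    have : v = (a + b) • v := by rw [hab, one_smul]
    conv_lhs => rw [this]
    module
  rw [h1, rotL_add, rotL_smul, rotL_smul]
  generalize rotL e w c φ (p - v) = P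
  generalize rotL e w c φ (q - v) = Q
  have h3 : a • (v + P) + b • (v + Q) = (a + b) • v + (a • P + b • Q) := by module
  rw [h3, hab, one_smul]

end ROTaux

open ROTaux in
theorem t_ROT {v e w c : E3} (hON : ON e w c) (φ : ℝ) :
    (∀ x y : E3, (inner ℝ (rotL e w c φ x) (rotL e w c φ y) : ℝ) = inner ℝ x y) ∧
    (∀ x y : E3, dist (rotA v e w c φ x) (rotA v e w c φ y) = dist x y) ∧
    (∀ x y z : E3, EuclideanGeometry.angle (rotA v e w c φ x) (rotA v e w c φ y)
      (rotA v e w c φ z) = EuclideanGeometry.angle x y z) ∧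
    (∀ r : ℝ, rotA v e w c φ (v + r • e) = v + r • e) ∧
    (∀ p q x : E3, x ∈ segment ℝ (rotA v e w c φ p) (rotA v e w c φ q) →
      ∃ y ∈ segment ℝ p q, x = rotA v e w c φ y) ∧
    (∀ x : E3, (inner ℝ c (rotA v e w c φ x) : ℝ) =
      inner ℝ c v + sin φ * inner ℝ w (x - v) + cos φ * inner ℝ c (x - v)) ∧
    (∀ x y : E3, rotA v e w c φ x = rotA v e w c φ y → x = y) := by
  refine ⟨rotL_inner hON φ, rotA_dist hON φ, ?_, ?_, rotA_seg φ, ?_, ?_⟩
  · intro x y z
    unfold EuclideanGeometry.angle InnerProductGeometry.angle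
    simp only [vsub_eq_sub, rotA_sub]
    rw [rotL_inner hON, rotL_norm hON, rotL_norm hON]
  · intro r
    have hwe : (inner ℝ w e : ℝ) = 0 := by rw [real_inner_comm]; exact hON.ab
    have hce : (inner ℝ c e : ℝ) = 0 := by rw [real_inner_comm]; exact hON.ac
    unfold rotA rotL
    rw [add_sub_cancel_left, inner_smul_right, inner_smul_right, inner_smul_right, hON.aa, hwe,
      hce]
    simp only [mul_one, mul_zero, zero_smul, add_zero]
  · intro x
    unfold rotA
    rw [inner_add_right, rotL_eq]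
    have h2 := inner_comb hON 0 0 1 (inner ℝ e (x - v) : ℝ)
      ((inner ℝ w (x - v) : ℝ) * cos φ - (inner ℝ c (x - v) : ℝ) * sin φ)
      ((inner ℝ w (x - v) : ℝ) * sin φ + (inner ℝ c (x - v) : ℝ) * cos φ)
    simp only [zero_smul, zero_add, one_smul, zero_mul, one_mul] at h2
    rw [h2]
    ring
  · intro x y h
    have h1 := rotA_dist (v := v) hON φ x y
    rw [h, dist_self] at h1
    exact dist_eq_zero.mp h1.symm

end Pool.Agent.FlatN
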