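import Pool.Agent.FlatN.Defs

/-! SMP: `IsSimple` as `SimpleOn` (module FLN_SMP). -/

set_option autoImplicit false

namespace Pool.Agent.FlatN

open Real Pool.Agent.Lib_helper54.Flat Pool.Agent.FlatW

/-- SMP. Reformulation. -/
theorem t_SMP {n : ℕ} (u : ℕ → E3) :
    IsSimple (fun i : Fin (n + 1) => u i.val) ↔ SimpleOn u 0 n := by
  unfold IsSimple SimpleOn
  simp only [Fin.val_castSucc, Fin.val_succ]
  constructor
  · rintro ⟨h1, h2, h3⟩
    exact ⟨fun i _ hi => h1 ⟨i, hi⟩, fun i j _ hij hj => h2 ⟨i, by omega⟩ ⟨j, hj⟩ hij,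
      fun i _ hi => h3 ⟨i, by omega⟩ ⟨i + 1, hi⟩ rfl⟩
  · rintro ⟨h1, h2, h3⟩
    refine ⟨fun i => h1 i.val (Nat.zero_le _) i.isLt,
      fun i j hij => h2 _ _ (Nat.zero_le _) hij j.isLt, fun i j hij => ?_⟩
    have hj := j.isLt
    have h4 := h3 i.val (Nat.zero_le _) (by omega)
    rw [hij]
    exact h4

end Pool.Agent.FlatN
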