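import Pool.Agent.FlatN.Defs
import Pool.Agent.FlatN.MROT
import Pool.Agent.FlatN.MCLB
import Pool.Agent.FlatN.MSMP
import Pool.Agent.FlatN.MTEN

set_option autoImplicit false

namespace Pool.Agent.FlatN

open Real Pool.Agent.Lib_helper54.Flat Pool.Agent.FlatW

theorem hfp_az_shift (ω : ℝ) (s h θ : ℕ → ℝ) (m : ℕ) :
    az ω s h θ m = ω + az 0 s h θ m := by
  induction m with
  | zero => simp [az]
  | succ m ih => rw [az_succ, az_succ, ih]; ring

theorem hfp_vtx_shift (p a b c : E3) (ω : ℝ) (l s h θ : ℕ → ℝ) (m : ℕ) :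
    vtx p a b c ω l s h θ m = p + vtx 0 a b c ω l s h θ m := by
  induction m with
  | zero => simp [vtx]
  | succ m ih => rw [vtx_succ, vtx_succ, ih]; abel

theorem hfp_az_cont {X : Type} [TopologicalSpace X] {ω : X → ℝ} {s θ : ℕ → ℝ}
    {h : X → ℕ → ℝ} (hω : Continuous ω) (hh : ∀ k, Continuous fun t => h t k)
    (hpos : ∀ t k, 0 ≤ h t k ∧ h t k < π / 2) (k : ℕ) :
    Continuous fun t => az (ω t) s (h t) θ k := by
  have hcos : ∀ t k, cos (h t k) ≠ 0 := fun t k =>
    (cos_pos_of_mem_Ioo ⟨by linarith [pi_pos, (hpos t k).1], (hpos t k).2⟩).ne'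
  induction k with
  | zero => exact hω
  | succ k ih =>
    have : (fun t => az (ω t) s (h t) θ (k + 1)) = fun t => az (ω t) s (h t) θ k +
      s k * arccos ((-cos (θ k) - sin (h t k) * sin (h t (k + 1))) /
        (cos (h t k) * cos (h t (k + 1)))) := rfl
    rw [this]
    refine ih.add (continuous_const.mul (continuous_arccos.comp ?_))
    refine Continuous.div ?_ ?_ ?_
    · exact continuous_const.sub ((continuous_sin.comp (hh k)).mul
        (continuous_sin.comp (hh (k + 1))))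
    · exact (continuous_cos.comp (hh k)).mul (continuous_cos.comp (hh (k + 1)))
    · intro t; exact mul_ne_zero (hcos t k) (hcos t (k + 1))

theorem hfp_hb_zero (k : ℕ) : hb k 0 = fun _ => 0 := by
  funext m
  unfold hb
  split_ifs <;> rfl

/-- clamping to `[0, η0]` -/
noncomputable def hfpcl (η0 x : ℝ) : ℝ := max 0 (min x η0)

theorem hfpcl_cont (η0 : ℝ) : Continuous (hfpcl η0) := by
  unfold hfpcl
  fun_prop

theorem hfpcl_nonneg (η0 x : ℝ) : 0 ≤ hfpcl η0 x := le_max_left _ _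

theorem hfpcl_le {η0 : ℝ} (h0 : 0 ≤ η0) (x : ℝ) : hfpcl η0 x ≤ η0 :=
  max_le h0 (min_le_right _ _)

theorem hfpcl_of {η0 x : ℝ} (h0 : 0 ≤ x) (h1 : x ≤ η0) : hfpcl η0 x = x := by
  unfold hfpcl
  rw [min_eq_left h1, max_eq_right h0]

/-- The family of heads climbing with latitude `x` to the fixed link `k`. -/
theorem hfp_family {k : ℕ} {p a b c : E3} {ω : ℝ} {l s θ : ℕ → ℝ} (α : ℝ)
    (hα : α = az ω s (fun _ => 0) θ k) (v : ℕ → E3)
    (hv : v = vtx p a b c ω l s (fun _ => 0) θ) {η0 : ℝ} (h0 : 0 < η0) (h1 : η0 < π / 2) :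
    ∃ (pp : ℝ → E3) (ww : ℝ → ℝ),
      (∀ x, α = az (ww x) s (hb k x) θ k) ∧
      (∀ x m, k ≤ m → vtx (pp x) a b c (ww x) l s (hb k x) θ m = v m) ∧
      (∀ m, vtx (pp 0) a b c (ww 0) l s (hb k 0) θ m = v m) ∧
      (∀ m, Continuous fun x : ℝ => vtx (pp (hfpcl η0 x)) a b c (ww (hfpcl η0 x)) l s
        (hb k (hfpcl η0 x)) θ m) := by
  obtain ⟨ww, hww⟩ : ∃ ww : ℝ → ℝ, ww = fun x => α - az 0 s (hb k x) θ k := ⟨_, rfl⟩
  obtain ⟨pp, hpp⟩ : ∃ pp : ℝ → E3, pp = fun x => v k - vtx 0 a b c (ww x) l s (hb k x) θ k :=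
    ⟨_, rfl⟩
  have e1 : ∀ x, α = az (ww x) s (hb k x) θ k := by
    intro x
    rw [hfp_az_shift, hww]
    ring
  have e2 : ∀ x, vtx (pp x) a b c (ww x) l s (hb k x) θ k = v k := by
    intro x
    rw [hfp_vtx_shift, hpp]
    exact sub_add_cancel _ _
  have hz : ∀ x m, k ≤ m → hb k x m = 0 := by
    intro x m hm
    unfold hb
    rw [if_neg (by omega)]
  have e3 : ∀ x m, k ≤ m → az (ww x) s (hb k x) θ m = az ω s (fun _ => 0) θ m := by
    intro x m hm
    induction m, hm using Nat.le_induction with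
    | base => rw [← e1 x, hα]
    | succ m hm ih => rw [az_succ, az_succ, ih, hz x m hm, hz x (m + 1) (by omega)]
  have e4 : ∀ x m, k ≤ m → vtx (pp x) a b c (ww x) l s (hb k x) θ m = v m := by
    intro x m hm
    induction m, hm using Nat.le_induction with
    | base => exact e2 x
    | succ m hm ih =>
      rw [vtx_succ, ih, hv, vtx_succ]
      unfold dir
      rw [e3 x m hm, hz x m hm]
  have e5 : ww 0 = ω := by
    rw [hww]
    simp only [hfp_hb_zero]
    rw [hα, hfp_az_shift ω]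
    ring
  have e6 : pp 0 = p := by
    rw [hpp]
    simp only [hfp_hb_zero]
    rw [e5, hv, hfp_vtx_shift p]
    abel
  refine ⟨pp, ww, e1, e4, ?_, ?_⟩
  · intro m
    rw [e5, e6, hfp_hb_zero, hv]
  · have hh : ∀ m, Continuous fun x => hb k (hfpcl η0 x) m := by
      intro m
      unfold hb
      by_cases hm : m < k
      · simp only [if_pos hm]; exact hfpcl_cont η0
      · simp only [if_neg hm]; exact continuous_const
    have hpos : ∀ x m, 0 ≤ hb k (hfpcl η0 x) m ∧ hb k (hfpcl η0 x) m < π / 2 := by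
      intro x m
      unfold hb
      split_ifs
      · exact ⟨hfpcl_nonneg _ _, lt_of_le_of_lt (hfpcl_le h0.le x) h1⟩
      · exact ⟨le_rfl, by positivity⟩
    have cw : Continuous fun x => ww (hfpcl η0 x) := by
      rw [hww]
      exact continuous_const.sub (hfp_az_cont continuous_const hh hpos k)
    have cp : Continuous fun x => pp (hfpcl η0 x) := by
      rw [hpp]
      exact continuous_const.sub (continuous_vtx continuous_const continuous_const
        continuous_const continuous_const cw hh hpos k)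
    intro m
    exact continuous_vtx cp continuous_const continuous_const continuous_const cw hh hpos m

theorem hfp_compact {X0 X1 : ℝ → E3} (c0 : Continuous X0) (c1 : Continuous X1)
    (y0 y1 q e w c : E3) (σ η0 : ℝ)
    (hbad : ∀ t u r : ℝ, 0 ≤ t → t ≤ 1 → 0 ≤ u → u ≤ 1 → 0 ≤ r → r ≤ 1 →
      (1 - u) • X0 0 + u • X1 0 = rotA q e w c (σ * (π * t)) ((1 - r) • y0 + r • y1) →
      (0 ≤ σ * (inner ℝ w ((1 - u) • X0 0 + u • X1 0 - q) : ℝ) ∨ t ≤ 1 / 2) → False) :
    ∃ δ : ℝ, 0 < δ ∧ ∀ x t u r : ℝ, 0 ≤ x → x < δ → x ≤ η0 → 0 ≤ t → t ≤ 1 → 0 ≤ u → u ≤ 1 →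
      0 ≤ r → r ≤ 1 →
      (1 - u) • X0 x + u • X1 x = rotA q e w c (σ * (π * t)) ((1 - r) • y0 + r • y1) →
      (0 ≤ σ * (inner ℝ w ((1 - u) • X0 x + u • X1 x - q) : ℝ) ∨ t ≤ 1 / 2) → False := by
  set K : Set (ℝ × ℝ × ℝ × ℝ) :=
    Set.Icc 0 η0 ×ˢ Set.Icc 0 1 ×ˢ Set.Icc 0 1 ×ˢ Set.Icc 0 1 with hK
  set B : Set (ℝ × ℝ × ℝ × ℝ) := {z | (1 - z.2.2.1) • X0 z.1 + z.2.2.1 • X1 z.1 =
    rotA q e w c (σ * (π * z.2.1)) ((1 - z.2.2.2) • y0 + z.2.2.2 • y1)} ∩
    ({z | 0 ≤ σ * (inner ℝ w ((1 - z.2.2.1) • X0 z.1 + z.2.2.1 • X1 z.1 - q) : ℝ)} ∪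
      {z | z.2.1 ≤ 1 / 2}) with hB
  have hKc : IsCompact K := isCompact_Icc.prod (isCompact_Icc.prod
    (isCompact_Icc.prod isCompact_Icc))
  have f1 : Continuous fun z : ℝ × ℝ × ℝ × ℝ => (1 - z.2.2.1) • X0 z.1 + z.2.2.1 • X1 z.1 := by
    fun_prop
  have f2 : Continuous fun z : ℝ × ℝ × ℝ × ℝ =>
      rotA q e w c (σ * (π * z.2.1)) ((1 - z.2.2.2) • y0 + z.2.2.2 • y1) := by
    unfold rotA rotL
    fun_prop
  have hBc : IsClosed B := by
    refine (isClosed_eq f1 f2).inter ((isClosed_le continuous_const ?_).union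
      (isClosed_le (by fun_prop) continuous_const))
    exact continuous_const.mul (continuous_const.inner (f1.sub continuous_const))
  have hKB : IsCompact (K ∩ B) := hKc.inter_right hBc
  obtain ⟨δ, hδ, hδ'⟩ := hKB.exists_forall_le' (f := fun z : ℝ × ℝ × ℝ × ℝ => z.1)
    continuous_fst.continuousOn (a := 0) (by
      rintro ⟨x, t, u, r⟩ ⟨⟨hx, ht, hu, hr⟩, h1, h2⟩
      rcases eq_or_lt_of_le hx.1 with h | h
      · exfalso
        dsimp only at h
        subst h
        exact hbad t u r ht.1 ht.2 hu.1 hu.2 hr.1 hr.2 h1 h2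
      · exact h)
  refine ⟨δ, hδ, ?_⟩
  intro x t u r hx hxδ hx0 ht0 ht1 hu0 hu1 hr0 hr1 h1 h2
  have := hδ' (x, t, u, r) ⟨⟨⟨hx, hx0⟩, ⟨ht0, ht1⟩, ⟨hu0, hu1⟩, ⟨hr0, hr1⟩⟩, h1, h2⟩
  exact absurd hxδ (not_lt.2 this)

theorem hfp_ON {a b c : E3} (h : ON a b c) (α : ℝ) :
    ON (cos α • a + sin α • b) (-sin α • a + cos α • b) c := by
  have e1 : cos α • a + sin α • b = cos α • a + sin α • b + (0 : ℝ) • c := by simp
  have e2 : -sin α • a + cos α • b = (-sin α) • a + cos α • b + (0 : ℝ) • c := by simp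
  have e3 : c = (0 : ℝ) • a + (0 : ℝ) • b + (1 : ℝ) • c := by simp
  have hsc := sin_sq_add_cos_sq α
  refine ⟨?_, ?_, h.cc, ?_, ?_, ?_⟩
  · rw [e1, inner_comb h]; nlinarith
  · rw [e2, inner_comb h]; nlinarith
  · rw [e1, e2, inner_comb h]; ring
  · have := inner_comb h (cos α) (sin α) 0 0 0 1
    rw [← e1, ← e3] at this
    rw [this]; ring
  · have := inner_comb h (-sin α) (cos α) 0 0 0 1
    rw [← e2, ← e3] at this
    rw [this]; ring

theorem hfp_rotL_w {e w c : E3} (hON : ON e w c) (φ : ℝ) (x : E3) :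
    (inner ℝ w (rotL e w c φ x) : ℝ) = cos φ * inner ℝ w x - sin φ * inner ℝ c x := by
  have h1 : rotL e w c φ x = (inner ℝ e x : ℝ) • e +
      ((inner ℝ w x : ℝ) * cos φ - (inner ℝ c x : ℝ) * sin φ) • w +
      ((inner ℝ w x : ℝ) * sin φ + (inner ℝ c x : ℝ) * cos φ) • c := by
    unfold rotL; module
  have h2 : w = (0 : ℝ) • e + (1 : ℝ) • w + (0 : ℝ) • c := by simp
  have := inner_comb hON 0 1 0 (inner ℝ e x : ℝ)
    ((inner ℝ w x : ℝ) * cos φ - (inner ℝ c x : ℝ) * sin φ)
    ((inner ℝ w x : ℝ) * sin φ + (inner ℝ c x : ℝ) * cos φ)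
  rw [← h2, ← h1] at this
  rw [this]; ring

theorem hfp_rot_w {q e w c : E3} (hON : ON e w c) (φ : ℝ) (y : E3) :
    (inner ℝ w (rotA q e w c φ y - q) : ℝ) =
      cos φ * inner ℝ w (y - q) - sin φ * inner ℝ c (y - q) := by
  unfold rotA
  rw [add_sub_cancel_left, hfp_rotL_w hON]

theorem hfp_rot_fix {q e w c : E3} (hON : ON e w c) (φ : ℝ) (y : E3)
    (h1 : (inner ℝ w (y - q) : ℝ) = 0) (h2 : (inner ℝ c (y - q) : ℝ) = 0) :
    rotA q e w c φ y = y := by
  unfold rotA rotL
  have := hON.rep (y - q)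
  rw [h1, h2] at this ⊢
  simp only [zero_smul, add_zero] at this ⊢
  rw [← this]; abel

theorem hfp_rot_zero {q e w c : E3} (hON : ON e w c) (y : E3) : rotA q e w c 0 y = y := by
  unfold rotA rotL
  have := hON.rep (y - q)
  simp only [cos_zero, sin_zero, neg_zero, zero_smul, one_smul, add_zero, zero_add]
  rw [← this]; abel

theorem hfp_rot_pi {q e w c : E3} {σ : ℝ} (hσ : σ = 1 ∨ σ = -1) (y : E3) :
    rotA q e w c (σ * (π * 1)) y = rotA q e w c π y := by
  unfold rotA rotL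
  rcases hσ with h | h
  · rw [h, mul_one, one_mul]
  · rw [h, mul_one, neg_one_mul, cos_neg, sin_neg, sin_pi, neg_zero, neg_zero]

theorem hfp_glue {u : ℕ → E3} {k n : ℕ} (hH : SimpleOn u 0 (k + 1)) (hT : SimpleOn u k n)
    (hX : ∀ i j, i < k → k < j → j < n →
      Disjoint (segment ℝ (u i) (u (i + 1))) (segment ℝ (u j) (u (j + 1)))) :
    SimpleOn u 0 n := by
  refine ⟨?_, ?_, ?_⟩
  · intro i _ hi
    by_cases h : i < k
    · exact hH.1 i (by omega) (by omega)
    · exact hT.1 i (by omega) hi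
  · intro i j _ hij hj
    by_cases h : i < k
    · by_cases h' : j ≤ k
      · exact hH.2.1 i j (by omega) hij (by omega)
      · exact hX i j h (by omega) hj
    · exact hT.2.1 i j (by omega) hij hj
  · intro i _ hi
    by_cases h : i < k
    · exact hH.2.2 i (by omega) (by omega)
    · exact hT.2.2 i (by omega) hi

theorem hfp_simple_sub {u : ℕ → E3} {a b a' b' : ℕ} (h1 : a ≤ a') (h2 : b' ≤ b)
    (hu : SimpleOn u a b) : SimpleOn u a' b' :=
  ⟨fun i h3 h4 => hu.1 i (by omega) (by omega),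
    fun i j h3 h4 h5 => hu.2.1 i j (by omega) h4 (by omega),
    fun i h3 h4 => hu.2.2 i (by omega) (by omega)⟩

theorem hfp_simple_congr {u u' : ℕ → E3} {a b : ℕ} (h : ∀ m, a ≤ m → m ≤ b → u m = u' m)
    (hu : SimpleOn u a b) : SimpleOn u' a b := by
  refine ⟨?_, ?_, ?_⟩
  · intro i h1 h2
    rw [← h i h1 h2.le, ← h (i + 1) (by omega) h2]
    exact hu.1 i h1 h2
  · intro i j h1 h2 h3
    rw [← h i h1 (by omega), ← h (i + 1) (by omega) (by omega), ← h j (by omega) (by omega),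
      ← h (j + 1) (by omega) (by omega)]
    exact hu.2.1 i j h1 h2 h3
  · intro i h1 h2
    rw [← h i h1 (by omega), ← h (i + 1) (by omega) (by omega),
      ← h (i + 2) (by omega) (by omega)]
    exact hu.2.2 i h1 h2

theorem hfp_simple_rot {u : ℕ → E3} {a b : ℕ} {q e w c : E3} (hON : ON e w c) (φ : ℝ)
    (hu : SimpleOn u a b) : SimpleOn (fun m => rotA q e w c φ (u m)) a b := by
  obtain ⟨r1, r2, r3, r4, r5, r6, r7⟩ := t_ROT (v := q) hON φ
  refine ⟨?_, ?_, ?_⟩
  · intro i h1 h2 heq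
    exact hu.1 i h1 h2 (r7 _ _ heq)
  · intro i j h1 h2 h3
    rw [Set.disjoint_left]
    intro x hx hx'
    obtain ⟨y, hy, e1⟩ := r5 _ _ _ hx
    obtain ⟨y', hy', e2⟩ := r5 _ _ _ hx'
    have := r7 _ _ (e1.symm.trans e2)
    exact Set.disjoint_left.1 (hu.2.1 i j h1 h2 h3) hy (this ▸ hy')
  · intro i h1 h2
    rintro x ⟨hx, hx'⟩
    obtain ⟨y, hy, e1⟩ := r5 _ _ _ hx
    obtain ⟨y', hy', e2⟩ := r5 _ _ _ hx'
    have := r7 _ _ (e1.symm.trans e2)
    have h3 := hu.2.2 i h1 h2 ⟨hy, this ▸ hy'⟩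
    rw [Set.mem_singleton_iff] at h3 ⊢
    rw [e1, h3]

theorem hfp_mono {u : ℕ → E3} {c : E3} {k : ℕ}
    (h : ∀ m, m < k → (inner ℝ c (u m) : ℝ) < inner ℝ c (u (m + 1))) :
    ∀ i x, i < k → x ∈ segment ℝ (u i) (u (i + 1)) →
      (inner ℝ c x : ℝ) ≤ inner ℝ c (u k) ∧ ((inner ℝ c x : ℝ) = inner ℝ c (u k) → x = u k) := by
  have hm : ∀ i j, i ≤ j → j ≤ k → (inner ℝ c (u i) : ℝ) ≤ inner ℝ c (u j) := by
    intro i j hij
    induction j, hij using Nat.le_induction with
    | base => intro _; exact le_rfl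
    | succ j hj ih => intro hk; exact (ih (by omega)).trans (h j (by omega)).le
  intro i x hi hx
  rw [segment_eq_image] at hx
  obtain ⟨r, ⟨hr0, hr1⟩, rfl⟩ := hx
  have h1 := h i hi
  have h2 := hm (i + 1) k (by omega) le_rfl
  have h3 : (inner ℝ c ((1 - r) • u i + r • u (i + 1)) : ℝ) =
      (1 - r) * inner ℝ c (u i) + r * inner ℝ c (u (i + 1)) := by
    rw [inner_add_right, inner_smul_right, inner_smul_right]
  dsimp only
  rw [h3]
  constructor
  · nlinarith
  · intro heq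
    have h5 : r = 1 := by
      by_contra hne
      have h6 : 0 < 1 - r := by
        rcases lt_or_eq_of_le hr1 with h | h
        · linarith
        · exact absurd h hne
      have := mul_pos h6 (sub_pos.2 h1)
      nlinarith
    subst h5
    have h6 : i + 1 = k := by
      by_contra hne
      have h7 := h (i + 1) (by omega)
      have h8 := hm (i + 1 + 1) k (by omega) le_rfl
      linarith
    rw [h6]; simp

theorem hfp_good {n k : ℕ} {θ : ℕ → ℝ} {η0 x : ℝ} (hk1 : 1 ≤ k) (h1 : η0 < π / 2)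
    (h2 : ∀ j, j + 2 ≤ n → η0 + η0 ≤ θ j) (h3 : η0 ≤ π - θ (k - 1)) (hle : ∀ j, θ j ≤ π)
    (hx : 0 ≤ x) (hx' : x ≤ η0) : Good n θ (hb k x) := by
  refine ⟨?_, ?_, ?_, ?_⟩
  · intro m
    unfold hb
    split_ifs
    · exact hx
    · exact le_rfl
  · intro m
    unfold hb
    split_ifs
    · linarith
    · positivity
  · intro m hm
    have := h2 m hm
    unfold hb
    split_ifs <;> linarith
  · intro m hm
    have h4 := hle m
    unfold hb
    split_ifs with g1 g2 g2
    · rw [sub_self, abs_zero]; linarith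
    · have : m = k - 1 := by omega
      rw [sub_zero, abs_of_nonneg hx, this]; linarith
    · omega
    · rw [sub_self, abs_zero]; linarith

theorem t_HFP {n k : ℕ} {P : Fin (n + 1) → E3} {p a b c : E3} {ω : ℝ} {l s θ : ℕ → ℝ}
    (hD : Data P l θ) (hs : ∀ m, s m = 1 ∨ s m = -1) (hON : ON a b c) (hk1 : 1 ≤ k)
    (hk : k + 2 ≤ n) (hpos : ∀ j, j + 2 ≤ n → 0 < θ j) (hπ : θ (k - 1) < π)
    (hP : IsSimple P) (eP : P = chain n p a b c ω l s (fun _ => 0) θ)
    (α : ℝ) (hα : α = az ω s (fun _ => 0) θ k)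
    (v : ℕ → E3) (hv : v = vtx p a b c ω l s (fun _ => 0) θ)
    (σ : ℝ) (hσ : σ = 1 ∨ σ = -1)
    (hcross : ∀ i j x y, i < k → k < j → j < n → x ∈ segment ℝ (v i) (v (i + 1)) →
      y ∈ segment ℝ (v j) (v (j + 1)) →
      x = rotA (v k) (cos α • a + sin α • b) (-sin α • a + cos α • b) c π y →
      σ * (inner ℝ (-sin α • a + cos α • b) (x - v k) : ℝ) < 0) :
    ∃ (η : ℝ) (p' : E3) (ω' : ℝ), 0 < η ∧ Good n θ (hb k η) ∧
      JoinedIn (freeSpace P) P (chain n p' a b c ω' l (fl k s) (hb k η) θ) := by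
  have hONr := hfp_ON hON α
  obtain ⟨ε, hε0, hε1, hε2⟩ := exists_eps θ (n - 1) fun j hj => hpos j (by omega)
  obtain ⟨η0, hη0⟩ : ∃ η0, η0 = min ε (π - θ (k - 1)) := ⟨_, rfl⟩
  have h0 : 0 < η0 := by rw [hη0]; exact lt_min hε0 (by linarith)
  have hle0 : η0 ≤ ε := by rw [hη0]; exact min_le_left _ _
  have h1 : η0 < π / 2 := lt_of_le_of_lt hle0 hε1
  have h2 : ∀ j, j + 2 ≤ n → η0 + η0 ≤ θ j := fun j hj => by
    have := hε2 j (by omega); linarith
  have h3 : η0 ≤ π - θ (k - 1) := by rw [hη0]; exact min_le_right _ _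
  have hG : ∀ x, 0 ≤ x → x ≤ η0 → Good n θ (hb k x) := fun x hx hx' =>
    hfp_good hk1 h1 h2 h3 hD.ang_le hx hx'
  have hG0 : Good n θ (fun _ => 0) := by
    have := hG 0 le_rfl h0.le
    rwa [hfp_hb_zero] at this
  obtain ⟨pp, ww, f1, f2, f3, f4⟩ := hfp_family (a := a) (b := b) (c := c) (l := l) α hα v hv h0 h1
  obtain ⟨A, hA⟩ : ∃ A : ℝ → ℕ → E3, A = fun x m => vtx (pp x) a b c (ww x) l s (hb k x) θ m :=
    ⟨_, rfl⟩
  have hA' : ∀ x, A x = vtx (pp x) a b c (ww x) l s (hb k x) θ := fun x => by rw [hA]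
  have g2 : ∀ x m, k ≤ m → A x m = v m := fun x m hm => by rw [hA]; exact f2 x m hm
  have g3 : ∀ m, A 0 m = v m := fun m => by rw [hA]; exact f3 m
  have g4 : ∀ m, Continuous fun x : ℝ => A (hfpcl η0 x) m := fun m => by rw [hA]; exact f4 m
  clear f2 f3 f4
  -- heights
  have hup : ∀ x, 0 < x → x ≤ η0 → ∀ m, m < k →
      (inner ℝ c (A x m) : ℝ) < inner ℝ c (A x (m + 1)) := by
    intro x hx hx' m hm
    rw [hA', height_succ hON]
    have : hb k x m = x := by unfold hb; rw [if_pos hm]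
    rw [this]
    have := mul_pos (hD.pos m) (sin_pos_of_pos_of_lt_pi hx (by linarith [pi_pos]))
    linarith
  have hflat : ∀ m, (inner ℝ c (v m) : ℝ) = inner ℝ c (v 0) := by
    intro m
    induction m with
    | zero => rfl
    | succ m ih => rw [hv, height_succ hON, ← hv, ih, sin_zero, mul_zero, add_zero]
  have hflat' : ∀ j y, y ∈ segment ℝ (v j) (v (j + 1)) → (inner ℝ c (y - v k) : ℝ) = 0 := by
    rintro j y hy
    rw [segment_eq_image] at hy
    obtain ⟨r, hr, rfl⟩ := hy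
    dsimp only
    rw [inner_sub_right, inner_add_right, inner_smul_right, inner_smul_right, hflat j,
      hflat (j + 1), hflat k]
    ring
  have hdist : ∀ x m, dist (A x m) (A x (m + 1)) = l m := fun x m => by
    rw [hA']; exact dist_vtx hON m (hD.pos m)
  have hdistv : ∀ m, dist (v m) (v (m + 1)) = l m := fun m => by
    rw [hv]; exact dist_vtx hON m (hD.pos m)
  have hsv : SimpleOn v 0 n := by
    rw [← t_SMP, hv]
    rw [eP] at hP
    exact hP
  have hsA : ∀ x, 0 ≤ x → x ≤ η0 → SimpleOn (A x) 0 (k + 1) := by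
    intro x hx hx'
    rcases eq_or_lt_of_le hx with h | h
    · have : A x = v := by funext m; rw [← h]; exact g3 m
      rw [this]
      exact hfp_simple_sub le_rfl (by omega) hsv
    · have hlev : (inner ℝ c (A x k) : ℝ) ≤ inner ℝ c (A x (k + 1)) := by
        rw [g2 x k le_rfl, g2 x (k + 1) (by omega), hflat k, hflat (k + 1)]
      have hmo : ∀ m, m < k + 1 → (inner ℝ c (A x m) : ℝ) ≤ inner ℝ c (A x (m + 1)) := by
        intro m hm
        rcases Nat.lt_succ_iff_lt_or_eq.1 hm with h4 | h4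
        · exact (hup x h hx' m h4).le
        · rw [h4]; exact hlev
      refine t_CLB (c := c) ?_ ?_ ?_
      · intro m _ _
        have := hdist x m
        intro heq
        rw [heq, dist_self] at this
        exact (hD.pos m).ne this
      · intro m _ hm
        exact hmo m hm
      · intro m _ hm
        exact lt_of_lt_of_le (hup x h hx' m (by omega)) (hmo (m + 1) hm)
  -- no bad position in the limit
  have hbad : ∀ i j, i < k → k < j → j < n → ∀ (t : ℝ) (X Y : E3), 0 ≤ t → t ≤ 1 →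
      X ∈ segment ℝ (v i) (v (i + 1)) → Y ∈ segment ℝ (v j) (v (j + 1)) →
      X = rotA (v k) (cos α • a + sin α • b) (-sin α • a + cos α • b) c (σ * (π * t)) Y →
      (0 ≤ σ * (inner ℝ (-sin α • a + cos α • b) (X - v k) : ℝ) ∨ t ≤ 1 / 2) → False := by
    intro i j hi hj hj' t X Y ht0 ht1 hX hY he hor
    rcases eq_or_lt_of_le ht1 with h4 | h4
    · subst h4
      rw [hfp_rot_pi hσ] at he
      have := hcross i j X Y hi hj hj' hX hY he
      rcases hor with h5 | h5
      · linarith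
      · norm_num at h5
    · have hXY : X = Y := by
        rcases eq_or_lt_of_le ht0 with h5 | h5
        · rw [← h5, mul_zero, mul_zero, hfp_rot_zero hONr] at he
          exact he
        · have r6 := (t_ROT (v := v k) hONr (σ * (π * t))).2.2.2.2.2.1 Y
          have hcY := hflat' j Y hY
          have hcX := hflat' i X hX
          rw [← he, hcY, mul_zero, add_zero] at r6
          rw [inner_sub_right] at hcX
          have hs0 : sin (σ * (π * t)) ≠ 0 := by
            have hst : 0 < sin (π * t) := sin_pos_of_pos_of_lt_pi (by positivity)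
              (by nlinarith [pi_pos])
            rcases hσ with h | h
            · rw [h, one_mul]; exact hst.ne'
            · rw [h, neg_one_mul, sin_neg]; linarith
          have hw0 : (inner ℝ (-sin α • a + cos α • b) (Y - v k) : ℝ) = 0 := by
            have : sin (σ * (π * t)) *
                (inner ℝ (-sin α • a + cos α • b) (Y - v k) : ℝ) = 0 := by linarith
            exact (mul_eq_zero.1 this).resolve_left hs0
          rw [hfp_rot_fix hONr _ _ hw0 hcY] at he
          exact he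
      subst hXY
      exact Set.disjoint_left.1 (hsv.2.1 i j (by omega) (by omega) hj') hX hY
  -- the pairs of links before and after link k
  have hev : ∀ᶠ η in nhdsWithin (0 : ℝ) (Set.Ioi 0), ∀ i ∈ Finset.range k,
      ∀ j ∈ Finset.range n, k < j → ∀ (x t : ℝ) (X Y : E3), 0 ≤ x → x ≤ η → x ≤ η0 → 0 ≤ t →
      t ≤ 1 → X ∈ segment ℝ (A x i) (A x (i + 1)) → Y ∈ segment ℝ (v j) (v (j + 1)) →
      X = rotA (v k) (cos α • a + sin α • b) (-sin α • a + cos α • b) c (σ * (π * t)) Y →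
      (0 ≤ σ * (inner ℝ (-sin α • a + cos α • b) (X - v k) : ℝ) ∨ t ≤ 1 / 2) → False := by
    refine (Filter.eventually_all_finset (Finset.range k)).2 fun i hi =>
      (Filter.eventually_all_finset (Finset.range n)).2 fun j hj => ?_
    rw [Finset.mem_range] at hi hj
    by_cases hkj : k < j
    · have hcl0 : hfpcl η0 0 = 0 := hfpcl_of le_rfl h0.le
      obtain ⟨δ, hδ, hδ'⟩ := hfp_compact (g4 i) (g4 (i + 1)) (v j) (v (j + 1)) (v k)
        (cos α • a + sin α • b) (-sin α • a + cos α • b) c σ η0 (by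
          intro t u r ht0 ht1 hu0 hu1 hr0 hr1 he hor
          rw [hcl0, g3, g3] at he hor
          refine hbad i j hi hkj hj t _ _ ht0 ht1 ?_ ?_ he hor
          · rw [segment_eq_image]; exact ⟨u, ⟨hu0, hu1⟩, rfl⟩
          · rw [segment_eq_image]; exact ⟨r, ⟨hr0, hr1⟩, rfl⟩)
      filter_upwards [Ioo_mem_nhdsGT hδ] with η hη
      intro _ x t X Y hx hxη hx0 ht0 ht1 hX hY he hor
      rw [segment_eq_image] at hX hY
      obtain ⟨u, ⟨hu0, hu1⟩, hu⟩ := hX
      obtain ⟨r, ⟨hr0, hr1⟩, hr⟩ := hY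
      dsimp only at hu hr
      rw [← hu, ← hr] at he
      rw [← hu] at hor
      refine hδ' x t u r hx (lt_of_le_of_lt hxη hη.2) hx0 ht0 ht1 hu0 hu1 hr0 hr1 ?_ ?_
      · rw [hfpcl_of hx hx0]; exact he
      · rw [hfpcl_of hx hx0]; exact hor
    · exact Filter.Eventually.of_forall fun η h => absurd h hkj
  obtain ⟨η, hηe, hη⟩ := (hev.and (Ioo_mem_nhdsGT h0)).exists
  have hηpos : 0 < η := hη.1
  have hηle : η ≤ η0 := hη.2.le
  clear hev
  have hcr : ∀ i j, i < k → k < j → j < n → ∀ (t : ℝ) (X Y : E3), 0 ≤ t → t ≤ 1 →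
      X ∈ segment ℝ (A (t * η) i) (A (t * η) (i + 1)) → Y ∈ segment ℝ (v j) (v (j + 1)) →
      X ≠ rotA (v k) (cos α • a + sin α • b) (-sin α • a + cos α • b) c (σ * (π * t)) Y := by
    intro i j hi hj hj' t X Y ht0 ht1 hX hY he
    have hx0 : 0 ≤ t * η := mul_nonneg ht0 hηpos.le
    have hx1 : t * η ≤ η := mul_le_of_le_one_left hηpos.le ht1
    have h4 := hηe i (Finset.mem_range.2 hi) j (Finset.mem_range.2 hj') hj (t * η) t X Y hx0 hx1
      (hx1.trans hηle) ht0 ht1 hX hY he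
    rw [imp_false, not_or, not_le, not_le] at h4
    obtain ⟨h5, h6⟩ := h4
    have hx2 : 0 < t * η := mul_pos (by linarith) hηpos
    have hcY := hflat' j Y hY
    have e1 := hfp_rot_w (q := v k) hONr (σ * (π * t)) Y
    rw [← he, hcY, mul_zero, sub_zero] at e1
    have r6 := (t_ROT (v := v k) hONr (σ * (π * t))).2.2.2.2.2.1 Y
    rw [← he, hcY, mul_zero, add_zero] at r6
    have hcs : cos (σ * (π * t)) = cos (π * t) := by
      rcases hσ with h | h
      · rw [h, one_mul]
      · rw [h, neg_one_mul, cos_neg]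
    have hsn : sin (σ * (π * t)) = σ * sin (π * t) := by
      rcases hσ with h | h
      · rw [h, one_mul, one_mul]
      · rw [h, neg_one_mul, sin_neg, neg_one_mul]
    have hcneg : cos (π * t) < 0 := by
      apply cos_neg_of_pi_div_two_lt_of_lt
      · nlinarith [pi_pos]
      · nlinarith [pi_pos]
    have hsnn : 0 ≤ sin (π * t) := sin_nonneg_of_nonneg_of_le_pi (by positivity)
      (by nlinarith [pi_pos])
    rw [hcs] at e1
    rw [hsn] at r6
    rw [e1] at h5
    have h7 : 0 < σ * (inner ℝ (-sin α • a + cos α • b) (Y - v k) : ℝ) := by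
      by_contra hc
      push Not at hc
      have := mul_nonneg_of_nonpos_of_nonpos hcneg.le hc
      linarith
    have h8 := mul_nonneg hsnn h7.le
    have h9 := hfp_mono (hup (t * η) hx2 (hx1.trans hηle)) i X hi hX
    rw [g2 (t * η) k le_rfl] at h9
    have h10 : X = v k := h9.2 (le_antisymm h9.1 (by linarith))
    rw [h10, sub_self, inner_zero_right] at e1
    rw [← e1, mul_zero] at h5
    exact lt_irrefl _ h5
  -- the path
  obtain ⟨g, hg⟩ : ∃ g : ℝ → ℕ → E3, g = fun t m => if m ≤ k then A (t * η) m else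
    rotA (v k) (cos α • a + sin α • b) (-sin α • a + cos α • b) c (σ * (π * t)) (v m) :=
    ⟨_, rfl⟩
  have hfixk : ∀ t : ℝ, rotA (v k) (cos α • a + sin α • b) (-sin α • a + cos α • b) c
      (σ * (π * t)) (v k) = v k := fun t =>
    hfp_rot_fix hONr _ _ (by rw [sub_self, inner_zero_right]) (by rw [sub_self, inner_zero_right])
  have hek : v (k + 1) - v k = l k • (cos α • a + sin α • b) := by
    rw [hv, vtx_succ, add_sub_cancel_left]
    unfold dir
    rw [← hα]
    simp
  have hfixk1 : ∀ t : ℝ, rotA (v k) (cos α • a + sin α • b) (-sin α • a + cos α • b) c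
      (σ * (π * t)) (v (k + 1)) = v (k + 1) := fun t => by
    refine hfp_rot_fix hONr _ _ ?_ ?_
    · rw [hek, inner_smul_right, real_inner_comm, hONr.ab, mul_zero]
    · rw [hek, inner_smul_right, real_inner_comm, hONr.ac, mul_zero]
  have gA : ∀ (t : ℝ) m, m ≤ k + 1 → g t m = A (t * η) m := by
    intro t m hm
    rw [hg]
    dsimp only
    split_ifs with h
    · rfl
    · have : m = k + 1 := by omega
      rw [this, hfixk1, g2 _ _ (by omega)]
  have gR : ∀ (t : ℝ) m, k ≤ m → g t m = rotA (v k) (cos α • a + sin α • b)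
      (-sin α • a + cos α • b) c (σ * (π * t)) (v m) := by
    intro t m hm
    rw [hg]
    dsimp only
    split_ifs with h
    · have : m = k := by omega
      rw [this, hfixk, g2 _ _ le_rfl]
    · rfl
  have hxt : ∀ t : ℝ, 0 ≤ t → t ≤ 1 → 0 ≤ t * η ∧ t * η ≤ η0 := fun t ht0 ht1 =>
    ⟨mul_nonneg ht0 hηpos.le, (mul_le_of_le_one_left hηpos.le ht1).trans hηle⟩
  have gS : ∀ t : ℝ, 0 ≤ t → t ≤ 1 → SimpleOn (g t) 0 n := by
    intro t ht0 ht1
    obtain ⟨hx0, hx1⟩ := hxt t ht0 ht1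
    refine hfp_glue (k := k) ?_ ?_ ?_
    · exact hfp_simple_congr (fun m _ hm => (gA t m hm).symm) (hsA _ hx0 hx1)
    · exact hfp_simple_congr (fun m hm _ => (gR t m hm).symm)
        (hfp_simple_rot hONr _ (hfp_simple_sub (Nat.zero_le k) le_rfl hsv))
    · intro i j hi hj hj'
      rw [gA t i (by omega), gA t (i + 1) (by omega), gR t j (by omega),
        gR t (j + 1) (by omega), Set.disjoint_left]
      intro x hx hx'
      obtain ⟨y, hy, he⟩ := (t_ROT (v := v k) hONr (σ * (π * t))).2.2.2.2.1 _ _ _ hx'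
      exact hcr i j hi hj hj' t x y ht0 ht1 hx hy he
  have gF : ∀ t : ℝ, 0 ≤ t → t ≤ 1 → (fun i : Fin (n + 1) => g t i.val) ∈ freeSpace P := by
    intro t ht0 ht1
    obtain ⟨hx0, hx1⟩ := hxt t ht0 ht1
    have hG1 := hG _ hx0 hx1
    refine ⟨(t_SMP (g t)).2 (gS t ht0 ht1), ?_, ?_⟩
    · intro i
      rw [hD.len i]
      show dist (g t i.val) (g t (i.val + 1)) = l i.val
      by_cases h : i.val < k
      · rw [gA t _ (by omega), gA t _ (by omega), hdist]
      · rw [gR t _ (by omega), gR t _ (by omega), (t_ROT (v := v k) hONr _).2.1, hdistv]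
    · intro i j hij
      rw [hD.ang i j hij]
      have hj : j.succ.val = i.val + 2 := by simp [hij]
      show EuclideanGeometry.angle (g t i.val) (g t (i.val + 1)) (g t j.succ.val) = θ i.val
      rw [hj]
      have hi2 : i.val + 2 ≤ n := by have := j.isLt; omega
      by_cases h : i.val < k
      · rw [gA t _ (by omega), gA t _ (by omega), gA t _ (by omega), hA']
        exact angle_vtx hON i.val (hD.pos _) (hD.pos _) (hs _) (hG1.nonneg _) (hG1.lt _)
          (hG1.nonneg _) (hG1.lt _) (hD.ang_nonneg _) (hD.ang_le _) (hG1.sum _ hi2)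
          (hG1.diff _ hi2)
      · rw [gR t _ (by omega), gR t _ (by omega), gR t _ (by omega),
          (t_ROT (v := v k) hONr _).2.2.1, hv]
        exact angle_vtx hON i.val (hD.pos _) (hD.pos _) (hs _) (hG0.nonneg i.val)
          (hG0.lt i.val) (hG0.nonneg (i.val + 1)) (hG0.lt (i.val + 1)) (hD.ang_nonneg _) (hD.ang_le _) (hG0.sum _ hi2)
          (hG0.diff _ hi2)
  refine ⟨η, pp η, ww η, hηpos, hG η hηpos.le hηle, ?_⟩
  refine ⟨⟨⟨fun t : unitInterval => fun i : Fin (n + 1) => g t i.val, ?_⟩, ?_, ?_⟩, ?_⟩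
  · rw [continuous_pi_iff]
    intro i
    by_cases h : i.val ≤ k
    · have : (fun t : unitInterval => g t i.val) =
          fun t : unitInterval => A (hfpcl η0 ((t : ℝ) * η)) i.val := by
        funext t
        obtain ⟨hx0, hx1⟩ := hxt t t.2.1 t.2.2
        rw [gA t _ (by omega), hfpcl_of hx0 hx1]
      rw [this]
      exact (g4 i.val).comp (continuous_subtype_val.mul continuous_const)
    · have : (fun t : unitInterval => g t i.val) = fun t : unitInterval =>
          rotA (v k) (cos α • a + sin α • b) (-sin α • a + cos α • b) c (σ * (π * t))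
            (v i.val) := by
        funext t
        exact gR t _ (by omega)
      rw [this]
      unfold rotA rotL
      fun_prop
  · rw [eP]
    funext i
    show g ((0 : unitInterval) : ℝ) i.val = vtx p a b c ω l s (fun _ => 0) θ i.val
    rw [← hv, Set.Icc.coe_zero]
    by_cases h : i.val ≤ k
    · rw [gA 0 _ (by omega), zero_mul, g3]
    · rw [gR 0 _ (by omega), mul_zero, mul_zero, hfp_rot_zero hONr]
  · funext i
    show g ((1 : unitInterval) : ℝ) i.val =
      vtx (pp η) a b c (ww η) l (fl k s) (hb k η) θ i.val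
    obtain ⟨t1, t2⟩ := t_TEN (p := pp η) (ω := ww η) (l := l) hON α (f1 η) (A η) (hA' η)
    rw [Set.Icc.coe_one]
    by_cases h : i.val ≤ k
    · rw [t1 _ h, gA 1 _ (by omega), one_mul]
    · rw [t2 _ (by omega), gR 1 _ (by omega), g2 η k le_rfl, g2 η _ (by omega),
        hfp_rot_pi hσ]
  · intro t
    exact gF t t.2.1 t.2.2

end Pool.Agent.FlatN
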