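import Pool.Agent.FlatN.MHFL
import Pool.Agent.FlatN.MHFP

/-! EHH: half flip of the flat head of a climbing chain (module FLN_EHH). -/

set_option autoImplicit false

namespace Pool.Agent.FlatN

open Real Pool.Agent.Lib_helper54.Flat Pool.Agent.FlatW

theorem ehh_ha_zero (k : ℕ) : ha k 0 = fun _ => 0 := by
  funext m
  unfold ha
  split_ifs <;> rfl

theorem ehh_good {n k : ℕ} {θ : ℕ → ℝ} {η0 x : ℝ} (h1 : η0 < π / 2)
    (h2 : ∀ j, j + 2 ≤ n → η0 + η0 ≤ θ j) (h3 : η0 ≤ π - θ k) (hle : ∀ j, θ j ≤ π)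
    (hx : 0 ≤ x) (hx' : x ≤ η0) : Good n θ (ha k x) := by
  refine ⟨?_, ?_, ?_, ?_⟩
  · intro m
    unfold ha
    split_ifs
    · exact le_rfl
    · exact hx
  · intro m
    unfold ha
    split_ifs
    · positivity
    · linarith
  · intro m hm
    have := h2 m hm
    unfold ha
    split_ifs <;> linarith
  · intro m hm
    have h4 := hle m
    unfold ha
    split_ifs with g1 g2 g2
    · rw [sub_self, abs_zero]; linarith
    · have : m = k := by omega
      rw [zero_sub, abs_neg, abs_of_nonneg hx, this]; linarith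
    · omega
    · rw [sub_self, abs_zero]; linarith

/-- The chains climbing with latitude `x` after the link `k`. -/
theorem ehh_family {k : ℕ} {p a b c : E3} {ω : ℝ} {l s θ : ℕ → ℝ} (v : ℕ → E3)
    (hv : v = vtx p a b c ω l s (fun _ => 0) θ) {η0 : ℝ} (h0 : 0 < η0) (h1 : η0 < π / 2) :
    (∀ x m, m ≤ k → az ω s (ha k x) θ m = az ω s (fun _ => 0) θ m) ∧
    (∀ x m, m ≤ k + 1 → vtx p a b c ω l s (ha k x) θ m = v m) ∧
    (∀ m, vtx p a b c ω l s (ha k 0) θ m = v m) ∧
    (∀ m, Continuous fun x : ℝ => vtx p a b c ω l s (ha k (hfpcl η0 x)) θ m) := by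
  have hz : ∀ x m, m ≤ k → ha k x m = 0 := by
    intro x m hm
    unfold ha
    rw [if_pos hm]
  have e3 : ∀ x m, m ≤ k → az ω s (ha k x) θ m = az ω s (fun _ => 0) θ m := by
    intro x m
    induction m with
    | zero => intro _; rfl
    | succ m ih =>
      intro hm
      rw [az_succ, az_succ, ih (by omega), hz x m (by omega), hz x (m + 1) hm]
  have e4 : ∀ x m, m ≤ k + 1 → vtx p a b c ω l s (ha k x) θ m = v m := by
    intro x m
    induction m with
    | zero => intro _; rw [hv]; rfl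
    | succ m ih =>
      intro hm
      rw [vtx_succ, ih (by omega), hv, vtx_succ]
      unfold dir
      rw [e3 x m (by omega), hz x m (by omega)]
  refine ⟨e3, e4, ?_, ?_⟩
  · intro m
    rw [ehh_ha_zero, hv]
  · have hh : ∀ m, Continuous fun x => ha k (hfpcl η0 x) m := by
      intro m
      unfold ha
      by_cases hm : m ≤ k
      · simp only [if_pos hm]; exact continuous_const
      · simp only [if_neg hm]; exact hfpcl_cont η0
    have hpos : ∀ x m, 0 ≤ ha k (hfpcl η0 x) m ∧ ha k (hfpcl η0 x) m < π / 2 := by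
      intro x m
      unfold ha
      split_ifs
      · exact ⟨le_rfl, by positivity⟩
      · exact ⟨hfpcl_nonneg _ _, lt_of_le_of_lt (hfpcl_le h0.le x) h1⟩
    intro m
    exact continuous_vtx continuous_const continuous_const continuous_const continuous_const
      continuous_const hh hpos m

theorem ehh_compact {X0 X1 : ℝ → E3} (c0 : Continuous X0) (c1 : Continuous X1)
    (y0 y1 q e w c : E3) (σ τ η0 : ℝ)
    (hbad : ∀ t u r : ℝ, 0 ≤ t → t ≤ 1 → 0 ≤ u → u ≤ 1 → 0 ≤ r → r ≤ 1 →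
      (1 - u) • X0 0 + u • X1 0 = rotA q e w c (τ * (π * t)) ((1 - r) • y0 + r • y1) →
      σ * (inner ℝ w ((1 - r) • y0 + r • y1 - q) : ℝ) ≤ 0 → False) :
    ∃ δ : ℝ, 0 < δ ∧ ∀ x t u r : ℝ, 0 ≤ x → x < δ → x ≤ η0 → 0 ≤ t → t ≤ 1 → 0 ≤ u → u ≤ 1 →
      0 ≤ r → r ≤ 1 →
      (1 - u) • X0 x + u • X1 x = rotA q e w c (τ * (π * t)) ((1 - r) • y0 + r • y1) →
      σ * (inner ℝ w ((1 - r) • y0 + r • y1 - q) : ℝ) ≤ 0 → False := by
  set K : Set (ℝ × ℝ × ℝ × ℝ) :=
    Set.Icc 0 η0 ×ˢ Set.Icc 0 1 ×ˢ Set.Icc 0 1 ×ˢ Set.Icc 0 1 with hK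
  set B : Set (ℝ × ℝ × ℝ × ℝ) := {z | (1 - z.2.2.1) • X0 z.1 + z.2.2.1 • X1 z.1 =
    rotA q e w c (τ * (π * z.2.1)) ((1 - z.2.2.2) • y0 + z.2.2.2 • y1)} ∩
    {z | σ * (inner ℝ w ((1 - z.2.2.2) • y0 + z.2.2.2 • y1 - q) : ℝ) ≤ 0} with hB
  have hKc : IsCompact K := isCompact_Icc.prod (isCompact_Icc.prod
    (isCompact_Icc.prod isCompact_Icc))
  have f1 : Continuous fun z : ℝ × ℝ × ℝ × ℝ => (1 - z.2.2.1) • X0 z.1 + z.2.2.1 • X1 z.1 := by
    fun_prop
  have f2 : Continuous fun z : ℝ × ℝ × ℝ × ℝ =>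
      rotA q e w c (τ * (π * z.2.1)) ((1 - z.2.2.2) • y0 + z.2.2.2 • y1) := by
    unfold rotA rotL
    fun_prop
  have f3 : Continuous fun z : ℝ × ℝ × ℝ × ℝ => (1 - z.2.2.2) • y0 + z.2.2.2 • y1 := by
    fun_prop
  have hBc : IsClosed B := by
    refine (isClosed_eq f1 f2).inter (isClosed_le ?_ continuous_const)
    exact continuous_const.mul (continuous_const.inner (f3.sub continuous_const))
  have hKB : IsCompact (K ∩ B) := hKc.inter_right hBc
  obtain ⟨δ, hδ, hδ'⟩ := hKB.exists_forall_le' (f := fun z : ℝ × ℝ × ℝ × ℝ => z.1)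
    continuous_fst.continuousOn (a := 0) (by
      rintro ⟨x, t, u, r⟩ ⟨⟨hx, ht, hu, hr⟩, h1, h2⟩
      rcases eq_or_lt_of_le hx.1 with h | h
      · exfalso
        dsimp only at h
        subst h
        exact hbad t u r ht.1 ht.2 hu.1 hu.2 hr.1 hr.2 h1 h2
      · exact h)
  refine ⟨δ, hδ, ?_⟩
  intro x t u r hx hxδ hx0 ht0 ht1 hu0 hu1 hr0 hr1 h1 h2
  have := hδ' (x, t, u, r) ⟨⟨⟨hx, hx0⟩, ⟨ht0, ht1⟩, ⟨hu0, hu1⟩, ⟨hr0, hr1⟩⟩, h1, h2⟩
  exact absurd hxδ (not_lt.2 this)

theorem ehh_low {u : ℕ → E3} {c : E3} {k : ℕ}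
    (h : ∀ m, k < m → (inner ℝ c (u m) : ℝ) < inner ℝ c (u (m + 1))) :
    ∀ j x, k < j → x ∈ segment ℝ (u j) (u (j + 1)) →
      (inner ℝ c (u (k + 1)) : ℝ) ≤ inner ℝ c x ∧
        ((inner ℝ c x : ℝ) = inner ℝ c (u (k + 1)) → x = u (k + 1)) := by
  intro j x hj hx
  obtain ⟨β, γ, hβ, hγ, hβγ, rfl⟩ := hx
  have b1 : (inner ℝ c (u (k + 1)) : ℝ) ≤ inner ℝ c (u j) := by
    have : ∀ m, k + 1 ≤ m → (inner ℝ c (u (k + 1)) : ℝ) ≤ inner ℝ c (u m) := by
      intro m hm
      induction m, hm using Nat.le_induction with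
      | base => exact le_rfl
      | succ m hm ih => exact ih.trans (h m (by omega)).le
    exact this j (by omega)
  have b2 := h j hj
  have e : β = 1 - γ := by linarith
  have b3 : (inner ℝ c (β • u j + γ • u (j + 1)) : ℝ) = inner ℝ c (u j) +
      γ * ((inner ℝ c (u (j + 1)) : ℝ) - inner ℝ c (u j)) := by
    rw [inner_add_right, inner_smul_right, inner_smul_right, e]
    ring
  have b4 := mul_nonneg hγ (sub_pos.2 b2).le
  refine ⟨by linarith, ?_⟩
  intro h2
  have b5 : γ = 0 := by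
    by_contra hne
    have := mul_pos (lt_of_le_of_ne hγ (Ne.symm hne)) (sub_pos.2 b2)
    linarith
  have b6 : j = k + 1 := by
    by_contra hne
    have : ∀ m, k + 2 ≤ m → (inner ℝ c (u (k + 1)) : ℝ) < inner ℝ c (u m) := by
      intro m hm
      induction m, hm using Nat.le_induction with
      | base => exact h (k + 1) (by omega)
      | succ m hm ih => exact ih.trans (h m (by omega))
    have := this j (by omega)
    linarith
  rw [e, b5, b6]
  simp

theorem t_EHH {n k : ℕ} {P : Fin (n + 1) → E3} {p a b c : E3} {ω : ℝ} {l s θ : ℕ → ℝ}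
    (hD : Data P l θ) (hs : ∀ m, s m = 1 ∨ s m = -1) (hON : ON a b c) (hk1 : 1 ≤ k)
    (hk : k + 2 ≤ n) (hpos : ∀ j, j + 2 ≤ n → 0 < θ j) (hπ : θ k < π)
    (α : ℝ) (hα : α = az ω s (fun _ => 0) θ k)
    (v : ℕ → E3) (hv : v = vtx p a b c ω l s (fun _ => 0) θ) (hH : SimpleOn v 0 (k + 1))
    (σ : ℝ) (hσ : σ = 1 ∨ σ = -1)
    (hcross : ∀ i j x y, i < k → k < j → j < n →
      (σ * (inner ℝ (-sin α • a + cos α • b) (v i - v k) : ℝ) < 0 ∨
        σ * (inner ℝ (-sin α • a + cos α • b) (v (i + 1) - v k) : ℝ) < 0) →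
      x ∈ segment ℝ (v i) (v (i + 1)) → y ∈ segment ℝ (v j) (v (j + 1)) →
      σ * (inner ℝ (-sin α • a + cos α • b) (x - v k) : ℝ) ≤ 0 →
      y ≠ x ∧ y ≠ rotA (v k) (cos α • a + sin α • b) (-sin α • a + cos α • b) c π x) :
    ∃ (η : ℝ) (p' : E3) (ω' : ℝ), 0 < η ∧ Good n θ (ha k η) ∧
      JoinedIn (freeSpace P) (chain n p a b c ω l s (ha k η) θ)
        (chain n p' a b c ω' l (fr k s) (ha k η) θ) := by
  have hONr := hfp_ON hON α
  obtain ⟨τ, hτd⟩ : ∃ τ : ℝ, τ = -σ := ⟨_, rfl⟩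
  have hτ : τ = 1 ∨ τ = -1 := by
    rcases hσ with h | h
    · right; rw [hτd, h]
    · left; rw [hτd, h, neg_neg]
  obtain ⟨ε, hε0, hε1, hε2⟩ := exists_eps θ (n - 1) fun j hj => hpos j (by omega)
  obtain ⟨η0, hη0⟩ : ∃ η0, η0 = min ε (π - θ k) := ⟨_, rfl⟩
  have h0 : 0 < η0 := by rw [hη0]; exact lt_min hε0 (by linarith)
  have hle0 : η0 ≤ ε := by rw [hη0]; exact min_le_left _ _
  have h1 : η0 < π / 2 := lt_of_le_of_lt hle0 hε1
  have h2 : ∀ j, j + 2 ≤ n → η0 + η0 ≤ θ j := fun j hj => by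
    have := hε2 j (by omega); linarith
  have h3 : η0 ≤ π - θ k := by rw [hη0]; exact min_le_right _ _
  have hG : ∀ x, 0 ≤ x → x ≤ η0 → Good n θ (ha k x) := fun x hx hx' =>
    ehh_good h1 h2 h3 hD.ang_le hx hx'
  have hG0 : Good n θ (fun _ => 0) := by
    have := hG 0 le_rfl h0.le
    rwa [ehh_ha_zero] at this
  obtain ⟨f1, f2, f3, f4⟩ := ehh_family (k := k) (a := a) (b := b) (c := c) (l := l) v hv h0 h1
  obtain ⟨A, hA⟩ : ∃ A : ℝ → ℕ → E3, A = fun x m => vtx p a b c ω l s (ha k x) θ m :=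
    ⟨_, rfl⟩
  have hA' : ∀ x, A x = vtx p a b c ω l s (ha k x) θ := fun x => by rw [hA]
  have g2 : ∀ x m, m ≤ k + 1 → A x m = v m := fun x m hm => by rw [hA]; exact f2 x m hm
  have g3 : ∀ m, A 0 m = v m := fun m => by rw [hA]; exact f3 m
  have g4 : ∀ m, Continuous fun x : ℝ => A (hfpcl η0 x) m := fun m => by rw [hA]; exact f4 m
  clear f2 f3 f4
  -- heights
  have hflat : ∀ m, (inner ℝ c (v m) : ℝ) = inner ℝ c (v 0) := by
    intro m
    induction m with
    | zero => rfl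
    | succ m ih => rw [hv, height_succ hON, ← hv, ih, sin_zero, mul_zero, add_zero]
  have hflat' : ∀ j y, y ∈ segment ℝ (v j) (v (j + 1)) → (inner ℝ c (y - v k) : ℝ) = 0 := by
    rintro j y hy
    rw [segment_eq_image] at hy
    obtain ⟨r, hr, rfl⟩ := hy
    dsimp only
    rw [inner_sub_right, inner_add_right, inner_smul_right, inner_smul_right, hflat j,
      hflat (j + 1), hflat k]
    ring
  have hdist : ∀ x m, dist (A x m) (A x (m + 1)) = l m := fun x m => by
    rw [hA']; exact dist_vtx hON m (hD.pos m)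
  have hdistv : ∀ m, dist (v m) (v (m + 1)) = l m := fun m => by
    rw [hv]; exact dist_vtx hON m (hD.pos m)
  have hsn : ∀ t : ℝ, sin (τ * (π * t)) = -(σ * sin (π * t)) := by
    intro t
    rcases hσ with h | h
    · rw [hτd, h, neg_one_mul, sin_neg, one_mul]
    · rw [hτd, h, neg_neg, one_mul, neg_one_mul, neg_neg]
  have hrotc : ∀ (t : ℝ) (Y : E3), (inner ℝ c (Y - v k) : ℝ) = 0 →
      (inner ℝ c (rotA (v k) (cos α • a + sin α • b) (-sin α • a + cos α • b) c
        (τ * (π * t)) Y) : ℝ) = inner ℝ c (v k) -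
        sin (π * t) * (σ * (inner ℝ (-sin α • a + cos α • b) (Y - v k) : ℝ)) := by
    intro t Y hY
    rw [hfl_height hONr, hY, hsn]
    ring
  have hek : v (k + 1) - v k = l k • (cos α • a + sin α • b) := by
    rw [hv, vtx_succ, add_sub_cancel_left]
    unfold dir
    rw [← hα]
    simp
  have hfixk : ∀ t : ℝ, rotA (v k) (cos α • a + sin α • b) (-sin α • a + cos α • b) c
      (τ * (π * t)) (v k) = v k := fun t => hfl_self _
  have hfixk1 : ∀ t : ℝ, rotA (v k) (cos α • a + sin α • b) (-sin α • a + cos α • b) c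
      (τ * (π * t)) (v (k + 1)) = v (k + 1) := fun t => by
    refine hfp_rot_fix hONr _ _ ?_ ?_
    · rw [hek, inner_smul_right, real_inner_comm, hONr.ab, mul_zero]
    · rw [hek, inner_smul_right, real_inner_comm, hONr.ac, mul_zero]
  -- no bad position in the limit
  have hbad : ∀ i j, i < k → k < j → j < n →
      (σ * (inner ℝ (-sin α • a + cos α • b) (v i - v k) : ℝ) < 0 ∨
        σ * (inner ℝ (-sin α • a + cos α • b) (v (i + 1) - v k) : ℝ) < 0) →
      ∀ (t : ℝ) (X Y : E3), 0 ≤ t → t ≤ 1 →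
      X ∈ segment ℝ (v j) (v (j + 1)) → Y ∈ segment ℝ (v i) (v (i + 1)) →
      X = rotA (v k) (cos α • a + sin α • b) (-sin α • a + cos α • b) c (τ * (π * t)) Y →
      σ * (inner ℝ (-sin α • a + cos α • b) (Y - v k) : ℝ) ≤ 0 → False := by
    intro i j hi hj hj' hneg t X Y ht0 ht1 hX hY he hle
    obtain ⟨n1, n2⟩ := hcross i j Y X hi hj hj' hneg hY hX hle
    rcases eq_or_lt_of_le ht1 with h4 | h4
    · subst h4
      rw [hfp_rot_pi hτ] at he
      exact n2 he
    · rcases eq_or_lt_of_le ht0 with h5 | h5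
      · rw [← h5, mul_zero, mul_zero, hfp_rot_zero hONr] at he
        exact n1 he
      · have hcY := hflat' i Y hY
        have hcX := hflat' j X hX
        rw [inner_sub_right] at hcX
        have r6 := hrotc t Y hcY
        rw [← he] at r6
        have hst : 0 < sin (π * t) := sin_pos_of_pos_of_lt_pi (by positivity)
          (by nlinarith [pi_pos])
        have hw0 : sin (π * t) * (σ * (inner ℝ (-sin α • a + cos α • b) (Y - v k) : ℝ)) = 0 := by
          linarith
        have hw1 := (mul_eq_zero.1 hw0).resolve_left hst.ne'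
        have hσ0 : σ ≠ 0 := by
          rcases hσ with h | h
          · rw [h]; exact one_ne_zero
          · rw [h]; exact neg_ne_zero.2 one_ne_zero
        have hw2 := (mul_eq_zero.1 hw1).resolve_left hσ0
        rw [hfp_rot_fix hONr _ _ hw2 hcY] at he
        exact n1 he
  -- the pairs of links before and after link k
  have hev : ∀ᶠ η in nhdsWithin (0 : ℝ) (Set.Ioi 0), ∀ i ∈ Finset.range k,
      ∀ j ∈ Finset.range n, k < j →
      (σ * (inner ℝ (-sin α • a + cos α • b) (v i - v k) : ℝ) < 0 ∨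
        σ * (inner ℝ (-sin α • a + cos α • b) (v (i + 1) - v k) : ℝ) < 0) →
      ∀ (t : ℝ) (X Y : E3), 0 ≤ η → η ≤ η0 → 0 ≤ t →
      t ≤ 1 → X ∈ segment ℝ (A η j) (A η (j + 1)) → Y ∈ segment ℝ (v i) (v (i + 1)) →
      X = rotA (v k) (cos α • a + sin α • b) (-sin α • a + cos α • b) c (τ * (π * t)) Y →
      σ * (inner ℝ (-sin α • a + cos α • b) (Y - v k) : ℝ) ≤ 0 → False := by
    refine (Filter.eventually_all_finset (Finset.range k)).2 fun i hi =>
      (Filter.eventually_all_finset (Finset.range n)).2 fun j hj => ?_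
    rw [Finset.mem_range] at hi hj
    by_cases hkj : k < j ∧ (σ * (inner ℝ (-sin α • a + cos α • b) (v i - v k) : ℝ) < 0 ∨
        σ * (inner ℝ (-sin α • a + cos α • b) (v (i + 1) - v k) : ℝ) < 0)
    · have hcl0 : hfpcl η0 0 = 0 := hfpcl_of le_rfl h0.le
      obtain ⟨δ, hδ, hδ'⟩ := ehh_compact (g4 j) (g4 (j + 1)) (v i) (v (i + 1)) (v k)
        (cos α • a + sin α • b) (-sin α • a + cos α • b) c σ τ η0 (by
          intro t u r ht0 ht1 hu0 hu1 hr0 hr1 he hor
          rw [hcl0, g3, g3] at he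
          refine hbad i j hi hkj.1 hj hkj.2 t _ _ ht0 ht1 ?_ ?_ he hor
          · rw [segment_eq_image]; exact ⟨u, ⟨hu0, hu1⟩, rfl⟩
          · rw [segment_eq_image]; exact ⟨r, ⟨hr0, hr1⟩, rfl⟩)
      filter_upwards [Ioo_mem_nhdsGT hδ] with η hη
      intro _ _ t X Y hx hx0 ht0 ht1 hX hY he hor
      rw [segment_eq_image] at hX hY
      obtain ⟨u, ⟨hu0, hu1⟩, hu⟩ := hX
      obtain ⟨r, ⟨hr0, hr1⟩, hr⟩ := hY
      dsimp only at hu hr
      rw [← hu, ← hr] at he
      rw [← hr] at hor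
      refine hδ' η t u r hx hη.2 hx0 ht0 ht1 hu0 hu1 hr0 hr1 ?_ hor
      rw [hfpcl_of hx hx0]; exact he
    · exact Filter.Eventually.of_forall fun η h h' => absurd ⟨h, h'⟩ hkj
  obtain ⟨η, hηe, hη⟩ := (hev.and (Ioo_mem_nhdsGT h0)).exists
  have hηpos : 0 < η := hη.1
  have hηle : η ≤ η0 := hη.2.le
  clear hev
  obtain ⟨t0, t1, hT⟩ := hfl_tail (n := n) (k := k) hD.pos hON hηpos (lt_of_le_of_lt hηle h1)
    (A η) (hA' η)
  have hcr : ∀ i j, i < k → k < j → j < n → ∀ (t : ℝ) (X Y : E3), 0 ≤ t → t ≤ 1 →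
      X ∈ segment ℝ (A η j) (A η (j + 1)) → Y ∈ segment ℝ (v i) (v (i + 1)) →
      X ≠ rotA (v k) (cos α • a + sin α • b) (-sin α • a + cos α • b) c (τ * (π * t)) Y := by
    intro i j hi hj hj' t X Y ht0 ht1 hX hY he
    have hcY := hflat' i Y hY
    by_cases hsg : 0 ≤ σ * (inner ℝ (-sin α • a + cos α • b) (Y - v k) : ℝ)
    · have r6 := hrotc t Y hcY
      rw [← he] at r6
      have hsnn : 0 ≤ sin (π * t) := sin_nonneg_of_nonneg_of_le_pi (by positivity)
        (by nlinarith [pi_pos])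
      have h8 := mul_nonneg hsnn hsg
      obtain ⟨l1, l2⟩ := ehh_low t1 j X hj hX
      have h9 : (inner ℝ c (A η (k + 1)) : ℝ) = inner ℝ c (v k) := by
        rw [g2 η (k + 1) le_rfl, hflat (k + 1), hflat k]
      have h10 : X = A η (k + 1) := l2 (le_antisymm (by linarith) l1)
      rw [g2 η (k + 1) le_rfl] at h10
      have h11 : Y = v (k + 1) := by
        refine hfl_inj hONr _ (he.symm.trans ?_)
        rw [h10, hfixk1]
      rw [h11] at hY
      have h12 := hH.1 k (Nat.zero_le _) (Nat.lt_succ_self k)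
      rcases Nat.lt_or_ge (i + 1) k with h | h
      · exact Set.disjoint_left.1 (hH.2.1 i k (Nat.zero_le _) h (Nat.lt_succ_self k)) hY
          (right_mem_segment ℝ _ _)
      · have hik : k = i + 1 := by omega
        subst hik
        have h13 := hH.2.2 i (Nat.zero_le _) (by omega) ⟨hY, right_mem_segment ℝ _ _⟩
        exact h12 (Set.mem_singleton_iff.1 h13).symm
    · push Not at hsg
      refine hηe i (Finset.mem_range.2 hi) j (Finset.mem_range.2 hj') hj ?_ t X Y hηpos.le hηle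
        ht0 ht1 hX hY he hsg.le
      by_contra hc
      push Not at hc
      obtain ⟨c1, c2⟩ := hc
      obtain ⟨β, γ, hβ, hγ, hβγ, rfl⟩ := hY
      have e0 : β • v i + γ • v (i + 1) - v k = β • (v i - v k) + γ • (v (i + 1) - v k) := by
        have : v k = (β + γ) • v k := by rw [hβγ, one_smul]
        conv_lhs => rw [this]
        module
      rw [e0, inner_add_right, inner_smul_right, inner_smul_right] at hsg
      have b1 := mul_nonneg hβ c1
      have b2 := mul_nonneg hγ c2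
      linarith
  -- the path
  obtain ⟨g, hg⟩ : ∃ g : ℝ → ℕ → E3, g = fun t m => if m ≤ k then
    rotA (v k) (cos α • a + sin α • b) (-sin α • a + cos α • b) c (τ * (π * t)) (v m) else
    A η m := ⟨_, rfl⟩
  have gR : ∀ (t : ℝ) m, m ≤ k + 1 → g t m = rotA (v k) (cos α • a + sin α • b)
      (-sin α • a + cos α • b) c (τ * (π * t)) (v m) := by
    intro t m hm
    rw [hg]
    dsimp only
    split_ifs with h
    · rfl
    · have : m = k + 1 := by omega
      rw [this, hfixk1, g2 _ _ le_rfl]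
  have gA : ∀ (t : ℝ) m, k ≤ m → g t m = A η m := by
    intro t m hm
    rw [hg]
    dsimp only
    split_ifs with h
    · have : m = k := by omega
      rw [this, hfixk, g2 _ _ (by omega)]
    · rfl
  have gS : ∀ t : ℝ, 0 ≤ t → t ≤ 1 → SimpleOn (g t) 0 n := by
    intro t ht0 ht1
    refine hfp_glue (k := k) ?_ ?_ ?_
    · exact hfp_simple_congr (fun m _ hm => (gR t m hm).symm) (hfp_simple_rot hONr _ hH)
    · exact hfp_simple_congr (fun m hm _ => (gA t m hm).symm) hT
    · intro i j hi hj hj'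
      rw [gR t i (by omega), gR t (i + 1) (by omega), gA t j (by omega),
        gA t (j + 1) (by omega), Set.disjoint_left]
      intro x hx hx'
      obtain ⟨y, hy, he⟩ := hfl_seg _ hx
      exact hcr i j hi hj hj' t x y ht0 ht1 hx' hy he
  have hG1 := hG η hηpos.le hηle
  have gF : ∀ t : ℝ, 0 ≤ t → t ≤ 1 → (fun i : Fin (n + 1) => g t i.val) ∈ freeSpace P := by
    intro t ht0 ht1
    refine ⟨(t_SMP (g t)).2 (gS t ht0 ht1), ?_, ?_⟩
    · intro i
      rw [hD.len i]
      show dist (g t i.val) (g t (i.val + 1)) = l i.val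
      by_cases h : i.val < k
      · rw [gR t _ (by omega), gR t _ (by omega), hfl_dist hONr, hdistv]
      · rw [gA t _ (by omega), gA t _ (by omega), hdist]
    · intro i j hij
      rw [hD.ang i j hij]
      have hj : j.succ.val = i.val + 2 := by simp [hij]
      show EuclideanGeometry.angle (g t i.val) (g t (i.val + 1)) (g t j.succ.val) = θ i.val
      rw [hj]
      have hi2 : i.val + 2 ≤ n := by have := j.isLt; omega
      by_cases h : i.val < k
      · rw [gR t _ (by omega), gR t _ (by omega), gR t _ (by omega), hfl_angle hONr, hv]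
        exact angle_vtx hON i.val (hD.pos _) (hD.pos _) (hs _) (hG0.nonneg i.val)
          (hG0.lt i.val) (hG0.nonneg (i.val + 1)) (hG0.lt (i.val + 1)) (hD.ang_nonneg _)
          (hD.ang_le _) (hG0.sum _ hi2) (hG0.diff _ hi2)
      · rw [gA t _ (by omega), gA t _ (by omega), gA t _ (by omega), hA']
        exact angle_vtx hON i.val (hD.pos _) (hD.pos _) (hs _) (hG1.nonneg _) (hG1.lt _)
          (hG1.nonneg _) (hG1.lt _) (hD.ang_nonneg _) (hD.ang_le _) (hG1.sum _ hi2)
          (hG1.diff _ hi2)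
  obtain ⟨p', hp'⟩ : ∃ p', p' = rotA (A η k) (cos α • a + sin α • b)
    (-sin α • a + cos α • b) c π p := ⟨_, rfl⟩
  have hαη : α = az ω s (ha k η) θ k := by rw [f1 η k le_rfl, hα]
  obtain ⟨e1, e2⟩ := t_HEN (l := l) hON α hαη (A η) (hA' η) p' hp'
  refine ⟨η, p', 2 * α - ω, hηpos, hG1, ?_⟩
  refine ⟨⟨⟨fun t : unitInterval => fun i : Fin (n + 1) => g t i.val, ?_⟩, ?_, ?_⟩, ?_⟩
  · rw [continuous_pi_iff]
    intro i
    by_cases h : i.val ≤ k
    · have : (fun t : unitInterval => g t i.val) = fun t : unitInterval =>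
          rotA (v k) (cos α • a + sin α • b) (-sin α • a + cos α • b) c (τ * (π * t))
            (v i.val) := by
        funext t
        exact gR t _ (by omega)
      rw [this]
      unfold rotA rotL
      fun_prop
    · have : (fun t : unitInterval => g t i.val) = fun _ : unitInterval => A η i.val := by
        funext t
        exact gA t _ (by omega)
      rw [this]
      exact continuous_const
  · funext i
    show g ((0 : unitInterval) : ℝ) i.val = vtx p a b c ω l s (ha k η) θ i.val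
    rw [← hA', Set.Icc.coe_zero]
    by_cases h : i.val ≤ k
    · rw [gR 0 _ (by omega), mul_zero, mul_zero, hfp_rot_zero hONr, g2 η _ (by omega)]
    · rw [gA 0 _ (by omega)]
  · funext i
    show g ((1 : unitInterval) : ℝ) i.val =
      vtx p' a b c (2 * α - ω) l (fr k s) (ha k η) θ i.val
    rw [Set.Icc.coe_one]
    by_cases h : i.val ≤ k
    · rw [e1 _ h, gR 1 _ (by omega), g2 η k (by omega), g2 η _ (by omega), hfp_rot_pi hτ]
    · rw [e2 _ (by omega), gA 1 _ (by omega)]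
  · intro t
    exact gF t t.2.1 t.2.2

end Pool.Agent.FlatN
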