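import Pool.Agent.FlatN.Defs

set_option autoImplicit false

namespace Pool.Agent.FlatN

open Real Pool.Agent.Lib_helper54.Flat Pool.Agent.FlatW

theorem hen_rotL_add (e w c : E3) (φ : ℝ) (x y : E3) :
    rotL e w c φ (x + y) = rotL e w c φ x + rotL e w c φ y := by
  unfold rotL
  rw [inner_add_right, inner_add_right, inner_add_right]
  module

theorem hen_rotL_smul (e w c : E3) (φ : ℝ) (r : ℝ) (x : E3) :
    rotL e w c φ (r • x) = r • rotL e w c φ x := by
  unfold rotL
  rw [inner_smul_right, inner_smul_right, inner_smul_right]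
  module

theorem hen_rotL_zero (e w c : E3) (φ : ℝ) : rotL e w c φ 0 = 0 := by
  unfold rotL
  simp

theorem hen_rotA_add (v e w c : E3) (φ : ℝ) (r : ℝ) (x y : E3) :
    rotA v e w c φ (x + r • y) = rotA v e w c φ x + r • rotL e w c φ y := by
  unfold rotA
  have h : x + r • y - v = (x - v) + r • y := by abel
  rw [h, hen_rotL_add, hen_rotL_smul, add_assoc]

theorem hen_rot_dir {a b c : E3} (hON : ON a b c) (α β : ℝ) :
    rotL (cos α • a + sin α • b) (-sin α • a + cos α • b) c π (cos β • a + sin β • b) =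
      cos (2 * α - β) • a + sin (2 * α - β) • b := by
  have ba : (inner ℝ b a : ℝ) = 0 := by rw [real_inner_comm]; exact hON.ab
  have ca : (inner ℝ c a : ℝ) = 0 := by rw [real_inner_comm]; exact hON.ac
  have cb : (inner ℝ c b : ℝ) = 0 := by rw [real_inner_comm]; exact hON.bc
  have h1 : (inner ℝ (cos α • a + sin α • b) (cos β • a + sin β • b) : ℝ) = cos (β - α) := by
    simp only [inner_add_left, inner_add_right, inner_smul_left, inner_smul_right, hON.aa, hON.bb,
      hON.ab, ba, RCLike.conj_to_real]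
    rw [cos_sub]
    ring
  have h2 : (inner ℝ (-sin α • a + cos α • b) (cos β • a + sin β • b) : ℝ) = sin (β - α) := by
    simp only [inner_add_left, inner_add_right, inner_smul_left, inner_smul_right, hON.aa, hON.bb,
      hON.ab, ba, RCLike.conj_to_real]
    rw [sin_sub]
    ring
  have h3 : (inner ℝ c (cos β • a + sin β • b) : ℝ) = 0 := by
    simp only [inner_add_right, inner_smul_right, ca, cb]
    ring
  unfold rotL
  rw [h1, h2, h3, cos_pi, sin_pi]
  have e1 : cos (2 * α - β) = cos α * cos (β - α) + sin α * sin (β - α) := by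
    rw [← cos_sub]
    congr 1
    ring
  have e2 : sin (2 * α - β) = sin α * cos (β - α) - cos α * sin (β - α) := by
    rw [← sin_sub]
    congr 1
    ring
  rw [e1, e2]
  module

theorem hen_az_le {k : ℕ} {ω η α : ℝ} {s θ : ℕ → ℝ} :
    ∀ m, m ≤ k → az (2 * α - ω) (fr k s) (ha k η) θ m = 2 * α - az ω s (ha k η) θ m := by
  intro m
  induction m with
  | zero => intro _; rfl
  | succ m ih =>
    intro hm
    have h1 := ih (by omega)
    rw [az_succ, az_succ, h1]
    have h2 : fr k s m = -s m := by
      unfold fr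
      rw [if_pos (by omega)]
    rw [h2]
    ring

theorem hen_az_ge {k : ℕ} {ω η α : ℝ} {s θ : ℕ → ℝ} (hα : α = az ω s (ha k η) θ k) :
    ∀ m, k ≤ m → az (2 * α - ω) (fr k s) (ha k η) θ m = az ω s (ha k η) θ m := by
  intro m hm
  induction m, hm using Nat.le_induction with
  | base =>
    rw [hen_az_le k le_rfl, ← hα]
    ring
  | succ m hm ih =>
    rw [az_succ, az_succ, ih]
    have h2 : fr k s m = s m := by
      unfold fr
      rw [if_neg (by omega)]
    rw [h2]

theorem hen_dir_le {k : ℕ} {a b c : E3} {ω η α : ℝ} {s θ : ℕ → ℝ} (hON : ON a b c) (m : ℕ)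
    (hm : m ≤ k) : dir a b c (2 * α - ω) (fr k s) (ha k η) θ m =
      rotL (cos α • a + sin α • b) (-sin α • a + cos α • b) c π
        (dir a b c ω s (ha k η) θ m) := by
  have h0 : ha k η m = 0 := by
    unfold ha
    rw [if_pos hm]
  have h1 : dir a b c ω s (ha k η) θ m =
      cos (az ω s (ha k η) θ m) • a + sin (az ω s (ha k η) θ m) • b := by
    unfold dir
    rw [h0]
    simp
  rw [h1, hen_rot_dir hON]
  unfold dir
  rw [h0, hen_az_le m hm]
  simp

/-- HEN. The end of the rotation of the head. -/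
theorem t_HEN {k : ℕ} {p a b c : E3} {ω η : ℝ} {l s θ : ℕ → ℝ} (hON : ON a b c) (α : ℝ)
    (hα : α = az ω s (ha k η) θ k) (v : ℕ → E3) (hv : v = vtx p a b c ω l s (ha k η) θ)
    (p' : E3) (hp' : p' = rotA (v k) (cos α • a + sin α • b) (-sin α • a + cos α • b) c π p) :
    (∀ m, m ≤ k → vtx p' a b c (2 * α - ω) l (fr k s) (ha k η) θ m =
      rotA (v k) (cos α • a + sin α • b) (-sin α • a + cos α • b) c π (v m)) ∧
    (∀ m, k ≤ m → vtx p' a b c (2 * α - ω) l (fr k s) (ha k η) θ m = v m) := by
  have hA : ∀ m, m ≤ k → vtx p' a b c (2 * α - ω) l (fr k s) (ha k η) θ m =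
      rotA (v k) (cos α • a + sin α • b) (-sin α • a + cos α • b) c π (v m) := by
    intro m
    induction m with
    | zero =>
      intro _
      have h0 : v 0 = p := by rw [hv]; rfl
      rw [h0, ← hp']
      rfl
    | succ m ih =>
      intro hm
      have h1 : v (m + 1) = v m + l m • dir a b c ω s (ha k η) θ m := by
        rw [hv]
        rfl
      rw [vtx_succ, ih (by omega), h1, hen_rotA_add, hen_dir_le hON m (by omega)]
  refine ⟨hA, ?_⟩
  intro m hm
  induction m, hm using Nat.le_induction with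
  | base =>
    rw [hA k le_rfl]
    unfold rotA
    rw [sub_self, hen_rotL_zero, add_zero]
  | succ m hm ih =>
    have h1 : v (m + 1) = v m + l m • dir a b c ω s (ha k η) θ m := by
      rw [hv]
      rfl
    rw [vtx_succ, ih, h1]
    congr 2
    unfold dir
    rw [hen_az_ge hα m hm]

end Pool.Agent.FlatN
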