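import Pool.Agent.FlatN.MGLH
import Pool.Agent.FlatN.MHEN
import Pool.Agent.FlatN.MSMP

/-! HFL: the flat head is rotated through the lower half space (module FLN_HFL). -/

set_option autoImplicit false

namespace Pool.Agent.FlatN

open Real Pool.Agent.Lib_helper54.Flat Pool.Agent.FlatW

theorem hfl_ON {a b c : E3} (h : ON a b c) (α : ℝ) :
    ON (cos α • a + sin α • b) (-sin α • a + cos α • b) c := by
  have e1 : cos α • a + sin α • b = cos α • a + sin α • b + (0 : ℝ) • c := by simp
  have e2 : -sin α • a + cos α • b = (-sin α) • a + cos α • b + (0 : ℝ) • c := by simp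
  have e3 : c = (0 : ℝ) • a + (0 : ℝ) • b + (1 : ℝ) • c := by simp
  have hsc := sin_sq_add_cos_sq α
  refine ⟨?_, ?_, h.cc, ?_, ?_, ?_⟩
  · rw [e1, inner_comb h]; nlinarith
  · rw [e2, inner_comb h]; nlinarith
  · rw [e1, e2, inner_comb h]; ring
  · have := inner_comb h (cos α) (sin α) 0 0 0 1
    rw [← e1, ← e3] at this
    rw [this]; ring
  · have := inner_comb h (-sin α) (cos α) 0 0 0 1
    rw [← e2, ← e3] at this
    rw [this]; ring

section

variable {v e w c : E3}

theorem hfl_rotL_eq (φ : ℝ) (x : E3) : rotL e w c φ x = (inner ℝ e x : ℝ) • e +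
    (cos φ * (inner ℝ w x : ℝ) - sin φ * (inner ℝ c x : ℝ)) • w +
    (sin φ * (inner ℝ w x : ℝ) + cos φ * (inner ℝ c x : ℝ)) • c := by
  unfold rotL
  module

theorem hfl_inner_eq (hON : ON e w c) (x y : E3) : (inner ℝ x y : ℝ) =
    (inner ℝ e x : ℝ) * (inner ℝ e y : ℝ) + (inner ℝ w x : ℝ) * (inner ℝ w y : ℝ) +
      (inner ℝ c x : ℝ) * (inner ℝ c y : ℝ) := by
  have h := inner_comb hON (inner ℝ e x : ℝ) (inner ℝ w x : ℝ) (inner ℝ c x : ℝ)
    (inner ℝ e y : ℝ) (inner ℝ w y : ℝ) (inner ℝ c y : ℝ)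
  rw [← hON.rep x, ← hON.rep y] at h
  exact h

theorem hfl_rotL_inner (hON : ON e w c) (φ : ℝ) (x y : E3) :
    (inner ℝ (rotL e w c φ x) (rotL e w c φ y) : ℝ) = inner ℝ x y := by
  rw [hfl_rotL_eq, hfl_rotL_eq, inner_comb hON, hfl_inner_eq hON x y]
  have hsc := sin_sq_add_cos_sq φ
  linear_combination ((inner ℝ w x : ℝ) * (inner ℝ w y : ℝ) +
    (inner ℝ c x : ℝ) * (inner ℝ c y : ℝ)) * hsc

theorem hfl_rotL_norm (hON : ON e w c) (φ : ℝ) (x : E3) : ‖rotL e w c φ x‖ = ‖x‖ := by
  have h := hfl_rotL_inner hON φ x x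
  rw [real_inner_self_eq_norm_sq, real_inner_self_eq_norm_sq] at h
  have h1 := norm_nonneg (rotL e w c φ x)
  have h2 := norm_nonneg x
  nlinarith

theorem hfl_rotL_sub (φ : ℝ) (x y : E3) :
    rotL e w c φ (x - y) = rotL e w c φ x - rotL e w c φ y := by
  have h := hen_rotL_add e w c φ (x - y) y
  rw [sub_add_cancel] at h
  rw [h]
  abel

theorem hfl_rotA_sub (φ : ℝ) (x y : E3) :
    rotA v e w c φ x - rotA v e w c φ y = rotL e w c φ (x - y) := by
  unfold rotA
  have h : x - y = (x - v) - (y - v) := by abel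
  rw [h, hfl_rotL_sub (φ := φ) (x - v) (y - v)]
  abel

theorem hfl_dist (hON : ON e w c) (φ : ℝ) (x y : E3) :
    dist (rotA v e w c φ x) (rotA v e w c φ y) = dist x y := by
  rw [dist_eq_norm, hfl_rotA_sub, hfl_rotL_norm hON, dist_eq_norm]

theorem hfl_angle (hON : ON e w c) (φ : ℝ) (x y z : E3) :
    EuclideanGeometry.angle (rotA v e w c φ x) (rotA v e w c φ y) (rotA v e w c φ z) =
      EuclideanGeometry.angle x y z := by
  unfold EuclideanGeometry.angle InnerProductGeometry.angle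
  simp only [vsub_eq_sub]
  rw [hfl_rotA_sub, hfl_rotA_sub, hfl_rotL_inner hON, hfl_rotL_norm hON, hfl_rotL_norm hON]

theorem hfl_inj (hON : ON e w c) (φ : ℝ) {x y : E3}
    (h : rotA v e w c φ x = rotA v e w c φ y) : x = y := by
  have h1 := hfl_dist (v := v) hON φ x y
  rw [h, dist_self] at h1
  exact dist_eq_zero.1 h1.symm

theorem hfl_self (φ : ℝ) : rotA v e w c φ v = v := by
  unfold rotA
  rw [sub_self, hen_rotL_zero, add_zero]

theorem hfl_fix (hON : ON e w c) (φ : ℝ) (r : ℝ) : rotA v e w c φ (v + r • e) = v + r • e := by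
  have we : (inner ℝ w e : ℝ) = 0 := by rw [real_inner_comm]; exact hON.ab
  have ce : (inner ℝ c e : ℝ) = 0 := by rw [real_inner_comm]; exact hON.ac
  unfold rotA
  rw [add_sub_cancel_left, hfl_rotL_eq, inner_smul_right, inner_smul_right, inner_smul_right,
    hON.aa, we, ce]
  simp

theorem hfl_seg (φ : ℝ) {p q x : E3}
    (h : x ∈ segment ℝ (rotA v e w c φ p) (rotA v e w c φ q)) :
    ∃ y ∈ segment ℝ p q, x = rotA v e w c φ y := by
  obtain ⟨s, t, hs, ht, hst, rfl⟩ := h
  refine ⟨s • p + t • q, ⟨s, t, hs, ht, hst, rfl⟩, ?_⟩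
  have e1 : s • p + t • q - v = s • (p - v) + t • (q - v) := by
    have : v = (s + t) • v := by rw [hst, one_smul]
    conv_lhs => rw [this]
    module
  have e2 : ∀ A B : E3, s • (v + A) + t • (v + B) = v + (s • A + t • B) := by
    intro A B
    have : s • (v + A) + t • (v + B) = (s + t) • v + (s • A + t • B) := by module
    rw [this, hst, one_smul]
  unfold rotA
  rw [e1, hen_rotL_add, hen_rotL_smul, hen_rotL_smul, e2]

theorem hfl_height (hON : ON e w c) (φ : ℝ) (x : E3) : (inner ℝ c (rotA v e w c φ x) : ℝ) =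
    inner ℝ c v + (sin φ * (inner ℝ w (x - v) : ℝ) + cos φ * (inner ℝ c (x - v) : ℝ)) := by
  have ce : (inner ℝ c e : ℝ) = 0 := by rw [real_inner_comm]; exact hON.ac
  have cw : (inner ℝ c w : ℝ) = 0 := by rw [real_inner_comm]; exact hON.bc
  unfold rotA
  rw [hfl_rotL_eq, inner_add_right, inner_add_right, inner_add_right, inner_smul_right,
    inner_smul_right, inner_smul_right, ce, cw, hON.cc]
  ring

theorem hfl_zero (hON : ON e w c) (x : E3) : rotA v e w c 0 x = x := by
  unfold rotA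
  rw [hfl_rotL_eq]
  simp only [cos_zero, sin_zero, one_mul, zero_mul, sub_zero, zero_add]
  rw [← hON.rep (x - v)]
  abel

theorem hfl_neg_pi (x : E3) : rotA v e w c (-π) x = rotA v e w c π x := by
  unfold rotA rotL
  simp only [cos_neg, sin_neg, sin_pi, neg_zero]

end

/-- The tail from link `k` on climbs. -/
theorem hfl_tail {n k : ℕ} {p a b c : E3} {ω η : ℝ} {l s θ : ℕ → ℝ}
    (hl : ∀ m, 0 < l m) (hON : ON a b c) (hη : 0 < η) (hη' : η < π / 2)
    (v : ℕ → E3) (hv : v = vtx p a b c ω l s (ha k η) θ) :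
    (∀ m, m ≤ k → (inner ℝ c (v (m + 1)) : ℝ) = inner ℝ c (v m)) ∧
    (∀ m, k < m → (inner ℝ c (v m) : ℝ) < inner ℝ c (v (m + 1))) ∧
    SimpleOn v k n := by
  have hsin : 0 < sin η := sin_pos_of_pos_of_lt_pi hη (by linarith [pi_pos])
  have hne : ∀ m, v m ≠ v (m + 1) := by
    intro m hm
    have h := dist_vtx (p := p) (ω := ω) (s := s) (h := ha k η) (θ := θ) hON m (hl m)
    rw [← hv, ← hm, dist_self] at h
    exact (hl m).ne h
  have h0 : ∀ m, m ≤ k → (inner ℝ c (v (m + 1)) : ℝ) = inner ℝ c (v m) := by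
    intro m hm
    rw [hv, height_succ hON]
    have : ha k η m = 0 := by unfold ha; rw [if_pos hm]
    rw [this, sin_zero, mul_zero, add_zero]
  have h1 : ∀ m, k < m → (inner ℝ c (v m) : ℝ) < inner ℝ c (v (m + 1)) := by
    intro m hm
    have h2 := height_succ (p := p) (ω := ω) (l := l) (s := s) (h := ha k η) (θ := θ) hON m
    have : ha k η m = η := by unfold ha; rw [if_neg (by omega)]
    rw [this, ← hv] at h2
    have := mul_pos (hl m) hsin
    linarith
  have hle : ∀ m, (inner ℝ c (v m) : ℝ) ≤ inner ℝ c (v (m + 1)) := by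
    intro m
    rcases Nat.lt_or_ge k m with h | h
    · exact (h1 m h).le
    · exact (h0 m h).ge
  have hmono : Monotone fun m => (inner ℝ c (v m) : ℝ) := monotone_nat_of_le_succ hle
  have hseg : ∀ m x, x ∈ segment ℝ (v m) (v (m + 1)) → ∃ β : ℝ, 0 ≤ β ∧ β ≤ 1 ∧
      x = (1 - β) • v m + β • v (m + 1) ∧ (inner ℝ c x : ℝ) = inner ℝ c (v m) +
        β * ((inner ℝ c (v (m + 1)) : ℝ) - inner ℝ c (v m)) := by
    rintro m x ⟨α, β, hα, hβ, hαβ, rfl⟩
    have e : α = 1 - β := by linarith
    subst e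
    refine ⟨β, hβ, by linarith, rfl, ?_⟩
    rw [inner_add_right, inner_smul_right, inner_smul_right]
    ring
  refine ⟨h0, h1, fun m _ _ => hne m, ?_, ?_⟩
  · intro i j hi hij hj
    rw [Set.disjoint_left]
    intro x hxi hxj
    obtain ⟨β, hβ0, hβ1, -, hx1⟩ := hseg i x hxi
    obtain ⟨γ, hγ0, hγ1, -, hx2⟩ := hseg j x hxj
    have a1 : (inner ℝ c (v (i + 1)) : ℝ) < inner ℝ c (v (i + 2)) := h1 (i + 1) (by omega)
    have a2 : (inner ℝ c (v (i + 2)) : ℝ) ≤ inner ℝ c (v j) := hmono (by omega)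
    have a3 := hle i
    have a4 := hle j
    have a5 : β * ((inner ℝ c (v (i + 1)) : ℝ) - inner ℝ c (v i)) ≤
        (inner ℝ c (v (i + 1)) : ℝ) - inner ℝ c (v i) := by nlinarith
    have a6 : 0 ≤ γ * ((inner ℝ c (v (j + 1)) : ℝ) - inner ℝ c (v j)) :=
      mul_nonneg hγ0 (by linarith)
    linarith
  · rintro i hi hin x ⟨hxi, hxj⟩
    rw [Set.mem_singleton_iff]
    obtain ⟨β, hβ0, hβ1, -, hx1⟩ := hseg i x hxi
    obtain ⟨γ, hγ0, hγ1, hx, hx2⟩ := hseg (i + 1) x hxj
    have a1 : (inner ℝ c (v (i + 1)) : ℝ) < inner ℝ c (v (i + 1 + 1)) := h1 (i + 1) (by omega)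
    have a3 := hle i
    have a5 : β * ((inner ℝ c (v (i + 1)) : ℝ) - inner ℝ c (v i)) ≤
        (inner ℝ c (v (i + 1)) : ℝ) - inner ℝ c (v i) := by nlinarith
    have a6 : γ = 0 := by
      by_contra hne
      have h2 : 0 < γ := lt_of_le_of_ne hγ0 (Ne.symm hne)
      have h3 := mul_pos h2 (sub_pos.2 a1)
      linarith
    rw [hx, a6]
    simp

theorem t_HFL {n k : ℕ} {P : Fin (n + 1) → E3} {p a b c : E3} {ω η : ℝ} {l s θ : ℕ → ℝ}
    (hD : Data P l θ) (hs : ∀ m, s m = 1 ∨ s m = -1) (hON : ON a b c) (hk : k + 1 ≤ n)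
    (hη : 0 < η) (hG : Good n θ (ha k η)) (α : ℝ) (hα : α = az ω s (ha k η) θ k)
    (v : ℕ → E3) (hv : v = vtx p a b c ω l s (ha k η) θ) (hH : SimpleOn v 0 (k + 1))
    (hw : ∀ m, m ≤ k → 0 ≤ (inner ℝ (-sin α • a + cos α • b) (v m - v k) : ℝ)) :
    ∃ (p' : E3) (ω' : ℝ), JoinedIn (freeSpace P) (chain n p a b c ω l s (ha k η) θ)
      (chain n p' a b c ω' l (fr k s) (ha k η) θ) := by
  obtain ⟨e, he⟩ : ∃ e, e = cos α • a + sin α • b := ⟨_, rfl⟩
  obtain ⟨w, hwd⟩ : ∃ w, w = -sin α • a + cos α • b := ⟨_, rfl⟩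
  have hF : ON e w c := by rw [he, hwd]; exact hfl_ON hON α
  have hη' : η < π / 2 := by
    have h := hG.lt (k + 1)
    unfold ha at h
    rw [if_neg (by omega)] at h
    exact h
  obtain ⟨t0, t1, hT⟩ := hfl_tail (n := n) hD.pos hON hη hη' v hv
  rw [← hwd] at hw
  -- the link `k` has the direction `e`
  have hvk : v (k + 1) = v k + l k • e := by
    rw [hv, vtx_succ, he]
    congr 2
    unfold dir
    have : ha k η k = 0 := by unfold ha; rw [if_pos le_rfl]
    rw [this, ← hα]
    simp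
  have hzk : ∀ m, m ≤ k + 1 → (inner ℝ c (v m) : ℝ) = inner ℝ c (v 0) := by
    intro m
    induction m with
    | zero => intro _; rfl
    | succ m ih =>
      intro hm
      rw [t0 m (by omega)]
      exact ih (by omega)
  have hzk' : ∀ m, m ≤ k + 1 → (inner ℝ c (v m) : ℝ) = inner ℝ c (v k) := by
    intro m hm
    rw [hzk m hm, hzk k (by omega)]
  -- the motion
  obtain ⟨g, hg⟩ : ∃ g : ℝ → ℕ → E3, g = fun φ m =>
    if m ≤ k then rotA (v k) e w c (-φ) (v m) else v m := ⟨_, rfl⟩
  have hg1 : ∀ φ m, m ≤ k + 1 → g φ m = rotA (v k) e w c (-φ) (v m) := by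
    intro φ m hm
    rw [hg]
    show (if m ≤ k then rotA (v k) e w c (-φ) (v m) else v m) = _
    by_cases h : m ≤ k
    · rw [if_pos h]
    · rw [if_neg h]
      have : m = k + 1 := by omega
      rw [this, hvk, hfl_fix hF]
  have hg2 : ∀ φ m, k ≤ m → g φ m = v m := by
    intro φ m hm
    rw [hg]
    show (if m ≤ k then rotA (v k) e w c (-φ) (v m) else v m) = _
    by_cases h : m ≤ k
    · have : m = k := by omega
      rw [if_pos h, this, hfl_self]
    · rw [if_neg h]
  -- simplicity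
  have hsimple : ∀ φ, 0 ≤ φ → φ ≤ π → SimpleOn (g φ) 0 n := by
    intro φ h0 h1
    have hsin : 0 ≤ sin φ := sin_nonneg_of_nonneg_of_le_pi h0 h1
    refine t_GLH (c := c) (k := k) (by omega) ?_ ?_ ?_ ?_
    · obtain ⟨a1, a2, a3⟩ := hH
      refine ⟨?_, ?_, ?_⟩
      · intro i hi hi' heq
        rw [hg1 φ i (by omega), hg1 φ (i + 1) (by omega)] at heq
        exact a1 i hi hi' (hfl_inj hF _ heq)
      · intro i j hi hij hj
        rw [Set.disjoint_left, hg1 φ i (by omega), hg1 φ (i + 1) (by omega),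
          hg1 φ j (by omega), hg1 φ (j + 1) (by omega)]
        intro x hx hx'
        obtain ⟨y, hy, e1⟩ := hfl_seg _ hx
        obtain ⟨y', hy', e2⟩ := hfl_seg _ hx'
        have e3 : y = y' := hfl_inj hF _ (e1.symm.trans e2)
        rw [← e3] at hy'
        exact Set.disjoint_left.1 (a2 i j hi hij hj) hy hy'
      · intro i hi hi'
        rw [hg1 φ i (by omega), hg1 φ (i + 1) (by omega), hg1 φ (i + 2) (by omega)]
        rintro x ⟨hx, hx'⟩
        obtain ⟨y, hy, e1⟩ := hfl_seg _ hx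
        obtain ⟨y', hy', e2⟩ := hfl_seg _ hx'
        have e3 : y = y' := hfl_inj hF _ (e1.symm.trans e2)
        rw [← e3] at hy'
        have h2 := a3 i hi hi' ⟨hy, hy'⟩
        rw [Set.mem_singleton_iff] at h2 ⊢
        rw [e1, h2]
    · obtain ⟨a1, a2, a3⟩ := hT
      refine ⟨?_, ?_, ?_⟩
      · intro i hi hi'
        rw [hg2 φ i hi, hg2 φ (i + 1) (by omega)]
        exact a1 i hi hi'
      · intro i j hi hij hj
        rw [hg2 φ i hi, hg2 φ (i + 1) (by omega), hg2 φ j (by omega),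
          hg2 φ (j + 1) (by omega)]
        exact a2 i j hi hij hj
      · intro i hi hi'
        rw [hg2 φ i hi, hg2 φ (i + 1) (by omega), hg2 φ (i + 2) (by omega)]
        exact a3 i hi hi'
    · intro i x hi hx
      rw [hg1 φ i (by omega), hg1 φ (i + 1) (by omega)] at hx
      obtain ⟨y, ⟨β, γ, hβ, hγ, hβγ, rfl⟩, rfl⟩ := hfl_seg _ hx
      rw [hg2 φ (k + 1) (by omega), hzk' (k + 1) le_rfl, hfl_height hF]
      have e0 : β • v i + γ • v (i + 1) - v k = β • (v i - v k) + γ • (v (i + 1) - v k) := by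
        have : v k = (β + γ) • v k := by rw [hβγ, one_smul]
        conv_lhs => rw [this]
        module
      have e1 : (inner ℝ c (β • v i + γ • v (i + 1) - v k) : ℝ) = 0 := by
        rw [e0, inner_add_right, inner_smul_right, inner_smul_right, inner_sub_right,
          inner_sub_right, hzk' i (by omega), hzk' (i + 1) (by omega)]
        ring
      have e2 : 0 ≤ (inner ℝ w (β • v i + γ • v (i + 1) - v k) : ℝ) := by
        rw [e0, inner_add_right, inner_smul_right, inner_smul_right]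
        have b1 := mul_nonneg hβ (hw i (by omega))
        have b2 := mul_nonneg hγ (hw (i + 1) (by omega))
        linarith
      rw [e1, sin_neg, mul_zero, add_zero]
      have := mul_nonneg hsin e2
      linarith
    · intro j x hj hjn hx
      rw [hg2 φ j (by omega), hg2 φ (j + 1) (by omega)] at hx
      rw [hg2 φ (k + 1) (by omega)]
      obtain ⟨β, γ, hβ, hγ, hβγ, rfl⟩ := hx
      have b1 : (inner ℝ c (v (k + 1)) : ℝ) ≤ inner ℝ c (v j) := by
        have : ∀ m, k + 1 ≤ m → (inner ℝ c (v (k + 1)) : ℝ) ≤ inner ℝ c (v m) := by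
          intro m hm
          induction m, hm using Nat.le_induction with
          | base => exact le_rfl
          | succ m hm ih => exact ih.trans (t1 m (by omega)).le
        exact this j (by omega)
      have b2 := t1 j hj
      have e : β = 1 - γ := by linarith
      have b3 : (inner ℝ c (β • v j + γ • v (j + 1)) : ℝ) = inner ℝ c (v j) +
          γ * ((inner ℝ c (v (j + 1)) : ℝ) - inner ℝ c (v j)) := by
        rw [inner_add_right, inner_smul_right, inner_smul_right, e]
        ring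
      have b4 := mul_nonneg hγ (sub_pos.2 b2).le
      refine ⟨by linarith, ?_⟩
      intro h2
      have b5 : γ = 0 := by
        by_contra hne
        have := mul_pos (lt_of_le_of_ne hγ (Ne.symm hne)) (sub_pos.2 b2)
        linarith
      have b6 : j = k + 1 := by
        by_contra hne
        have : ∀ m, k + 2 ≤ m → (inner ℝ c (v (k + 1)) : ℝ) < inner ℝ c (v m) := by
          intro m hm
          induction m, hm using Nat.le_induction with
          | base => exact t1 (k + 1) (by omega)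
          | succ m hm ih => exact ih.trans (t1 m (by omega))
        have := this j (by omega)
        linarith
      rw [e, b5, b6]
      simp
  -- membership
  have hmem : ∀ φ, 0 ≤ φ → φ ≤ π → (fun i : Fin (n + 1) => g φ i.val) ∈ freeSpace P := by
    intro φ h0 h1
    refine ⟨(t_SMP (g φ)).2 (hsimple φ h0 h1), ?_, ?_⟩
    · intro i
      have h2 : dist (v i.val) (v (i.val + 1)) = l i.val := by
        rw [hv]
        exact dist_vtx hON _ (hD.pos _)
      rw [hD.len i]
      show dist (g φ i.val) (g φ (i.val + 1)) = _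
      rcases Nat.lt_or_ge i.val (k + 1) with h | h
      · rw [hg1 φ i.val (by omega), hg1 φ (i.val + 1) (by omega), hfl_dist hF, h2]
      · rw [hg2 φ i.val (by omega), hg2 φ (i.val + 1) (by omega), h2]
    · intro i j hij
      have hi2 : i.val + 2 ≤ n := by have := j.isLt; omega
      have h2 : EuclideanGeometry.angle (v i.val) (v (i.val + 1)) (v (i.val + 2)) = θ i.val := by
        rw [hv]
        exact angle_vtx hON i.val (hD.pos _) (hD.pos _) (hs _) (hG.nonneg _) (hG.lt _)
          (hG.nonneg _) (hG.lt _) (hD.ang_nonneg _) (hD.ang_le _) (hG.sum _ hi2)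
          (hG.diff _ hi2)
      rw [hD.ang i j hij]
      show EuclideanGeometry.angle (g φ i.val) (g φ (i.val + 1)) (g φ (j.val + 1)) = _
      rw [hij]
      show EuclideanGeometry.angle (g φ i.val) (g φ (i.val + 1)) (g φ (i.val + 2)) = _
      rcases Nat.lt_or_ge i.val k with h | h
      · rw [hg1 φ i.val (by omega), hg1 φ (i.val + 1) (by omega), hg1 φ (i.val + 2) (by omega),
          hfl_angle hF, h2]
      · rw [hg2 φ i.val (by omega), hg2 φ (i.val + 1) (by omega), hg2 φ (i.val + 2) (by omega),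
          h2]
  -- the ends
  obtain ⟨p', hp'⟩ : ∃ p', p' = rotA (v k) (cos α • a + sin α • b)
    (-sin α • a + cos α • b) c π p := ⟨_, rfl⟩
  obtain ⟨hE1, hE2⟩ := t_HEN hON α hα v hv p' hp'
  refine ⟨p', 2 * α - ω, ⟨⟨⟨fun t i => g ((t : ℝ) * π) i.val, ?_⟩, ?_, ?_⟩, ?_⟩⟩
  · rw [continuous_pi_iff]
    intro i
    rw [hg]
    show Continuous fun t : unitInterval =>
      if i.val ≤ k then rotA (v k) e w c (-((t : ℝ) * π)) (v i.val) else v i.val
    by_cases h : i.val ≤ k
    · simp only [if_pos h]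
      unfold rotA rotL
      fun_prop
    · simp only [if_neg h]
      exact continuous_const
  · funext i
    show g (((0 : unitInterval) : ℝ) * π) i.val = vtx p a b c ω l s (ha k η) θ i.val
    rw [← hv]
    rcases Nat.lt_or_ge i.val k with h | h
    · rw [hg1 _ i.val (by omega)]
      have : -(((0 : unitInterval) : ℝ) * π) = 0 := by simp
      rw [this, hfl_zero hF]
    · rw [hg2 _ i.val h]
  · funext i
    show g (((1 : unitInterval) : ℝ) * π) i.val =
      vtx p' a b c (2 * α - ω) l (fr k s) (ha k η) θ i.val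
    rcases Nat.lt_or_ge i.val k with h | h
    · rw [hg1 _ i.val (by omega), hE1 i.val (by omega)]
      have : -(((1 : unitInterval) : ℝ) * π) = -π := by simp
      rw [this, hfl_neg_pi, he, hwd]
    · rw [hg2 _ i.val h, hE2 i.val h]
  · intro t
    exact hmem _ (mul_nonneg t.2.1 pi_pos.le)
      (by nlinarith [t.2.1, t.2.2, pi_pos])

end Pool.Agent.FlatN
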