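import Pool.Agent.FlatN.Defs

set_option autoImplicit false

namespace Pool.Agent.FlatN

open Real Pool.Agent.Lib_helper54.Flat Pool.Agent.FlatW

theorem t_GLT {u : ℕ → E3} {c : E3} {k n : ℕ} (hk : k < n)
    (hH : SimpleOn u 0 (k + 1)) (hT : SimpleOn u k n)
    (h1 : ∀ i x, i < k → x ∈ segment ℝ (u i) (u (i + 1)) →
      (inner ℝ c x : ℝ) ≤ inner ℝ c (u k) ∧ ((inner ℝ c x : ℝ) = inner ℝ c (u k) → x = u k))
    (h2 : ∀ j x, k < j → j < n → x ∈ segment ℝ (u j) (u (j + 1)) →
      (inner ℝ c (u k) : ℝ) ≤ inner ℝ c x) :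
    SimpleOn u 0 n := by
  obtain ⟨a1, a2, a3⟩ := hH
  obtain ⟨b1, b2, b3⟩ := hT
  refine ⟨?_, ?_, ?_⟩
  · intro i _ hi
    by_cases h : i < k + 1
    · exact a1 i (Nat.zero_le _) h
    · exact b1 i (by omega) hi
  · intro i j _ hij hj
    by_cases hjk : j < k + 1
    · exact a2 i j (Nat.zero_le _) hij hjk
    · by_cases hik : k ≤ i
      · exact b2 i j hik hij hj
      · rw [Set.disjoint_left]
        intro x hx hx'
        have h3 := h1 i x (by omega) hx
        have h4 := h2 j x (by omega) hj hx'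
        have h5 : x = u k := h3.2 (le_antisymm h3.1 h4)
        rw [h5] at hx'
        have h6 : u k ∈ segment ℝ (u k) (u (k + 1)) := left_mem_segment ℝ _ _
        by_cases hj2 : k + 1 < j
        · exact Set.disjoint_left.1 (b2 k j le_rfl hj2 hj) h6 hx'
        · have hj3 : j = k + 1 := by omega
          subst hj3
          exact b1 k le_rfl hk (b3 k le_rfl hj ⟨h6, hx'⟩)
  · intro i _ hi
    by_cases h : i + 1 < k + 1
    · exact a3 i (Nat.zero_le _) h
    · exact b3 i (by omega) hi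

end Pool.Agent.FlatN
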