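import Pool.Agent.FlatN.MEKH
import Pool.Agent.FlatN.MCLB
import Pool.Agent.FlatN.MGLT
import Pool.Agent.FlatN.MSMP

/-!
# The signs before joint `k` can be changed, straight joints after link `k` (module FLN_EKHS,
helper73)
-/

set_option autoImplicit false

namespace Pool.Agent.FlatN

open Real Pool.Agent.Lib_helper54.Flat Pool.Agent.FlatW

namespace EKHS

/-- A strictly one-sided flat placement of the links `0, ..., k`, in a frame in which the side is
positive. -/
theorem placement {k : ℕ} {l θ : ℕ → ℝ} (hl : ∀ m, 0 < l m) (h0 : ∀ m, 0 ≤ θ m)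
    (hle : ∀ m, θ m ≤ π) (hk1 : 1 ≤ k) (hR : LeftSide l θ k) :
    ∃ (q a' b' c' : E3) (ω' : ℝ) (t : ℕ → ℝ), ON a' b' c' ∧ (∀ m, t m = 1 ∨ t m = -1) ∧
      IsSimple (chain (k + 1) q a' b' c' ω' l t (fun _ => 0) θ) ∧
      ∀ j, j < k → 0 < (inner ℝ (-sin (az ω' t (fun _ => 0) θ k) • a' +
        cos (az ω' t (fun _ => 0) θ k) • b')
          (vtx q a' b' c' ω' l t (fun _ => 0) θ j - vtx q a' b' c' ω' l t (fun _ => 0) θ k) : ℝ) := by
  obtain ⟨R, hS, hC, hlen, hang, u, hu0, hu⟩ := hR
  have hDR : Data R l θ := by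
    refine ⟨hl, ?_, ?_, h0, hle⟩
    · intro i
      have h1 := hlen i.val (by have := i.isLt; omega)
      rw [vx_of_le R (by have := i.isLt; omega : i.val ≤ k + 1),
        vx_of_le R (by have := i.isLt; omega : i.val + 1 ≤ k + 1)] at h1
      exact h1
    · intro i j hij
      have hj := j.isLt
      have h1 := hang i.val (by omega)
      unfold jointAngle at h1
      rw [vx_of_le R (by omega : i.val ≤ k + 1), vx_of_le R (by omega : i.val + 1 ≤ k + 1),
        vx_of_le R (by omega : i.val + 2 ≤ k + 1)] at h1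
      have e : j.succ = ⟨i.val + 2, by omega⟩ := Fin.ext (by simp [hij])
      rw [e]
      exact h1
  obtain ⟨c', hcc, hc⟩ := exists_normal hC
  obtain ⟨a', b', -, hON, -⟩ := exists_two_frames hcc hcc
  obtain ⟨ω', t, ht, eR⟩ := flat_repr hDR hON hc
  set q := vx R 0 with hq
  obtain ⟨v, hv⟩ : ∃ v, v = vtx q a' b' c' ω' l t (fun _ => 0) θ := ⟨_, rfl⟩
  obtain ⟨α, hα⟩ : ∃ α, α = az ω' t (fun _ => 0) θ k := ⟨_, rfl⟩
  have hvx : ∀ j, j ≤ k + 1 → vx R j = v j := by
    intro j hj
    rw [eR, vx_chain hj, hv]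
  have hS' : IsSimple (chain (k + 1) q a' b' c' ω' l t (fun _ => 0) θ) := eR ▸ hS
  -- the frame of the link `k`
  have hsc := sin_sq_add_cos_sq α
  have hlast : v (k + 1) - v k = l k • (cos α • a' + sin α • b') := by
    rw [hv, vtx_succ, add_sub_cancel_left]
    unfold dir
    rw [← hα]
    simp only [cos_zero, one_mul, sin_zero, zero_smul, add_zero]
  have hcj : ∀ j, j ≤ k → (inner ℝ c' (v j - v k) : ℝ) = 0 := by
    have h1 : ∀ j, j ≤ k → (inner ℝ c' (v j - v 0) : ℝ) = 0 := by
      intro j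
      induction j with
      | zero => intro _; rw [sub_self, inner_zero_right]
      | succ j ih =>
        intro hj
        have h2 := ih (by omega)
        have h3 := hc j (by omega)
        rw [hvx (j + 1) (by omega), hvx j (by omega)] at h3
        have e : v (j + 1) - v 0 = (v (j + 1) - v j) + (v j - v 0) := by abel
        rw [e, inner_add_right, h3, h2, add_zero]
    intro j hj
    have e : v j - v k = (v j - v 0) - (v k - v 0) := by abel
    rw [e, inner_sub_right, h1 j hj, h1 k le_rfl, sub_zero]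
  have hue : (inner ℝ u (cos α • a' + sin α • b') : ℝ) = 0 := by
    have h1 := hu0
    rw [hvx (k + 1) le_rfl, hvx k (by omega), hlast, inner_smul_right] at h1
    rcases mul_eq_zero.1 h1 with h2 | h2
    · exact absurd h2 (hl k).ne'
    · exact h2
  have hprod : ∀ j, j ≤ k → (inner ℝ u (v j - v k) : ℝ) =
      inner ℝ u (-sin α • a' + cos α • b') *
        inner ℝ (-sin α • a' + cos α • b') (v j - v k) := by
    intro j hj
    have h1 := hON.rep (v j - v k)
    rw [hcj j hj, zero_smul, add_zero] at h1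
    obtain ⟨x, hx⟩ : ∃ x : ℝ, x = inner ℝ a' (v j - v k) := ⟨_, rfl⟩
    obtain ⟨y, hy⟩ : ∃ y : ℝ, y = inner ℝ b' (v j - v k) := ⟨_, rfl⟩
    rw [← hx, ← hy] at h1
    have h2 : (inner ℝ (-sin α • a' + cos α • b') (v j - v k) : ℝ) =
        -sin α * x + cos α * y := by
      rw [inner_add_left, inner_smul_left, inner_smul_left, RCLike.conj_to_real,
        RCLike.conj_to_real, hx, hy]
    rw [h2, h1]
    rw [inner_add_right, inner_smul_right, inner_smul_right] at hue
    rw [inner_add_right, inner_smul_right, inner_smul_right, inner_add_right, inner_smul_right,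
      inner_smul_right]
    obtain ⟨A, hA⟩ : ∃ A : ℝ, A = inner ℝ u a' := ⟨_, rfl⟩
    obtain ⟨B, hB⟩ : ∃ B : ℝ, B = inner ℝ u b' := ⟨_, rfl⟩
    rw [← hA, ← hB] at hue ⊢
    linear_combination (cos α * x + sin α * y) * hue - (x * A + y * B) * hsc
  have hpos : ∀ j, j < k → 0 < (inner ℝ u (-sin α • a' + cos α • b') : ℝ) *
      inner ℝ (-sin α • a' + cos α • b') (v j - v k) := by
    intro j hj
    have h1 := hu j hj
    rw [hvx j (by omega), hvx k (by omega), hprod j hj.le] at h1
    exact h1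
  rcases lt_trichotomy (inner ℝ u (-sin α • a' + cos α • b') : ℝ) 0 with hneg | hzero | hposi
  · -- mirror image
    have haz : ∀ m, az (-ω') (fun m => -t m) (fun _ => 0) θ m = -az ω' t (fun _ => 0) θ m := by
      intro m
      induction m with
      | zero => rfl
      | succ m ih => rw [az_succ, az_succ, ih]; ring
    have hv' : ∀ m, vtx q a' (-b') c' (-ω') l (fun m => -t m) (fun _ => 0) θ m = v m := by
      intro m
      rw [hv]
      induction m with
      | zero => rfl
      | succ m ih =>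
        rw [vtx_succ, vtx_succ, ← ih]
        unfold dir
        rw [haz m]
        simp only [cos_zero, one_mul, sin_zero, zero_smul, add_zero, cos_neg, sin_neg, smul_neg,
          neg_smul, neg_neg]
    refine ⟨q, a', -b', c', -ω', fun m => -t m, ⟨hON.aa, ?_, hON.cc, ?_, hON.ac, ?_⟩, ?_, ?_, ?_⟩
    · rw [inner_neg_neg]; exact hON.bb
    · rw [inner_neg_right, hON.ab, neg_zero]
    · rw [inner_neg_left, hON.bc, neg_zero]
    · intro m
      rcases ht m with h | h
      · right; simp only [h]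
      · left; simp only [h, neg_neg]
    · rw [← chain_mirror (c := c')]
      exact hS'
    · intro j hj
      rw [hv' j, hv' k, haz k, ← hα]
      have e : -sin (-α) • a' + cos (-α) • -b' = -(-sin α • a' + cos α • b') := by
        rw [sin_neg, cos_neg]; module
      rw [e, inner_neg_left]
      have h2 := hpos j hj
      have h3 : (inner ℝ (-sin α • a' + cos α • b') (v j - v k) : ℝ) < 0 := by
        by_contra h4
        push Not at h4
        have := mul_nonpos_of_nonpos_of_nonneg hneg.le h4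
        linarith
      linarith
  · exfalso
    have h1 := hpos 0 (by omega)
    rw [hzero, zero_mul] at h1
    exact lt_irrefl _ h1
  · refine ⟨q, a', b', c', ω', t, hON, ht, hS', ?_⟩
    intro j hj
    rw [← hv, ← hα]
    have h2 := hpos j hj
    exact (mul_pos_iff_of_pos_left hposi).1 h2

/-- The placement is extended by straight links. -/
theorem extend {k k0 : ℕ} {q a b c : E3} {ω : ℝ} {l t θ : ℕ → ℝ} (hl : ∀ m, 0 < l m)
    (hON : ON a b c) (hk0 : k ≤ k0) (hst : ∀ m, k ≤ m → m < k0 → θ m = π)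
    (hS : IsSimple (chain (k + 1) q a b c ω l t (fun _ => 0) θ))
    (hside : ∀ j, j < k → 0 < (inner ℝ (-sin (az ω t (fun _ => 0) θ k) • a +
      cos (az ω t (fun _ => 0) θ k) • b)
        (vtx q a b c ω l t (fun _ => 0) θ j - vtx q a b c ω l t (fun _ => 0) θ k) : ℝ)) :
    IsSimple (chain (k0 + 1) q a b c ω l t (fun _ => 0) θ) ∧
      ∀ j, j ≤ k0 → 0 ≤ (inner ℝ (-sin (az ω t (fun _ => 0) θ k0) • a +
        cos (az ω t (fun _ => 0) θ k0) • b)
          (vtx q a b c ω l t (fun _ => 0) θ j - vtx q a b c ω l t (fun _ => 0) θ k0) : ℝ) := by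
  obtain ⟨v, hv⟩ : ∃ v, v = vtx q a b c ω l t (fun _ => 0) θ := ⟨_, rfl⟩
  obtain ⟨α, hα⟩ : ∃ α, α = az ω t (fun _ => 0) θ k := ⟨_, rfl⟩
  obtain ⟨e, he⟩ : ∃ e, e = cos α • a + sin α • b := ⟨_, rfl⟩
  obtain ⟨w, hw⟩ : ∃ w, w = -sin α • a + cos α • b := ⟨_, rfl⟩
  have hsc := sin_sq_add_cos_sq α
  have hee : (inner ℝ e e : ℝ) = 1 := by
    have h1 := inner_comb hON (cos α) (sin α) 0 (cos α) (sin α) 0
    simp only [zero_smul, add_zero, mul_zero] at h1
    rw [he, h1]
    linear_combination hsc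
  have hwe : (inner ℝ w e : ℝ) = 0 := by
    have h1 := inner_comb hON (-sin α) (cos α) 0 (cos α) (sin α) 0
    simp only [zero_smul, add_zero, mul_zero] at h1
    rw [he, hw, h1]
    ring
  have haz : ∀ m, k ≤ m → m ≤ k0 → az ω t (fun _ => 0) θ m = α := by
    intro m hm
    induction m, hm using Nat.le_induction with
    | base => intro _; exact hα.symm
    | succ m hm ih =>
      intro h1
      rw [az_succ, ih (by omega), hst m hm (by omega)]
      show α + t m * dlt π 0 0 = α
      rw [dlt_zero pi_pos.le le_rfl, sub_self, mul_zero, add_zero]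
  have hstep : ∀ m, k ≤ m → m ≤ k0 → v (m + 1) = v m + l m • e := by
    intro m h1 h2
    rw [hv, vtx_succ]
    unfold dir
    rw [haz m h1 h2, he]
    simp only [cos_zero, one_mul, sin_zero, zero_smul, add_zero]
  have hwv : ∀ m, k ≤ m → m ≤ k0 + 1 → (inner ℝ w (v m) : ℝ) = inner ℝ w (v k) := by
    intro m hm
    induction m, hm using Nat.le_induction with
    | base => intro _; rfl
    | succ m hm ih =>
      intro h1
      rw [hstep m hm (by omega), inner_add_right, inner_smul_right, hwe, mul_zero, add_zero,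
        ih (by omega)]
  have hev : ∀ m, k ≤ m → m ≤ k0 → (inner ℝ e (v (m + 1)) : ℝ) = inner ℝ e (v m) + l m := by
    intro m h1 h2
    rw [hstep m h1 h2, inner_add_right, inner_smul_right, hee, mul_one]
  have hne : ∀ m, v m ≠ v (m + 1) := by
    intro m h1
    have h2 := dist_vtx (p := q) (ω := ω) (l := l) (s := t) (h := fun _ => 0) (θ := θ) hON m (hl m)
    rw [← hv, h1, dist_self] at h2
    exact (hl m).ne h2
  have hS1 : SimpleOn v 0 (k + 1) := by
    rw [← t_SMP v, hv]
    exact hS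
  have hS2 : SimpleOn v k (k0 + 1) := by
    refine t_CLB (c := e) (fun m _ _ => hne m) ?_ ?_
    · intro m h1 h2
      rw [hev m h1 (by omega)]
      linarith [hl m]
    · intro m h1 h2
      rw [hev (m + 1) (by omega) (by omega), hev m h1 (by omega)]
      linarith [hl m, hl (m + 1)]
  have hside' : ∀ j, j < k → (inner ℝ w (v k) : ℝ) < inner ℝ w (v j) := by
    intro j hj
    have h1 := hside j hj
    rw [← hv, ← hα, ← hw, inner_sub_right] at h1
    linarith
  have hside'' : ∀ j, j ≤ k → (inner ℝ w (v k) : ℝ) ≤ inner ℝ w (v j) := by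
    intro j hj
    rcases lt_or_eq_of_le hj with h1 | h1
    · exact (hside' j h1).le
    · rw [h1]
  have hS3 : SimpleOn v 0 (k0 + 1) := by
    refine t_GLT (c := -w) (by omega) hS1 hS2 ?_ ?_
    · rintro i x hi ⟨x1, x2, hx1, hx2, hx, rfl⟩
      have e1 : (inner ℝ (-w) (x1 • v i + x2 • v (i + 1)) : ℝ) =
          -(x1 * inner ℝ w (v i) + x2 * inner ℝ w (v (i + 1))) := by
        rw [inner_neg_left, inner_add_right, inner_smul_right, inner_smul_right]
      have e2 : (inner ℝ (-w) (v k) : ℝ) = -inner ℝ w (v k) := inner_neg_left _ _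
      have h1 := hside' i hi
      have h2 := hside'' (i + 1) (by omega)
      rw [e1, e2]
      have h3 := mul_nonneg hx1 (sub_nonneg.2 h1.le)
      have h4 := mul_nonneg hx2 (sub_nonneg.2 h2)
      have h5 : x1 = 1 - x2 := by linarith
      constructor
      · have : x1 * (inner ℝ w (v i) - inner ℝ w (v k)) +
            x2 * (inner ℝ w (v (i + 1)) - inner ℝ w (v k)) =
            x1 * inner ℝ w (v i) + x2 * inner ℝ w (v (i + 1)) - inner ℝ w (v k) := by
          rw [h5]; ring
        linarith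
      · intro h6
        have h7 : x1 * (inner ℝ w (v i) - inner ℝ w (v k)) +
            x2 * (inner ℝ w (v (i + 1)) - inner ℝ w (v k)) = 0 := by
          rw [h5] at h6 ⊢
          linear_combination -h6
        have h8 : x1 * (inner ℝ w (v i) - inner ℝ w (v k)) = 0 := by linarith
        have h9 : x1 = 0 := by
          rcases mul_eq_zero.1 h8 with h | h
          · exact h
          · linarith
        have h10 : x2 = 1 := by linarith
        rw [h9, h10] at h7
        have h11 : i + 1 = k := by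
          by_contra hc
          have := hside' (i + 1) (by omega)
          linarith
        rw [h9, h10, h11, zero_smul, one_smul, zero_add]
    · rintro j x h1 h2 ⟨x1, x2, hx1, hx2, hx, rfl⟩
      rw [inner_neg_left, inner_neg_left, inner_add_right, inner_smul_right, inner_smul_right,
        hwv j (by omega) (by omega), hwv (j + 1) (by omega) (by omega)]
      have h5 : x1 = 1 - x2 := by linarith
      rw [h5]
      apply le_of_eq
      ring
  constructor
  · have h1 := (t_SMP (n := k0 + 1) v).2 hS3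
    rw [hv] at h1
    exact h1
  · intro j hj
    rw [haz k0 hk0 le_rfl, ← hw, ← hv, inner_sub_right, hwv k0 hk0 (by omega)]
    rcases lt_or_ge j k with h1 | h1
    · linarith [hside' j h1]
    · rw [hwv j h1 (by omega), sub_self]

end EKHS

theorem t_EKHS {n k : ℕ} {P : Fin (n + 1) → E3} {l θ : ℕ → ℝ} (hD : Data P l θ)
    (hpos : ∀ j, j + 2 ≤ n → 0 < θ j) (hk1 : 1 ≤ k)
    (hπ : ∃ i, k ≤ i ∧ i + 2 ≤ n ∧ θ i < π) (hR : LeftSide l θ k) :
    ∃ t : ℕ → ℝ, (∀ m, t m = 1 ∨ t m = -1) ∧ ∀ (s : ℕ → ℝ) (p a b c : E3) (ω ε : ℝ),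
      (∀ m, s m = 1 ∨ s m = -1) → ON a b c → 0 < ε → Good n θ (fun _ => ε) →
      (∀ m, m < k → s m = t m) →
      JoinedIn (freeSpace P) (chain n p a b c ω l s (fun _ => ε) θ)
        (chain n p a b c ω l (fr k s) (fun _ => ε) θ) := by
  classical
  obtain ⟨k0, hk0, hn, hlt, hst0⟩ : ∃ k0, k ≤ k0 ∧ k0 + 2 ≤ n ∧ θ k0 < π ∧
      ∀ m, k ≤ m → m < k0 → θ m = π := by
    have h1 := Nat.find_spec hπ
    refine ⟨Nat.find hπ, h1.1, h1.2.1, h1.2.2, ?_⟩
    intro m h2 h3
    by_contra h4
    exact Nat.find_min hπ h3 ⟨h2, by omega, lt_of_le_of_ne (hD.ang_le m) h4⟩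
  obtain ⟨q, a', b', c', ω', t, hON', ht, hS, hside⟩ :=
    EKHS.placement hD.pos hD.ang_nonneg hD.ang_le hk1 hR
  obtain ⟨hS0, hside0⟩ := EKHS.extend hD.pos hON' hk0 hst0 hS hside
  refine ⟨t, ht, ?_⟩
  intro s p a b c ω ε hs hON hε hGε hst
  obtain ⟨s1, hs1d⟩ : ∃ s1 : ℕ → ℝ, s1 = fun m => if k ≤ m ∧ m < k0 then t m else s m :=
    ⟨_, rfl⟩
  have hs1 : ∀ m, s1 m = 1 ∨ s1 m = -1 := by
    intro m
    rw [hs1d]
    show (if k ≤ m ∧ m < k0 then t m else s m) = 1 ∨ (if k ≤ m ∧ m < k0 then t m else s m) = -1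
    split_ifs
    · exact ht m
    · exact hs m
  have hs1t : ∀ m, m < k0 → s1 m = t m := by
    intro m hm
    rw [hs1d]
    show (if k ≤ m ∧ m < k0 then t m else s m) = t m
    split_ifs with h1
    · rfl
    · exact hst m (by omega)
  have hs1s : ∀ m, ¬ (k ≤ m ∧ m < k0) → s1 m = s m := by
    intro m hm
    rw [hs1d]
    exact if_neg hm
  have hfr : ∀ (j : ℕ) (u : ℕ → ℝ), (∀ m, u m = 1 ∨ u m = -1) →
      ∀ m, fr j u m = 1 ∨ fr j u m = -1 := by
    intro j u hu m
    unfold fr
    split_ifs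
    · rcases hu m with h | h
      · right; rw [h]
      · left; rw [h, neg_neg]
    · exact hu m
  have hloose : ∀ m, k ≤ m → m < k0 → WeaklyLoose n θ m := fun m h1 h2 =>
    weaklyLoose_of_loose (loose_of_pi hD.ang_le hpos (hst0 m h1 h2))
  have j1 := joined_signs' (p := p) (ω := ω) hD hs hs1 hON hGε (fun _ => hε) (by
    intro m _ hm2
    rw [hs1s m (fun h => hm2 (hloose m h.1 h.2))])
  have j3 := joined_signs' (p := p) (ω := ω) hD (hfr k0 s1 hs1) (hfr k s hs) hON hGε
    (fun _ => hε) (by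
    intro m _ hm2
    have h1 : ¬ (k ≤ m ∧ m < k0) := fun h => hm2 (hloose m h.1 h.2)
    unfold fr
    rw [hs1s m h1]
    by_cases h2 : m < k
    · rw [if_pos h2, if_pos (by omega)]
    · rw [if_neg h2, if_neg (by omega)])
  obtain ⟨hη, hG⟩ := EKH.good_ha hD.ang_nonneg hD.ang_le hlt hε hGε
  obtain ⟨hH, hw⟩ := t_HRN (η := min ε (π - θ k0)) (p := p) (ω := ω) hON hON' hS0 hs1t _ _ rfl
    rfl _ rfl
  obtain ⟨p', ω'', hJ⟩ := t_HFL (p := p) (ω := ω) hD hs1 hON (by omega : k0 + 1 ≤ n) hη hG _ rfl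
    _ rfl hH (fun m hm => by rw [hw m hm]; exact hside0 m hm)
  have m1 := joined_line (p := p) (ω := ω) hD hs1 hON hG hGε hJ.source_mem.1 (fun _ => hε)
  have m3 := joined_line (p := p') (ω := ω'') hD (hfr k0 s1 hs1) hON hG hGε hJ.target_mem.1
    (fun _ => hε)
  have m4 := joined_rot (p := p') (q := p) (ω := ω'') (ω' := ω) (φ := 0) hD (hfr k0 s1 hs1) hON
    hGε (fun _ => hε)
  have eb : cos (0 : ℝ) • b + sin (0 : ℝ) • c = b := by simp
  have ec : -sin (0 : ℝ) • b + cos (0 : ℝ) • c = c := by simp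
  rw [eb, ec] at m4
  exact (j1.trans (((m1.symm.trans hJ).trans m3).trans m4)).trans j3

end Pool.Agent.FlatN
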