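import Pool.Agent.FlatN.MHRN

set_option autoImplicit false

/-!
# The flat tail is transported (FLN, module TRN; after FLN_HRN by helper28)
-/

namespace Pool.Agent.FlatN

open Real Pool.Agent.Lib_helper54.Flat Pool.Agent.FlatW

theorem trn_dir {a b c a' b' c' : E3} (hON' : ON a' b' c') {ω ω' : ℝ} {s t h θ θ' : ℕ → ℝ}
    {δ : ℝ} (j i : ℕ) (h0 : h j = 0) (haz : az ω s h θ j = δ + az ω' t (fun _ => 0) θ' i) :
    dir a b c ω s h θ j =
      hrnL a b c a' b' c' δ (dir a' b' c' ω' t (fun _ => 0) θ' i) := by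
  unfold dir
  obtain ⟨h1, h2, h3⟩ := hrn_coord hON'
    (cos (0 : ℝ) * cos (az ω' t (fun _ => 0) θ' i)) (cos (0 : ℝ) * sin (az ω' t (fun _ => 0) θ' i))
    (sin (0 : ℝ))
  unfold hrnL
  rw [h1, h2, h3, h0, haz, cos_add, sin_add]
  simp only [cos_zero, sin_zero, one_mul]

theorem trn_az {k m : ℕ} {ω ω' η : ℝ} {s t θ : ℕ → ℝ}
    (hst : ∀ i, i + 2 ≤ m → s (k + i) = t i) :
    ∀ i, i < m → az ω s (hb k η) θ (k + i) =
      (az ω s (hb k η) θ k - ω') + az ω' t (fun _ => 0) (fun i => θ (k + i)) i := by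
  intro i
  induction i with
  | zero =>
    intro _
    show az ω s (hb k η) θ k = (az ω s (hb k η) θ k - ω') + ω'
    ring
  | succ i ih =>
    intro hi
    have e1 : hb k η (k + i) = 0 := by
      unfold hb
      rw [if_neg (by omega)]
    have e2 : hb k η (k + i + 1) = 0 := by
      unfold hb
      rw [if_neg (by omega)]
    rw [← add_assoc, az_succ, az_succ, ih (by omega), hst i (by omega), e1, e2]
    ring

theorem t_TRN {n k m : ℕ} (hkm : k + m = n) {p a b c q a' b' c' : E3} {ω ω' η : ℝ}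
    {l s t θ : ℕ → ℝ} (hON : ON a b c) (hON' : ON a' b' c')
    (hR : IsSimple (chain m q a' b' c' ω' (fun i => l (k + i)) t (fun _ => 0)
      (fun i => θ (k + i))))
    (hst : ∀ i, i + 2 ≤ m → s (k + i) = t i) (α : ℝ) (hα : α = az ω s (hb k η) θ k)
    (v : ℕ → E3) (hv : v = vtx p a b c ω l s (hb k η) θ) :
    SimpleOn v k n ∧ ∀ i, i ≤ m →
      (inner ℝ (-sin α • a + cos α • b) (v (k + i) - v k) : ℝ) =
        inner ℝ (-sin ω' • a' + cos ω' • b')
          (vtx q a' b' c' ω' (fun i => l (k + i)) t (fun _ => 0) (fun i => θ (k + i)) i - q) := by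
  obtain ⟨δ, hδ⟩ : ∃ δ, δ = α - ω' := ⟨_, rfl⟩
  obtain ⟨v', hv'⟩ : ∃ v' : ℕ → E3, v' = vtx q a' b' c' ω' (fun i => l (k + i)) t (fun _ => 0)
    (fun i => θ (k + i)) := ⟨_, rfl⟩
  obtain ⟨f, hf⟩ : ∃ f : E3 → E3, f = fun x => v k + hrnL a b c a' b' c' δ (x - q) := ⟨_, rfl⟩
  have haz := trn_az (k := k) (m := m) (ω := ω) (ω' := ω') (η := η) (θ := θ) hst
  have hvf : ∀ i, i ≤ m → v (k + i) = f (v' i) := by
    intro i
    induction i with
    | zero =>
      intro _
      rw [hv', hf]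
      show v k = v k + hrnL a b c a' b' c' δ (q - q)
      rw [sub_self]
      unfold hrnL
      simp
    | succ i ih =>
      intro hi
      have h1 := ih (by omega)
      have h2 : v (k + (i + 1)) = v (k + i) + l (k + i) • dir a b c ω s (hb k η) θ (k + i) := by
        rw [hv, ← add_assoc, vtx_succ]
      have h3 : v' (i + 1) = v' i + l (k + i) •
          dir a' b' c' ω' t (fun _ => 0) (fun i => θ (k + i)) i := by
        rw [hv', vtx_succ]
      rw [h2, h1, h3, trn_dir (a := a) (b := b) (c := c) (δ := δ) hON' (k + i) i (h := hb k η)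
        (by unfold hb; rw [if_neg (by omega)]) (by rw [hδ, hα]; exact haz i (by omega))]
      rw [hf]
      show v k + hrnL a b c a' b' c' δ (v' i - q) + _ = v k + hrnL a b c a' b' c' δ (_ - q)
      rw [add_sub_right_comm, hrnL_add, hrnL_smul, add_assoc]
  have hfinj : ∀ x y, f x = f y → x = y := by
    intro x y h
    rw [hf] at h
    have h1 : hrnL a b c a' b' c' δ (x - y) = 0 := by
      have e : x - y = (x - q) - (y - q) := by abel
      rw [e, hrnL_sub, sub_eq_zero]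
      exact add_left_cancel h
    exact sub_eq_zero.1 (hrnL_inj hON hON' δ _ h1)
  have hfseg : ∀ y z x, x ∈ segment ℝ (f y) (f z) → ∃ x' ∈ segment ℝ y z, x = f x' := by
    rintro y z x ⟨u, w, hu, hw, huw, rfl⟩
    refine ⟨u • y + w • z, ⟨u, w, hu, hw, huw, rfl⟩, ?_⟩
    rw [hf]
    show u • (v k + hrnL a b c a' b' c' δ (y - q)) + w • (v k + hrnL a b c a' b' c' δ (z - q)) =
      v k + hrnL a b c a' b' c' δ (u • y + w • z - q)
    have e : u • y + w • z - q = u • (y - q) + w • (z - q) := by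
      have : q = (u + w) • q := by rw [huw, one_smul]
      rw [smul_sub, smul_sub]
      nth_rewrite 1 [this]
      rw [add_smul]
      abel
    rw [e, hrnL_add, hrnL_smul, hrnL_smul]
    have : v k = (u + w) • v k := by rw [huw, one_smul]
    nth_rewrite 3 [this]
    rw [add_smul, smul_add, smul_add]
    abel
  obtain ⟨hR1, hR2, hR3⟩ := hR
  have hidx : ∀ i, k ≤ i → ∃ i', i = k + i' := fun i hi => Nat.exists_eq_add_of_le hi
  refine ⟨⟨?_, ?_, ?_⟩, ?_⟩
  · intro i hi1 hi2 h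
    obtain ⟨i, rfl⟩ := hidx i hi1
    rw [hvf i (by omega), add_assoc, hvf (i + 1) (by omega)] at h
    have h1 := hfinj _ _ h
    rw [hv'] at h1
    exact hR1 ⟨i, by omega⟩ h1
  · intro i j hi1 hij hj
    obtain ⟨i, rfl⟩ := hidx i hi1
    obtain ⟨j, rfl⟩ := hidx j (by omega)
    rw [Set.disjoint_left]
    intro x hx hx'
    rw [hvf i (by omega), add_assoc, hvf (i + 1) (by omega)] at hx
    rw [hvf j (by omega), add_assoc, hvf (j + 1) (by omega)] at hx'
    obtain ⟨x1, h1, e1⟩ := hfseg _ _ _ hx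
    obtain ⟨x2, h2, e2⟩ := hfseg _ _ _ hx'
    have e : x1 = x2 := hfinj _ _ (e1.symm.trans e2)
    subst e
    rw [hv'] at h1 h2
    exact Set.disjoint_left.1 (hR2 ⟨i, by omega⟩ ⟨j, by omega⟩ (by
      show i + 1 < j
      omega)) h1 h2
  · intro i hi1 hi2 x hx
    obtain ⟨i, rfl⟩ := hidx i hi1
    obtain ⟨hx, hx'⟩ := hx
    rw [hvf i (by omega), add_assoc, hvf (i + 1) (by omega)] at hx
    rw [add_assoc, add_assoc, hvf (i + 1) (by omega), hvf (i + 2) (by omega)] at hx'
    obtain ⟨x1, h1, e1⟩ := hfseg _ _ _ hx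
    obtain ⟨x2, h2, e2⟩ := hfseg _ _ _ hx'
    have e : x1 = x2 := hfinj _ _ (e1.symm.trans e2)
    subst e
    rw [hv'] at h1 h2
    have h3 := hR3 ⟨i, by omega⟩ ⟨i + 1, by omega⟩ rfl ⟨h1, h2⟩
    rw [Set.mem_singleton_iff] at h3 ⊢
    rw [e1, h3, add_assoc, hvf (i + 1) (by omega), hv']
    rfl
  · intro i hi
    have hk0 : v k = f (v' 0) := by
      have := hvf 0 (by omega)
      rwa [add_zero] at this
    have hv0 : v' 0 = q := by rw [hv']; rfl
    rw [← hv', hvf i hi]
    have e : f (v' i) - v k = hrnL a b c a' b' c' δ (v' i - q) := by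
      rw [hf]
      show v k + hrnL a b c a' b' c' δ (v' i - q) - v k = _
      abel
    rw [e]
    obtain ⟨d, hd⟩ : ∃ d, d = v' i - q := ⟨_, rfl⟩
    rw [← hd]
    unfold hrnL
    obtain ⟨h1, h2, h3⟩ := hrn_coord hON
      (cos δ * (inner ℝ a' d : ℝ) - sin δ * (inner ℝ b' d : ℝ))
      (sin δ * (inner ℝ a' d : ℝ) + cos δ * (inner ℝ b' d : ℝ)) (inner ℝ c' d : ℝ)
    rw [inner_add_left, inner_smul_left, inner_smul_left, h1, h2, inner_add_left, inner_smul_left,
      inner_smul_left]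
    have hαδ : α = δ + ω' := by rw [hδ]; ring
    simp only [RCLike.conj_to_real]
    rw [hαδ, sin_add, cos_add]
    have hsc := sin_sq_add_cos_sq δ
    linear_combination (-sin ω' * (inner ℝ a' d : ℝ) + cos ω' * (inner ℝ b' d : ℝ)) * hsc

end Pool.Agent.FlatN
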