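import Pool.Agent.FlatN.MTFL
import Pool.Agent.FlatN.MTRN

/-!
# The signs from joint `k` on can be changed (module FLN_EKT, helper49, after FLN_EKH by helper73)
-/

set_option autoImplicit false

namespace Pool.Agent.FlatN

open Real Pool.Agent.Lib_helper54.Flat Pool.Agent.FlatW

namespace EKT

/-- A one-sided flat placement of `m` links, in a frame in which the side is positive. -/
theorem placement {m : ℕ} {l θ : ℕ → ℝ} (hl : ∀ m, 0 < l m) (h0 : ∀ m, 0 ≤ θ m)
    (hle : ∀ m, θ m ≤ π) (hm2 : 2 ≤ m)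
    (hR : ∃ R : Fin (m + 1) → E3, IsSimple R ∧ Coplanar ℝ (Set.range R) ∧
      (∀ i, i < m → dist (vx R i) (vx R (i + 1)) = l i) ∧
      (∀ i, i + 2 ≤ m → jointAngle R i = θ i) ∧
      ∃ u : E3, (inner ℝ u (vx R 1 - vx R 0) : ℝ) = 0 ∧
        ∀ j, 2 ≤ j → j ≤ m → 0 < (inner ℝ u (vx R j - vx R 0) : ℝ)) :
    ∃ (q a' b' c' : E3) (ω' : ℝ) (t : ℕ → ℝ), ON a' b' c' ∧ (∀ m, t m = 1 ∨ t m = -1) ∧
      IsSimple (chain m q a' b' c' ω' l t (fun _ => 0) θ) ∧
      ∀ j, j ≤ m → 0 ≤ (inner ℝ (-sin ω' • a' + cos ω' • b')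
          (vtx q a' b' c' ω' l t (fun _ => 0) θ j - q) : ℝ) := by
  obtain ⟨R, hS, hC, hlen, hang, u, hu0, hu⟩ := hR
  have hDR : Data R l θ := by
    refine ⟨hl, ?_, ?_, h0, hle⟩
    · intro i
      have h1 := hlen i.val i.isLt
      rw [vx_of_le R (by have := i.isLt; omega : i.val ≤ m),
        vx_of_le R (by have := i.isLt; omega : i.val + 1 ≤ m)] at h1
      exact h1
    · intro i j hij
      have hj := j.isLt
      have h1 := hang i.val (by omega)
      unfold jointAngle at h1
      rw [vx_of_le R (by omega : i.val ≤ m), vx_of_le R (by omega : i.val + 1 ≤ m),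
        vx_of_le R (by omega : i.val + 2 ≤ m)] at h1
      have e : j.succ = ⟨i.val + 2, by omega⟩ := Fin.ext (by simp [hij])
      rw [e]
      exact h1
  obtain ⟨c', hcc, hc⟩ := exists_normal hC
  obtain ⟨a', b', -, hON, -⟩ := exists_two_frames hcc hcc
  obtain ⟨ω', t, ht, eR⟩ := flat_repr hDR hON hc
  obtain ⟨q, hq⟩ : ∃ q, q = vx R 0 := ⟨_, rfl⟩
  rw [← hq] at eR
  obtain ⟨v, hv⟩ : ∃ v, v = vtx q a' b' c' ω' l t (fun _ => 0) θ := ⟨_, rfl⟩
  have hv0 : v 0 = q := by rw [hv]; rfl
  have hvx : ∀ j, j ≤ m → vx R j = v j := by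
    intro j hj
    rw [eR, vx_chain hj, hv]
  have hS' : IsSimple (chain m q a' b' c' ω' l t (fun _ => 0) θ) := eR ▸ hS
  -- the frame of the link `0`
  have hsc := sin_sq_add_cos_sq ω'
  have hfirst : v 1 - v 0 = l 0 • (cos ω' • a' + sin ω' • b') := by
    rw [hv, vtx_succ, add_sub_cancel_left]
    unfold dir
    have e : az ω' t (fun _ => 0) θ 0 = ω' := rfl
    rw [e]
    simp only [cos_zero, one_mul, sin_zero, zero_smul, add_zero]
  have hcj : ∀ j, j ≤ m → (inner ℝ c' (v j - v 0) : ℝ) = 0 := by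
    intro j
    induction j with
    | zero => intro _; rw [sub_self, inner_zero_right]
    | succ j ih =>
      intro hj
      have h2 := ih (by omega)
      have h3 := hc j (by omega)
      rw [hvx (j + 1) (by omega), hvx j (by omega)] at h3
      have e : v (j + 1) - v 0 = (v (j + 1) - v j) + (v j - v 0) := by abel
      rw [e, inner_add_right, h3, h2, add_zero]
  have hue : (inner ℝ u (cos ω' • a' + sin ω' • b') : ℝ) = 0 := by
    have h1 := hu0
    rw [hvx 1 (by omega), hvx 0 (by omega), hfirst, inner_smul_right] at h1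
    rcases mul_eq_zero.1 h1 with h2 | h2
    · exact absurd h2 (hl 0).ne'
    · exact h2
  have hprod : ∀ j, j ≤ m → (inner ℝ u (v j - v 0) : ℝ) =
      inner ℝ u (-sin ω' • a' + cos ω' • b') *
        inner ℝ (-sin ω' • a' + cos ω' • b') (v j - v 0) := by
    intro j hj
    have h1 := hON.rep (v j - v 0)
    rw [hcj j hj, zero_smul, add_zero] at h1
    obtain ⟨x, hx⟩ : ∃ x : ℝ, x = inner ℝ a' (v j - v 0) := ⟨_, rfl⟩
    obtain ⟨y, hy⟩ : ∃ y : ℝ, y = inner ℝ b' (v j - v 0) := ⟨_, rfl⟩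
    rw [← hx, ← hy] at h1
    have h2 : (inner ℝ (-sin ω' • a' + cos ω' • b') (v j - v 0) : ℝ) =
        -sin ω' * x + cos ω' * y := by
      rw [inner_add_left, inner_smul_left, inner_smul_left, RCLike.conj_to_real,
        RCLike.conj_to_real, hx, hy]
    rw [h2, h1]
    rw [inner_add_right, inner_smul_right, inner_smul_right] at hue
    rw [inner_add_right, inner_smul_right, inner_smul_right, inner_add_right, inner_smul_right,
      inner_smul_right]
    obtain ⟨A, hA⟩ : ∃ A : ℝ, A = inner ℝ u a' := ⟨_, rfl⟩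
    obtain ⟨B, hB⟩ : ∃ B : ℝ, B = inner ℝ u b' := ⟨_, rfl⟩
    rw [← hA, ← hB] at hue ⊢
    linear_combination (cos ω' * x + sin ω' * y) * hue - (x * A + y * B) * hsc
  have hpos : ∀ j, 2 ≤ j → j ≤ m → 0 < (inner ℝ u (-sin ω' • a' + cos ω' • b') : ℝ) *
      inner ℝ (-sin ω' • a' + cos ω' • b') (v j - v 0) := by
    intro j hj hj'
    have h1 := hu j hj hj'
    rw [hvx j hj', hvx 0 (by omega), hprod j hj'] at h1
    exact h1
  -- the first link is on the line
  have hone : (inner ℝ (-sin ω' • a' + cos ω' • b') (v 1 - v 0) : ℝ) = 0 := by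
    rw [hfirst, inner_smul_right]
    have h1 := inner_comb hON (-sin ω') (cos ω') 0 (cos ω') (sin ω') 0
    rw [zero_smul, add_zero, add_zero] at h1
    rw [h1]
    ring
  rcases lt_trichotomy (inner ℝ u (-sin ω' • a' + cos ω' • b') : ℝ) 0 with hneg | hzero | hposi
  · -- mirror image
    have haz : ∀ m, az (-ω') (fun m => -t m) (fun _ => 0) θ m = -az ω' t (fun _ => 0) θ m := by
      intro m
      induction m with
      | zero => rfl
      | succ m ih => rw [az_succ, az_succ, ih]; ring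
    have hv' : ∀ m, vtx q a' (-b') c' (-ω') l (fun m => -t m) (fun _ => 0) θ m = v m := by
      intro m
      rw [hv]
      induction m with
      | zero => rfl
      | succ m ih =>
        rw [vtx_succ, vtx_succ, ← ih]
        unfold dir
        rw [haz m]
        simp only [cos_zero, one_mul, sin_zero, zero_smul, add_zero, cos_neg, sin_neg, smul_neg,
          neg_smul, neg_neg]
    refine ⟨q, a', -b', c', -ω', fun m => -t m, ⟨hON.aa, ?_, hON.cc, ?_, hON.ac, ?_⟩, ?_, ?_, ?_⟩
    · rw [inner_neg_neg]; exact hON.bb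
    · rw [inner_neg_right, hON.ab, neg_zero]
    · rw [inner_neg_left, hON.bc, neg_zero]
    · intro m
      rcases ht m with h | h
      · right; simp only [h]
      · left; simp only [h, neg_neg]
    · rw [← chain_mirror (c := c')]
      exact hS'
    · intro j hj
      rw [hv' j, ← hv0]
      have e : -sin (-ω') • a' + cos (-ω') • -b' = -(-sin ω' • a' + cos ω' • b') := by
        rw [sin_neg, cos_neg]; module
      rw [e, inner_neg_left]
      rcases (show j = 0 ∨ j = 1 ∨ 2 ≤ j by omega) with h1 | h1 | h1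
      · rw [h1, sub_self, inner_zero_right, neg_zero]
      · rw [h1, hone, neg_zero]
      · have h2 := hpos j h1 hj
        have h3 : (inner ℝ (-sin ω' • a' + cos ω' • b') (v j - v 0) : ℝ) < 0 := by
          by_contra h4
          push Not at h4
          have := mul_nonpos_of_nonpos_of_nonneg hneg.le h4
          linarith
        linarith
  · exfalso
    have h1 := hpos 2 le_rfl hm2
    rw [hzero, zero_mul] at h1
    exact lt_irrefl _ h1
  · refine ⟨q, a', b', c', ω', t, hON, ht, hS', ?_⟩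
    intro j hj
    rw [← hv, ← hv0]
    rcases (show j = 0 ∨ j = 1 ∨ 2 ≤ j by omega) with h1 | h1 | h1
    · rw [h1, sub_self, inner_zero_right]
    · rw [h1, hone]
    · have h2 := hpos j h1 hj
      exact ((mul_pos_iff_of_pos_left hposi).1 h2).le

/-- Small latitudes before the link `k`. -/
theorem good_hb {n k : ℕ} {θ : ℕ → ℝ} {ε : ℝ} (h0 : ∀ m, 0 ≤ θ m) (hle : ∀ m, θ m ≤ π)
    (hk1 : 1 ≤ k) (hπ : θ (k - 1) < π) (hε : 0 < ε) (hG : Good n θ fun _ => ε) :
    0 < min ε (π - θ (k - 1)) ∧ Good n θ (hb k (min ε (π - θ (k - 1)))) := by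
  obtain ⟨η, hη⟩ : ∃ η, η = min ε (π - θ (k - 1)) := ⟨_, rfl⟩
  have hηpos : 0 < η := by
    rw [hη]
    exact lt_min hε (by linarith)
  have h1 : η ≤ ε := by
    rw [hη]
    exact min_le_left _ _
  have h2 : η ≤ π - θ (k - 1) := by
    rw [hη]
    exact min_le_right _ _
  rw [← hη]
  refine ⟨hηpos, ⟨?_, ?_, ?_, ?_⟩⟩
  · intro m
    unfold hb
    split_ifs
    · exact hηpos.le
    · exact le_rfl
  · intro m
    have := hG.lt m
    unfold hb
    split_ifs
    · exact h1.trans_lt this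
    · positivity
  · intro m hm
    have h3 : ε + ε ≤ θ m := hG.sum m hm
    unfold hb
    split_ifs
    · linarith
    · linarith
    · omega
    · rw [add_zero]; exact h0 m
  · intro m hm
    have h3 := hle m
    unfold hb
    split_ifs with h4 h5
    · rw [sub_self, abs_zero]; linarith
    · have e : m = k - 1 := by omega
      rw [sub_zero, abs_of_pos hηpos, e]
      exact h2
    · omega
    · rw [sub_self, abs_zero]; linarith

end EKT

theorem t_EKT {n k : ℕ} {P : Fin (n + 1) → E3} {l θ : ℕ → ℝ} (hD : Data P l θ)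
    (hpos : ∀ j, j + 2 ≤ n → 0 < θ j) (hk1 : 1 ≤ k) (hk : k + 2 ≤ n) (hπ : θ (k - 1) < π)
    (hR : RightSide n l θ k) :
    ∃ t : ℕ → ℝ, (∀ m, t m = 1 ∨ t m = -1) ∧ ∀ (s : ℕ → ℝ) (p a b c : E3) (ω ε : ℝ),
      (∀ m, s m = 1 ∨ s m = -1) → ON a b c → 0 < ε → Good n θ (fun _ => ε) →
      (∀ m, k ≤ m → m + 2 ≤ n → s m = t m) →
      JoinedIn (freeSpace P) (chain n p a b c ω l s (fun _ => ε) θ)
        (chain n p a b c ω l (fl k s) (fun _ => ε) θ) := by
  obtain ⟨m, hkm, hR⟩ := hR
  obtain ⟨q, a', b', c', ω', t, hON', ht, hS, hside⟩ :=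
    EKT.placement (l := fun i => l (k + i)) (θ := fun i => θ (k + i)) (fun i => hD.pos _)
      (fun i => hD.ang_nonneg _) (fun i => hD.ang_le _) (by omega : 2 ≤ m) hR
  refine ⟨fun i => t (i - k), fun i => ht _, ?_⟩
  intro s p a b c ω ε hs hON hε hGε hst
  obtain ⟨hη, hG⟩ := EKT.good_hb hD.ang_nonneg hD.ang_le hk1 hπ hε hGε
  have hs' : ∀ m, fl k s m = 1 ∨ fl k s m = -1 := by
    intro m
    unfold fl
    split_ifs
    · rcases hs m with h | h
      · right; rw [h]
      · left; rw [h, neg_neg]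
    · exact hs m
  have hst' : ∀ i, i + 2 ≤ m → s (k + i) = t i := by
    intro i hi
    have h1 := hst (k + i) (by omega) (by omega)
    simpa using h1
  obtain ⟨hT, hw⟩ := t_TRN hkm (η := min ε (π - θ (k - 1))) (p := p) (ω := ω) hON hON' hS hst' _
    rfl _ rfl
  have hJ := t_TFL (p := p) (ω := ω) hD hs hON hk hη hG _ rfl _ rfl hT (fun j hj hj' => by
    obtain ⟨i, rfl⟩ := Nat.exists_eq_add_of_le hj
    rw [hw i (by omega)]
    exact hside i (by omega))
  have m1 := joined_line (p := p) (ω := ω) hD hs hON hG hGε hJ.source_mem.1 (fun _ => hε)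
  have m3 := joined_line (p := p) (ω := ω) hD hs' hON hG hGε hJ.target_mem.1 (fun _ => hε)
  exact (m1.symm.trans hJ).trans m3

end Pool.Agent.FlatN
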