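import Pool.Agent.FlatN.MEKT

/-!
# Straight joints directly before the link about which one flips (FLN, module EKTS, helper49)
-/

set_option autoImplicit false

namespace Pool.Agent.FlatN

open Real Pool.Agent.Lib_helper54.Flat Pool.Agent.FlatW

namespace EKTS

/-- A flat chain on one side of the line of its first link, which does not meet the half line behind
its first vertex. -/
structure EP (m : ℕ) (q a b c : E3) (ω : ℝ) (l t θ : ℕ → ℝ) : Prop where
  simple : IsSimple (chain m q a b c ω l t (fun _ => 0) θ)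
  side : ∀ j, j ≤ m → 0 ≤ (inner ℝ (-sin ω • a + cos ω • b)
    (vtx q a b c ω l t (fun _ => 0) θ j - q) : ℝ)
  ray : ∀ i, i < m → ∀ x ∈ segment ℝ (vtx q a b c ω l t (fun _ => 0) θ i)
    (vtx q a b c ω l t (fun _ => 0) θ (i + 1)), ∀ ρ : ℝ, 0 < ρ →
      x ≠ q - ρ • (cos ω • a + sin ω • b)

theorem e_inner {a b c : E3} (hON : ON a b c) (ω : ℝ) :
    (inner ℝ (cos ω • a + sin ω • b) (cos ω • a + sin ω • b) : ℝ) = 1 ∧
      (inner ℝ (-sin ω • a + cos ω • b) (cos ω • a + sin ω • b) : ℝ) = 0 := by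
  have h1 := inner_comb hON (cos ω) (sin ω) 0 (cos ω) (sin ω) 0
  have h2 := inner_comb hON (-sin ω) (cos ω) 0 (cos ω) (sin ω) 0
  have hsc := sin_sq_add_cos_sq ω
  rw [zero_smul, add_zero] at h1
  rw [zero_smul, add_zero, add_zero] at h2
  constructor
  · rw [h1]; nlinarith
  · rw [h2]; ring

theorem e_cancel {a b c : E3} (hON : ON a b c) {ω x y : ℝ} {q : E3}
    (h : q + x • (cos ω • a + sin ω • b) = q + y • (cos ω • a + sin ω • b)) : x = y := by
  have h1 := add_left_cancel h
  have h2 := congrArg (fun z => (inner ℝ (cos ω • a + sin ω • b) z : ℝ)) h1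
  simp only [inner_smul_right, (e_inner hON ω).1, mul_one] at h2
  exact h2

/-- One more straight link before the chain. -/
theorem ext {m : ℕ} {q a b c : E3} {ω : ℝ} {l t θ l' t' θ' : ℕ → ℝ} (hON : ON a b c)
    (hE : EP m q a b c ω l t θ) (hm : 1 ≤ m) (hl : 0 < l' 0) (h1 : ∀ i, l' (i + 1) = l i)
    (h2 : t' 0 = 1) (h3 : ∀ i, t' (i + 1) = t i) (h4 : θ' 0 = π) (h5 : ∀ i, θ' (i + 1) = θ i) :
    EP (m + 1) (q - l' 0 • (cos ω • a + sin ω • b)) a b c ω l' t' θ' := by
  obtain ⟨e, he⟩ : ∃ e, e = cos ω • a + sin ω • b := ⟨_, rfl⟩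
  obtain ⟨v, hv⟩ : ∃ v, v = vtx q a b c ω l t (fun _ => 0) θ := ⟨_, rfl⟩
  obtain ⟨v', hv'⟩ : ∃ v', v' = vtx (q - l' 0 • e) a b c ω l' t' (fun _ => 0) θ' := ⟨_, rfl⟩
  have haz : ∀ i, az ω t' (fun _ => 0) θ' (i + 1) = az ω t (fun _ => 0) θ i := by
    intro i
    induction i with
    | zero =>
      rw [az_succ, h2, h4, dlt_zero pi_pos.le le_rfl]
      show ω + 1 * (π - π) = ω
      ring
    | succ i ih =>
      rw [az_succ, ih, az_succ, h3, h5]
  have hv0' : v' 0 = q - l' 0 • e := by rw [hv']; rfl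
  have hv0 : v 0 = q := by rw [hv]; rfl
  have hvv : ∀ i, v' (i + 1) = v i := by
    intro i
    induction i with
    | zero =>
      rw [hv0, hv', vtx_succ]
      have e1 : dir a b c ω t' (fun _ => 0) θ' 0 = e := by
        unfold dir
        have : az ω t' (fun _ => 0) θ' 0 = ω := rfl
        rw [this, he]
        simp only [cos_zero, one_mul, sin_zero, zero_smul, add_zero]
      rw [e1]
      show q - l' 0 • e + l' 0 • e = q
      abel
    | succ i ih =>
      rw [hv'] at ih
      rw [hv', vtx_succ, ih, hv, vtx_succ, h1]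
      unfold dir
      rw [haz]
  have hee : (inner ℝ (-sin ω • a + cos ω • b) e : ℝ) = 0 := by rw [he]; exact (e_inner hON ω).2
  obtain ⟨hS, hside, hray⟩ := hE
  rw [← hv] at hside hray
  rw [← he] at hray ⊢
  -- the points of the new link
  have hnew : ∀ x, x ∈ segment ℝ (v' 0) (v' 1) → ∃ σ : ℝ, 0 ≤ σ ∧ σ ≤ l' 0 ∧ x = q - σ • e := by
    rintro x ⟨α, β, hα, hβ, hαβ, rfl⟩
    refine ⟨α * l' 0, by positivity, ?_, ?_⟩
    · have : α ≤ 1 := by linarith
      nlinarith
    · rw [hvv 0, hv0, hv0', smul_sub, smul_smul]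
      have : q = (α + β) • q := by rw [hαβ, one_smul]
      nth_rewrite 3 [this]
      rw [add_smul]
      abel
  -- the new link meets the old chain only in `q`
  have hmeet : ∀ i, i < m → ∀ x, x ∈ segment ℝ (v' 0) (v' 1) →
      x ∈ segment ℝ (v i) (v (i + 1)) → x = q := by
    intro i hi x hx hx'
    obtain ⟨σ, h6, h7, rfl⟩ := hnew x hx
    rcases h6.eq_or_lt with h8 | h8
    · rw [← h8, zero_smul, sub_zero]
    · exact absurd rfl (hray i hi _ hx' σ h8)
  have hS1 : ∀ i, i < m → v i ≠ v (i + 1) := by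
    intro i hi
    have := hS.1 ⟨i, hi⟩
    rw [hv]
    exact this
  have hS2 : ∀ i j, i + 1 < j → j < m → Disjoint (segment ℝ (v i) (v (i + 1)))
      (segment ℝ (v j) (v (j + 1))) := by
    intro i j hij hj
    have := hS.2.1 ⟨i, by omega⟩ ⟨j, hj⟩ hij
    rw [hv]
    exact this
  have hS3 : ∀ i, i + 1 < m → segment ℝ (v i) (v (i + 1)) ∩ segment ℝ (v (i + 1)) (v (i + 2)) ⊆
      {v (i + 1)} := by
    intro i hi
    have := hS.2.2 ⟨i, by omega⟩ ⟨i + 1, hi⟩ rfl
    rw [hv]
    exact this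
  have hq0 : q ∈ segment ℝ (v 0) (v (0 + 1)) := by
    rw [hv0]
    exact left_mem_segment ℝ _ _
  refine ⟨⟨?_, ?_, ?_⟩, ?_, ?_⟩
  · intro i
    obtain ⟨i, hi⟩ := i
    show vtx (q - l' 0 • e) a b c ω l' t' (fun _ => 0) θ' i ≠
      vtx (q - l' 0 • e) a b c ω l' t' (fun _ => 0) θ' (i + 1)
    rw [← hv']
    rcases i with _ | i
    · rw [hvv 0, hv0, hv0']
      intro h
      have h6 : q + (-l' 0) • e = q + (0 : ℝ) • e := by
        rw [neg_smul, ← sub_eq_add_neg, h, zero_smul, add_zero]
      rw [he] at h6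
      have := e_cancel hON h6
      linarith
    · rw [hvv i, hvv (i + 1)]
      exact hS1 i (by omega)
  · intro i j hij
    obtain ⟨i, hi⟩ := i
    obtain ⟨j, hj⟩ := j
    have hij' : i + 1 < j := hij
    show Disjoint (segment ℝ (vtx (q - l' 0 • e) a b c ω l' t' (fun _ => 0) θ' i)
      (vtx (q - l' 0 • e) a b c ω l' t' (fun _ => 0) θ' (i + 1)))
      (segment ℝ (vtx (q - l' 0 • e) a b c ω l' t' (fun _ => 0) θ' j)
      (vtx (q - l' 0 • e) a b c ω l' t' (fun _ => 0) θ' (j + 1)))
    rw [← hv']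
    obtain ⟨j, rfl⟩ : ∃ j', j = j' + 1 := ⟨j - 1, by omega⟩
    rcases i with _ | i
    · rw [Set.disjoint_left]
      intro x hx hx'
      rw [hvv j, hvv (j + 1)] at hx'
      have h6 := hmeet j (by omega) x hx hx'
      rw [h6] at hx'
      rcases (show j = 1 ∨ 2 ≤ j by omega) with h7 | h7
      · rw [h7] at hx'
        have h8 := hS3 0 (by omega) ⟨hq0, hx'⟩
        rw [Set.mem_singleton_iff] at h8
        exact hS1 0 (by omega) (hv0.trans h8)
      · exact Set.disjoint_left.1 (hS2 0 j (by omega) (by omega)) hq0 hx'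
    · rw [hvv i, hvv (i + 1), hvv j, hvv (j + 1)]
      exact hS2 i j (by omega) (by omega)
  · intro i j hij
    obtain ⟨i, hi⟩ := i
    obtain ⟨j, hj⟩ := j
    have hij' : j = i + 1 := hij
    subst hij'
    show segment ℝ (vtx (q - l' 0 • e) a b c ω l' t' (fun _ => 0) θ' i)
      (vtx (q - l' 0 • e) a b c ω l' t' (fun _ => 0) θ' (i + 1)) ∩
      segment ℝ (vtx (q - l' 0 • e) a b c ω l' t' (fun _ => 0) θ' (i + 1))
      (vtx (q - l' 0 • e) a b c ω l' t' (fun _ => 0) θ' (i + 1 + 1)) ⊆
        {vtx (q - l' 0 • e) a b c ω l' t' (fun _ => 0) θ' (i + 1)}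
    rw [← hv']
    rcases i with _ | i
    · rintro x ⟨hx, hx'⟩
      rw [hvv 0, hvv (0 + 1)] at hx'
      rw [Set.mem_singleton_iff, hvv 0, hv0]
      exact hmeet 0 (by omega) x hx hx'
    · rw [hvv i, hvv (i + 1), hvv (i + 1 + 1)]
      exact hS3 i (by omega)
  · intro j hj
    rw [← hv']
    rcases j with _ | j
    · rw [hv0', sub_self, inner_zero_right]
    · have h6 := hside j (by omega)
      rw [hvv j]
      have h7 : v j - (q - l' 0 • e) = (v j - q) + l' 0 • e := by abel
      rw [h7, inner_add_right, inner_smul_right, hee, mul_zero, add_zero]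
      exact h6
  · intro i hi x hx ρ hρ hxe
    rw [← hv'] at hx
    rw [← he] at hxe
    rcases i with _ | i
    · obtain ⟨σ, h6, h7, h8⟩ := hnew x hx
      rw [h8] at hxe
      have h9 : q + (-σ) • e = q + (-(l' 0 + ρ)) • e := by
        rw [neg_smul, ← sub_eq_add_neg, hxe, neg_smul, add_smul]
        abel
      rw [he] at h9
      have := e_cancel hON h9
      linarith
    · rw [hvv i, hvv (i + 1)] at hx
      refine hray i (by omega) x hx (l' 0 + ρ) (by linarith) ?_
      rw [hxe, add_smul]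
      abel

/-- A one-sided flat placement of `m` links, in a frame in which the side is positive. -/
theorem placement {m : ℕ} {l θ : ℕ → ℝ} (hl : ∀ m, 0 < l m) (h0 : ∀ m, 0 ≤ θ m)
    (hle : ∀ m, θ m ≤ π) (hm2 : 2 ≤ m)
    (hR : ∃ R : Fin (m + 1) → E3, IsSimple R ∧ Coplanar ℝ (Set.range R) ∧
      (∀ i, i < m → dist (vx R i) (vx R (i + 1)) = l i) ∧
      (∀ i, i + 2 ≤ m → jointAngle R i = θ i) ∧
      ∃ u : E3, (inner ℝ u (vx R 1 - vx R 0) : ℝ) = 0 ∧
        ∀ j, 2 ≤ j → j ≤ m → 0 < (inner ℝ u (vx R j - vx R 0) : ℝ)) :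
    ∃ (q a' b' c' : E3) (ω' : ℝ) (t : ℕ → ℝ), ON a' b' c' ∧ (∀ m, t m = 1 ∨ t m = -1) ∧
      EP m q a' b' c' ω' l t θ := by
  obtain ⟨R, hS, hC, hlen, hang, u, hu0, hu⟩ := hR
  have hDR : Data R l θ := by
    refine ⟨hl, ?_, ?_, h0, hle⟩
    · intro i
      have h1 := hlen i.val i.isLt
      rw [vx_of_le R (by have := i.isLt; omega : i.val ≤ m),
        vx_of_le R (by have := i.isLt; omega : i.val + 1 ≤ m)] at h1
      exact h1
    · intro i j hij
      have hj := j.isLt
      have h1 := hang i.val (by omega)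
      unfold jointAngle at h1
      rw [vx_of_le R (by omega : i.val ≤ m), vx_of_le R (by omega : i.val + 1 ≤ m),
        vx_of_le R (by omega : i.val + 2 ≤ m)] at h1
      have e : j.succ = ⟨i.val + 2, by omega⟩ := Fin.ext (by simp [hij])
      rw [e]
      exact h1
  obtain ⟨c', hcc, hc⟩ := exists_normal hC
  obtain ⟨a', b', -, hON, -⟩ := exists_two_frames hcc hcc
  obtain ⟨ω', t, ht, eR⟩ := flat_repr hDR hON hc
  obtain ⟨q, hq⟩ : ∃ q, q = vx R 0 := ⟨_, rfl⟩
  rw [← hq] at eR
  obtain ⟨v, hv⟩ : ∃ v, v = vtx q a' b' c' ω' l t (fun _ => 0) θ := ⟨_, rfl⟩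
  have hv0 : v 0 = q := by rw [hv]; rfl
  have hvx : ∀ j, j ≤ m → vx R j = v j := by
    intro j hj
    rw [eR, vx_chain hj, hv]
  have hS' : IsSimple (chain m q a' b' c' ω' l t (fun _ => 0) θ) := eR ▸ hS
  -- the frame of the link `0`
  have hsc := sin_sq_add_cos_sq ω'
  have hfirst : v 1 - v 0 = l 0 • (cos ω' • a' + sin ω' • b') := by
    rw [hv, vtx_succ, add_sub_cancel_left]
    unfold dir
    have e : az ω' t (fun _ => 0) θ 0 = ω' := rfl
    rw [e]
    simp only [cos_zero, one_mul, sin_zero, zero_smul, add_zero]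
  have hcj : ∀ j, j ≤ m → (inner ℝ c' (v j - v 0) : ℝ) = 0 := by
    intro j
    induction j with
    | zero => intro _; rw [sub_self, inner_zero_right]
    | succ j ih =>
      intro hj
      have h2 := ih (by omega)
      have h3 := hc j (by omega)
      rw [hvx (j + 1) (by omega), hvx j (by omega)] at h3
      have e : v (j + 1) - v 0 = (v (j + 1) - v j) + (v j - v 0) := by abel
      rw [e, inner_add_right, h3, h2, add_zero]
  have hue : (inner ℝ u (cos ω' • a' + sin ω' • b') : ℝ) = 0 := by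
    have h1 := hu0
    rw [hvx 1 (by omega), hvx 0 (by omega), hfirst, inner_smul_right] at h1
    rcases mul_eq_zero.1 h1 with h2 | h2
    · exact absurd h2 (hl 0).ne'
    · exact h2
  have hprod : ∀ j, j ≤ m → (inner ℝ u (v j - v 0) : ℝ) =
      inner ℝ u (-sin ω' • a' + cos ω' • b') *
        inner ℝ (-sin ω' • a' + cos ω' • b') (v j - v 0) := by
    intro j hj
    have h1 := hON.rep (v j - v 0)
    rw [hcj j hj, zero_smul, add_zero] at h1
    obtain ⟨x, hx⟩ : ∃ x : ℝ, x = inner ℝ a' (v j - v 0) := ⟨_, rfl⟩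
    obtain ⟨y, hy⟩ : ∃ y : ℝ, y = inner ℝ b' (v j - v 0) := ⟨_, rfl⟩
    rw [← hx, ← hy] at h1
    have h2 : (inner ℝ (-sin ω' • a' + cos ω' • b') (v j - v 0) : ℝ) =
        -sin ω' * x + cos ω' * y := by
      rw [inner_add_left, inner_smul_left, inner_smul_left, RCLike.conj_to_real,
        RCLike.conj_to_real, hx, hy]
    rw [h2, h1]
    rw [inner_add_right, inner_smul_right, inner_smul_right] at hue
    rw [inner_add_right, inner_smul_right, inner_smul_right, inner_add_right, inner_smul_right,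
      inner_smul_right]
    obtain ⟨A, hA⟩ : ∃ A : ℝ, A = inner ℝ u a' := ⟨_, rfl⟩
    obtain ⟨B, hB⟩ : ∃ B : ℝ, B = inner ℝ u b' := ⟨_, rfl⟩
    rw [← hA, ← hB] at hue ⊢
    linear_combination (cos ω' * x + sin ω' * y) * hue - (x * A + y * B) * hsc
  have hpos : ∀ j, 2 ≤ j → j ≤ m → 0 < (inner ℝ u (-sin ω' • a' + cos ω' • b') : ℝ) *
      inner ℝ (-sin ω' • a' + cos ω' • b') (v j - v 0) := by
    intro j hj hj'
    have h1 := hu j hj hj'
    rw [hvx j hj', hvx 0 (by omega), hprod j hj'] at h1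
    exact h1
  -- the first link is on the line
  have hone : (inner ℝ (-sin ω' • a' + cos ω' • b') (v 1 - v 0) : ℝ) = 0 := by
    rw [hfirst, inner_smul_right]
    have h1 := inner_comb hON (-sin ω') (cos ω') 0 (cos ω') (sin ω') 0
    rw [zero_smul, add_zero, add_zero] at h1
    rw [h1]
    ring
  -- the half line behind the first vertex
  have hray : ∀ (x y : ℝ), x + y ≠ 0 → q + x • (cos ω' • a' + sin ω' • b') ≠
      q - y • (cos ω' • a' + sin ω' • b') := by
    intro x y hxy h
    have h1 : q + x • (cos ω' • a' + sin ω' • b') = q + (-y) • (cos ω' • a' + sin ω' • b') := by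
      rw [h, neg_smul, sub_eq_add_neg]
    have := e_cancel hON h1
    exact hxy (by linarith)
  have hray' : (inner ℝ u (-sin ω' • a' + cos ω' • b') : ℝ) ≠ 0 → ∀ i, i < m →
      ∀ x ∈ segment ℝ (v i) (v (i + 1)), ∀ ρ : ℝ, 0 < ρ →
        x ≠ q - ρ • (cos ω' • a' + sin ω' • b') := by
    intro hne i hi x hx ρ hρ hxe
    have hl0 := hl 0
    have hv1 : v 1 = q + l 0 • (cos ω' • a' + sin ω' • b') := by
      rw [← hfirst, hv0]
      abel
    obtain ⟨α, β, hα, hβ, hαβ, rfl⟩ := hx
    rcases i with _ | i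
    · rw [show (0 : ℕ) + 1 = 1 from rfl, hv0, hv1] at hxe
      refine hray (β * l 0) ρ (by have := mul_nonneg hβ hl0.le; linarith) ?_
      rw [← hxe]
      obtain ⟨E, hE⟩ : ∃ E, E = cos ω' • a' + sin ω' • b' := ⟨_, rfl⟩
      rw [← hE, smul_add, smul_smul, ← add_assoc, ← add_smul, hαβ, one_smul]
    · -- the distance from the line
      have h1 : (inner ℝ (-sin ω' • a' + cos ω' • b')
          (α • v (i + 1) + β • v (i + 1 + 1) - q) : ℝ) = 0 := by
        rw [hxe]
        have e : q - ρ • (cos ω' • a' + sin ω' • b') - q =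
            (-ρ) • (cos ω' • a' + sin ω' • b') := by rw [neg_smul]; abel
        rw [e, inner_smul_right, (e_inner hON ω').2, mul_zero]
      have h2 : α • v (i + 1) + β • v (i + 1 + 1) - q =
          α • (v (i + 1) - v 0) + β • (v (i + 1 + 1) - v 0) := by
        rw [hv0]
        have : q = (α + β) • q := by rw [hαβ, one_smul]
        nth_rewrite 1 [this]
        rw [add_smul, smul_sub, smul_sub]
        abel
      rw [h2, inner_add_right, inner_smul_right, inner_smul_right] at h1
      have h1' := congrArg (fun z => (inner ℝ u (-sin ω' • a' + cos ω' • b') : ℝ) * z) h1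
      simp only [mul_zero, mul_add] at h1'
      rw [mul_left_comm, mul_left_comm _ β] at h1'
      have h3 := hpos (i + 1 + 1) (by omega) (by omega)
      have h4 : β = 0 := by
        by_contra hβ0
        have hβ' : 0 < β := lt_of_le_of_ne hβ (Ne.symm hβ0)
        have h5 := mul_pos hβ' h3
        have h6 : 0 ≤ α * ((inner ℝ u (-sin ω' • a' + cos ω' • b') : ℝ) *
            inner ℝ (-sin ω' • a' + cos ω' • b') (v (i + 1) - v 0)) := by
          rcases i with _ | i
          · rw [show (0 : ℕ) + 1 = 1 from rfl, hone, mul_zero, mul_zero]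
          · exact mul_nonneg hα (hpos (i + 1 + 1) (by omega) (by omega)).le
        linarith
      have h5 : α = 1 := by linarith
      rw [h4, h5, one_smul, zero_smul, add_zero] at hxe
      rcases i with _ | i
      · rw [show (0 : ℕ) + 1 = 1 from rfl, hv1] at hxe
        exact hray (l 0) ρ (by linarith) hxe
      · have h6 := hpos (i + 1 + 1) (by omega) (by omega)
        rw [hxe, hv0] at h6
        have e : q - ρ • (cos ω' • a' + sin ω' • b') - q =
            (-ρ) • (cos ω' • a' + sin ω' • b') := by rw [neg_smul]; abel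
        rw [e, inner_smul_right, (e_inner hON ω').2, mul_zero, mul_zero] at h6
        exact lt_irrefl _ h6
  rcases lt_trichotomy (inner ℝ u (-sin ω' • a' + cos ω' • b') : ℝ) 0 with hneg | hzero | hposi
  · -- mirror image
    have haz : ∀ m, az (-ω') (fun m => -t m) (fun _ => 0) θ m = -az ω' t (fun _ => 0) θ m := by
      intro m
      induction m with
      | zero => rfl
      | succ m ih => rw [az_succ, az_succ, ih]; ring
    have hv' : ∀ m, vtx q a' (-b') c' (-ω') l (fun m => -t m) (fun _ => 0) θ m = v m := by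
      intro m
      rw [hv]
      induction m with
      | zero => rfl
      | succ m ih =>
        rw [vtx_succ, vtx_succ, ← ih]
        unfold dir
        rw [haz m]
        simp only [cos_zero, one_mul, sin_zero, zero_smul, add_zero, cos_neg, sin_neg, smul_neg,
          neg_smul, neg_neg]
    refine ⟨q, a', -b', c', -ω', fun m => -t m, ⟨hON.aa, ?_, hON.cc, ?_, hON.ac, ?_⟩, ?_, ?_, ?_, ?_⟩
    · rw [inner_neg_neg]; exact hON.bb
    · rw [inner_neg_right, hON.ab, neg_zero]
    · rw [inner_neg_left, hON.bc, neg_zero]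
    · intro m
      rcases ht m with h | h
      · right; simp only [h]
      · left; simp only [h, neg_neg]
    · rw [← chain_mirror (c := c')]
      exact hS'
    · intro j hj
      rw [hv' j, ← hv0]
      have e : -sin (-ω') • a' + cos (-ω') • -b' = -(-sin ω' • a' + cos ω' • b') := by
        rw [sin_neg, cos_neg]; module
      rw [e, inner_neg_left]
      rcases (show j = 0 ∨ j = 1 ∨ 2 ≤ j by omega) with h1 | h1 | h1
      · rw [h1, sub_self, inner_zero_right, neg_zero]
      · rw [h1, hone, neg_zero]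
      · have h2 := hpos j h1 hj
        have h3 : (inner ℝ (-sin ω' • a' + cos ω' • b') (v j - v 0) : ℝ) < 0 := by
          by_contra h4
          push Not at h4
          have := mul_nonpos_of_nonpos_of_nonneg hneg.le h4
          linarith
        linarith
    · intro i hi x hx ρ hρ
      rw [hv' i, hv' (i + 1)] at hx
      have e : cos (-ω') • a' + sin (-ω') • -b' = cos ω' • a' + sin ω' • b' := by
        rw [sin_neg, cos_neg]; module
      rw [e]
      exact hray' hneg.ne i hi x hx ρ hρ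
  · exfalso
    have h1 := hpos 2 le_rfl hm2
    rw [hzero, zero_mul] at h1
    exact lt_irrefl _ h1
  · refine ⟨q, a', b', c', ω', t, hON, ht, hS', ?_, fun i hi x hx ρ hρ => ?_⟩
    swap
    · rw [← hv] at hx
      exact hray' hposi.ne' i hi x hx ρ hρ
    intro j hj
    rw [← hv, ← hv0]
    rcases (show j = 0 ∨ j = 1 ∨ 2 ≤ j by omega) with h1 | h1 | h1
    · rw [h1, sub_self, inner_zero_right]
    · rw [h1, hone]
    · have h2 := hpos j h1 hj
      exact ((mul_pos_iff_of_pos_left hposi).1 h2).le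

end EKTS

theorem t_EKTS {n k : ℕ} {P : Fin (n + 1) → E3} {l θ : ℕ → ℝ} (hD : Data P l θ)
    (hpos : ∀ j, j + 2 ≤ n → 0 < θ j) (hk : k + 2 ≤ n) (hπ : ∃ i, i < k ∧ θ i < π)
    (hR : RightSide n l θ k) :
    ∃ t : ℕ → ℝ, (∀ m, t m = 1 ∨ t m = -1) ∧ ∀ (s : ℕ → ℝ) (p a b c : E3) (ω ε : ℝ),
      (∀ m, s m = 1 ∨ s m = -1) → ON a b c → 0 < ε → Good n θ (fun _ => ε) →
      (∀ m, k ≤ m → m + 2 ≤ n → s m = t m) →
      JoinedIn (freeSpace P) (chain n p a b c ω l s (fun _ => ε) θ)
        (chain n p a b c ω l (fl k s) (fun _ => ε) θ) := by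
  classical
  -- the straight joints before the link `k`
  have hex : ∃ r, r < k ∧ θ (k - 1 - r) < π := by
    obtain ⟨i, hi, hi'⟩ := hπ
    exact ⟨k - 1 - i, by omega, by rwa [show k - 1 - (k - 1 - i) = i by omega]⟩
  obtain ⟨r, hr⟩ : ∃ r, r = Nat.find hex := ⟨_, rfl⟩
  have hrk : r < k ∧ θ (k - 1 - r) < π := by rw [hr]; exact Nat.find_spec hex
  have hstr : ∀ j, j < r → θ (k - 1 - j) = π := by
    intro j hj
    rw [hr] at hj
    have h1 := Nat.find_min hex hj
    have h2 : j < k := by omega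
    rcases lt_or_eq_of_le (hD.ang_le (k - 1 - j)) with h3 | h3
    · exact absurd ⟨h2, h3⟩ h1
    · exact h3
  obtain ⟨m, hkm, hR⟩ := hR
  obtain ⟨q, a', b', c', ω', t, hON', ht, hEP⟩ :=
    EKTS.placement (l := fun i => l (k + i)) (θ := fun i => θ (k + i)) (fun i => hD.pos _)
      (fun i => hD.ang_nonneg _) (fun i => hD.ang_le _) (by omega : 2 ≤ m) hR
  -- extension by the straight links
  have hext : ∀ j, j ≤ r → ∃ (q' : E3) (t' : ℕ → ℝ), (∀ i, i < j → t' i = 1) ∧
      (∀ i, t' (j + i) = t i) ∧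
      EKTS.EP (m + j) q' a' b' c' ω' (fun i => l (k - j + i)) t' (fun i => θ (k - j + i)) := by
    intro j
    induction j with
    | zero =>
      intro _
      exact ⟨q, t, fun i hi => absurd hi (by omega), fun i => by rw [zero_add], hEP⟩
    | succ j ih =>
      intro hj
      obtain ⟨q', t', g1, g2, g3⟩ := ih (by omega)
      have e1 : ∀ i, k - (j + 1) + (i + 1) = k - j + i := fun i => by omega
      refine ⟨_, fun i => if i = 0 then 1 else t' (i - 1), ?_, ?_,
        EKTS.ext (l' := fun i => l (k - (j + 1) + i)) (θ' := fun i => θ (k - (j + 1) + i)) hON' g3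
          (by omega : 1 ≤ m + j) (hD.pos _) (fun i => by
            show l (k - (j + 1) + (i + 1)) = l (k - j + i)
            rw [e1]) (by simp) (fun i => by simp) ?_ (fun i => by
            show θ (k - (j + 1) + (i + 1)) = θ (k - j + i)
            rw [e1])⟩
      · intro i hi
        by_cases h : i = 0
        · simp [h]
        · show (if i = 0 then 1 else t' (i - 1)) = 1
          rw [if_neg h]
          exact g1 _ (by omega)
      · intro i
        show (if j + 1 + i = 0 then 1 else t' (j + 1 + i - 1)) = t i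
        rw [if_neg (by omega), show j + 1 + i - 1 = j + i by omega]
        exact g2 i
      · show θ (k - (j + 1) + 0) = π
        rw [show k - (j + 1) + 0 = k - 1 - j by omega]
        exact hstr j (by omega)
  obtain ⟨q', t', g1, g2, g3⟩ := hext r le_rfl
  obtain ⟨k0, hk0⟩ : ∃ k0, k0 = k - r := ⟨_, rfl⟩
  have hk01 : 1 ≤ k0 := by omega
  have hπ0 : θ (k0 - 1) < π := by
    rw [show k0 - 1 = k - 1 - r by omega]
    exact hrk.2
  have hk0n : k0 + (m + r) = n := by omega
  have hstr0 : ∀ i, k0 ≤ i → i < k → θ i = π := by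
    intro i hi hi'
    have := hstr (k - 1 - i) (by omega)
    rwa [show k - 1 - (k - 1 - i) = i by omega] at this
  rw [← hk0] at g3
  refine ⟨fun i => t (i - k), fun i => ht _, ?_⟩
  intro s p a b c ω ε hs hON hε hGε hst
  obtain ⟨s1, hs1⟩ : ∃ s1 : ℕ → ℝ, s1 = fun i => if k0 ≤ i ∧ i < k then 1 else s i := ⟨_, rfl⟩
  have hs1' : ∀ m, s1 m = 1 ∨ s1 m = -1 := by
    intro m
    rw [hs1]
    show (if k0 ≤ m ∧ m < k then (1 : ℝ) else s m) = 1 ∨
      (if k0 ≤ m ∧ m < k then (1 : ℝ) else s m) = -1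
    split_ifs
    · left; rfl
    · exact hs m
  obtain ⟨hη, hG⟩ := EKT.good_hb hD.ang_nonneg hD.ang_le hk01 hπ0 hε hGε
  have hfl : ∀ (k : ℕ) (s : ℕ → ℝ), (∀ m, s m = 1 ∨ s m = -1) →
      ∀ m, fl k s m = 1 ∨ fl k s m = -1 := by
    intro k s hs m
    unfold fl
    split_ifs
    · rcases hs m with h | h
      · right; rw [h]
      · left; rw [h, neg_neg]
    · exact hs m
  have hst' : ∀ i, i + 2 ≤ m + r → s1 (k0 + i) = t' i := by
    intro i hi
    rw [hs1]
    show (if k0 ≤ k0 + i ∧ k0 + i < k then (1 : ℝ) else s (k0 + i)) = t' i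
    by_cases h : i < r
    · rw [if_pos ⟨by omega, by omega⟩, g1 i h]
    · rw [if_neg (by omega), hst (k0 + i) (by omega) (by omega)]
      show t (k0 + i - k) = t' i
      have := g2 (i - r)
      rw [show r + (i - r) = i by omega] at this
      rw [this]
      congr 1
      omega
  obtain ⟨hT, hw⟩ := t_TRN hk0n (η := min ε (π - θ (k0 - 1))) (p := p) (ω := ω) hON hON' g3.simple
    hst' _ rfl _ rfl
  have hJ := t_TFL (p := p) (ω := ω) hD hs1' hON (by omega : k0 + 2 ≤ n) hη hG _ rfl _ rfl hT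
    (fun j hj hj' => by
      obtain ⟨i, rfl⟩ := Nat.exists_eq_add_of_le hj
      rw [hw i (by omega)]
      exact g3.side i (by omega))
  have m1 := joined_line (p := p) (ω := ω) hD hs1' hON hG hGε hJ.source_mem.1 (fun _ => hε)
  have m3 := joined_line (p := p) (ω := ω) hD (hfl k0 s1 hs1') hON hG hGε hJ.target_mem.1
    (fun _ => hε)
  have hwl : ∀ i, k0 ≤ i → i < k → WeaklyLoose n θ i := fun i hi hi' =>
    weaklyLoose_of_loose (loose_of_pi hD.ang_le hpos (hstr0 i hi hi'))
  have c1 := joined_signs' (p := p) (ω := ω) (s' := s1) hD hs hs1' hON hGε (fun _ => hε)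
    (fun i hi hi' => by
      rw [hs1]
      show s i = if k0 ≤ i ∧ i < k then (1 : ℝ) else s i
      rw [if_neg]
      rintro ⟨h1, h2⟩
      exact hi' (hwl i h1 h2))
  have c2 := joined_signs' (p := p) (ω := ω) (s := fl k0 s1) (s' := fl k s) hD (hfl k0 s1 hs1')
    (hfl k s hs) hON hGε (fun _ => hε) (fun i hi hi' => by
      have h3 : ¬ (k0 ≤ i ∧ i < k) := fun ⟨h1, h2⟩ => hi' (hwl i h1 h2)
      rw [hs1]
      unfold fl
      show (if k0 ≤ i then -(if k0 ≤ i ∧ i < k then (1 : ℝ) else s i) else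
        (if k0 ≤ i ∧ i < k then (1 : ℝ) else s i)) = if k ≤ i then -s i else s i
      rw [if_neg h3]
      by_cases h4 : k ≤ i
      · rw [if_pos h4, if_pos (by omega)]
      · rw [if_neg h4, if_neg (by omega)])
  exact ((c1.trans (m1.symm.trans hJ)).trans m3).trans c2

end Pool.Agent.FlatN
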