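import Pool.Agent.FlatN.Defs

/-!
# FLN: gluing a head below and a tail above, at the end vertex of the middle link
-/

set_option autoImplicit false

namespace Pool.Agent.FlatN

open Real Pool.Agent.Lib_helper54.Flat Pool.Agent.FlatW

/-- GLH. The same with the roles exchanged: a common point is `u (k + 1)`, which lies on link `k`,
which meets link `i < k` at most in `u k ≠ u (k + 1)`. -/
theorem t_GLH {u : ℕ → E3} {c : E3} {k n : ℕ} (hk : k < n)
    (hH : SimpleOn u 0 (k + 1)) (hT : SimpleOn u k n)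
    (h1 : ∀ i x, i < k → x ∈ segment ℝ (u i) (u (i + 1)) →
      (inner ℝ c x : ℝ) ≤ inner ℝ c (u (k + 1)))
    (h2 : ∀ j x, k < j → j < n → x ∈ segment ℝ (u j) (u (j + 1)) →
      (inner ℝ c (u (k + 1)) : ℝ) ≤ inner ℝ c x ∧
        ((inner ℝ c x : ℝ) = inner ℝ c (u (k + 1)) → x = u (k + 1))) :
    SimpleOn u 0 n := by
  obtain ⟨hH1, hH2, hH3⟩ := hH
  obtain ⟨hT1, hT2, hT3⟩ := hT
  refine ⟨?_, ?_, ?_⟩
  · intro i _ hi
    by_cases hik : i ≤ k
    · exact hH1 i (Nat.zero_le _) (by omega)
    · exact hT1 i (by omega) hi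
  · intro i j _ hij hj
    by_cases hjk : j ≤ k
    · exact hH2 i j (Nat.zero_le _) hij (by omega)
    by_cases hik : k ≤ i
    · exact hT2 i j hik hij hj
    push Not at hjk hik
    rw [Set.disjoint_left]
    intro x hxi hxj
    have ha := h1 i x hik hxi
    obtain ⟨hb, hc⟩ := h2 j x hjk hj hxj
    have hx : x = u (k + 1) := hc (le_antisymm ha hb)
    subst hx
    have hkm : u (k + 1) ∈ segment ℝ (u k) (u (k + 1)) := right_mem_segment ℝ _ _
    rcases Nat.lt_or_ge (i + 1) k with h | h
    · exact (Set.disjoint_left.mp (hH2 i k (Nat.zero_le _) h (by omega))) hxi hkm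
    · have hik1 : k = i + 1 := by omega
      subst hik1
      have hm : u (i + 1 + 1) ∈ segment ℝ (u i) (u (i + 1)) ∩
          segment ℝ (u (i + 1)) (u (i + 2)) := ⟨hxi, hkm⟩
      have he := hH3 i (Nat.zero_le _) (by omega) hm
      rw [Set.mem_singleton_iff] at he
      exact hH1 (i + 1) (Nat.zero_le _) (by omega) he.symm
  · intro i _ hi
    by_cases hik : i + 1 ≤ k
    · exact hH3 i (Nat.zero_le _) (by omega)
    · exact hT3 i (by omega) hi

end Pool.Agent.FlatN
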