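import Pool.Agent.FlatN.Defs

set_option autoImplicit false

/-!
# The flat head is transported (FLN, module HRN)
-/

namespace Pool.Agent.FlatN

open Real Pool.Agent.Lib_helper54.Flat Pool.Agent.FlatW

/-- linear part of the congruence -/
noncomputable def hrnL (a b c a' b' c' : E3) (δ : ℝ) (x : E3) : E3 :=
  (cos δ * (inner ℝ a' x : ℝ) - sin δ * (inner ℝ b' x : ℝ)) • a +
    (sin δ * (inner ℝ a' x : ℝ) + cos δ * (inner ℝ b' x : ℝ)) • b + (inner ℝ c' x : ℝ) • c

theorem hrnL_add (a b c a' b' c' : E3) (δ : ℝ) (x y : E3) :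
    hrnL a b c a' b' c' δ (x + y) = hrnL a b c a' b' c' δ x + hrnL a b c a' b' c' δ y := by
  unfold hrnL
  simp only [inner_add_right]
  module

theorem hrnL_smul (a b c a' b' c' : E3) (δ r : ℝ) (x : E3) :
    hrnL a b c a' b' c' δ (r • x) = r • hrnL a b c a' b' c' δ x := by
  unfold hrnL
  simp only [inner_smul_right]
  module

theorem hrnL_sub (a b c a' b' c' : E3) (δ : ℝ) (x y : E3) :
    hrnL a b c a' b' c' δ (x - y) = hrnL a b c a' b' c' δ x - hrnL a b c a' b' c' δ y := by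
  unfold hrnL
  simp only [inner_sub_right]
  module

theorem hrn_coord {a b c : E3} (hON : ON a b c) (X Y Z : ℝ) :
    (inner ℝ a (X • a + Y • b + Z • c) : ℝ) = X ∧ (inner ℝ b (X • a + Y • b + Z • c) : ℝ) = Y ∧
    (inner ℝ c (X • a + Y • b + Z • c) : ℝ) = Z := by
  have ba : inner ℝ b a = (0 : ℝ) := by rw [real_inner_comm]; exact hON.ab
  have ca : inner ℝ c a = (0 : ℝ) := by rw [real_inner_comm]; exact hON.ac
  have cb : inner ℝ c b = (0 : ℝ) := by rw [real_inner_comm]; exact hON.bc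
  refine ⟨?_, ?_, ?_⟩ <;>
    simp only [inner_add_right, inner_smul_right, hON.aa, hON.bb, hON.cc, hON.ab, hON.ac, hON.bc,
      ba, ca, cb] <;> ring

theorem hrnL_inj {a b c a' b' c' : E3} (hON : ON a b c) (hON' : ON a' b' c') (δ : ℝ) (x : E3)
    (h : hrnL a b c a' b' c' δ x = 0) : x = 0 := by
  unfold hrnL at h
  obtain ⟨h1, h2, h3⟩ := hrn_coord hON
    (cos δ * (inner ℝ a' x : ℝ) - sin δ * (inner ℝ b' x : ℝ))
    (sin δ * (inner ℝ a' x : ℝ) + cos δ * (inner ℝ b' x : ℝ)) (inner ℝ c' x : ℝ)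
  rw [h, inner_zero_right] at h1 h2 h3
  have hsc := sin_sq_add_cos_sq δ
  have hX : (inner ℝ a' x : ℝ) = 0 := by
    linear_combination (-(inner ℝ a' x : ℝ)) * hsc - cos δ * h1 - sin δ * h2
  have hY : (inner ℝ b' x : ℝ) = 0 := by
    linear_combination (-(inner ℝ b' x : ℝ)) * hsc + sin δ * h1 - cos δ * h2
  rw [hON'.rep x, hX, hY, ← h3]
  simp

theorem hrn_dir {a b c a' b' c' : E3} (hON' : ON a' b' c') {ω ω' : ℝ} {s t h θ : ℕ → ℝ}
    {δ : ℝ} (i : ℕ) (h0 : h i = 0) (haz : az ω s h θ i = δ + az ω' t (fun _ => 0) θ i) :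
    dir a b c ω s h θ i =
      hrnL a b c a' b' c' δ (dir a' b' c' ω' t (fun _ => 0) θ i) := by
  unfold dir
  obtain ⟨h1, h2, h3⟩ := hrn_coord hON'
    (cos (0 : ℝ) * cos (az ω' t (fun _ => 0) θ i)) (cos (0 : ℝ) * sin (az ω' t (fun _ => 0) θ i))
    (sin (0 : ℝ))
  unfold hrnL
  rw [h1, h2, h3, h0, haz, cos_add, sin_add]
  simp only [cos_zero, sin_zero, one_mul]

theorem hrn_az {k : ℕ} {ω ω' η : ℝ} {s t θ : ℕ → ℝ} (hst : ∀ i, i < k → s i = t i) :
    ∀ i, i ≤ k → az ω s (ha k η) θ i = (ω - ω') + az ω' t (fun _ => 0) θ i := by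
  intro i
  induction i with
  | zero =>
    intro _
    show ω = (ω - ω') + ω'
    ring
  | succ i ih =>
    intro hi
    rw [az_succ, az_succ, ih (by omega), hst i (by omega)]
    have e1 : ha k η i = 0 := by
      unfold ha
      rw [if_pos (by omega)]
    have e2 : ha k η (i + 1) = 0 := by
      unfold ha
      rw [if_pos (by omega)]
    rw [e1, e2]
    ring

theorem t_HRN {k : ℕ} {p a b c q a' b' c' : E3} {ω ω' η : ℝ}
    {l s t θ : ℕ → ℝ} (hON : ON a b c) (hON' : ON a' b' c')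
    (hR : IsSimple (chain (k + 1) q a' b' c' ω' l t (fun _ => 0) θ))
    (hst : ∀ i, i < k → s i = t i) (α α' : ℝ) (hα : α = az ω s (ha k η) θ k)
    (hα' : α' = az ω' t (fun _ => 0) θ k)
    (v : ℕ → E3) (hv : v = vtx p a b c ω l s (ha k η) θ) :
    SimpleOn v 0 (k + 1) ∧ ∀ i, i ≤ k →
      (inner ℝ (-sin α • a + cos α • b) (v i - v k) : ℝ) =
        inner ℝ (-sin α' • a' + cos α' • b')
          (vtx q a' b' c' ω' l t (fun _ => 0) θ i - vtx q a' b' c' ω' l t (fun _ => 0) θ k) := by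
  set δ := ω - ω' with hδ
  set v' : ℕ → E3 := vtx q a' b' c' ω' l t (fun _ => 0) θ with hv'
  set f : E3 → E3 := fun x => p + hrnL a b c a' b' c' δ (x - q) with hf
  have haz := hrn_az (k := k) (ω := ω) (ω' := ω') (η := η) (θ := θ) hst
  have hvf : ∀ i, i ≤ k + 1 → v i = f (v' i) := by
    intro i
    induction i with
    | zero =>
      intro _
      rw [hv]
      show p = p + hrnL a b c a' b' c' δ (q - q)
      rw [sub_self]
      unfold hrnL
      simp
    | succ i ih =>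
      intro hi
      have h1 := ih (by omega)
      rw [hv] at h1
      rw [hv, vtx_succ, h1, hv', vtx_succ]
      rw [hrn_dir (a := a) (b := b) (c := c) (δ := δ) hON' i (h := ha k η)
        (by unfold ha; rw [if_pos (by omega)]) (haz i (by omega))]
      simp only [hf]
      rw [add_sub_right_comm, hrnL_add, hrnL_smul, add_assoc]
  have hfinj : ∀ x y, f x = f y → x = y := by
    intro x y h
    simp only [hf] at h
    have h1 : hrnL a b c a' b' c' δ (x - y) = 0 := by
      have e : x - y = (x - q) - (y - q) := by abel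
      rw [e, hrnL_sub, sub_eq_zero]
      exact add_left_cancel h
    exact sub_eq_zero.1 (hrnL_inj hON hON' δ _ h1)
  have hfseg : ∀ y z x, x ∈ segment ℝ (f y) (f z) → ∃ x' ∈ segment ℝ y z, x = f x' := by
    rintro y z x ⟨u, w, hu, hw, huw, rfl⟩
    refine ⟨u • y + w • z, ⟨u, w, hu, hw, huw, rfl⟩, ?_⟩
    simp only [hf]
    have e : u • y + w • z - q = u • (y - q) + w • (z - q) := by
      have : q = (u + w) • q := by rw [huw, one_smul]
      rw [smul_sub, smul_sub]
      nth_rewrite 1 [this]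
      rw [add_smul]
      abel
    rw [e, hrnL_add, hrnL_smul, hrnL_smul]
    have : p = (u + w) • p := by rw [huw, one_smul]
    nth_rewrite 3 [this]
    rw [add_smul, smul_add, smul_add]
    abel
  obtain ⟨hR1, hR2, hR3⟩ := hR
  refine ⟨⟨?_, ?_, ?_⟩, ?_⟩
  · intro i _ hi h
    rw [hvf i (by omega), hvf (i + 1) (by omega)] at h
    exact hR1 ⟨i, hi⟩ (hfinj _ _ h)
  · intro i j _ hij hj
    rw [Set.disjoint_left]
    intro x hx hx'
    rw [hvf i (by omega), hvf (i + 1) (by omega)] at hx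
    rw [hvf j (by omega), hvf (j + 1) (by omega)] at hx'
    obtain ⟨x1, h1, e1⟩ := hfseg _ _ _ hx
    obtain ⟨x2, h2, e2⟩ := hfseg _ _ _ hx'
    have e : x1 = x2 := hfinj _ _ (e1.symm.trans e2)
    subst e
    exact Set.disjoint_left.1 (hR2 ⟨i, by omega⟩ ⟨j, hj⟩ hij) h1 h2
  · intro i _ hi x hx
    obtain ⟨hx, hx'⟩ := hx
    rw [hvf i (by omega), hvf (i + 1) (by omega)] at hx
    rw [hvf (i + 1) (by omega), hvf (i + 2) (by omega)] at hx'
    obtain ⟨x1, h1, e1⟩ := hfseg _ _ _ hx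
    obtain ⟨x2, h2, e2⟩ := hfseg _ _ _ hx'
    have e : x1 = x2 := hfinj _ _ (e1.symm.trans e2)
    subst e
    have h3 := hR3 ⟨i, by omega⟩ ⟨i + 1, hi⟩ rfl ⟨h1, h2⟩
    rw [Set.mem_singleton_iff] at h3 ⊢
    rw [e1, h3, hvf (i + 1) (by omega)]
    rfl
  · intro i hi
    rw [hvf i (by omega), hvf k (by omega)]
    simp only [hf]
    have e : p + hrnL a b c a' b' c' δ (v' i - q) - (p + hrnL a b c a' b' c' δ (v' k - q)) =
        hrnL a b c a' b' c' δ (v' i - v' k) := by
      have : v' i - v' k = (v' i - q) - (v' k - q) := by abel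
      rw [this, hrnL_sub a b c a' b' c' δ (v' i - q) (v' k - q)]
      abel
    rw [e]
    set d := v' i - v' k with hd
    unfold hrnL
    obtain ⟨h1, h2, h3⟩ := hrn_coord hON
      (cos δ * (inner ℝ a' d : ℝ) - sin δ * (inner ℝ b' d : ℝ))
      (sin δ * (inner ℝ a' d : ℝ) + cos δ * (inner ℝ b' d : ℝ)) (inner ℝ c' d : ℝ)
    rw [inner_add_left, inner_smul_left, inner_smul_left, h1, h2, inner_add_left, inner_smul_left,
      inner_smul_left]
    have hαδ : α = δ + α' := by rw [hα, hα', haz k le_rfl]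
    simp only [RCLike.conj_to_real]
    rw [hαδ, sin_add, cos_add]
    have hsc := sin_sq_add_cos_sq δ
    linear_combination (-sin α' * (inner ℝ a' d : ℝ) + cos α' * (inner ℝ b' d : ℝ)) * hsc

end Pool.Agent.FlatN
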