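import Pool.Agent.FlatN.Defs

/-!
# Climbing chains in two orthonormal frames (ORI)
-/

set_option autoImplicit false

namespace Pool.Agent.FlatN

open Real Pool.Agent.Lib_helper54.Flat Pool.Agent.FlatW

namespace MORI

/-- Two orthonormal frames with the same last vector. -/
theorem frames {a b c a0 b0 : E3} (h : ON a b c) (h0 : ON a0 b0 c) :
    ∃ ψ ε : ℝ, (ε = 1 ∨ ε = -1) ∧ a = cos ψ • a0 + sin ψ • b0 ∧
      b = (ε * -sin ψ) • a0 + (ε * cos ψ) • b0 := by
  have ea := h0.rep a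
  have eb := h0.rep b
  have hca : (inner ℝ c a : ℝ) = 0 := by rw [real_inner_comm]; exact h.ac
  have hcb : (inner ℝ c b : ℝ) = 0 := by rw [real_inner_comm]; exact h.bc
  rw [hca] at ea
  rw [hcb] at eb
  generalize (inner ℝ a0 a : ℝ) = x at ea
  generalize (inner ℝ b0 a : ℝ) = y at ea
  generalize (inner ℝ a0 b : ℝ) = u at eb
  generalize (inner ℝ b0 b : ℝ) = v at eb
  have h1 : x * x + y * y = 1 := by
    have := inner_comb h0 x y 0 x y 0
    rw [← ea, h.aa] at this
    linarith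
  have h2 : u * u + v * v = 1 := by
    have := inner_comb h0 u v 0 u v 0
    rw [← eb, h.bb] at this
    linarith
  have h3 : x * u + y * v = 0 := by
    have := inner_comb h0 x y 0 u v 0
    rw [← ea, ← eb, h.ab] at this
    linarith
  rw [zero_smul, add_zero] at ea eb
  obtain ⟨ψ, hc, hs⟩ := exists_angle h1
  have h4 : (x * v - y * u) * (x * v - y * u) = 1 := by
    linear_combination (u * u + v * v) * h1 + h2 - (x * u + y * v) * h3
  rcases mul_self_eq_one_iff.1 h4 with h5 | h5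
  · refine ⟨ψ, 1, Or.inl rfl, by rw [hc, hs]; exact ea, ?_⟩
    have e1 : u = -y := by linear_combination -u * h1 + x * h3 - y * h5
    have e2 : v = x := by linear_combination -v * h1 + y * h3 + x * h5
    rw [hc, hs, one_mul, one_mul, ← e1]
    conv_rhs => rw [← e2]
    exact eb
  · refine ⟨ψ, -1, Or.inr rfl, by rw [hc, hs]; exact ea, ?_⟩
    have e1 : u = y := by linear_combination -u * h1 + x * h3 - y * h5
    have e2 : v = -x := by linear_combination -v * h1 + y * h3 + x * h5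
    rw [hc, hs, neg_one_mul, neg_one_mul, neg_neg, ← e2, ← e1]
    exact eb

theorem az_turn {ψ ε ω : ℝ} {s h θ : ℕ → ℝ} (k : ℕ) :
    az (ψ + ε * ω) (fun m => ε * s m) h θ k = ψ + ε * az ω s h θ k := by
  induction k with
  | zero => rfl
  | succ k ih => rw [az_succ, az_succ, ih]; ring

theorem chain_turn {n : ℕ} {p a b c a0 b0 : E3} {ψ ε ω : ℝ} {l s h θ : ℕ → ℝ}
    (hε : ε = 1 ∨ ε = -1) (ea : a = cos ψ • a0 + sin ψ • b0)
    (eb : b = (ε * -sin ψ) • a0 + (ε * cos ψ) • b0) :
    chain n p a b c ω l s h θ = chain n p a0 b0 c (ψ + ε * ω) l (fun m => ε * s m) h θ := by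
  have hd : ∀ k, dir a b c ω s h θ k = dir a0 b0 c (ψ + ε * ω) (fun m => ε * s m) h θ k := by
    intro k
    unfold dir
    rw [az_turn k]
    generalize az ω s h θ k = x
    rw [ea, eb]
    rcases hε with rfl | rfl
    · rw [one_mul x, cos_add, sin_add]
      module
    · rw [neg_one_mul x, cos_add, sin_add, cos_neg, sin_neg]
      module
  have hv : ∀ k, vtx p a b c ω l s h θ k =
      vtx p a0 b0 c (ψ + ε * ω) l (fun m => ε * s m) h θ k := by
    intro k
    induction k with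
    | zero => rfl
    | succ k ih => rw [vtx_succ, vtx_succ, ih, hd k]
  funext i
  exact hv i.val

theorem sign_mul {ε : ℝ} {s : ℕ → ℝ} (hε : ε = 1 ∨ ε = -1) (hs : ∀ m, s m = 1 ∨ s m = -1) :
    ∀ m, ε * s m = 1 ∨ ε * s m = -1 := by
  intro m
  rcases hε with rfl | rfl <;> rcases hs m with h | h <;> rw [h] <;> norm_num

end MORI

open MORI in
theorem t_ORI {n : ℕ} {P : Fin (n + 1) → E3} {l θ : ℕ → ℝ} (hD : Data P l θ)
    {a b c a' b' c' : E3} (h : ON a b c) (h' : ON a' b' c') :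
    (∀ (p q : E3) (ω ω' : ℝ) (s h0 : ℕ → ℝ), (∀ m, s m = 1 ∨ s m = -1) → Good n θ h0 →
      (∀ m, 0 < h0 m) → JoinedIn (freeSpace P) (chain n p a b c ω l s h0 θ)
        (chain n q a' b' c' ω' l s h0 θ)) ∨
    (∀ (p q : E3) (ω ω' : ℝ) (s h0 : ℕ → ℝ), (∀ m, s m = 1 ∨ s m = -1) → Good n θ h0 →
      (∀ m, 0 < h0 m) → JoinedIn (freeSpace P) (chain n p a b c ω l s h0 θ)
        (chain n q a' b' c' ω' l (fun m => -s m) h0 θ)) := by
  obtain ⟨a0, b0, φ, hON, ec⟩ := exists_two_frames h.cc h'.cc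
  have hON' : ON a0 (cos φ • b0 + sin φ • c) c' := by
    rw [ec]
    exact ON_rot hON φ
  obtain ⟨ψ, ε, hε, ea, eb⟩ := frames h hON
  obtain ⟨ψ', ε', hε', ea', eb'⟩ := frames h' hON'
  have hmain : ∀ (p q : E3) (ω ω' : ℝ) (s s' h0 : ℕ → ℝ), (∀ m, s m = 1 ∨ s m = -1) →
      (∀ m, ε' * s' m = ε * s m) → Good n θ h0 → (∀ m, 0 < h0 m) →
      JoinedIn (freeSpace P) (chain n p a b c ω l s h0 θ)
        (chain n q a' b' c' ω' l s' h0 θ) := by
    intro p q ω ω' s s' h0 hs hss g0 hpos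
    rw [chain_turn hε ea eb, chain_turn hε' ea' eb',
      show (fun m => ε' * s' m) = fun m => ε * s m from funext hss, ec]
    exact joined_rot hD (sign_mul hε hs) hON g0 hpos
  by_cases he : ε' = ε
  · left
    intro p q ω ω' s h0 hs g0 hpos
    exact hmain p q ω ω' s s h0 hs (fun m => by rw [he]) g0 hpos
  · right
    intro p q ω ω' s h0 hs g0 hpos
    refine hmain p q ω ω' s (fun m => -s m) h0 hs (fun m => ?_) g0 hpos
    have : ε' = -ε := by
      rcases hε with rfl | rfl <;> rcases hε' with rfl | rfl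
      · exact absurd rfl he
      · rfl
      · rw [neg_neg]
      · exact absurd rfl he
    rw [this]
    ring

end Pool.Agent.FlatN
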