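import Pool.Agent.FlatN.Defs
import Pool.Agent.Lib_helper54.Flat.Repr
import Pool.Agent.FlatN.MROT
import Pool.Agent.FlatN.MCLB
import Pool.Agent.FlatN.MGLT
import Pool.Agent.FlatN.MSMP
import Pool.Agent.FlatN.MTEN

/-!
# FLN, module TFL: the rotation of the tail
-/

set_option autoImplicit false

namespace Pool.Agent.FlatN

open Real Pool.Agent.Lib_helper54.Flat Pool.Agent.FlatW

namespace TFLaux

theorem simpleOn_congr {u u' : ℕ → E3} {a b : ℕ} (h : ∀ m, a ≤ m → m ≤ b → u m = u' m)
    (hu : SimpleOn u a b) : SimpleOn u' a b := by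
  obtain ⟨h1, h2, h3⟩ := hu
  refine ⟨?_, ?_, ?_⟩
  · intro i hi hib
    rw [← h i hi hib.le, ← h (i + 1) (by omega) (by omega)]
    exact h1 i hi hib
  · intro i j hi hij hj
    rw [← h i hi (by omega), ← h (i + 1) (by omega) (by omega), ← h j (by omega) hj.le,
      ← h (j + 1) (by omega) (by omega)]
    exact h2 i j hi hij hj
  · intro i hi hib
    rw [← h i hi (by omega), ← h (i + 1) (by omega) (by omega),
      ← h (i + 2) (by omega) (by omega)]
    exact h3 i hi hib

theorem simpleOn_map {v : ℕ → E3} {f : E3 → E3} {a b : ℕ}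
    (hseg : ∀ p q x : E3, x ∈ segment ℝ (f p) (f q) → ∃ y ∈ segment ℝ p q, x = f y)
    (hinj : ∀ x y : E3, f x = f y → x = y) (hu : SimpleOn v a b) :
    SimpleOn (fun m => f (v m)) a b := by
  obtain ⟨h1, h2, h3⟩ := hu
  refine ⟨?_, ?_, ?_⟩
  · intro i hi hib he
    exact h1 i hi hib (hinj _ _ he)
  · intro i j hi hij hj
    rw [Set.disjoint_left]
    intro x hx hx'
    obtain ⟨y, hy, rfl⟩ := hseg _ _ _ hx
    obtain ⟨z, hz, hyz⟩ := hseg _ _ _ hx'
    have := hinj _ _ hyz
    subst this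
    exact Set.disjoint_left.1 (h2 i j hi hij hj) hy hz
  · rintro i hi hib x ⟨hx, hx'⟩
    obtain ⟨y, hy, rfl⟩ := hseg _ _ _ hx
    obtain ⟨z, hz, hyz⟩ := hseg _ _ _ hx'
    have := hinj _ _ hyz
    subst this
    have h4 : y ∈ ({v (i + 1)} : Set E3) := h3 i hi hib ⟨hy, hz⟩
    rw [Set.mem_singleton_iff] at h4
    rw [h4]
    exact Set.mem_singleton _

theorem rotA_zero {v e w c : E3} (hON : ON e w c) (x : E3) : rotA v e w c 0 x = x := by
  unfold rotA rotL
  have h := hON.rep (x - v)
  rw [cos_zero, sin_zero, neg_zero, zero_smul, zero_smul, one_smul, one_smul, add_zero, zero_add,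
    ← h]
  abel

theorem ON_plane {a b c : E3} (h : ON a b c) (α : ℝ) :
    ON (cos α • a + sin α • b) (-sin α • a + cos α • b) c := by
  have e1 : cos α • a + sin α • b = cos α • a + sin α • b + (0 : ℝ) • c := by simp
  have e2 : -sin α • a + cos α • b = (-sin α) • a + cos α • b + (0 : ℝ) • c := by simp
  have e3 : c = (0 : ℝ) • a + (0 : ℝ) • b + (1 : ℝ) • c := by simp
  have hsc := sin_sq_add_cos_sq α
  refine ⟨?_, ?_, h.cc, ?_, ?_, ?_⟩
  · rw [e1, inner_comb h]; nlinarith
  · rw [e2, inner_comb h]; nlinarith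
  · rw [e1, e2, inner_comb h]; ring
  · have := inner_comb h (cos α) (sin α) 0 0 0 1
    rw [← e1, ← e3] at this
    rw [this]; ring
  · have := inner_comb h (-sin α) (cos α) 0 0 0 1
    rw [← e2, ← e3] at this
    rw [this]; ring

theorem seg_le {c p q x : E3} {B : ℝ} (hx : x ∈ segment ℝ p q) (h1 : (inner ℝ c p : ℝ) ≤ B)
    (h2 : (inner ℝ c q : ℝ) ≤ B) : (inner ℝ c x : ℝ) ≤ B := by
  obtain ⟨α, β, hα, hβ, hαβ, rfl⟩ := hx
  rw [inner_add_right, inner_smul_right, inner_smul_right]
  have e : α = 1 - β := by linarith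
  subst e
  nlinarith

theorem le_seg {c p q x : E3} {B : ℝ} (hx : x ∈ segment ℝ p q) (h1 : B ≤ (inner ℝ c p : ℝ))
    (h2 : B ≤ (inner ℝ c q : ℝ)) : B ≤ (inner ℝ c x : ℝ) := by
  obtain ⟨α, β, hα, hβ, hαβ, rfl⟩ := hx
  rw [inner_add_right, inner_smul_right, inner_smul_right]
  have e : α = 1 - β := by linarith
  subst e
  nlinarith

theorem seg_top {c p q x : E3} {B : ℝ} (hx : x ∈ segment ℝ p q) (h1 : (inner ℝ c p : ℝ) < B)
    (h2 : (inner ℝ c q : ℝ) ≤ B) (he : (inner ℝ c x : ℝ) = B) : x = q := by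
  obtain ⟨α, β, hα, hβ, hαβ, rfl⟩ := hx
  rw [inner_add_right, inner_smul_right, inner_smul_right] at he
  have hα0 : α = 0 := by
    by_contra hne
    have hpos : 0 < α := lt_of_le_of_ne hα (Ne.symm hne)
    have h3 := mul_lt_mul_of_pos_left h1 hpos
    have h4 := mul_le_mul_of_nonneg_left h2 hβ
    have h5 : α * B + β * B = B := by rw [← add_mul, hαβ, one_mul]
    linarith
  have hβ1 : β = 1 := by linarith
  rw [hα0, hβ1, zero_smul, one_smul, zero_add]

end TFLaux

open TFLaux

/-- TFL. The tail is rotated. -/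
theorem t_TFL {n k : ℕ} {P : Fin (n + 1) → E3} {p a b c : E3} {ω η : ℝ} {l s θ : ℕ → ℝ}
    (hD : Data P l θ) (hs : ∀ m, s m = 1 ∨ s m = -1) (hON : ON a b c) (hk : k + 2 ≤ n)
    (hη : 0 < η) (hG : Good n θ (hb k η)) (α : ℝ) (hα : α = az ω s (hb k η) θ k)
    (v : ℕ → E3) (hv : v = vtx p a b c ω l s (hb k η) θ) (hT : SimpleOn v k n)
    (hw : ∀ m, k ≤ m → m ≤ n → 0 ≤ (inner ℝ (-sin α • a + cos α • b) (v m - v k) : ℝ)) :
    JoinedIn (freeSpace P) (chain n p a b c ω l s (hb k η) θ)
      (chain n p a b c ω l (fl k s) (hb k η) θ) := by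
  obtain ⟨hE1, hE2⟩ := t_TEN (p := p) (l := l) (θ := θ) (s := s) (η := η) (k := k) hON α hα v hv
  obtain ⟨e, he⟩ : ∃ e : E3, e = cos α • a + sin α • b := ⟨_, rfl⟩
  obtain ⟨w, hwd⟩ : ∃ w : E3, w = -sin α • a + cos α • b := ⟨_, rfl⟩
  rw [← he, ← hwd] at hE2
  rw [← hwd] at hw
  have hON2 : ON e w c := by rw [he, hwd]; exact ON_plane hON α
  -- heights
  have hstep : ∀ m, (inner ℝ c (v (m + 1)) : ℝ) = inner ℝ c (v m) + l m * sin (hb k η m) := by
    intro m; rw [hv]; exact height_succ hON m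
  have hb0 : ∀ m, k ≤ m → hb k η m = 0 := by
    intro m hm; unfold hb; rw [if_neg (by omega)]
  have hb1 : ∀ m, m < k → hb k η m = η := by
    intro m hm; unfold hb; rw [if_pos hm]
  have hflat : ∀ i, (inner ℝ c (v (k + i)) : ℝ) = inner ℝ c (v k) := by
    intro i
    induction i with
    | zero => rfl
    | succ i ih =>
      rw [← add_assoc, hstep, hb0 _ (by omega), sin_zero, mul_zero, add_zero, ih]
  have hflat' : ∀ m, k ≤ m → (inner ℝ c (v m) : ℝ) = inner ℝ c (v k) := by
    intro m hm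
    obtain ⟨i, rfl⟩ := Nat.exists_eq_add_of_le hm
    exact hflat i
  have hclimb : ∀ m, m < k → (inner ℝ c (v m) : ℝ) < inner ℝ c (v (m + 1)) := by
    intro m hm
    rw [hstep, hb1 m hm]
    have h1 := hG.lt m
    rw [hb1 m hm] at h1
    have : 0 < sin η := sin_pos_of_pos_of_lt_pi hη (by linarith [pi_pos])
    have := mul_pos (hD.pos m) this
    linarith
  have hweak : ∀ m, (inner ℝ c (v m) : ℝ) ≤ inner ℝ c (v (m + 1)) := by
    intro m
    by_cases hm : m < k
    · exact (hclimb m hm).le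
    · rw [hstep, hb0 m (by omega), sin_zero, mul_zero, add_zero]
  have hmono : Monotone fun m => (inner ℝ c (v m) : ℝ) := monotone_nat_of_le_succ hweak
  have hdist : ∀ m, dist (v m) (v (m + 1)) = l m := by
    intro m; rw [hv]; exact dist_vtx hON m (hD.pos m)
  have hne : ∀ m, v m ≠ v (m + 1) := by
    intro m h
    have h1 := hdist m
    rw [h, dist_self] at h1
    exact (hD.pos m).ne h1
  have hang : ∀ m, m + 2 ≤ n → EuclideanGeometry.angle (v m) (v (m + 1)) (v (m + 2)) = θ m := by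
    intro m hm
    rw [hv]
    exact angle_vtx hON m (hD.pos _) (hD.pos _) (hs _) (hG.nonneg _) (hG.lt _) (hG.nonneg _)
      (hG.lt _) (hD.ang_nonneg _) (hD.ang_le _) (hG.sum _ hm) (hG.diff _ hm)
  -- the direction of link `k`
  have hk1 : v (k + 1) = v k + l k • e := by
    rw [hv, vtx_succ]
    congr 2
    unfold dir
    rw [hb0 k le_rfl, ← hα, cos_zero, sin_zero, one_mul, one_mul, zero_smul, add_zero, he]
  -- the head is simple
  have hH : SimpleOn v 0 (k + 1) := by
    refine t_CLB (c := c) (fun m _ _ => hne m) (fun m _ _ => hweak m) ?_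
    intro m _ hm
    exact lt_of_lt_of_le (hclimb m (by omega)) (hweak (m + 1))
  -- the family
  obtain ⟨g, hg⟩ : ∃ g : ℝ → ℕ → E3,
      g = fun φ m => if m ≤ k then v m else rotA (v k) e w c φ (v m) := ⟨_, rfl⟩
  have gk : ∀ φ m, m ≤ k → g φ m = v m := by
    intro φ m hm; rw [hg]; simp only []; rw [if_pos hm]
  have grot : ∀ φ m, k ≤ m → g φ m = rotA (v k) e w c φ (v m) := by
    intro φ m hm
    rcases hm.eq_or_lt with h | h
    · subst h
      rw [gk φ k le_rfl]
      have h4 := (t_ROT (v := v k) hON2 φ).2.2.2.1 0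
      rw [zero_smul, add_zero] at h4
      exact h4.symm
    · rw [hg]; simp only []; rw [if_neg (by omega)]
  have gk1 : ∀ φ m, m ≤ k + 1 → g φ m = v m := by
    intro φ m hm
    rcases hm.eq_or_lt with h | h
    · subst h
      rw [grot φ (k + 1) (by omega), hk1]
      exact (t_ROT (v := v k) hON2 φ).2.2.2.1 (l k)
    · exact gk φ m (by omega)
  have hmem : ∀ φ, 0 ≤ φ → φ ≤ π → (fun i : Fin (n + 1) => g φ i.val) ∈ freeSpace P := by
    intro φ hφ0 hφ1
    obtain ⟨-, r2, r3, -, r5, r6, r7⟩ := t_ROT (v := v k) hON2 φ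
    have hsin : 0 ≤ sin φ := sin_nonneg_of_nonneg_of_le_pi hφ0 hφ1
    have ghi : ∀ m, k ≤ m → m ≤ n → (inner ℝ c (v k) : ℝ) ≤ inner ℝ c (g φ m) := by
      intro m hm hmn
      rw [grot φ m hm, r6]
      have h1 : (inner ℝ c (v m - v k) : ℝ) = 0 := by
        rw [inner_sub_right, hflat' m hm, sub_self]
      rw [h1, mul_zero, add_zero]
      have := mul_nonneg hsin (hw m hm hmn)
      linarith
    refine ⟨?_, ?_, ?_⟩
    · rw [t_SMP]
      refine t_GLT (c := c) (k := k) (by omega) ?_ ?_ ?_ ?_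
      · exact simpleOn_congr (fun m _ hm => (gk1 φ m hm).symm) hH
      · refine simpleOn_congr (u := fun m => rotA (v k) e w c φ (v m))
          (fun m hm _ => (grot φ m hm).symm) (simpleOn_map r5 r7 hT)
      · intro i x hi hx
        rw [gk φ i hi.le, gk φ (i + 1) hi] at hx
        rw [gk φ k le_rfl]
        have hle : (inner ℝ c (v (i + 1)) : ℝ) ≤ inner ℝ c (v k) := hmono (show i + 1 ≤ k from hi)
        have hlt : (inner ℝ c (v i) : ℝ) < inner ℝ c (v k) := lt_of_lt_of_le (hclimb i hi) hle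
        refine ⟨seg_le hx hlt.le hle, ?_⟩
        intro hxe
        have hxq := seg_top hx hlt hle hxe
        rcases Nat.lt_or_ge (i + 1) k with h | h
        · exfalso
          rw [hxq] at hxe
          have h5 : (inner ℝ c (v (i + 1)) : ℝ) < inner ℝ c (v k) :=
            lt_of_lt_of_le (hclimb (i + 1) h) (hmono (show i + 1 + 1 ≤ k from h))
          linarith
        · have : i + 1 = k := by omega
          rw [hxq, this]
      · intro j x hj hjn hx
        rw [gk φ k le_rfl]
        exact le_seg hx (ghi j hj.le hjn.le) (ghi (j + 1) (by omega) (by omega))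
    · intro i
      rw [hD.len i]
      show dist (g φ i.val) (g φ (i.val + 1)) = l i.val
      rcases Nat.lt_or_ge i.val (k + 1) with h | h
      · rw [gk1 φ _ h.le, gk1 φ _ h, hdist]
      · rw [grot φ _ (by omega), grot φ _ (by omega), r2, hdist]
    · intro i j hij
      have hi2 : i.val + 2 ≤ n := by have := j.isLt; omega
      rw [hD.ang i j hij]
      show EuclideanGeometry.angle (g φ i.val) (g φ (i.val + 1)) (g φ (j.val + 1)) = θ i.val
      rw [hij]
      rcases Nat.lt_or_ge i.val k with h | h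
      · rw [gk1 φ _ (by omega), gk1 φ _ (by omega), gk1 φ _ (by omega)]
        exact hang _ hi2
      · rw [grot φ _ h, grot φ _ (by omega), grot φ _ (by omega), r3]
        exact hang _ hi2
  -- the path
  have hcont : Continuous fun t : unitInterval => fun i : Fin (n + 1) =>
      g ((t : ℝ) * π) i.val := by
    rw [continuous_pi_iff]
    intro i
    rcases Nat.lt_or_ge k i.val with h | h
    · have : (fun t : unitInterval => g ((t : ℝ) * π) i.val) =
          fun t : unitInterval => rotA (v k) e w c ((t : ℝ) * π) (v i.val) :=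
        funext fun t => grot _ _ h.le
      rw [this]
      unfold rotA rotL
      fun_prop
    · have : (fun t : unitInterval => g ((t : ℝ) * π) i.val) = fun _ => v i.val :=
        funext fun t => gk _ _ h
      rw [this]
      exact continuous_const
  refine ⟨⟨⟨fun t => fun i : Fin (n + 1) => g ((t : ℝ) * π) i.val, hcont⟩, ?_, ?_⟩, ?_⟩
  · funext i
    show g (((0 : unitInterval) : ℝ) * π) i.val = vtx p a b c ω l s (hb k η) θ i.val
    rw [← hv, Set.Icc.coe_zero, zero_mul]
    rcases Nat.lt_or_ge k i.val with h | h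
    · rw [grot _ _ h.le, rotA_zero hON2]
    · exact gk _ _ h
  · funext i
    show g (((1 : unitInterval) : ℝ) * π) i.val = vtx p a b c ω l (fl k s) (hb k η) θ i.val
    rw [Set.Icc.coe_one, one_mul]
    rcases Nat.lt_or_ge k i.val with h | h
    · rw [grot _ _ h.le, hE2 _ h.le]
    · rw [gk _ _ h, hE1 _ h]
  · intro t
    exact hmem _ (mul_nonneg t.2.1 pi_pos.le)
      (by
        have := mul_le_mul_of_nonneg_right t.2.2 pi_pos.le
        rwa [one_mul] at this)

end Pool.Agent.FlatN
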