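import Pool.Agent.FlatN.Defs

/-!
# Bounds of alternating sums (module FLN_ZB, helper73)
-/

set_option autoImplicit false

namespace Pool.Agent.FlatN

open Real Pool.Agent.Lib_helper54.Flat Pool.Agent.FlatW

namespace ZB

/-- Alternating sums of `q` terms from `[0, α]`. -/
theorem alt {α : ℝ} {T : ℕ → ℝ} (q : ℕ) (hT : ∀ i, i < q → 0 ≤ T i ∧ T i ≤ α) :
    -(((q / 2 : ℕ) : ℝ) * α) ≤ ∑ i ∈ Finset.range q, (-1 : ℝ) ^ i * T i ∧
      ∑ i ∈ Finset.range q, (-1 : ℝ) ^ i * T i ≤ (((q + 1) / 2 : ℕ) : ℝ) * α := by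
  induction q with
  | zero => simp
  | succ q ih =>
    obtain ⟨h1, h2⟩ := ih fun i hi => hT i (by omega)
    obtain ⟨h3, h4⟩ := hT q (by omega)
    rw [Finset.sum_range_succ]
    rcases Nat.even_or_odd q with hq | hq
    · obtain ⟨r, hr⟩ := hq
      have e1 : (q + 1) / 2 = q / 2 := by omega
      have e2 : (q + 1 + 1) / 2 = (q + 1) / 2 + 1 := by omega
      have e3 : (-1 : ℝ) ^ q = 1 := by rw [hr]; exact Even.neg_one_pow ⟨r, rfl⟩
      rw [e3, one_mul, e2, e1]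
      rw [e1] at h2
      push_cast
      constructor
      · linarith
      · rw [add_mul, one_mul]; linarith
    · obtain ⟨r, hr⟩ := hq
      have e1 : (q + 1) / 2 = q / 2 + 1 := by omega
      have e2 : (q + 1 + 1) / 2 = (q + 1) / 2 := by omega
      have e3 : (-1 : ℝ) ^ q = -1 := by rw [hr]; exact Odd.neg_one_pow ⟨r, rfl⟩
      rw [e3, e2]
      have h5 : (((q + 1) / 2 : ℕ) : ℝ) = ((q / 2 : ℕ) : ℝ) + 1 := by
        rw [e1]; push_cast; ring
      rw [h5] at h2 ⊢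
      rw [add_mul, one_mul] at h2 ⊢
      constructor
      · linarith
      · linarith

/-- The same for intervals. -/
theorem altIcc {α : ℝ} {T : ℕ → ℝ} {a b q : ℕ} (hα : 0 ≤ α) (hab : a ≤ b)
    (hT : ∀ i, a ≤ i → i ≤ b → 0 ≤ T i ∧ T i ≤ α) (hq : b + 2 - a ≤ 2 * q + 1) :
    |∑ i ∈ Finset.Icc a b, (-1 : ℝ) ^ i * T i| ≤ (q : ℝ) * α := by
  have e1 : Finset.Icc a b = Finset.Ico a (b + 1) := by
    ext x
    rw [Finset.mem_Icc, Finset.mem_Ico]
    omega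
  rw [e1, Finset.sum_Ico_eq_sum_range]
  have e2 : ∑ i ∈ Finset.range (b + 1 - a), (-1 : ℝ) ^ (a + i) * T (a + i) =
      (-1 : ℝ) ^ a * ∑ i ∈ Finset.range (b + 1 - a), (-1 : ℝ) ^ i * T (a + i) := by
    rw [Finset.mul_sum]
    refine Finset.sum_congr rfl fun i _ => ?_
    rw [pow_add]
    ring
  rw [e2, abs_mul, abs_neg_one_pow, one_mul]
  obtain ⟨h1, h2⟩ := alt (α := α) (T := fun i => T (a + i)) (b + 1 - a) fun i hi =>
    hT (a + i) (by omega) (by omega)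
  have h3 : (((b + 1 - a) / 2 : ℕ) : ℝ) * α ≤ (q : ℝ) * α := by
    apply mul_le_mul_of_nonneg_right _ hα
    exact_mod_cast (by omega : (b + 1 - a) / 2 ≤ q)
  have h4 : (((b + 1 - a + 1) / 2 : ℕ) : ℝ) * α ≤ (q : ℝ) * α := by
    apply mul_le_mul_of_nonneg_right _ hα
    exact_mod_cast (by omega : (b + 1 - a + 1) / 2 ≤ q)
  rw [abs_le]
  constructor
  · linarith
  · linarith

end ZB

end Pool.Agent.FlatN
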