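import Pool.Agent.FlatN.MCMB
import Pool.Agent.FlatN.MEKT
import Pool.Agent.FlatN.MEKH
import Pool.Agent.FlatN.MHFP
import Pool.Agent.FlatN.DefsM

/-!
# Flat states joined by flips
-/

set_option autoImplicit false

namespace Pool.Agent.FlatN

open Real Pool.Agent.Lib_helper54.Flat Pool.Agent.FlatW

/-- If the part of `P` after the link `k` is replaced by its mirror image in the line of the link
`k`, then the new part meets the links before the link `k` only on one side of this line (on the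
side into which `u` points). -/
def HalfFlip {n : ℕ} (P : Fin (n + 1) → E3) (k : ℕ) : Prop :=
  ∃ u : E3, (inner ℝ u (vx P (k + 1) - vx P k) : ℝ) = 0 ∧
    ∀ i j x y, i < k → k < j → j < n → x ∈ segment ℝ (vx P i) (vx P (i + 1)) →
      y ∈ segment ℝ (vx P j) (vx P (j + 1)) → x = mir P k y →
      0 < (inner ℝ u (x - vx P k) : ℝ)

theorem pm_eq_neg {x y : ℝ} (hx : x = 1 ∨ x = -1) (hy : y = 1 ∨ y = -1) (h : x ≠ y) :
    x = -y := by
  rcases hx with rfl | rfl <;> rcases hy with rfl | rfl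
  · exact absurd rfl h
  · rw [neg_neg]
  · rfl
  · exact absurd rfl h

theorem pm_mul_pos {x y : ℝ} (hx : x = 1 ∨ x = -1) (hy : y = 1 ∨ y = -1) :
    0 < x * y ↔ x = y := by
  rcases hx with rfl | rfl <;> rcases hy with rfl | rfl <;> norm_num

/-- Sign sequences with the same products agree up to a global sign. -/
theorem sign_core {s s' : ℕ → ℝ} (hs : ∀ k, s k = 1 ∨ s k = -1)
    (hs' : ∀ k, s' k = 1 ∨ s' k = -1) (N : Set ℕ)
    (H : ∀ i ∈ N, ∀ j ∈ N, (s i = s j ↔ s' i = s' j)) :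
    (∀ m ∈ N, s m = s' m) ∨ (∀ m ∈ N, s m = -s' m) := by
  by_cases hex : ∃ i ∈ N, s i ≠ s' i
  · right
    obtain ⟨i, hi, hne⟩ := hex
    intro k hk
    have h3 := H i hi k hk
    by_cases hsk : s k = s' k
    · exfalso
      apply hne
      have m3 := pm_eq_neg (hs i) (hs' i) hne
      by_cases e1 : s i = s k
      · rw [e1, hsk]
        exact (h3.1 e1).symm
      · have e2 : ¬ s' i = s' k := fun h => e1 (h3.2 h)
        rw [pm_eq_neg (hs i) (hs k) e1, pm_eq_neg (hs' i) (hs' k) e2, hsk]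
    · exact pm_eq_neg (hs k) (hs' k) hsk
  · push Not at hex
    exact Or.inl hex

theorem fl_pm {k : ℕ} {s : ℕ → ℝ} (hs : ∀ m, s m = 1 ∨ s m = -1) (m : ℕ) :
    fl k s m = 1 ∨ fl k s m = -1 := by
  unfold fl
  split_ifs
  · rcases hs m with h | h
    · right; rw [h]
    · left; rw [h, neg_neg]
  · exact hs m

theorem fl_eq_iff {k : ℕ} {s : ℕ → ℝ} (hs : ∀ m, s m = 1 ∨ s m = -1) (i j : ℕ) :
    fl k s i = fl k s j ↔ (s i = s j ↔ (i < k ↔ j < k)) := by
  have h0 : s i = -s j ↔ ¬ s i = s j := by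
    constructor
    · intro h h'
      rw [h'] at h
      rcases hs j with h3 | h3 <;> rw [h3] at h <;> norm_num at h
    · exact pm_eq_neg (hs i) (hs j)
  have h0' : -s i = s j ↔ ¬ s i = s j := by
    rw [← h0]
    constructor
    · intro h; rw [← h, neg_neg]
    · intro h; rw [h, neg_neg]
  have h0'' : -s i = -s j ↔ s i = s j := neg_inj
  unfold fl
  by_cases h1 : k ≤ i <;> by_cases h2 : k ≤ j
  · rw [if_pos h1, if_pos h2, h0'']
    have e1 : ¬ i < k := by omega
    have e2 : ¬ j < k := by omega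
    tauto
  · rw [if_pos h1, if_neg h2, h0']
    have e1 : ¬ i < k := by omega
    have e2 : j < k := by omega
    tauto
  · rw [if_neg h1, if_pos h2, h0]
    have e1 : i < k := by omega
    have e2 : ¬ j < k := by omega
    tauto
  · rw [if_neg h1, if_neg h2]
    have e1 : i < k := by omega
    have e2 : j < k := by omega
    tauto

section

variable {n : ℕ} {P Q : Fin (n + 1) → E3} {l θ : ℕ → ℝ}

/-- Two joints that are not loose have a joint between them that is not straight. -/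
theorem exists_between (h1 : ∀ j, θ j ≤ π) (h0 : ∀ j, j + 2 ≤ n → 0 < θ j) {i j : ℕ}
    (hij : i < j) (hj : j + 2 ≤ n) (hi' : ¬ Loose n θ i) (hj' : ¬ Loose n θ j) :
    ∃ m, i < m ∧ m < j ∧ θ m < π := by
  by_contra hc
  push Not at hc
  have hst : ∀ m, i < m → m < j → θ m = π := fun m hm hm' => le_antisymm (h1 m) (hc m hm hm')
  obtain ⟨a1, a2, a3⟩ := of_not_loose h1 h0 (by omega) hi'
  obtain ⟨b1, b2, b3⟩ := of_not_loose h1 h0 (by omega) hj'
  have hL : 0 < Lf θ i := Lf_pos (fun j hj => h0 j (by omega)) h1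
  have hR : 0 < Lf (rv n θ) (n - 2 - j) :=
    Lf_pos (fun j hj => h0 _ (by omega)) fun j => h1 _
  have eL : ∀ d, i + 1 + d ≤ j → Lf θ (i + 1 + d) = Lf θ (i + 1) := by
    intro d
    induction d with
    | zero => intro _; rfl
    | succ d ih =>
      intro hd
      rw [← add_assoc, Lf_succ, hst (i + 1 + d) (by omega) (by omega), ih (by omega)]
      have h2 := Lf_le θ (i + 1)
      rw [min_eq_left (by linarith [pi_pos] : π / 2 ≤ π), sub_self, zero_add]
      exact min_eq_right h2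
  have eR : ∀ d, i + d + 1 ≤ j → Lf (rv n θ) (n - 2 - (j - 1 - d)) =
      Lf (rv n θ) (n - 2 - (j - 1)) := by
    intro d
    induction d with
    | zero => intro _; rfl
    | succ d ih =>
      intro hd
      have e1 : n - 2 - (j - 1 - (d + 1)) = n - 2 - (j - 1 - d) + 1 := by omega
      have e2 : rv n θ (n - 2 - (j - 1 - d)) = π := by
        unfold rv
        rw [(by omega : n - 2 - (n - 2 - (j - 1 - d)) = j - 1 - d)]
        exact hst _ (by omega) (by omega)
      rw [e1, Lf_succ, e2, ih (by omega)]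
      have h2 := Lf_le (rv n θ) (n - 2 - (j - 1))
      rw [min_eq_left (by linarith [pi_pos] : π / 2 ≤ π), sub_self, zero_add]
      exact min_eq_right h2
  have eL1 : Lf θ j = Lf θ (i + 1) := by
    have := eL (j - (i + 1)) (by omega)
    rwa [(by omega : i + 1 + (j - (i + 1)) = j)] at this
  have eR1 : Lf (rv n θ) (n - 2 - i) = Lf (rv n θ) (n - 2 - (j - 1)) := by
    have := eR (j - 1 - i) (by omega)
    rwa [(by omega : j - 1 - (j - 1 - i) = i)] at this
  have eR2 : Lf (rv n θ) (n - 2 - (j - 1)) = min (min (π / 2) (θ j))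
      (π - θ j + Lf (rv n θ) (n - 2 - j)) := by
    rw [(by omega : n - 2 - (j - 1) = n - 2 - j + 1), Lf_succ]
    unfold rv
    rw [(by omega : n - 2 - (n - 2 - j) = j)]
  have eL2 := Lf_succ θ i
  rw [eR1, eR2] at a1 a3
  rw [eL1, eL2] at b1 b2
  set L := Lf θ i
  set R := Lf (rv n θ) (n - 2 - j)
  have p1 := h0 i (by omega)
  have p2 := h0 j (by omega)
  have q1 := h1 i
  have q2 := h1 j
  rcases min_choice (min (π / 2) (θ i)) (π - θ i + L) with u | u
  · rw [u] at b1 b2
    rcases min_choice (π / 2) (θ i) with u' | u' <;> rw [u'] at b1 b2 <;>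
    rcases min_choice (min (π / 2) (θ j)) (π - θ j + R) with v | v
    · linarith
    · linarith
    · rw [v] at a1 a3
      rcases min_choice (π / 2) (θ j) with v' | v' <;> rw [v'] at a1 a3 <;> linarith
    · rw [v] at a1 a3
      linarith
  · rw [u] at b1 b2
    rcases min_choice (min (π / 2) (θ j)) (π - θ j + R) with v | v
    · rw [v] at a1 a3
      rcases min_choice (π / 2) (θ j) with v' | v' <;> rw [v'] at a1 a3 <;> linarith
    · rw [v] at a1 a3
      linarith

/-- Both configurations in frames with a common axis, with equal signs at the joint `i`. -/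
theorem normal_form (hD : Data P l θ) (cP : Coplanar ℝ (Set.range P))
    (cQ : Coplanar ℝ (Set.range Q)) (hQ : Q ∈ freeSpace P) (i : ℕ) :
    ∃ (p q a b c : E3) (ω ω' φ : ℝ) (s s' : ℕ → ℝ), ON a b c ∧
      (∀ k, s k = 1 ∨ s k = -1) ∧ (∀ k, s' k = 1 ∨ s' k = -1) ∧
      P = chain n p a b c ω l s (fun _ => 0) θ ∧
      Q = chain n q a (cos φ • b + sin φ • c) (-sin φ • b + cos φ • c) ω' l s'
        (fun _ => 0) θ ∧ s i = s' i := by
  have hDQ : Data Q l θ := ⟨hD.pos, fun i => by rw [hQ.2.1 i, hD.len i],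
    fun i j hij => by rw [hQ.2.2 i j hij, hD.ang i j hij], hD.ang_nonneg, hD.ang_le⟩
  obtain ⟨c, hcc, hc⟩ := exists_normal cP
  obtain ⟨c', hcc', hc'⟩ := exists_normal cQ
  obtain ⟨a, b, φ, hON, rfl⟩ := exists_two_frames hcc hcc'
  have hON' := ON_rot hON φ
  obtain ⟨ω, s, hs, eP⟩ := flat_repr hD hON hc
  obtain ⟨ω', s', hs', eQ⟩ := flat_repr hDQ hON' hc'
  by_cases hi : s i = s' i
  · exact ⟨_, _, a, b, c, ω, ω', φ, s, s', hON, hs, hs', eP, eQ, hi⟩
  · have eb : cos (φ + π) • b + sin (φ + π) • c = -(cos φ • b + sin φ • c) := by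
      rw [cos_add_pi, sin_add_pi]; module
    refine ⟨_, vx Q 0, a, b, c, ω, -ω', φ + π, s, fun k => -s' k, hON, hs, ?_, eP, ?_,
      pm_eq_neg (hs i) (hs' i) hi⟩
    · intro k
      rcases hs' k with h | h
      · right; simp only [h]
      · left; simp only [h, neg_neg]
    · rw [eb, ← chain_mirror (c := -sin φ • b + cos φ • c)]
      exact eQ

/-- The products of the turns of a flat chain. -/
theorem turn_iff {p a b c : E3} {ω : ℝ} {s : ℕ → ℝ} (hD : Data P l θ) (hP : IsSimple P)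
    (hON : ON a b c) (hs : ∀ k, s k = 1 ∨ s k = -1) {i j : ℕ} (hi : i + 2 ≤ n) (hj : j + 2 ≤ n)
    (hi' : ¬ WeaklyLoose n θ i) (hj' : ¬ WeaklyLoose n θ j) :
    0 < turnProd (chain n p a b c ω l s (fun _ => 0) θ) i j ↔ s i = s j := by
  have hsin : ∀ k, k + 2 ≤ n → ¬ WeaklyLoose n θ k → 0 < sin (θ k) := by
    intro k hk hl
    have h1 := theta_pos hD hP hk
    have h2 : θ k < π := lt_of_le_of_ne (hD.ang_le k) fun he =>
      hl (weaklyLoose_of_loose
        (loose_of_pi hD.ang_le (fun k hk => theta_pos hD hP hk) he))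
    exact sin_pos_of_pos_of_lt_pi h1 h2
  have h1 := mul_pos (mul_pos (hD.pos i) (hD.pos (i + 1))) (mul_pos (hD.pos j) (hD.pos (j + 1)))
  have h2 := mul_pos (hsin i hi hi') (hsin j hj hj')
  rw [turnProd_chain hON hs hD.ang_nonneg hD.ang_le hi hj, mul_pos_iff_of_pos_left h1,
    mul_pos_iff_of_pos_right h2, pm_mul_pos (hs i) (hs j)]

/-- From joined climbing chains to joined flat configurations. -/
theorem join_of_signs (hD : Data P l θ) (hQ : IsSimple Q) {p q a b c : E3}
    {ω ω' φ : ℝ} {s s' h : ℕ → ℝ} (hON : ON a b c)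
    (hs : ∀ k, s k = 1 ∨ s k = -1) (hs' : ∀ k, s' k = 1 ∨ s' k = -1) (gh : Good n θ h)
    (hR : JoinedIn (freeSpace P) P (chain n p a b c ω l s h θ))
    (eQ : Q = chain n q a (cos φ • b + sin φ • c) (-sin φ • b + cos φ • c) ω' l s'
      (fun _ => 0) θ)
    (H : ∀ ε, 0 < ε → Good n θ (fun _ => ε) → JoinedIn (freeSpace P)
      (chain n p a b c ω l s (fun _ => ε) θ) (chain n p a b c ω l s' (fun _ => ε) θ)) :
    JoinedIn (freeSpace P) P Q := by
  have hpos : ∀ k, k + 2 ≤ n → 0 < θ k := fun k hk => theta_pos hD hR.source_mem.1 hk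
  obtain ⟨ε, h0, h1, h2⟩ := exists_eps θ (n - 1) fun k hk => hpos k (by omega)
  have g0 : Good n θ fun _ => 0 := good_const le_rfl (by positivity)
    (fun k hk => by linarith [hpos k hk]) hD.ang_le
  have g1 : Good n θ fun _ => ε := good_const h0.le h1 (fun k hk => h2 k (by omega)) hD.ang_le
  have hON' := ON_rot hON φ
  have m1 := joined_line hD hs hON gh g1 hR.target_mem.1 (fun _ => h0)
  have m2 := joined_rot (q := q) (ω' := ω') (φ := φ) (p := p) (ω := ω) hD hs' hON g1
    (fun _ => h0)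
  have m4 := joined_line hD hs' hON' g0 g1 (eQ ▸ hQ) (fun _ => h0)
  rw [← eQ] at m4
  exact (((hR.trans m1).trans (H ε h0 g1)).trans m2).trans m4.symm

/-- **One-sided end parts.** -/
theorem main_side (hP : IsSimple P) (cP : Coplanar ℝ (Set.range P))
    (cQ : Coplanar ℝ (Set.range Q)) (hQ : Q ∈ freeSpace P) (p0 : ℕ)
    (H : ∀ i j, i < j → j + 2 ≤ n → ¬ WeaklyLoose n (jointAngle P) i →
      ¬ WeaklyLoose n (jointAngle P) j →
      (∀ m, i < m → m < j → WeaklyLoose n (jointAngle P) m) →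
      (p0 ≤ i ∧ ∃ k, i < k ∧ k ≤ j ∧ jointAngle P (k - 1) < π ∧
        RightSide n (len P) (jointAngle P) k) ∨
      (i < p0 ∧ ∃ k, i < k ∧ k ≤ j ∧ jointAngle P k < π ∧
        LeftSide (len P) (jointAngle P) k)) :
    JoinedIn (freeSpace P) P Q := by
  have hD : Data P (len P) (jointAngle P) := data_of_simple hP
  obtain ⟨l, hl⟩ : ∃ l, l = len P := ⟨_, rfl⟩
  obtain ⟨θ, hθ⟩ : ∃ θ, θ = jointAngle P := ⟨_, rfl⟩
  rw [← hθ, ← hl] at hD H
  have hpos : ∀ k, k + 2 ≤ n → 0 < θ k := fun k hk => theta_pos hD hP hk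
  have g0 : Good n θ fun _ => 0 := good_const le_rfl (by positivity)
    (fun k hk => by linarith [hpos k hk]) hD.ang_le
  have hself : P ∈ freeSpace P := ⟨hP, fun _ => rfl, fun _ _ _ => rfl⟩
  obtain ⟨N, hN⟩ : ∃ N : Set ℕ, N = {m | m + 2 ≤ n ∧ ¬ WeaklyLoose n θ m} := ⟨_, rfl⟩
  have hmemN : ∀ m, m ∈ N ↔ m + 2 ≤ n ∧ ¬ WeaklyLoose n θ m := fun m => by rw [hN]; rfl
  by_cases hne : N.Nonempty
  swap
  · obtain ⟨p, q, a, b, c, ω, ω', φ, s, s', hON, hs, hs', eP, eQ, -⟩ :=
      normal_form hD cP cQ hQ 0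
    have hR : JoinedIn (freeSpace P) P (chain n p a b c ω l s (fun _ => 0) θ) := by
      rw [← eP]; exact JoinedIn.refl hself
    refine join_of_signs hD hQ.1 hON hs hs' g0 hR eQ ?_
    intro ε h0 hG
    apply joined_signs' hD hs hs' hON hG (fun _ => h0)
    intro k hk hk'
    exact absurd ⟨k, (hmemN k).2 ⟨hk, hk'⟩⟩ hne
  obtain ⟨j0, hj0, c1, c2⟩ : ∃ j0 ∈ N, (∀ i ∈ N, ∀ j ∈ N, i < j → j0 ≤ i → p0 ≤ i) ∧
      (∀ i ∈ N, ∀ j ∈ N, i < j → j ≤ j0 → i < p0) := by
    by_cases h1 : ∃ m ∈ N, p0 ≤ m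
    · have h2 : ({m | m ∈ N ∧ p0 ≤ m} : Set ℕ).Nonempty := by
        obtain ⟨m, hm, hm'⟩ := h1
        exact ⟨m, hm, hm'⟩
      have h3 := Nat.sInf_mem h2
      refine ⟨_, h3.1, ?_, ?_⟩
      · intro i hi j hj hij hle
        exact h3.2.trans hle
      · intro i hi j hj hij hle
        by_contra hc
        push Not at hc
        have h4 : sInf {m | m ∈ N ∧ p0 ≤ m} ≤ i := Nat.sInf_le ⟨hi, hc⟩
        omega
    · push Not at h1
      have hb : BddAbove N := ⟨n, fun m hm => by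
        have := ((hmemN m).1 hm).1
        omega⟩
      have h3 := Nat.sSup_mem hne hb
      refine ⟨_, h3, ?_, ?_⟩
      · intro i hi j hj hij hle
        have h4 : j ≤ sSup N := le_csSup hb hj
        omega
      · intro i hi j hj hij hle
        exact h1 i hi
  obtain ⟨p, q, a, b, c, ω, ω', φ, s, s', hON, hs, hs', eP, eQ, he⟩ :=
    normal_form hD cP cQ hQ j0
  have hR : JoinedIn (freeSpace P) P (chain n p a b c ω l s (fun _ => 0) θ) := by
    rw [← eP]; exact JoinedIn.refl hself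
  refine join_of_signs hD hQ.1 hON hs hs' g0 hR eQ ?_
  intro ε h0 hG
  have hnb : ∀ i ∈ N, ∀ j ∈ N, i < j → (∀ m, i < m → m < j → m ∉ N) →
      (p0 ≤ i ∧ ∃ k, i < k ∧ k ≤ j ∧ θ (k - 1) < π ∧ RightSide n l θ k) ∨
      (i < p0 ∧ ∃ k, i < k ∧ k ≤ j ∧ θ k < π ∧ LeftSide l θ k) := by
    intro i hi j hj hij hm
    have hj2 := ((hmemN j).1 hj).1
    refine H i j hij hj2 ((hmemN i).1 hi).2 ((hmemN j).1 hj).2 ?_
    intro m h1 h2
    by_contra h3
    exact hm m h1 h2 ((hmemN m).2 ⟨by omega, h3⟩)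
  refine t_CMB N n (fun m hm => by have := ((hmemN m).1 hm).1; omega)
    (fun s s' => JoinedIn (freeSpace P) (chain n p a b c ω l s (fun _ => ε) θ)
      (chain n p a b c ω l s' (fun _ => ε) θ)) (fun _ _ h => h.symm)
    (fun _ _ _ h h' => h.trans h') ?_ j0 hj0 ?_ ?_ s s' hs hs' he
  · intro s s' hs hs' hss
    exact joined_signs' hD hs hs' hON hG (fun _ => h0) fun k hk hk' =>
      hss k ((hmemN k).2 ⟨hk, hk'⟩)
  · intro i hi j hj hij hm hle
    have hj2 := ((hmemN j).1 hj).1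
    rcases hnb i hi j hj hij hm with h | h
    · obtain ⟨-, k, hk1, hk2, hk3, hk4⟩ := h
      obtain ⟨t, ht, hE⟩ := t_EKT (P := P) hD hpos (by omega) (by omega) hk3 hk4
      exact ⟨k, hk1, hk2, t, ht, fun s hs hst => hE s p a b c ω ε hs hON h0 hG
        fun m hm _ => hst m hm⟩
    · exact absurd (c1 i hi j hj hij hle) (by omega)
  · intro i hi j hj hij hm hle
    have hj2 := ((hmemN j).1 hj).1
    rcases hnb i hi j hj hij hm with h | h
    · exact absurd (c2 i hi j hj hij hle) (by omega)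
    · obtain ⟨-, k, hk1, hk2, hk3, hk4⟩ := h
      obtain ⟨t, ht, hE⟩ := t_EKH (P := P) hD hpos (by omega) (by omega) hk3 hk4
      exact ⟨k, hk1, hk2, t, ht, fun s hs hst => hE s p a b c ω ε hs hON h0 hG hst⟩

/-- The half-turn about the line of link `k` is the reflection in this line. -/
theorem rotA_mir {e w c v d y : E3} (hON : ON e w c) {r : ℝ} (hr : 0 < r) (hd : d = r • e) :
    rotA v e w c π y = (2 : ℝ) • (v + ((inner ℝ (y - v) d : ℝ) / (inner ℝ d d : ℝ)) • d) - y := by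
  have h1 := hON.rep (y - v)
  have h2 : (inner ℝ d d : ℝ) = r * r := by
    rw [hd, inner_smul_left, inner_smul_right, hON.aa]
    simp
  have h3 : (inner ℝ (y - v) d : ℝ) = r * inner ℝ e (y - v) := by
    rw [hd, inner_smul_right, real_inner_comm]
  have h4 : y = v + (y - v) := by abel
  unfold rotA rotL
  rw [h2, h3, hd, cos_pi, sin_pi]
  have h5 : (r * (inner ℝ e (y - v) : ℝ) / (r * r)) • (r • e) = (inner ℝ e (y - v) : ℝ) • e := by
    rw [smul_smul]
    congr 1
    field_simp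
  rw [h5]
  have h6 : (2 : ℝ) • (v + (inner ℝ e (y - v) : ℝ) • e) - y =
      v + ((2 : ℝ) • ((inner ℝ e (y - v) : ℝ) • e) - (y - v)) := by
    module
  rw [h6]
  congr 1
  nth_rewrite 5 [h1]
  module

/-- **Half flip.** -/
theorem main_half (hP : IsSimple P) (cP : Coplanar ℝ (Set.range P))
    (cQ : Coplanar ℝ (Set.range Q)) (hQ : Q ∈ freeSpace P) {k : ℕ} (hk1 : 1 ≤ k)
    (hk : k + 2 ≤ n) (hπ : jointAngle P (k - 1) < π) (hF : HalfFlip P k)
    (H : ∀ i j, i + 2 ≤ n → j + 2 ≤ n → ¬ WeaklyLoose n (jointAngle P) i →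
      ¬ WeaklyLoose n (jointAngle P) j →
      (0 < turnProd Q i j ↔ (0 < turnProd P i j ↔ (i < k ↔ j < k)))) :
    JoinedIn (freeSpace P) P Q := by
  have hD : Data P (len P) (jointAngle P) := data_of_simple hP
  obtain ⟨l, hl⟩ : ∃ l, l = len P := ⟨_, rfl⟩
  obtain ⟨θ, hθ⟩ : ∃ θ, θ = jointAngle P := ⟨_, rfl⟩
  rw [← hθ, ← hl] at hD
  rw [← hθ] at H hπ
  have hpos : ∀ k, k + 2 ≤ n → 0 < θ k := fun k hk => theta_pos hD hP hk
  obtain ⟨p, q, a, b, c, ω, ω', φ, s, s', hON, hs, hs', eP, eQ, -⟩ :=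
    normal_form hD cP cQ hQ 0
  obtain ⟨v, hv⟩ : ∃ v, v = vtx p a b c ω l s (fun _ => 0) θ := ⟨_, rfl⟩
  obtain ⟨α, hα⟩ : ∃ α, α = az ω s (fun _ => 0) θ k := ⟨_, rfl⟩
  have hvx : ∀ m, m ≤ n → vx P m = v m := by
    intro m hm
    rw [hv, eP, vx_chain hm]
  obtain ⟨e, he⟩ : ∃ e, e = cos α • a + sin α • b := ⟨_, rfl⟩
  obtain ⟨w, hw⟩ : ∃ w, w = -sin α • a + cos α • b := ⟨_, rfl⟩
  have hON2 : ON e w c := by
    have e1 : e = cos α • a + sin α • b + (0 : ℝ) • c := by rw [he]; module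
    have e2 : w = (-sin α) • a + cos α • b + (0 : ℝ) • c := by rw [hw]; module
    have hsc := sin_sq_add_cos_sq α
    refine ⟨?_, ?_, hON.cc, ?_, ?_, ?_⟩
    · rw [e1, inner_comb hON]; nlinarith
    · rw [e2, inner_comb hON]; nlinarith
    · rw [e1, e2, inner_comb hON]; ring
    · rw [he, inner_add_left, inner_smul_left, inner_smul_left, hON.ac, hON.bc]
      simp
    · rw [hw, inner_add_left, inner_smul_left, inner_smul_left, hON.ac, hON.bc]
      simp
  have hdir : v (k + 1) - v k = l k • e := by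
    rw [hv, vtx_succ, he, hα]
    unfold dir
    simp only [cos_zero, sin_zero, one_mul, zero_smul, add_zero]
    abel
  -- all vertices are in the plane
  have hplane1 : ∀ m, (inner ℝ c (v m) : ℝ) = inner ℝ c (v 0) := by
    intro m
    induction m with
    | zero => rfl
    | succ m ih =>
      rw [hv, height_succ hON]
      simp only [sin_zero, mul_zero, add_zero]
      rw [← hv]
      exact ih
  obtain ⟨u, hu, hF⟩ := hF
  have hue : (inner ℝ u e : ℝ) = 0 := by
    rw [hvx k (by omega), hvx (k + 1) (by omega), hdir, inner_smul_right] at hu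
    exact (mul_eq_zero.1 hu).resolve_left (hD.pos k).ne'
  obtain ⟨σ, hσ, hcross⟩ : ∃ σ : ℝ, (σ = 1 ∨ σ = -1) ∧
      ∀ i j x y, i < k → k < j → j < n → x ∈ segment ℝ (v i) (v (i + 1)) →
      y ∈ segment ℝ (v j) (v (j + 1)) →
      x = rotA (v k) e w c π y → σ * (inner ℝ w (x - v k) : ℝ) < 0 := by
    have key : ∀ i j x y, i < k → k < j → j < n → x ∈ segment ℝ (v i) (v (i + 1)) →
        y ∈ segment ℝ (v j) (v (j + 1)) → x = rotA (v k) e w c π y →
        0 < (inner ℝ u w : ℝ) * (inner ℝ w (x - v k) : ℝ) := by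
      intro i j x y hi hj hjn hx hy hxy
      have h1 := hF i j x y hi hj hjn (by rw [hvx i (by omega), hvx (i + 1) (by omega)]; exact hx)
        (by rw [hvx j (by omega), hvx (j + 1) (by omega)]; exact hy) (by
          unfold mir
          rw [hvx k (by omega), hvx (k + 1) (by omega), hxy]
          exact rotA_mir hON2 (hD.pos k) hdir)
      rw [hvx k (by omega)] at h1
      have hc0 : (inner ℝ c (x - v k) : ℝ) = 0 := by
        obtain ⟨α', β', h2, h3, h4, rfl⟩ := hx
        rw [inner_sub_right, inner_add_right, inner_smul_right, inner_smul_right, hplane1 i,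
          hplane1 (i + 1), hplane1 k]
        have : α' = 1 - β' := by linarith
        rw [this]; ring
      have h2 := hON2.rep (x - v k)
      rw [hc0, zero_smul, add_zero] at h2
      rw [h2, inner_add_right, inner_smul_right, inner_smul_right, hue, mul_zero, zero_add] at h1
      rw [mul_comm]
      exact h1
    rcases lt_or_ge 0 (inner ℝ u w : ℝ) with h1 | h1
    · refine ⟨-1, Or.inr rfl, ?_⟩
      intro i j x y hi hj hjn hx hy hxy
      have h2 := key i j x y hi hj hjn hx hy hxy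
      have h3 : 0 < (inner ℝ w (x - v k) : ℝ) := (mul_pos_iff_of_pos_left h1).1 h2
      linarith
    · refine ⟨1, Or.inl rfl, ?_⟩
      intro i j x y hi hj hjn hx hy hxy
      have h2 := key i j x y hi hj hjn hx hy hxy
      by_contra h3
      push Not at h3
      rw [one_mul] at h3
      have h4 := mul_nonneg (neg_nonneg.2 h1) h3
      rw [neg_mul] at h4
      linarith
  rw [he, hw] at hcross
  obtain ⟨η, p', ω'', hη, gη, hJ⟩ := t_HFP hD hs hON hk1 hk hpos hπ hP eP α hα v hv σ hσ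
    hcross
  -- the signs
  obtain ⟨N, hN⟩ : ∃ N : Set ℕ, N = {m | m + 2 ≤ n ∧ ¬ WeaklyLoose n θ m} := ⟨_, rfl⟩
  have hmemN : ∀ m, m ∈ N ↔ m + 2 ≤ n ∧ ¬ WeaklyLoose n θ m := fun m => by rw [hN]; rfl
  have hkey : ∀ i ∈ N, ∀ j ∈ N, (fl k s i = fl k s j ↔ s' i = s' j) := by
    intro i hi j hj
    rw [hmemN] at hi hj
    have h1 := H i j hi.1 hj.1 hi.2 hj.2
    have h2 : 0 < turnProd P i j ↔ s i = s j := by
      have := turn_iff (p := p) (ω := ω) hD hP hON hs hi.1 hj.1 hi.2 hj.2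
      rwa [← eP] at this
    have h3 : 0 < turnProd Q i j ↔ s' i = s' j := by
      have := turn_iff (p := q) (ω := ω') hD hP (ON_rot hON φ) hs' hi.1 hj.1 hi.2 hj.2
      rwa [← eQ] at this
    rw [fl_eq_iff hs, ← h2, ← h3, h1]
  rcases sign_core (fl_pm hs) hs' N hkey with h | h
  · refine join_of_signs hD hQ.1 hON (fl_pm hs) hs' gη hJ eQ ?_
    intro ε h0 hG
    exact joined_signs' hD (fl_pm hs) hs' hON hG (fun _ => h0) fun m hm hm' =>
      h m ((hmemN m).2 ⟨hm, hm'⟩)
  · have eb : cos (φ + π) • b + sin (φ + π) • c = -(cos φ • b + sin φ • c) := by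
      rw [cos_add_pi, sin_add_pi]; module
    have hs2 : ∀ m, (fun m => -s' m) m = 1 ∨ (fun m => -s' m) m = -1 := by
      intro m
      rcases hs' m with h | h
      · right; simp only [h]
      · left; simp only [h, neg_neg]
    refine join_of_signs (q := q) (φ := φ + π) (ω' := -ω') (s' := fun m => -s' m) hD hQ.1 hON
      (fl_pm hs) hs2 gη hJ ?_ ?_
    · rw [eb, ← chain_mirror (c := -sin φ • b + cos φ • c)]
      exact eQ
    · intro ε h0 hG
      exact joined_signs' hD (fl_pm hs) hs2 hON hG (fun _ => h0) fun m hm hm' =>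
        h m ((hmemN m).2 ⟨hm, hm'⟩)

end

end Pool.Agent.FlatN
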