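import Pool.Agent.FlatN.Main
import Pool.Agent.FlatN.MEHF
import Pool.Agent.FlatN.MEHH
import Pool.Agent.FlatN.MORI

/-!
# Sequences of half flips of plane configurations
-/

set_option autoImplicit false

namespace Pool.Agent.FlatN

open Real Pool.Agent.Lib_helper54.Flat Pool.Agent.FlatW

section

variable {n : ℕ} {P Q W W' : Fin (n + 1) → E3} {l θ : ℕ → ℝ}

/-- `P` is joined to the climbing chains with the signs `± s`, in all frames. -/
def Reach {n : ℕ} (P : Fin (n + 1) → E3) (l θ : ℕ → ℝ) (ε : ℝ) (s : ℕ → ℝ) : Prop :=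
  ∀ (a b c : E3), ON a b c → ∀ (p : E3) (ω : ℝ),
    JoinedIn (freeSpace P) P (chain n p a b c ω l s (fun _ => ε) θ) ∧
    JoinedIn (freeSpace P) P (chain n p a b c ω l (fun m => -s m) (fun _ => ε) θ)

theorem neg_pm {s : ℕ → ℝ} (hs : ∀ m, s m = 1 ∨ s m = -1) (m : ℕ) :
    (fun m => -s m) m = 1 ∨ (fun m => -s m) m = -1 := by
  rcases hs m with h | h
  · right; simp only [h]
  · left; simp only [h, neg_neg]

theorem neg_neg_fun (s : ℕ → ℝ) : (fun m => -(fun m => -s m) m) = s := by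
  funext m
  simp

theorem Reach.neg {ε : ℝ} {s : ℕ → ℝ} (h : Reach P l θ ε s) : Reach P l θ ε (fun m => -s m) := by
  intro a b c hON p ω
  refine ⟨(h a b c hON p ω).2, ?_⟩
  rw [neg_neg_fun]
  exact (h a b c hON p ω).1

theorem reach_of (hD : Data P l θ) {ε : ℝ} (h0 : 0 < ε) (g1 : Good n θ fun _ => ε)
    {s : ℕ → ℝ} (hs : ∀ m, s m = 1 ∨ s m = -1) {p p' a b c : E3} {ω ω' : ℝ} (hON : ON a b c)
    (j1 : JoinedIn (freeSpace P) P (chain n p a b c ω l s (fun _ => ε) θ))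
    (j2 : JoinedIn (freeSpace P) P (chain n p' a b c ω' l (fun m => -s m) (fun _ => ε) θ)) :
    Reach P l θ ε s := by
  intro a' b' c' hON' q φ
  rcases t_ORI hD hON hON' with h | h
  · exact ⟨j1.trans (h p q ω φ s _ hs g1 fun _ => h0),
      j2.trans (h p' q ω' φ _ _ (neg_pm hs) g1 fun _ => h0)⟩
  · have e1 := h p' q ω' φ _ _ (neg_pm hs) g1 fun _ => h0
    rw [neg_neg_fun] at e1
    exact ⟨j2.trans e1, j1.trans (h p q ω φ s _ hs g1 fun _ => h0)⟩

/-- The signs at the other joints do not matter. -/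
theorem Reach.agree (hD : Data P l θ) {ε : ℝ} (h0 : 0 < ε) (g1 : Good n θ fun _ => ε)
    {s s' : ℕ → ℝ} (hs : ∀ m, s m = 1 ∨ s m = -1) (hs' : ∀ m, s' m = 1 ∨ s' m = -1)
    (h : Reach P l θ ε s)
    (H : ∀ i j, i + 2 ≤ n → j + 2 ≤ n → ¬ WeaklyLoose n θ i → ¬ WeaklyLoose n θ j →
      (s i = s j ↔ s' i = s' j)) : Reach P l θ ε s' := by
  have key : ∀ t : ℕ → ℝ, (∀ m, t m = 1 ∨ t m = -1) → Reach P l θ ε t →
      (∀ m, m + 2 ≤ n → ¬ WeaklyLoose n θ m → t m = s' m) → Reach P l θ ε s' := by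
    intro t ht hR ha
    have hON : ∃ a b c : E3, ON a b c := by
      obtain ⟨c, hcc, -⟩ := exists_unit_perp (⊥ : Submodule ℝ E3) (by
        rw [finrank_bot]; norm_num)
      obtain ⟨a, b, φ, hab, -⟩ := exists_two_frames hcc hcc
      exact ⟨a, b, c, hab⟩
    obtain ⟨a, b, c, hab⟩ := hON
    refine reach_of (p := 0) (p' := 0) (ω := 0) (ω' := 0) hD h0 g1 hs' hab ?_ ?_
    · exact (hR a b c hab 0 0).1.trans (joined_signs' hD ht hs' hab g1 (fun _ => h0) ha)
    · refine (hR a b c hab 0 0).2.trans (joined_signs' hD (neg_pm ht) (neg_pm hs') hab g1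
        (fun _ => h0) ?_)
      intro m hm hm'
      show -t m = -s' m
      rw [ha m hm hm']
  obtain ⟨N, hN⟩ : ∃ N : Set ℕ, N = {m | m + 2 ≤ n ∧ ¬ WeaklyLoose n θ m} := ⟨_, rfl⟩
  have hmemN : ∀ m, m ∈ N ↔ m + 2 ≤ n ∧ ¬ WeaklyLoose n θ m := fun m => by rw [hN]; rfl
  rcases sign_core hs hs' N (fun i hi j hj => by
    rw [hmemN] at hi hj
    exact H i j hi.1 hj.1 hi.2 hj.2) with h1 | h1
  · exact key s hs h fun m hm hm' => h1 m ((hmemN m).2 ⟨hm, hm'⟩)
  · refine key (fun m => -s m) (neg_pm hs) h.neg ?_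
    intro m hm hm'
    show -s m = s' m
    rw [h1 m ((hmemN m).2 ⟨hm, hm'⟩), neg_neg]

theorem eb_pi (b c : E3) : cos π • b + sin π • c = -b := by
  rw [cos_pi, sin_pi]; module

/-- A simple flat configuration is joined to both climbing chains. -/
theorem reach_flat (hD : Data P l θ) (hP : IsSimple P) {ε : ℝ} (h0 : 0 < ε)
    (g1 : Good n θ fun _ => ε) {s : ℕ → ℝ} (hs : ∀ m, s m = 1 ∨ s m = -1) {p a b c : E3} {ω : ℝ}
    (hON : ON a b c) (eP : P = chain n p a b c ω l s (fun _ => 0) θ) : Reach P l θ ε s := by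
  have hpos : ∀ k, k + 2 ≤ n → 0 < θ k := fun k hk => theta_pos hD hP hk
  have g0 : Good n θ fun _ => 0 := good_const le_rfl (by positivity)
    (fun k hk => by linarith [hpos k hk]) hD.ang_le
  have m1 := joined_line hD hs hON g0 g1 (eP ▸ hP) (fun _ => h0)
  rw [← eP] at m1
  have eP2 : P = chain n p a (cos π • b + sin π • c) (-sin π • b + cos π • c) (-ω) l
      (fun m => -s m) (fun _ => 0) θ := by
    rw [eb_pi, ← chain_mirror (c := c)]
    exact eP
  have m2 := joined_line hD (neg_pm hs) (ON_rot hON π) g0 g1 (eP2 ▸ hP) (fun _ => h0)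
  rw [← eP2] at m2
  have m3 := joined_rot (P := P) (q := p) (ω' := -ω) (φ := π) (p := p) (ω := ω) hD (neg_pm hs)
    hON g1 (fun _ => h0)
  exact reach_of hD h0 g1 hs hON m1 (m2.trans m3.symm)

theorem simpleOn_congr {u u' : ℕ → E3} {a b : ℕ} (h : ∀ m, a ≤ m → m ≤ b → u m = u' m)
    (H : SimpleOn u a b) : SimpleOn u' a b := by
  obtain ⟨h1, h2, h3⟩ := H
  refine ⟨?_, ?_, ?_⟩
  · intro i hi hi'
    rw [← h i hi (by omega), ← h (i + 1) (by omega) (by omega)]
    exact h1 i hi hi'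
  · intro i j hi hij hj
    rw [← h i hi (by omega), ← h (i + 1) (by omega) (by omega), ← h j (by omega) (by omega),
      ← h (j + 1) (by omega) (by omega)]
    exact h2 i j hi hij hj
  · intro i hi hi'
    rw [← h i hi (by omega), ← h (i + 1) (by omega) (by omega), ← h (i + 2) (by omega) (by omega)]
    exact h3 i hi hi'

theorem ON_inplane {a b c : E3} (hON : ON a b c) (α : ℝ) :
    ON (cos α • a + sin α • b) (-sin α • a + cos α • b) c := by
  have e1 : cos α • a + sin α • b = cos α • a + sin α • b + (0 : ℝ) • c := by module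
  have e2 : -sin α • a + cos α • b = (-sin α) • a + cos α • b + (0 : ℝ) • c := by module
  have hsc := sin_sq_add_cos_sq α
  refine ⟨?_, ?_, hON.cc, ?_, ?_, ?_⟩
  · rw [e1, inner_comb hON]; nlinarith
  · rw [e2, inner_comb hON]; nlinarith
  · rw [e1, e2, inner_comb hON]; ring
  · rw [inner_add_left, inner_smul_left, inner_smul_left, hON.ac, hON.bc]
    simp
  · rw [inner_add_left, inner_smul_left, inner_smul_left, hON.ac, hON.bc]
    simp

/-- The side condition in the frame of the chain. -/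
theorem side_sigma {a b c u : E3} (hON : ON a b c) (hu0 : u ≠ 0) (huc : (inner ℝ c u : ℝ) = 0)
    {r : ℝ} (hr : 0 < r) {α : ℝ} {d : E3} (hd : d = r • (cos α • a + sin α • b))
    (hud : (inner ℝ u d : ℝ) = 0) :
    ∃ σ : ℝ, (σ = 1 ∨ σ = -1) ∧ ∀ y : E3,
      ((inner ℝ u y : ℝ) < 0 ↔ σ * (inner ℝ (-sin α • a + cos α • b) y : ℝ) < 0) ∧
      ((inner ℝ u y : ℝ) ≤ 0 ↔ σ * (inner ℝ (-sin α • a + cos α • b) y : ℝ) ≤ 0) := by
  have hON2 := ON_inplane hON α
  obtain ⟨e, he⟩ : ∃ e, e = cos α • a + sin α • b := ⟨_, rfl⟩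
  obtain ⟨w, hw⟩ : ∃ w, w = -sin α • a + cos α • b := ⟨_, rfl⟩
  rw [← he, ← hw] at hON2
  rw [← he] at hd
  rw [← hw]
  have hue : (inner ℝ e u : ℝ) = 0 := by
    rw [hd, inner_smul_right, real_inner_comm] at hud
    exact (mul_eq_zero.1 hud).resolve_left hr.ne'
  have hrep := hON2.rep u
  rw [hue, huc, zero_smul, zero_smul, zero_add, add_zero] at hrep
  obtain ⟨τ, hτ⟩ : ∃ τ : ℝ, τ = inner ℝ w u := ⟨_, rfl⟩
  rw [← hτ] at hrep
  have hτ0 : τ ≠ 0 := by
    intro h
    apply hu0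
    rw [hrep, h, zero_smul]
  have hy : ∀ y : E3, (inner ℝ u y : ℝ) = τ * inner ℝ w y := by
    intro y
    rw [hrep, inner_smul_left]
    simp
  rcases lt_or_gt_of_ne hτ0 with h | h
  · refine ⟨-1, Or.inr rfl, fun y => ?_⟩
    rw [hy y]
    constructor
    · constructor
      · intro h1
        nlinarith
      · intro h1
        nlinarith
    · constructor
      · intro h1
        by_contra h2
        push Not at h2
        nlinarith
      · intro h1
        nlinarith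
  · refine ⟨1, Or.inl rfl, fun y => ?_⟩
    rw [hy y]
    constructor
    · constructor
      · intro h1
        by_contra h2
        push Not at h2
        nlinarith
      · intro h1
        nlinarith
    · constructor
      · intro h1
        by_contra h2
        push Not at h2
        nlinarith
      · intro h1
        nlinarith

/-- Data of a plane chain in a frame. -/
theorem plane_facts {q a b c : E3} {ω : ℝ} {s : ℕ → ℝ}
    (eW : W = chain n q a b c ω l s (fun _ => 0) θ) {k : ℕ} (hk : k + 1 ≤ n) :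
    (∀ m, m ≤ n → vx W m = vtx q a b c ω l s (fun _ => 0) θ m) ∧
    vtx q a b c ω l s (fun _ => 0) θ (k + 1) - vtx q a b c ω l s (fun _ => 0) θ k =
      l k • (cos (az ω s (fun _ => 0) θ k) • a + sin (az ω s (fun _ => 0) θ k) • b) := by
  refine ⟨fun m hm => by rw [eW, vx_chain hm], ?_⟩
  rw [vtx_succ]
  unfold dir
  simp only [cos_zero, sin_zero, one_mul, zero_smul, add_zero]
  abel

/-- A tail flip of a plane configuration, for the climbing chains in its frame. -/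
theorem tail_move (hD : Data P l θ) {k : ℕ} (hk1 : 1 ≤ k) (hk : k + 2 ≤ n)
    (hpos : ∀ j, j + 2 ≤ n → 0 < θ j) (hπ : θ (k - 1) < π) {q a b c : E3} {ω : ℝ} {s : ℕ → ℝ}
    (hs : ∀ m, s m = 1 ∨ s m = -1) (hON : ON a b c)
    (eW : W = chain n q a b c ω l s (fun _ => 0) θ)
    (cW : ∀ v ∈ vectorSpan ℝ (Set.range W), (inner ℝ c v : ℝ) = 0) (hF : TailFlip W k)
    {ε : ℝ} (h0 : 0 < ε) (g1 : Good n θ fun _ => ε) :
    ∃ (p' : E3) (ω' : ℝ), JoinedIn (freeSpace P) (chain n p' a b c ω' l s (fun _ => ε) θ)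
      (chain n p' a b c ω' l (fl k s) (fun _ => ε) θ) := by
  obtain ⟨hS, u, hu, hu0, hud, hF⟩ := hF
  obtain ⟨f1, f2⟩ := plane_facts (l := l) (θ := θ) eW (k := k) (by omega)
  obtain ⟨v, hv⟩ : ∃ v, v = vtx q a b c ω l s (fun _ => 0) θ := ⟨_, rfl⟩
  obtain ⟨α, hα⟩ : ∃ α, α = az ω s (fun _ => 0) θ k := ⟨_, rfl⟩
  rw [← hv] at f1 f2
  rw [← hα] at f2
  have hud' : (inner ℝ u (v (k + 1) - v k) : ℝ) = 0 := by
    rw [← f1 k (by omega), ← f1 (k + 1) (by omega)]; exact hud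
  obtain ⟨σ, hσ, hside⟩ := side_sigma hON hu0 (cW u hu) (hD.pos k) f2 hud'
  have hT : SimpleOn v k n := simpleOn_congr (fun m hm hm' => f1 m hm') hS
  obtain ⟨η, p', ω', hη, gη, hJ⟩ := t_EHF (P := P) hD hs hON hk1 hk hpos hπ α hα v hv hT σ hσ
    (by
      intro i j x y hi hj hjn hneg hx hy hle
      have h1 := hF i j x y hi hj hjn
        (by
          rw [f1 k (by omega), f1 j (by omega), f1 (j + 1) (by omega)]
          rcases hneg with h | h
          · exact Or.inl ((hside _).1.2 h)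
          · exact Or.inr ((hside _).1.2 h))
        (by rw [f1 i (by omega), f1 (i + 1) (by omega)]; exact hx)
        (by rw [f1 j (by omega), f1 (j + 1) (by omega)]; exact hy)
        (by rw [f1 k (by omega)]; exact (hside _).2.2 hle)
      refine ⟨h1.1, ?_⟩
      have h2 := h1.2
      unfold mir at h2
      rw [f1 k (by omega), f1 (k + 1) (by omega)] at h2
      rw [rotA_mir (ON_inplane hON α) (hD.pos k) f2]
      exact h2)
  refine ⟨p', ω', ?_⟩
  have m1 := joined_line hD hs hON gη g1 hJ.source_mem.1 (fun _ => h0)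
  have m2 := joined_line hD (fl_pm hs) hON gη g1 hJ.target_mem.1 (fun _ => h0)
  exact (m1.symm.trans hJ).trans m2

theorem fr_neg_fl (k : ℕ) (s : ℕ → ℝ) : fr k s = fun m => -fl k s m := by
  funext m
  unfold fr fl
  by_cases h : k ≤ m
  · rw [if_pos h, if_neg (by omega), neg_neg]
  · rw [if_neg h, if_pos (by omega)]

/-- A head flip. -/
theorem head_move (hD : Data P l θ) {k : ℕ} (hk1 : 1 ≤ k) (hk : k + 2 ≤ n)
    (hpos : ∀ j, j + 2 ≤ n → 0 < θ j) (hπ : θ k < π) {q a b c : E3} {ω : ℝ} {s : ℕ → ℝ}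
    (hs : ∀ m, s m = 1 ∨ s m = -1) (hON : ON a b c)
    (eW : W = chain n q a b c ω l s (fun _ => 0) θ)
    (cW : ∀ v ∈ vectorSpan ℝ (Set.range W), (inner ℝ c v : ℝ) = 0) (hF : HeadFlip W k)
    {ε : ℝ} (h0 : 0 < ε) (g1 : Good n θ fun _ => ε) :
    ∃ (p' q' : E3) (ω' φ' : ℝ), JoinedIn (freeSpace P) (chain n q' a b c φ' l s (fun _ => ε) θ)
      (chain n p' a b c ω' l (fun m => -fl k s m) (fun _ => ε) θ) := by
  obtain ⟨hS, u, hu, hu0, hud, hF⟩ := hF
  obtain ⟨f1, f2⟩ := plane_facts (l := l) (θ := θ) eW (k := k) (by omega)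
  obtain ⟨v, hv⟩ : ∃ v, v = vtx q a b c ω l s (fun _ => 0) θ := ⟨_, rfl⟩
  obtain ⟨α, hα⟩ : ∃ α, α = az ω s (fun _ => 0) θ k := ⟨_, rfl⟩
  rw [← hv] at f1 f2
  rw [← hα] at f2
  have hud' : (inner ℝ u (v (k + 1) - v k) : ℝ) = 0 := by
    rw [← f1 k (by omega), ← f1 (k + 1) (by omega)]; exact hud
  obtain ⟨σ, hσ, hside⟩ := side_sigma hON hu0 (cW u hu) (hD.pos k) f2 hud'
  have hT : SimpleOn v 0 (k + 1) := simpleOn_congr (fun m hm hm' => f1 m (by omega)) hS
  obtain ⟨η, p', ω', hη, gη, hJ⟩ := t_EHH (P := P) hD hs hON hk1 hk hpos hπ α hα v hv hT σ hσ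
    (by
      intro i j x y hi hj hjn hneg hx hy hle
      have h1 := hF i j x y hi hj hjn
        (by
          rw [f1 k (by omega), f1 i (by omega), f1 (i + 1) (by omega)]
          rcases hneg with h | h
          · exact Or.inl ((hside _).1.2 h)
          · exact Or.inr ((hside _).1.2 h))
        (by rw [f1 i (by omega), f1 (i + 1) (by omega)]; exact hx)
        (by rw [f1 j (by omega), f1 (j + 1) (by omega)]; exact hy)
        (by rw [f1 k (by omega)]; exact (hside _).2.2 hle)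
      refine ⟨h1.1, ?_⟩
      have h2 := h1.2
      unfold mir at h2
      rw [f1 k (by omega), f1 (k + 1) (by omega)] at h2
      rw [rotA_mir (ON_inplane hON α) (hD.pos k) f2]
      exact h2)
  have hfr : ∀ m, fr k s m = 1 ∨ fr k s m = -1 := by
    intro m
    rw [fr_neg_fl]
    exact neg_pm (fl_pm hs) m
  refine ⟨p', q, ω', ω, ?_⟩
  have m1 := joined_line hD hs hON gη g1 hJ.source_mem.1 (fun _ => h0)
  have m2 := joined_line hD hfr hON gη g1 hJ.target_mem.1 (fun _ => h0)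
  rw [← fr_neg_fl]
  exact (m1.symm.trans hJ).trans m2

/-- A frame for a plane configuration. -/
theorem plane_rep (hD : Data P l θ) (hW : IsPlane P W) :
    ∃ (q a b c : E3) (ω : ℝ) (s : ℕ → ℝ), ON a b c ∧ (∀ m, s m = 1 ∨ s m = -1) ∧
      W = chain n q a b c ω l s (fun _ => 0) θ ∧
      ∀ v ∈ vectorSpan ℝ (Set.range W), (inner ℝ c v : ℝ) = 0 := by
  obtain ⟨cW, lW, aW⟩ := hW
  have hDW : Data W l θ := ⟨hD.pos, fun i => by rw [lW i, hD.len i],
    fun i j hij => by rw [aW i j hij, hD.ang i j hij], hD.ang_nonneg, hD.ang_le⟩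
  have h1 := coplanar_iff_finrank_le_two.1 cW
  obtain ⟨c, hcc, h2⟩ := exists_unit_perp (vectorSpan ℝ (Set.range W)) (by omega)
  obtain ⟨a, b, φ, hON, -⟩ := exists_two_frames hcc hcc
  obtain ⟨ω, s, hs, eW⟩ := flat_repr hDW hON fun k hk =>
    h2 _ (vsub_mem_vectorSpan ℝ ⟨_, rfl⟩ ⟨_, rfl⟩)
  exact ⟨_, a, b, c, ω, s, hON, hs, eW, h2⟩

/-- Reaching the signs of `W` and those of `W` flipped is equivalent. -/
theorem reach_flip (hD : Data P l θ) {k : ℕ} (hk1 : 1 ≤ k) (hk : k + 2 ≤ n)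
    (hpos : ∀ j, j + 2 ≤ n → 0 < θ j) {q a b c : E3} {ω : ℝ} {s : ℕ → ℝ}
    (hs : ∀ m, s m = 1 ∨ s m = -1) (hON : ON a b c)
    (eW : W = chain n q a b c ω l s (fun _ => 0) θ)
    (cW : ∀ v ∈ vectorSpan ℝ (Set.range W), (inner ℝ c v : ℝ) = 0)
    (hF : θ (k - 1) < π ∧ TailFlip W k ∨ θ k < π ∧ HeadFlip W k)
    {ε : ℝ} (h0 : 0 < ε) (g1 : Good n θ fun _ => ε) :
    Reach P l θ ε s ↔ Reach P l θ ε (fl k s) := by
  -- the second frame
  have eW2 : W = chain n q a (cos π • b + sin π • c) (-sin π • b + cos π • c) (-ω) l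
      (fun m => -s m) (fun _ => 0) θ := by
    rw [eb_pi, ← chain_mirror (c := c)]
    exact eW
  have cW2 : ∀ v ∈ vectorSpan ℝ (Set.range W),
      (inner ℝ (-sin π • b + cos π • c) v : ℝ) = 0 := by
    intro v hv
    rw [sin_pi, cos_pi, neg_zero, zero_smul, zero_add, neg_smul, one_smul, inner_neg_left,
      cW v hv, neg_zero]
  have hON2 := ON_rot hON π
  have hfl : fl k (fun m => -s m) = fun m => -fl k s m := by
    funext m
    unfold fl
    by_cases h : k ≤ m
    · rw [if_pos h, if_pos h]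
    · rw [if_neg h, if_neg h]
  have hflpm : ∀ m, fl k s m = 1 ∨ fl k s m = -1 := fl_pm hs
  have hnn : (fun m => -fl k (fun m => -s m) m) = fl k s := by
    rw [hfl]
    exact neg_neg_fun _
  rcases hF with ⟨hπ, hF⟩ | ⟨hπ, hF⟩
  · obtain ⟨p1, ω1, J1⟩ := tail_move hD hk1 hk hpos hπ hs hON eW cW hF h0 g1
    obtain ⟨p2, ω2, J2⟩ := tail_move hD hk1 hk hpos hπ (neg_pm hs) hON2 eW2 cW2 hF h0 g1
    rw [hfl] at J2
    constructor
    · intro hR
      refine reach_of (p := p1) (p' := p2) (ω := ω1) (ω' := ω2) hD h0 g1 hflpm hON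
        ((hR a b c hON p1 ω1).1.trans J1) ?_
      have m1 := (hR _ _ _ hON2 p2 ω2).2.trans J2
      have m3 := joined_rot (P := P) (q := p2) (ω' := ω2) (φ := π) (p := p2) (ω := ω2) hD
        (neg_pm hflpm) hON g1 (fun _ => h0)
      exact m1.trans m3.symm
    · intro hR
      refine reach_of (p := p1) (p' := p2) (ω := ω1) (ω' := ω2) hD h0 g1 hs hON
        ((hR a b c hON p1 ω1).1.trans J1.symm) ?_
      have m1 := (hR _ _ _ hON2 p2 ω2).2.trans J2.symm
      have m3 := joined_rot (P := P) (q := p2) (ω' := ω2) (φ := π) (p := p2) (ω := ω2) hD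
        (neg_pm hs) hON g1 (fun _ => h0)
      exact m1.trans m3.symm
  · obtain ⟨p1, q1, ω1, φ1, J1⟩ := head_move hD hk1 hk hpos hπ hs hON eW cW hF h0 g1
    obtain ⟨p2, q2, ω2, φ2, J2⟩ := head_move hD hk1 hk hpos hπ (neg_pm hs) hON2 eW2 cW2 hF h0 g1
    rw [hnn] at J2
    constructor
    · intro hR
      have m1 := (hR _ _ _ hON2 q2 φ2).2.trans J2
      have m3 := joined_rot (P := P) (q := p2) (ω' := ω2) (φ := π) (p := p2) (ω := ω2) hD
        hflpm hON g1 (fun _ => h0)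
      exact reach_of (p := p2) (p' := p1) (ω := ω2) (ω' := ω1) hD h0 g1 hflpm hON
        (m1.trans m3.symm) ((hR a b c hON q1 φ1).1.trans J1)
    · intro hR
      have m1 := (hR _ _ _ hON2 p2 ω2).1.trans J2.symm
      have m3 := joined_rot (P := P) (q := q2) (ω' := φ2) (φ := π) (p := q2) (ω := φ2) hD
        (neg_pm hs) hON g1 (fun _ => h0)
      exact reach_of (p := q1) (p' := q2) (ω := φ1) (ω' := φ2) hD h0 g1 hs hON
        ((hR a b c hON p1 ω1).2.trans J1.symm) (m1.trans m3.symm)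

/-- The statement that is carried along a sequence of steps. -/
def Carry {n : ℕ} (P : Fin (n + 1) → E3) (l θ : ℕ → ℝ) (ε : ℝ) (W : Fin (n + 1) → E3) : Prop :=
  ∀ (q a b c : E3) (ω : ℝ) (s : ℕ → ℝ), ON a b c → (∀ m, s m = 1 ∨ s m = -1) →
    W = chain n q a b c ω l s (fun _ => 0) θ → Reach P l θ ε s

theorem carry_step (hD : Data P l θ) (hP : IsSimple P) (hθ : jointAngle P = θ)
    {ε : ℝ} (h0 : 0 < ε) (g1 : Good n θ fun _ => ε) (hst : FlipStep P W W') :
    Carry P l θ ε W ↔ Carry P l θ ε W' := by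
  obtain ⟨pW, pW', hst⟩ := hst
  have hpos : ∀ k, k + 2 ≤ n → 0 < θ k := fun k hk => theta_pos hD hP hk
  obtain ⟨q, a, b, c, ω, s, hON, hs, eW, cW⟩ := plane_rep hD pW
  obtain ⟨q', a', b', c', ω', s', hON', hs', eW', cW'⟩ := plane_rep hD pW'
  -- turns in terms of signs, for all representations
  have turnW : ∀ {V : Fin (n + 1) → E3} {q a b c : E3} {ω : ℝ} {s : ℕ → ℝ}, ON a b c →
      (∀ m, s m = 1 ∨ s m = -1) → V = chain n q a b c ω l s (fun _ => 0) θ →
      ∀ i j, i + 2 ≤ n → j + 2 ≤ n → ¬ WeaklyLoose n θ i → ¬ WeaklyLoose n θ j →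
      (0 < turnProd V i j ↔ s i = s j) := by
    intro V q a b c ω s h1 h2 h3 i j hi hj hi' hj'
    rw [h3]
    exact turn_iff hD hP h1 h2 hi hj hi' hj'
  rw [hθ] at hst
  rcases hst with hst | ⟨k, hk1, hk, hF, hst⟩
  · constructor
    · intro hC q2 a2 b2 c2 ω2 s2 hON2 hs2 e2
      refine Reach.agree hD h0 g1 hs hs2 (hC q a b c ω s hON hs eW) ?_
      intro i j hi hj hi' hj'
      rw [← turnW hON hs eW i j hi hj hi' hj', ← turnW hON2 hs2 e2 i j hi hj hi' hj']
      exact hst i j hi hj hi' hj'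
    · intro hC q2 a2 b2 c2 ω2 s2 hON2 hs2 e2
      refine Reach.agree hD h0 g1 hs' hs2 (hC q' a' b' c' ω' s' hON' hs' eW') ?_
      intro i j hi hj hi' hj'
      rw [← turnW hON' hs' eW' i j hi hj hi' hj', ← turnW hON2 hs2 e2 i j hi hj hi' hj']
      exact (hst i j hi hj hi' hj').symm
  · have hRF := reach_flip hD hk1 hk hpos hs hON eW cW hF h0 g1
    constructor
    · intro hC q2 a2 b2 c2 ω2 s2 hON2 hs2 e2
      refine Reach.agree hD h0 g1 (fl_pm hs) hs2 (hRF.1 (hC q a b c ω s hON hs eW)) ?_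
      intro i j hi hj hi' hj'
      rw [fl_eq_iff hs, ← turnW hON hs eW i j hi hj hi' hj',
        ← turnW hON2 hs2 e2 i j hi hj hi' hj', hst i j hi hj hi' hj']
    · intro hC q2 a2 b2 c2 ω2 s2 hON2 hs2 e2
      have hR : Reach P l θ ε (fl k s) := by
        refine Reach.agree hD h0 g1 hs' (fl_pm hs) (hC q' a' b' c' ω' s' hON' hs' eW') ?_
        intro i j hi hj hi' hj'
        rw [fl_eq_iff hs, ← turnW hON hs eW i j hi hj hi' hj',
          ← turnW hON' hs' eW' i j hi hj hi' hj', hst i j hi hj hi' hj']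
      refine Reach.agree hD h0 g1 hs hs2 (hRF.2 hR) ?_
      intro i j hi hj hi' hj'
      rw [← turnW hON hs eW i j hi hj hi' hj', ← turnW hON2 hs2 e2 i j hi hj hi' hj']

/-- **Theorem.** Flat configurations that are connected by a sequence of steps are joined. -/
theorem master (hP : IsSimple P) (cP : Coplanar ℝ (Set.range P))
    (cQ : Coplanar ℝ (Set.range Q)) (hQ : Q ∈ freeSpace P)
    (H : Relation.EqvGen (FlipStep P) P Q) : JoinedIn (freeSpace P) P Q := by
  have hD : Data P (len P) (jointAngle P) := data_of_simple hP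
  obtain ⟨l, hl⟩ : ∃ l, l = len P := ⟨_, rfl⟩
  obtain ⟨θ, hθ⟩ : ∃ θ, θ = jointAngle P := ⟨_, rfl⟩
  rw [← hθ, ← hl] at hD
  have hpos : ∀ k, k + 2 ≤ n → 0 < θ k := fun k hk => theta_pos hD hP hk
  obtain ⟨ε, h0, h1, h2⟩ := exists_eps θ (n - 1) fun k hk => hpos k (by omega)
  have g0 : Good n θ fun _ => 0 := good_const le_rfl (by positivity)
    (fun k hk => by linarith [hpos k hk]) hD.ang_le
  have g1 : Good n θ fun _ => ε := good_const h0.le h1 (fun k hk => h2 k (by omega)) hD.ang_le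
  have hC : ∀ W W', Relation.EqvGen (FlipStep P) W W' → (Carry P l θ ε W ↔ Carry P l θ ε W') := by
    intro W W' hWW
    induction hWW with
    | rel x y h => exact carry_step hD hP hθ.symm h0 g1 h
    | refl x => exact Iff.rfl
    | symm x y _ ih => exact ih.symm
    | trans x y z _ _ ih1 ih2 => exact ih1.trans ih2
  have hCP : Carry P l θ ε P := by
    intro q a b c ω s hON hs e
    exact reach_flat hD hP h0 g1 hs hON e
  have hCQ := (hC P Q H).1 hCP
  obtain ⟨q, a, b, c, ω, s, hON, hs, eQ, -⟩ := plane_rep hD ⟨cQ, hQ.2.1, hQ.2.2⟩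
  have hR := hCQ q a b c ω s hON hs eQ
  have m1 := joined_line hD hs hON g0 g1 (eQ ▸ hQ.1) (fun _ => h0)
  rw [← eQ] at m1
  exact (hR a b c hON q ω).1.trans m1.symm

end

end Pool.Agent.FlatN
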