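import Pool.Agent.FlatN.Ends
import Pool.Agent.FlatN.MEKTS
import Pool.Agent.FlatN.MEKHS

/-!
# One-sided end parts, with straight joints
-/

set_option autoImplicit false

namespace Pool.Agent.FlatN

open Real Pool.Agent.Lib_helper54.Flat Pool.Agent.FlatW

section

variable {n : ℕ} {P Q : Fin (n + 1) → E3} {l θ : ℕ → ℝ}

/-- **One-sided end parts.** -/
theorem main_side2 (hP : IsSimple P) (cP : Coplanar ℝ (Set.range P))
    (cQ : Coplanar ℝ (Set.range Q)) (hQ : Q ∈ freeSpace P) (p0 : ℕ)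
    (H : ∀ i j, i < j → j + 2 ≤ n → ¬ WeaklyLoose n (jointAngle P) i →
      ¬ WeaklyLoose n (jointAngle P) j →
      (∀ m, i < m → m < j → WeaklyLoose n (jointAngle P) m) →
      (p0 ≤ i ∧ ∃ k, i < k ∧ k ≤ j ∧ RightSide n (len P) (jointAngle P) k) ∨
      (i < p0 ∧ ∃ k, i < k ∧ k ≤ j ∧ LeftSide (len P) (jointAngle P) k)) :
    JoinedIn (freeSpace P) P Q := by
  have hD : Data P (len P) (jointAngle P) := data_of_simple hP
  obtain ⟨l, hl⟩ : ∃ l, l = len P := ⟨_, rfl⟩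
  obtain ⟨θ, hθ⟩ : ∃ θ, θ = jointAngle P := ⟨_, rfl⟩
  rw [← hθ, ← hl] at hD H
  have hpos : ∀ k, k + 2 ≤ n → 0 < θ k := fun k hk => theta_pos hD hP hk
  have g0 : Good n θ fun _ => 0 := good_const le_rfl (by positivity)
    (fun k hk => by linarith [hpos k hk]) hD.ang_le
  have hself : P ∈ freeSpace P := ⟨hP, fun _ => rfl, fun _ _ _ => rfl⟩
  obtain ⟨N, hN⟩ : ∃ N : Set ℕ, N = {m | m + 2 ≤ n ∧ ¬ WeaklyLoose n θ m} := ⟨_, rfl⟩
  have hmemN : ∀ m, m ∈ N ↔ m + 2 ≤ n ∧ ¬ WeaklyLoose n θ m := fun m => by rw [hN]; rfl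
  have hbad : ∀ m, m ∈ N → θ m < π := by
    intro m hm
    have hm' := (hmemN m).1 hm
    exact lt_of_le_of_ne (hD.ang_le m) fun he =>
      hm'.2 (weaklyLoose_of_loose (loose_of_pi hD.ang_le hpos he))
  by_cases hne : N.Nonempty
  swap
  · obtain ⟨p, q, a, b, c, ω, ω', φ, s, s', hON, hs, hs', eP, eQ, -⟩ :=
      normal_form hD cP cQ hQ 0
    have hR : JoinedIn (freeSpace P) P (chain n p a b c ω l s (fun _ => 0) θ) := by
      rw [← eP]; exact JoinedIn.refl hself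
    refine join_of_signs hD hQ.1 hON hs hs' g0 hR eQ ?_
    intro ε h0 hG
    apply joined_signs' hD hs hs' hON hG (fun _ => h0)
    intro k hk hk'
    exact absurd ⟨k, (hmemN k).2 ⟨hk, hk'⟩⟩ hne
  obtain ⟨j0, hj0, c1, c2⟩ : ∃ j0 ∈ N, (∀ i ∈ N, ∀ j ∈ N, i < j → j0 ≤ i → p0 ≤ i) ∧
      (∀ i ∈ N, ∀ j ∈ N, i < j → j ≤ j0 → i < p0) := by
    by_cases h1 : ∃ m ∈ N, p0 ≤ m
    · have h2 : ({m | m ∈ N ∧ p0 ≤ m} : Set ℕ).Nonempty := by
        obtain ⟨m, hm, hm'⟩ := h1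
        exact ⟨m, hm, hm'⟩
      have h3 := Nat.sInf_mem h2
      refine ⟨_, h3.1, ?_, ?_⟩
      · intro i hi j hj hij hle
        exact h3.2.trans hle
      · intro i hi j hj hij hle
        by_contra hc
        push Not at hc
        have h4 : sInf {m | m ∈ N ∧ p0 ≤ m} ≤ i := Nat.sInf_le ⟨hi, hc⟩
        omega
    · push Not at h1
      have hb : BddAbove N := ⟨n, fun m hm => by
        have := ((hmemN m).1 hm).1
        omega⟩
      have h3 := Nat.sSup_mem hne hb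
      refine ⟨_, h3, ?_, ?_⟩
      · intro i hi j hj hij hle
        have h4 : j ≤ sSup N := le_csSup hb hj
        omega
      · intro i hi j hj hij hle
        exact h1 i hi
  obtain ⟨p, q, a, b, c, ω, ω', φ, s, s', hON, hs, hs', eP, eQ, he⟩ :=
    normal_form hD cP cQ hQ j0
  have hR : JoinedIn (freeSpace P) P (chain n p a b c ω l s (fun _ => 0) θ) := by
    rw [← eP]; exact JoinedIn.refl hself
  refine join_of_signs hD hQ.1 hON hs hs' g0 hR eQ ?_
  intro ε h0 hG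
  have hnb : ∀ i ∈ N, ∀ j ∈ N, i < j → (∀ m, i < m → m < j → m ∉ N) →
      (p0 ≤ i ∧ ∃ k, i < k ∧ k ≤ j ∧ RightSide n l θ k) ∨
      (i < p0 ∧ ∃ k, i < k ∧ k ≤ j ∧ LeftSide l θ k) := by
    intro i hi j hj hij hm
    have hj2 := ((hmemN j).1 hj).1
    refine H i j hij hj2 ((hmemN i).1 hi).2 ((hmemN j).1 hj).2 ?_
    intro m h1 h2
    by_contra h3
    exact hm m h1 h2 ((hmemN m).2 ⟨by omega, h3⟩)
  refine t_CMB N n (fun m hm => by have := ((hmemN m).1 hm).1; omega)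
    (fun s s' => JoinedIn (freeSpace P) (chain n p a b c ω l s (fun _ => ε) θ)
      (chain n p a b c ω l s' (fun _ => ε) θ)) (fun _ _ h => h.symm)
    (fun _ _ _ h h' => h.trans h') ?_ j0 hj0 ?_ ?_ s s' hs hs' he
  · intro s s' hs hs' hss
    exact joined_signs' hD hs hs' hON hG (fun _ => h0) fun k hk hk' =>
      hss k ((hmemN k).2 ⟨hk, hk'⟩)
  · intro i hi j hj hij hm hle
    have hj2 := ((hmemN j).1 hj).1
    rcases hnb i hi j hj hij hm with h | h
    · obtain ⟨-, k, hk1, hk2, hk4⟩ := h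
      obtain ⟨t, ht, hE⟩ := t_EKTS (P := P) hD hpos (by omega)
        ⟨i, hk1, hbad i hi⟩ hk4
      exact ⟨k, hk1, hk2, t, ht, fun s hs hst => hE s p a b c ω ε hs hON h0 hG
        fun m hm _ => hst m hm⟩
    · exact absurd (c1 i hi j hj hij hle) (by omega)
  · intro i hi j hj hij hm hle
    have hj2 := ((hmemN j).1 hj).1
    rcases hnb i hi j hj hij hm with h | h
    · exact absurd (c2 i hi j hj hij hle) (by omega)
    · obtain ⟨-, k, hk1, hk2, hk4⟩ := h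
      obtain ⟨t, ht, hE⟩ := t_EKHS (P := P) hD hpos (by omega)
        ⟨j, hk2, hj2, hbad j hj⟩ hk4
      exact ⟨k, hk1, hk2, t, ht, fun s hs hst => hE s p a b c ω ε hs hON h0 hG hst⟩

end

end Pool.Agent.FlatN
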