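import Pool.Agent.FlatN.Ends4

/-!
# The number of components that contain flat configurations
-/

set_option autoImplicit false

namespace Pool.Agent.FlatN

open Real Pool.Agent.Lib_helper54.Flat Pool.Agent.FlatW

section

variable {n : ℕ} {P Q : Fin (n + 1) → E3} {l θ : ℕ → ℝ}

/-- The free space depends only on the chain. -/
theorem freeSpace_eq (hQ : Q ∈ freeSpace P) : freeSpace Q = freeSpace P := by
  ext R
  constructor
  · rintro ⟨h1, h2, h3⟩
    exact ⟨h1, fun i => by rw [h2 i, hQ.2.1 i], fun i j hij => by rw [h3 i j hij, hQ.2.2 i j hij]⟩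
  · rintro ⟨h1, h2, h3⟩
    exact ⟨h1, fun i => by rw [h2 i, hQ.2.1 i], fun i j hij => by rw [h3 i j hij, hQ.2.2 i j hij]⟩

/-- The data of another configuration of the chain. -/
theorem data_of_mem (hD : Data P l θ) (hQ : Q ∈ freeSpace P) : Data Q l θ :=
  ⟨hD.pos, fun i => by rw [hQ.2.1 i, hD.len i],
    fun i j hij => by rw [hQ.2.2 i j hij, hD.ang i j hij], hD.ang_nonneg, hD.ang_le⟩

/-- **Configurations that turn alike at the inner joints.** -/
theorem core3 (hD : Data P l θ) (hP : IsSimple P) (cP : Coplanar ℝ (Set.range P))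
    (cQ : Coplanar ℝ (Set.range Q)) (hQ : Q ∈ freeSpace P) {m0 m1 : ℕ}
    (h0 : m0 + 2 ≤ n) (h0' : ¬ WeaklyLoose n θ m0) (h1 : m1 + 2 ≤ n)
    (h1' : ¬ WeaklyLoose n θ m1) (h01 : m0 ≤ m1)
    (hA : ∀ m, m0 ≤ m → m ≤ m1 → ¬ WeaklyLoose n θ m →
      (0 < turnProd P m0 m ↔ 0 < turnProd Q m0 m))
    (hR : ∀ i j, i < j → j + 2 ≤ n → ¬ WeaklyLoose n θ i → ¬ WeaklyLoose n θ j → m1 ≤ i →
      ∃ k, i < k ∧ k ≤ j ∧ RightSide n l θ k)
    (hL : ∀ i j, i < j → j + 2 ≤ n → ¬ WeaklyLoose n θ i → ¬ WeaklyLoose n θ j → j ≤ m0 →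
      ∃ k, i < k ∧ k ≤ j ∧ LeftSide l θ k) :
    JoinedIn (freeSpace P) P Q := by
  have hpos : ∀ k, k + 2 ≤ n → 0 < θ k := fun k hk => theta_pos hD hP hk
  have g0 : Good n θ fun _ => 0 := good_const le_rfl (by positivity)
    (fun k hk => by linarith [hpos k hk]) hD.ang_le
  have hself : P ∈ freeSpace P := ⟨hP, fun _ => rfl, fun _ _ _ => rfl⟩
  obtain ⟨N, hN⟩ : ∃ N : Set ℕ, N = {m | m + 2 ≤ n ∧ ¬ WeaklyLoose n θ m} := ⟨_, rfl⟩
  have hmemN : ∀ m, m ∈ N ↔ m + 2 ≤ n ∧ ¬ WeaklyLoose n θ m := fun m => by rw [hN]; rfl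
  have hbad : ∀ m, m ∈ N → θ m < π := by
    intro m hm
    have hm' := (hmemN m).1 hm
    exact lt_of_le_of_ne (hD.ang_le m) fun he =>
      hm'.2 (weaklyLoose_of_loose (loose_of_pi hD.ang_le hpos he))
  have hm0 : m0 ∈ N := (hmemN m0).2 ⟨h0, h0'⟩
  have hm1 : m1 ∈ N := (hmemN m1).2 ⟨h1, h1'⟩
  obtain ⟨p, q, a, b, c, ω, ω', φ, s, s', hON, hs, hs', eP, eQ, he⟩ :=
    normal_form hD cP cQ hQ m0
  have hRr : JoinedIn (freeSpace P) P (chain n p a b c ω l s (fun _ => 0) θ) := by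
    rw [← eP]; exact JoinedIn.refl hself
  refine join_of_signs hD hQ.1 hON hs hs' g0 hRr eQ ?_
  intro ε h0 hG
  have hDQ := data_of_mem hD hQ
  have hblock : ∀ m ∈ N, m0 ≤ m → m ≤ m1 → s m = s' m := by
    intro m hm hm0m hmm1
    have hm' := (hmemN m).1 hm
    have hm0' := (hmemN m0).1 hm0
    have h2 : 0 < turnProd P m0 m ↔ s m0 = s m := by
      have := turn_iff (p := p) (ω := ω) hD hP hON hs hm0'.1 hm'.1 hm0'.2 hm'.2
      rwa [← eP] at this
    have h3 : 0 < turnProd Q m0 m ↔ s' m0 = s' m := by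
      have := turn_iff (p := q) (ω := ω') hD hP (ON_rot hON φ) hs' hm0'.1 hm'.1 hm0'.2 hm'.2
      rwa [← eQ] at this
    have h4 := hA m hm0m hmm1 hm'.2
    rw [h2, h3] at h4
    by_contra hne
    have h5 := pm_eq_neg (hs m) (hs' m) hne
    by_cases h6 : s m0 = s m
    · have h7 := h4.1 h6
      exact hne (h6.symm.trans (he.trans h7))
    · have h7 := fun h => h6 (h4.2 h)
      have h8 := pm_eq_neg (hs m0) (hs m) h6
      have h9 := pm_eq_neg (hs' m0) (hs' m) h7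
      apply hne
      have : -s m = -s' m := by rw [← h8, ← h9, he]
      exact neg_inj.1 this
  obtain ⟨σ, hσ⟩ : ∃ σ : ℕ → ℝ, σ = fun m => if m ≤ m1 then s m else s' m := ⟨_, rfl⟩
  have hσle : ∀ m, m ≤ m1 → σ m = s m := fun m hm => by rw [hσ]; simp [hm]
  have hσgt : ∀ m, m1 < m → σ m = s' m := fun m hm => by
    rw [hσ]; simp [not_le.2 hm]
  have hσs : ∀ m, σ m = 1 ∨ σ m = -1 := by
    intro m
    rcases le_or_gt m m1 with h | h
    · rw [hσle m h]; exact hs m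
    · rw [hσgt m h]; exact hs' m
  have hE1 : ∀ s s' : ℕ → ℝ, (∀ m, s m = 1 ∨ s m = -1) → (∀ m, s' m = 1 ∨ s' m = -1) →
      (∀ m ∈ N, s m = s' m) → JoinedIn (freeSpace P) (chain n p a b c ω l s (fun _ => ε) θ)
        (chain n p a b c ω l s' (fun _ => ε) θ) := by
    intro s s' hs hs' hss
    exact joined_signs' hD hs hs' hON hG (fun _ => h0) fun k hk hk' =>
      hss k ((hmemN k).2 ⟨hk, hk'⟩)
  have step1 : JoinedIn (freeSpace P) (chain n p a b c ω l s (fun _ => ε) θ)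
      (chain n p a b c ω l σ (fun _ => ε) θ) := by
    refine CMB_T N n (fun m hm => by have := ((hmemN m).1 hm).1; omega)
      (fun s s' => JoinedIn (freeSpace P) (chain n p a b c ω l s (fun _ => ε) θ)
        (chain n p a b c ω l s' (fun _ => ε) θ)) (fun _ _ h => h.symm)
      (fun _ _ _ h h' => h.trans h') hE1 m1 ?_ _ m1 rfl hm1 le_rfl s σ hs hσs
      (fun m _ hm => (hσle m hm).symm)
    intro i hi j hj hij hm hle
    have hi2 := (hmemN i).1 hi
    have hj2 := (hmemN j).1 hj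
    obtain ⟨k, hk1, hk2, hk4⟩ := hR i j hij hj2.1 hi2.2 hj2.2 hle
    obtain ⟨t, ht, hE⟩ := t_EKTS (P := P) hD hpos (by omega) ⟨i, hk1, hbad i hi⟩ hk4
    exact ⟨k, hk1, hk2, t, ht, fun s hs hst => hE s p a b c ω ε hs hON h0 hG
      fun m hm _ => hst m hm⟩
  have step2 : JoinedIn (freeSpace P) (chain n p a b c ω l σ (fun _ => ε) θ)
      (chain n p a b c ω l s' (fun _ => ε) θ) := by
    refine CMB_H N
      (fun s s' => JoinedIn (freeSpace P) (chain n p a b c ω l s (fun _ => ε) θ)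
        (chain n p a b c ω l s' (fun _ => ε) θ)) (fun _ _ h => h.symm)
      (fun _ _ _ h h' => h.trans h') hE1 m0 ?_ m0 hm0 le_rfl σ s' hσs hs' (fun m hmN hm => ?_)
    · intro i hi j hj hij hm hle
      have hi2 := (hmemN i).1 hi
      have hj2 := (hmemN j).1 hj
      obtain ⟨k, hk1, hk2, hk4⟩ := hL i j hij hj2.1 hi2.2 hj2.2 hle
      obtain ⟨t, ht, hE⟩ := t_EKHS (P := P) hD hpos (by omega) ⟨j, hk2, hj2.1, hbad j hj⟩ hk4
      exact ⟨k, hk1, hk2, t, ht, fun s hs hst => hE s p a b c ω ε hs hON h0 hG hst⟩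
    · rcases le_or_gt m m1 with h | h
      · rw [hσle m h]
        exact hblock m hmN hm h
      · exact hσgt m h
  exact step1.trans step2

end

end Pool.Agent.FlatN
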